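import Mathlib
import Pool.Agent.H855.CM.FamDefs

/-!
# Hodge classes on the products with varieties of CM type: definitions
-/

set_option autoImplicit false

namespace Pool.Agent.H855.HG

open Matrix Module NumberField Pool.Agent.Y137.MV

/-- The rational cohomology `ℚ^B` of a smooth projective complex variety: the basis vector `b` has
degree `deg b`, and the Hodge operator `op` is the multiplication by `p - q` on `H^(p, q)`. It is
enough that the eigenvalues of the operator in degree `m` are integers congruent to `m` modulo `2`. -/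
structure HodgeSpace (B : Type) [Fintype B] where
  /-- the degrees of the basis vectors -/
  deg : B → ℕ
  /-- the Hodge operator -/
  op : Matrix B B ℂ
  graded : ∀ b b', deg b ≠ deg b' → op b b' = 0
  real : op.map (starRingEnd ℂ) = -op
  decomp : ∀ w : B → ℂ, w ∈ Submodule.span ℂ {y | ∃ (m : ℕ) (k : ℤ),
    (∀ b, deg b ≠ m → y b = 0) ∧ Even (k - m) ∧ op *ᵥ y = (k : ℂ) • y}

variable {B B' : Type} [Fintype B] [Fintype B']

/-- A rational vector as a complex vector. -/
def cv (x : B → ℚ) : B → ℂ := fun b => (x b : ℂ)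

/-- The rational classes killed by the Hodge operator: the sums of Hodge classes of all degrees. -/
def HodgeSpace.hodge (V : HodgeSpace B) : Submodule ℚ (B → ℚ) where
  carrier := {x | V.op *ᵥ cv x = 0}
  zero_mem' := by
    have h : cv (0 : B → ℚ) = 0 := by
      funext b
      simp [cv]
    change V.op *ᵥ cv (0 : B → ℚ) = 0
    rw [h, Matrix.mulVec_zero]
  add_mem' := fun {x y} hx hy => by
    have h : cv (x + y) = cv x + cv y := by
      funext b
      simp [cv]
    change V.op *ᵥ cv (x + y) = 0
    rw [h, Matrix.mulVec_add, show V.op *ᵥ cv x = 0 from hx, show V.op *ᵥ cv y = 0 from hy, add_zero]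
  smul_mem' := fun c x hx => by
    have h : cv (c • x) = (c : ℂ) • cv x := by
      funext b
      simp [cv]
    change V.op *ᵥ cv (c • x) = 0
    rw [h, Matrix.mulVec_smul, show V.op *ᵥ cv x = 0 from hx, smul_zero]

/-- The rational classes of degree `m`. -/
def HodgeSpace.part (V : HodgeSpace B) (m : ℕ) : Submodule ℚ (B → ℚ) where
  carrier := {x | ∀ b, V.deg b ≠ m → x b = 0}
  zero_mem' := fun _ _ => rfl
  add_mem' := fun {x y} hx hy b hb => by rw [Pi.add_apply, hx b hb, hy b hb, add_zero]
  smul_mem' := fun c x hx b hb => by rw [Pi.smul_apply, hx b hb, smul_zero]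

/-- The Hodge classes of codimension `j`: the rational classes of degree `2 j` and type `(j, j)`. -/
def HodgeSpace.hodgeIn (V : HodgeSpace B) (j : ℕ) : Submodule ℚ (B → ℚ) :=
  V.hodge ⊓ V.part (2 * j)

/-- The product of a class on `X` and a class on `Y`. -/
def cross {R : Type} [Mul R] (x : B' → R) (y : B → R) : B' × B → R := fun p => x p.1 * y p.2

/-- The vector `w` and all its conjugates are of pure type: for all automorphisms `σ` of the complex
numbers the conjugate `σ w` is a sum of classes of types `(p, q)` with `p - q = d σ`. -/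
def HodgeSpace.HasTypes (V : HodgeSpace B) (w : B → ℂ) (d : (ℂ ≃+* ℂ) → ℤ) : Prop :=
  ∀ σ : ℂ ≃+* ℂ, V.op *ᵥ (fun b => σ (w b)) = (d σ : ℂ) • fun b => σ (w b)

/-- The part of CM type of the cohomology: it is generated by the vectors all of whose conjugates are
of pure type. -/
def HodgeSpace.cmPart (V : HodgeSpace B) : Submodule ℂ (B → ℂ) :=
  Submodule.span ℂ {w | ∃ d, V.HasTypes w d}

/-- The cohomology is of CM type: the Mumford-Tate group is a torus. -/
def HodgeSpace.IsOfCMType (V : HodgeSpace B) : Prop := V.cmPart = ⊤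

/-- The types are generated by the functions `x j` on the complex embeddings of the fields `L j`:
for all nonzero vectors `w` with types `d` a multiple of `d` is of the form
`σ ↦ ∑ m y * x (σ y)`, the sum over the embeddings `y` of the fields. (If `x j` is the function of a
CM type `Φ j` of `L j`, with the value `1` on `Φ j` and `- 1` on the conjugates, this holds for the
varieties whose cohomology is a direct summand, up to Tate twists, of the cohomology of products of
abelian varieties of the CM types `Φ j`.) -/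
def HodgeSpace.IsGeneratedBy (V : HodgeSpace B) {J : Type} [Fintype J] {L : J → Type}
    [∀ j, Field (L j)] [∀ j, NumberField (L j)] (x : ∀ j, (L j →+* ℂ) → ℤ) : Prop :=
  ∀ (w : B → ℂ) (d : (ℂ ≃+* ℂ) → ℤ), w ≠ 0 → V.HasTypes w d →
    ∃ (N : ℕ) (m : (Σ j, (L j →+* ℂ)) → ℤ), 0 < N ∧
      ∀ σ : ℂ ≃+* ℂ, (N : ℤ) * d σ = ∑ y, m y * x y.1 ((σ : ℂ →+* ℂ).comp y.2)

/-- The function `v` on the complex embeddings of the field `E` is a combination of the functions
`x j` on the embeddings of the fields `L j`: there are rational numbers `t φ (j, ψ)`, for the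
embeddings `φ` of `E` and `ψ` of `L j`, invariant under the automorphisms of `ℂ`, odd in `ψ`, and zero
if the fields `E` and `L j` are unrelated, with `v φ = ∑ t φ (j, ψ) * x j ψ`. -/
def IsComb {J : Type} [Fintype J] {L : J → Type} [∀ j, Field (L j)] [∀ j, NumberField (L j)]
    (x : ∀ j, (L j →+* ℂ) → ℤ) {E : Type} [Field E] (v : (E →+* ℂ) → ℝ) : Prop :=
  ∃ t : (E →+* ℂ) → (Σ j, (L j →+* ℂ)) → ℚ,
    (∀ (τ : ℂ ≃+* ℂ) φ y,
      t ((τ : ℂ →+* ℂ).comp φ) ⟨y.1, (τ : ℂ →+* ℂ).comp y.2⟩ = t φ y) ∧
    (∀ φ y, t φ ⟨y.1, ComplexEmbedding.conjugate y.2⟩ = - t φ y) ∧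
    (∀ φ y, Unrelated E (L y.1) → t φ y = 0) ∧
    ∀ φ, v φ = ∑ y, (t φ y : ℝ) * x y.1 y.2

/-- A property `P X` of the cohomology of a variety `X` holds for all `X` of CM type whose types are
generated by functions `x j` with `x j (conj φ) = - x j φ` on the embeddings of finitely many of the
fields `K i`, such that no vector in `E` is a combination of the functions `x j`. An element
`⟨i, v⟩` of `E` stands for the vector `v`, a function on the complex embeddings of `K i`. -/
def ForAllOfCMType {I : Type} (K : I → Type) [∀ i, Field (K i)] [∀ i, NumberField (K i)]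
    [∀ i, IsCMField (K i)] (E : Finset (Σ i, ((K i →+* ℂ) → ℝ)))
    (P : ∀ (A : Type) [Fintype A], HodgeSpace A → Prop) : Prop :=
  ∀ (J : Type) [Fintype J] (b : J → I) (x : ∀ j, (K (b j) →+* ℂ) → ℤ),
    (∀ j φ, x j (ComplexEmbedding.conjugate φ) = - x j φ) → (∀ e ∈ E, ¬ IsComb x e.2) →
    ∀ (A : Type) [Fintype A] (X : HodgeSpace A), X.IsOfCMType → X.IsGeneratedBy x → P A X

/-- The function `v` on the complex embeddings of the field `F` comes from the types of `Y`: there is
one vector `w ≠ 0` of the cohomology of `Y`, with types `d`, such that for all embeddings `φ` of `F`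
the function `σ ↦ v (σ φ)` is a linear combination, with rational coefficients, of the translates
`σ ↦ d (σ τ)` of `d`. -/
def IsFromTypes (Y : HodgeSpace B) {F : Type} [Field F] (v : (F →+* ℂ) → ℝ) : Prop :=
  ∃ (w : B → ℂ) (d : (ℂ ≃+* ℂ) → ℤ), w ≠ 0 ∧ Y.HasTypes w d ∧ ∀ φ : F →+* ℂ,
    (fun σ : ℂ ≃+* ℂ => v ((σ : ℂ →+* ℂ).comp φ)) ∈
      Submodule.span ℚ (Set.range fun (τ : ℂ ≃+* ℂ) (σ : ℂ ≃+* ℂ) => (d (τ.trans σ) : ℝ))

/-- The vectors in `E` are odd and not zero, and they come from the types of `Y`. The sum of the weights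
`w i` of their fields and the dimension of the space of the Hodge classes on `Y` is at most the
dimension of the part of CM type of the cohomology of `Y`; in particular it is at most the sum of the
Betti numbers of `Y`. -/
def IsSmallFor {I : Type} {K : I → Type} [∀ i, Field (K i)] (w : I → ℕ) (Y : HodgeSpace B)
    (E : Finset (Σ i, ((K i →+* ℂ) → ℝ))) : Prop :=
  (∀ e ∈ E, e.2 ≠ 0 ∧ (∀ φ, e.2 (ComplexEmbedding.conjugate φ) = - e.2 φ) ∧ IsFromTypes Y e.2) ∧
    ∑ e ∈ E, w e.1 + finrank ℚ Y.hodge ≤ finrank ℂ Y.cmPart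

end Pool.Agent.H855.HG
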