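import Mathlib
import Pool.Agent.H855.HG.Defs

/-!
# The cohomology of a product
-/

set_option autoImplicit false
set_option linter.unusedSectionVars false
set_option linter.unusedTactic false

namespace Pool.Agent.H855.HG

open Matrix Module

variable {B B' : Type} [Fintype B] [Fintype B']

theorem kron_left_mulVec [DecidableEq B] (M : Matrix B' B' ℂ) (w : B' × B → ℂ) (p : B' × B) :
    ((Matrix.kroneckerMap (· * ·) M (1 : Matrix B B ℂ)) *ᵥ w) p = ∑ a, M p.1 a * w (a, p.2) := by
  rw [Matrix.mulVec, dotProduct, Fintype.sum_prod_type]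
  refine Finset.sum_congr rfl fun a _ => ?_
  rw [Finset.sum_eq_single p.2]
  · rw [Matrix.kroneckerMap_apply, Matrix.one_apply_eq, mul_one]
  · intro b _ hb
    rw [Matrix.kroneckerMap_apply, Matrix.one_apply_ne (Ne.symm hb), mul_zero, zero_mul]
  · intro h
    exact absurd (Finset.mem_univ _) h

theorem kron_right_mulVec [DecidableEq B'] (M : Matrix B B ℂ) (w : B' × B → ℂ) (p : B' × B) :
    ((Matrix.kroneckerMap (· * ·) (1 : Matrix B' B' ℂ) M) *ᵥ w) p = ∑ b, M p.2 b * w (p.1, b) := by
  rw [Matrix.mulVec, dotProduct, Fintype.sum_prod_type, Finset.sum_eq_single p.1]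
  · refine Finset.sum_congr rfl fun b _ => ?_
    rw [Matrix.kroneckerMap_apply, Matrix.one_apply_eq, one_mul]
  · intro a _ ha
    refine Finset.sum_eq_zero fun b _ => ?_
    rw [Matrix.kroneckerMap_apply, Matrix.one_apply_ne (Ne.symm ha), zero_mul, zero_mul]
  · intro h
    exact absurd (Finset.mem_univ _) h

open Classical in
/-- The Hodge operator of a product: `(p + p') - (q + q') = (p - q) + (p' - q')`. -/
noncomputable def prodOp (M : Matrix B' B' ℂ) (N : Matrix B B ℂ) : Matrix (B' × B) (B' × B) ℂ :=
  Matrix.kroneckerMap (· * ·) M (1 : Matrix B B ℂ) +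
    Matrix.kroneckerMap (· * ·) (1 : Matrix B' B' ℂ) N

theorem prodOp_mulVec (M : Matrix B' B' ℂ) (N : Matrix B B ℂ) (w : B' × B → ℂ) (p : B' × B) :
    (prodOp M N *ᵥ w) p = ∑ a, M p.1 a * w (a, p.2) + ∑ b, N p.2 b * w (p.1, b) := by
  classical
  unfold prodOp
  rw [Matrix.add_mulVec, Pi.add_apply]
  congr 1
  · convert kron_left_mulVec M w p
  · convert kron_right_mulVec N w p

/-- The product of two vectors, as a bilinear map. -/
def crossL (R : Type) [CommRing R] (B B' : Type) : (B' → R) →ₗ[R] (B → R) →ₗ[R] (B' × B → R) :=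
  LinearMap.mk₂ R (fun x y => cross x y)
    (fun x x' y => by funext p; simp only [cross, Pi.add_apply, add_mul])
    (fun c x y => by funext p; simp only [cross, Pi.smul_apply, smul_eq_mul, mul_assoc])
    (fun x y y' => by funext p; simp only [cross, Pi.add_apply, mul_add])
    (fun c x y => by
      funext p
      simp only [cross, Pi.smul_apply, smul_eq_mul]
      ring)

theorem crossL_apply {R : Type} [CommRing R] (x : B' → R) (y : B → R) :
    crossL R B B' x y = cross x y := rfl

theorem prodOp_cross (M : Matrix B' B' ℂ) (N : Matrix B B ℂ) (x : B' → ℂ) (y : B → ℂ) :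
    prodOp M N *ᵥ cross x y = cross (M *ᵥ x) y + cross x (N *ᵥ y) := by
  funext p
  rw [prodOp_mulVec, Pi.add_apply]
  simp only [cross, Matrix.mulVec, dotProduct, Finset.sum_mul, Finset.mul_sum]
  congr 1
  · exact Finset.sum_congr rfl fun a _ => by ring
  · exact Finset.sum_congr rfl fun a _ => by ring

theorem mem_span_cross (w : B' × B → ℂ) {S : Set (B' → ℂ)} {T : Set (B → ℂ)}
    (hS : ∀ x, x ∈ Submodule.span ℂ S) (hT : ∀ y, y ∈ Submodule.span ℂ T) :
    w ∈ Submodule.span ℂ (Set.image2 (fun x y => cross x y) S T) := by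
  classical
  have h1 : Submodule.map₂ (crossL ℂ B B') (Submodule.span ℂ S) (Submodule.span ℂ T) =
      Submodule.span ℂ (Set.image2 (fun x y => cross x y) S T) :=
    Submodule.map₂_span_span ℂ (crossL ℂ B B') S T
  rw [← h1]
  have h2 : w = ∑ p : B' × B, w p • crossL ℂ B B' (Pi.single p.1 1) (Pi.single p.2 1) := by
    funext q
    rw [Finset.sum_apply, Finset.sum_eq_single q]
    · rw [Pi.smul_apply, crossL_apply, cross, Pi.single_eq_same, Pi.single_eq_same, smul_eq_mul,
        mul_one, mul_one]
    · intro p _ hp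
      rw [Pi.smul_apply, crossL_apply, cross]
      by_cases h : q.1 = p.1
      · have h' : q.2 ≠ p.2 := fun h' => hp (Prod.ext h.symm h'.symm)
        rw [Pi.single_eq_of_ne h', mul_zero, smul_zero]
      · rw [Pi.single_eq_of_ne h, zero_mul, smul_zero]
    · intro h
      exact absurd (Finset.mem_univ _) h
  rw [h2]
  exact Submodule.sum_mem _ fun p _ => Submodule.smul_mem _ _
    (Submodule.apply_mem_map₂ _ (hS _) (hT _))

/-- The rational cohomology of a product of varieties (the theorem of Künneth). -/
noncomputable def HodgeSpace.prod (V : HodgeSpace B') (W : HodgeSpace B) :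
    HodgeSpace (B' × B) where
  deg p := V.deg p.1 + W.deg p.2
  op := prodOp V.op W.op
  graded := by
    classical
    rintro ⟨a, b⟩ ⟨a', b'⟩ h
    unfold prodOp
    rw [Matrix.add_apply, Matrix.kroneckerMap_apply, Matrix.kroneckerMap_apply]
    by_cases ha : a = a'
    · subst ha
      have hb : W.deg b ≠ W.deg b' := fun h' => h (by
        change V.deg a + W.deg b = V.deg a + W.deg b'
        rw [h'])
      have hb' : b ≠ b' := fun h' => hb (by rw [h'])
      rw [W.graded b b' hb]
      rw [Matrix.one_apply_ne hb', mul_zero, mul_zero, add_zero]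
    · by_cases hb : b = b'
      · subst hb
        have ha' : V.deg a ≠ V.deg a' := fun h' => h (by
          change V.deg a + W.deg b = V.deg a' + W.deg b
          rw [h'])
        rw [V.graded a a' ha', Matrix.one_apply_ne ha, zero_mul, zero_mul, add_zero]
      · rw [Matrix.one_apply_ne ha, Matrix.one_apply_ne hb, zero_mul, mul_zero, add_zero]
  real := by
    classical
    ext ⟨a, b⟩ ⟨a', b'⟩
    have h1 := congrFun (congrFun V.real a) a'
    have h2 := congrFun (congrFun W.real b) b'
    rw [Matrix.map_apply, Matrix.neg_apply] at h1 h2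
    unfold prodOp
    rw [Matrix.map_apply, Matrix.neg_apply, Matrix.add_apply, Matrix.kroneckerMap_apply,
      Matrix.kroneckerMap_apply, map_add, map_mul, map_mul, h1, h2]
    have h3 : ∀ (C : Type) [DecidableEq C] (c c' : C), (starRingEnd ℂ) ((1 : Matrix C C ℂ) c c') =
        (1 : Matrix C C ℂ) c c' := by
      intro C _ c c'
      by_cases h : c = c'
      · subst h
        rw [Matrix.one_apply_eq, map_one]
      · rw [Matrix.one_apply_ne h, map_zero]
    rw [h3, h3]
    ring
  decomp := by
    intro w
    have h1 := mem_span_cross w V.decomp W.decomp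
    refine Submodule.span_mono ?_ h1
    rintro _ ⟨x, ⟨m, k, hx, hk, hx'⟩, y, ⟨m', k', hy, hk', hy'⟩, rfl⟩
    refine ⟨m + m', k + k', fun p hp => ?_, ?_, ?_⟩
    · change x p.1 * y p.2 = 0
      by_cases h : V.deg p.1 = m
      · have h' : W.deg p.2 ≠ m' := fun h' => hp (by
          change V.deg p.1 + W.deg p.2 = m + m'
          rw [h, h'])
        rw [hy _ h', mul_zero]
      · rw [hx _ h, zero_mul]
    · have h2 : (k + k' - ((m + m' : ℕ) : ℤ)) = (k - m) + (k' - m') := by
        push_cast
        ring
      rw [h2]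
      exact hk.add hk'
    · change prodOp V.op W.op *ᵥ cross x y = _
      rw [prodOp_cross, hx', hy']
      funext p
      simp only [cross, Pi.add_apply, Pi.smul_apply, smul_eq_mul]
      push_cast
      ring

theorem prod_mulVec (V : HodgeSpace B') (W : HodgeSpace B) (w : B' × B → ℂ) (p : B' × B) :
    ((V.prod W).op *ᵥ w) p = ∑ a, V.op p.1 a * w (a, p.2) + ∑ b, W.op p.2 b * w (p.1, b) :=
  prodOp_mulVec V.op W.op w p

end Pool.Agent.H855.HG
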