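import Mathlib
import Pool.Agent.H855.HG.Prod

/-!
# The types of the vectors of the cohomology
-/

set_option autoImplicit false
set_option linter.unusedSectionVars false

namespace Pool.Agent.H855.HG

open Matrix Module

variable {B B' : Type} [Fintype B] [Fintype B'] (V : HodgeSpace B)

theorem mulVec_conj (M : Matrix B B ℂ) (w : B → ℂ) (σ : ℂ ≃+* ℂ) (b : B) :
    σ ((M *ᵥ w) b) = (M.map σ *ᵥ fun c => σ (w c)) b := by
  simp only [Matrix.mulVec, dotProduct, Matrix.map_apply, map_sum, map_mul]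

/-- The vectors with given types. -/
def typeSpace (d : (ℂ ≃+* ℂ) → ℤ) : Submodule ℂ (B → ℂ) where
  carrier := {w | V.HasTypes w d}
  zero_mem' := fun σ => by
    have h : (fun b : B => σ ((0 : B → ℂ) b)) = 0 := by
      funext b
      simp
    rw [h, Matrix.mulVec_zero, smul_zero]
  add_mem' := fun {x y} hx hy σ => by
    have h : (fun b : B => σ ((x + y) b)) = (fun b => σ (x b)) + fun b => σ (y b) := by
      funext b
      simp
    rw [h, Matrix.mulVec_add, hx σ, hy σ, smul_add]
  smul_mem' := fun c x hx σ => by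
    have h : (fun b : B => σ ((c • x) b)) = σ c • fun b => σ (x b) := by
      funext b
      simp
    rw [h, Matrix.mulVec_smul, hx σ, smul_comm]

variable {V}

theorem mem_typeSpace {d : (ℂ ≃+* ℂ) → ℤ} {w : B → ℂ} : w ∈ typeSpace V d ↔ V.HasTypes w d :=
  Iff.rfl

/-- The linear operator `σ⁻¹ op σ`. -/
theorem hasTypes_map {w : B → ℂ} {d : (ℂ ≃+* ℂ) → ℤ} (h : V.HasTypes w d) (σ : ℂ ≃+* ℂ) :
    V.op.map σ.symm *ᵥ w = (d σ : ℂ) • w := by
  funext b
  have h1 := congrArg σ.symm (congrFun (h σ) b)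
  rw [mulVec_conj] at h1
  simp only [RingEquiv.symm_apply_apply, Pi.smul_apply, smul_eq_mul, map_mul, map_intCast] at h1
  rw [h1]
  rfl

/-- The spaces of the vectors with given types are independent. -/
theorem typeSpace_indep : iSupIndep (typeSpace V) := by
  classical
  rw [iSupIndep_iff_finsetSum_eq_zero_imp_eq_zero]
  intro s
  induction s using Finset.induction_on with
  | empty =>
    intro v _ _ i hi
    exact absurd hi (Finset.notMem_empty i)
  | insert d₀ s hd₀ ih =>
    intro v hv hsum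
    rw [Finset.sum_insert hd₀] at hsum
    have hz : ∀ d ∈ s, v d = 0 := by
      intro d hd
      have hne : d ≠ d₀ := fun h => hd₀ (h ▸ hd)
      obtain ⟨σ, hσ⟩ := Function.ne_iff.1 hne
      have h1 := ih (fun d => ((d σ : ℂ) - (d₀ σ : ℂ)) • v d)
        (fun d hd => Submodule.smul_mem _ _ (hv d (Finset.mem_insert_of_mem hd))) (by
          have h2 : V.op.map σ.symm *ᵥ (v d₀ + ∑ d ∈ s, v d) - (d₀ σ : ℂ) • (v d₀ + ∑ d ∈ s, v d) = 0 := by
            rw [hsum, Matrix.mulVec_zero, smul_zero, sub_zero]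
          rw [Matrix.mulVec_add, hasTypes_map (hv d₀ (Finset.mem_insert_self _ _)) σ,
            Matrix.mulVec_sum, smul_add, add_sub_add_left_eq_sub, Finset.smul_sum,
            ← Finset.sum_sub_distrib] at h2
          rw [← h2]
          refine Finset.sum_congr rfl fun d hd => ?_
          rw [hasTypes_map (hv d (Finset.mem_insert_of_mem hd)) σ, sub_smul]) d hd
      have h3 : ((d σ : ℂ) - (d₀ σ : ℂ)) ≠ 0 := by
        rw [sub_ne_zero]
        exact_mod_cast hσ
      exact (smul_eq_zero.1 h1).resolve_left h3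
    intro d hd
    rcases Finset.mem_insert.1 hd with rfl | hd
    · rw [Finset.sum_eq_zero hz, add_zero] at hsum
      exact hsum
    · exact hz d hd

/-- Rational independence is preserved. -/
theorem linearIndependent_cv {n : ℕ} (v : Fin n → B → ℚ) (hv : LinearIndependent ℚ v) :
    LinearIndependent ℂ (fun i => cv (v i)) := by
  rw [Fintype.linearIndependent_iff] at hv ⊢
  intro c hc i
  by_contra hci
  -- a rational functional not vanishing at `c i`
  have h1 : ∃ f : ℂ →ₗ[ℚ] ℚ, f (c i) ≠ 0 := by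
    by_contra h2
    push Not at h2
    exact hci ((Module.forall_dual_apply_eq_zero_iff ℚ (c i)).1 h2)
  obtain ⟨f, hf⟩ := h1
  apply hf
  refine hv (fun k => f (c k)) ?_ i
  funext b
  have h2 := congrArg f (congrFun hc b)
  rw [Finset.sum_apply, map_sum, Pi.zero_apply, map_zero] at h2
  rw [Finset.sum_apply, Pi.zero_apply, ← h2]
  refine Finset.sum_congr rfl fun k _ => ?_
  rw [Pi.smul_apply, Pi.smul_apply, smul_eq_mul, smul_eq_mul]
  change _ = f (c k * (v k b : ℂ))
  have h3 : c k * (v k b : ℂ) = (v k b) • c k := by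
    rw [Rat.smul_def, mul_comm]
  rw [h3, map_smul, smul_eq_mul, mul_comm]

theorem cv_conj (x : B → ℚ) (σ : ℂ ≃+* ℂ) : (fun b => σ (cv x b)) = cv x := by
  funext b
  exact map_ratCast σ (x b)

theorem hodge_hasTypes {x : B → ℚ} (hx : x ∈ V.hodge) : V.HasTypes (cv x) 0 := by
  intro σ
  rw [cv_conj]
  change V.op *ᵥ cv x = ((0 : ℤ) : ℂ) • cv x
  rw [show V.op *ᵥ cv x = 0 from hx, Int.cast_zero, zero_smul]

theorem typeSpace_le_cmPart (d : (ℂ ≃+* ℂ) → ℤ) : typeSpace V d ≤ V.cmPart :=
  fun _ hw => Submodule.subset_span ⟨d, hw⟩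

variable (V)

/-- The nonzero functions which are the types of nonzero vectors. -/
def typeSet : Set ((ℂ ≃+* ℂ) → ℤ) := {d | d ≠ 0 ∧ ∃ w, w ≠ 0 ∧ V.HasTypes w d}

theorem typeSet_finite : (typeSet V).Finite := by
  refine (WellFoundedGT.finite_ne_bot_of_iSupIndep (typeSpace_indep (V := V))).subset ?_
  rintro d ⟨-, w, hw, h⟩
  exact (Submodule.ne_bot_iff _).2 ⟨w, h, hw⟩

/-- The number of types. -/
theorem card_types (D : Finset ((ℂ ≃+* ℂ) → ℤ)) (hD : ∀ d ∈ D, d ∈ typeSet V) :
    D.card + finrank ℚ V.hodge ≤ finrank ℂ V.cmPart := by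
  classical
  choose! w hw0 hw using fun d (hd : d ∈ D) => (hD d hd).2
  let n := finrank ℚ V.hodge
  let e : Basis (Fin n) ℚ V.hodge := Module.finBasis ℚ V.hodge
  let h : Fin n → B → ℚ := fun i => (e i : B → ℚ)
  have hh : LinearIndependent ℚ h := e.linearIndependent.map' (Submodule.subtype _)
    (Submodule.ker_subtype _)
  have hhC := linearIndependent_cv h hh
  let u : D ⊕ Fin n → V.cmPart := Sum.elim
    (fun d => ⟨w d.1, typeSpace_le_cmPart d.1 (hw d.1 d.2)⟩)
    (fun i => ⟨cv (h i), typeSpace_le_cmPart 0 (hodge_hasTypes (e i).2)⟩)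
  have hu : LinearIndependent ℂ u := by
    rw [Fintype.linearIndependent_iff]
    intro c hc
    have hc' : ∑ d : D, c (Sum.inl d) • w d.1 + ∑ i, c (Sum.inr i) • cv (h i) = 0 := by
      have h1 := congrArg Subtype.val hc
      rw [Fintype.sum_sum_type] at h1
      simpa [u, Submodule.coe_sum] using h1
    have h0 : (0 : (ℂ ≃+* ℂ) → ℤ) ∉ D := fun h => (hD 0 h).1 rfl
    -- the vectors of given types
    let v : ((ℂ ≃+* ℂ) → ℤ) → B → ℂ := fun d =>
      if hd : d ∈ D then c (Sum.inl ⟨d, hd⟩) • w d else ∑ i, c (Sum.inr i) • cv (h i)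
    have hv0 : v 0 = ∑ i, c (Sum.inr i) • cv (h i) := dif_neg h0
    have hv1 : ∀ d : D, v d.1 = c (Sum.inl d) • w d.1 := fun d => dif_pos d.2
    have hsum : ∑ d ∈ insert 0 D, v d = 0 := by
      rw [Finset.sum_insert h0, hv0, ← Finset.sum_coe_sort D v, add_comm]
      rw [Finset.sum_congr rfl fun d _ => hv1 d]
      exact hc'
    have hmem : ∀ d ∈ insert 0 D, v d ∈ typeSpace V d := by
      intro d hd
      rcases Finset.mem_insert.1 hd with rfl | hd
      · rw [hv0]
        exact Submodule.sum_mem _ fun i _ => Submodule.smul_mem _ _ (hodge_hasTypes (e i).2)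
      · have h2 := hv1 ⟨d, hd⟩
        rw [h2]
        exact Submodule.smul_mem _ _ (hw d hd)
    have hz := (iSupIndep_iff_finsetSum_eq_zero_imp_eq_zero _).1 (typeSpace_indep (V := V))
      (insert 0 D) v hmem hsum
    rintro (d | i)
    · have h2 := hz d.1 (Finset.mem_insert_of_mem d.2)
      rw [hv1] at h2
      exact (smul_eq_zero.1 h2).resolve_right (hw0 d.1 d.2)
    · have h2 := hz 0 (Finset.mem_insert_self _ _)
      rw [hv0] at h2
      exact (Fintype.linearIndependent_iff.1 hhC) (fun i => c (Sum.inr i)) h2 i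
  have h1 := hu.fintype_card_le_finrank
  rw [Fintype.card_sum, Fintype.card_coe, Fintype.card_fin] at h1
  exact h1

variable {V}

/-- The types of a conjugate. -/
theorem hasTypes_trans {w : B → ℂ} {d : (ℂ ≃+* ℂ) → ℤ} (h : V.HasTypes w d) (τ : ℂ ≃+* ℂ) :
    V.HasTypes (fun b => τ (w b)) (fun σ => d (τ.trans σ)) :=
  fun σ => h (τ.trans σ)

theorem typeSet_trans {d : (ℂ ≃+* ℂ) → ℤ} (h : d ∈ typeSet V) (τ : ℂ ≃+* ℂ) :
    (fun σ => d (τ.trans σ)) ∈ typeSet V := by
  obtain ⟨h0, w, hw, h⟩ := h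
  refine ⟨fun h1 => h0 ?_, fun b => τ (w b), fun h1 => hw ?_, hasTypes_trans h τ⟩
  · funext σ
    have h2 := congrFun h1 (τ.symm.trans σ)
    have h3 : τ.trans (τ.symm.trans σ) = σ := by
      ext z
      change σ (τ.symm (τ z)) = σ z
      rw [RingEquiv.symm_apply_apply]
    rw [← h3]
    exact h2
  · funext b
    have h2 := congrFun h1 b
    exact (map_eq_zero τ).1 h2

end Pool.Agent.H855.HG
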