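import Mathlib
import Pool.Agent.H855.HG.Types

/-!
# Hodge classes on a product
-/

set_option autoImplicit false
set_option linter.unusedSectionVars false

namespace Pool.Agent.H855.HG

open Matrix Module

section alg

variable {B B' : Type} [Fintype B] [Fintype B']

/-- A matrix with columns in `P` and rows in `Q` is a sum of products of elements of `P` and `Q`. -/
theorem mem_span_of_rows (P : Submodule ℚ (B' → ℚ)) (Q : Submodule ℚ (B → ℚ)) (ω : B' × B → ℚ)
    (hP : ∀ b, (fun a => ω (a, b)) ∈ P) (hQ : ∀ a, (fun b => ω (a, b)) ∈ Q) :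
    ω ∈ Submodule.span ℚ {z | ∃ x ∈ P, ∃ y ∈ Q, z = cross x y} := by
  classical
  let e : Basis (Fin (finrank ℚ P)) ℚ P := Module.finBasis ℚ P
  choose ℓ hℓ using fun i => LinearMap.exists_extend (e.coord i)
  have hℓ' : ∀ i (x : P), ℓ i x = e.repr x i := fun i x => LinearMap.congr_fun (hℓ i) x
  let c : Fin (finrank ℚ P) → B → ℚ := fun i b => ℓ i (fun a => ω (a, b))
  have h1 : ω = ∑ i, cross (e i : B' → ℚ) (c i) := by
    funext p
    obtain ⟨a, b⟩ := p
    have h2 := congrArg (fun x : P => (x : B' → ℚ) a) (e.sum_repr ⟨_, hP b⟩)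
    change ω (a, b) = _
    have h3 : (fun a => ω (a, b)) a = ω (a, b) := rfl
    rw [Finset.sum_apply, ← h3]
    refine h2.symm.trans ?_
    rw [Submodule.coe_sum, Finset.sum_apply]
    refine Finset.sum_congr rfl fun i _ => ?_
    change (e.repr ⟨_, hP b⟩ i) * (e i : B' → ℚ) a = (e i : B' → ℚ) a * c i b
    rw [mul_comm, ← hℓ' i ⟨_, hP b⟩]
  have h2 : ∀ i, c i ∈ Q := by
    intro i
    have h3 : c i = ∑ a, ℓ i (Pi.single a 1) • fun b => ω (a, b) := by
      funext b
      rw [Finset.sum_apply]
      change ℓ i (fun a => ω (a, b)) = _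
      have h4 : (fun a => ω (a, b)) = ∑ a, ω (a, b) • (Pi.single a 1 : B' → ℚ) := by
        funext a
        rw [Finset.sum_apply, Finset.sum_eq_single a]
        · rw [Pi.smul_apply, Pi.single_eq_same, smul_eq_mul, mul_one]
        · intro a' _ ha'
          rw [Pi.smul_apply, Pi.single_eq_of_ne (Ne.symm ha'), smul_zero]
        · intro h
          exact absurd (Finset.mem_univ _) h
      conv_lhs => rw [h4]
      rw [map_sum]
      refine Finset.sum_congr rfl fun a _ => ?_
      rw [map_smul, Pi.smul_apply, smul_eq_mul, smul_eq_mul, mul_comm]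
    rw [h3]
    exact Submodule.sum_mem _ fun a _ => Submodule.smul_mem _ _ (hQ a)
  rw [h1]
  exact Submodule.sum_mem _ fun i _ => Submodule.subset_span ⟨_, (e i).2, _, h2 i, rfl⟩

end alg

section types

variable {B B' : Type} [Fintype B] [Fintype B'] {V : HodgeSpace B'} {W : HodgeSpace B}

/-- There is a basis of vectors with types. -/
theorem exists_basis (hV : V.IsOfCMType) : ∃ (ι : Type) (_ : Fintype ι) (e : Basis ι ℂ (B' → ℂ))
    (d : ι → (ℂ ≃+* ℂ) → ℤ), ∀ i, V.HasTypes (e i) (d i) := by
  classical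
  obtain ⟨b, hb, hspan, hli⟩ := exists_linearIndependent ℂ {w | ∃ d, V.HasTypes w d}
  have hfin : Finite b := hli.finite
  have hft : Fintype b := Fintype.ofFinite b
  have htop : ⊤ ≤ Submodule.span ℂ (Set.range ((↑) : b → B' → ℂ)) := by
    rw [Subtype.range_coe, hspan]
    exact hV.ge
  choose d hd using fun i : b => hb i.2
  refine ⟨b, hft, Basis.mk hli htop, d, fun i => ?_⟩
  rw [Basis.mk_apply]
  exact hd i

/-- **The theorem of Künneth and the types.** -/
theorem kunneth (hV : V.IsOfCMType)
    (hd : ∀ (x : B' → ℂ) (y : B → ℂ) (d : (ℂ ≃+* ℂ) → ℤ), x ≠ 0 → y ≠ 0 → V.HasTypes x d →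
      W.HasTypes y (-d) → d = 0) (ω : B' × B → ℚ) (hω : ω ∈ (V.prod W).hodge) :
    (∀ b, (fun a => ω (a, b)) ∈ V.hodge) ∧ ∀ a, (fun b => ω (a, b)) ∈ W.hodge := by
  classical
  obtain ⟨ι, hι, e, d, he⟩ := exists_basis hV
  let y : ι → B → ℂ := fun k b => e.repr (fun a => (ω (a, b) : ℂ)) k
  have hy : ∀ a b, (ω (a, b) : ℂ) = ∑ k, y k b * e k a := by
    intro a b
    have h1 := congrFun (e.sum_repr (fun a => (ω (a, b) : ℂ))) a
    rw [Finset.sum_apply] at h1
    exact h1.symm
  have hσ : ∀ (σ : ℂ ≃+* ℂ) a b, (ω (a, b) : ℂ) = ∑ k, σ (y k b) * σ (e k a) := by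
    intro σ a b
    have h1 := congrArg σ (hy a b)
    rw [map_ratCast, map_sum] at h1
    rw [h1]
    exact Finset.sum_congr rfl fun k _ => map_mul σ _ _
  have hli : ∀ (σ : ℂ ≃+* ℂ) (c : ι → ℂ), (∀ a, ∑ k, c k * σ (e k a) = 0) → ∀ k, c k = 0 := by
    intro σ c hc k
    have h1 : ∑ k, σ.symm (c k) • e k = 0 := by
      funext a
      have h2 := congrArg σ.symm (hc a)
      rw [map_sum, map_zero] at h2
      rw [Finset.sum_apply, Pi.zero_apply, ← h2]
      refine Finset.sum_congr rfl fun k _ => ?_
      rw [map_mul, RingEquiv.symm_apply_apply]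
      rfl
    have h2 := Fintype.linearIndependent_iff.1 e.linearIndependent _ h1 k
    exact (map_eq_zero σ.symm).1 h2
  have htot : ∀ a b, ∑ a', V.op a a' * (ω (a', b) : ℂ) + ∑ b', W.op b b' * (ω (a, b') : ℂ) = 0 := by
    intro a b
    have h1 := congrFun (show (V.prod W).op *ᵥ cv ω = 0 from hω) (a, b)
    rw [prod_mulVec] at h1
    exact h1
  have htypes : ∀ k, W.HasTypes (y k) (-d k) := by
    intro k σ
    funext b
    have h1 : ∀ a, ∑ k, ((d k σ : ℂ) * σ (y k b) + (W.op *ᵥ fun b => σ (y k b)) b) *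
        σ (e k a) = 0 := by
      intro a
      rw [← htot a b]
      have h2 : ∑ a', V.op a a' * (ω (a', b) : ℂ) = ∑ k, (d k σ : ℂ) * σ (y k b) * σ (e k a) := by
        have h3 : ∀ k, ∑ a', V.op a a' * σ (e k a') = (d k σ : ℂ) * σ (e k a) := fun k =>
          congrFun (he k σ) a
        simp only [hσ σ, Finset.mul_sum]
        rw [Finset.sum_comm]
        refine Finset.sum_congr rfl fun k _ => ?_
        calc ∑ a', V.op a a' * (σ (y k b) * σ (e k a'))
            = σ (y k b) * ∑ a', V.op a a' * σ (e k a') := by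
              rw [Finset.mul_sum]
              exact Finset.sum_congr rfl fun a' _ => by ring
          _ = (d k σ : ℂ) * σ (y k b) * σ (e k a) := by
              rw [h3]
              ring
      have h4 : ∑ b', W.op b b' * (ω (a, b') : ℂ) =
          ∑ k, (W.op *ᵥ fun b => σ (y k b)) b * σ (e k a) := by
        simp only [hσ σ, Finset.mul_sum, Matrix.mulVec, dotProduct, Finset.sum_mul]
        rw [Finset.sum_comm]
        refine Finset.sum_congr rfl fun k _ => Finset.sum_congr rfl fun b' _ => ?_
        ring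
      rw [h2, h4, ← Finset.sum_add_distrib]
      exact Finset.sum_congr rfl fun k _ => by ring
    have h2 := hli σ _ h1 k
    have h3 : (((-d k) σ : ℤ) : ℂ) = -(d k σ : ℂ) := by
      rw [Pi.neg_apply, Int.cast_neg]
    change (W.op *ᵥ fun b => σ (y k b)) b = (((-d k) σ : ℤ) : ℂ) * σ (y k b)
    rw [h3]
    linear_combination h2
  have hcol : ∀ b, (fun a => ω (a, b)) ∈ V.hodge := by
    intro b
    change V.op *ᵥ cv (fun a => ω (a, b)) = 0
    funext a
    have h1 : (V.op *ᵥ cv fun a => ω (a, b)) a = ∑ k, y k b * (d k (RingEquiv.refl ℂ) * e k a) := by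
      have h3 : ∀ k, ∑ a', V.op a a' * e k a' = (d k (RingEquiv.refl ℂ) : ℂ) * e k a := fun k =>
        congrFun (he k (RingEquiv.refl ℂ)) a
      change ∑ a', V.op a a' * (ω (a', b) : ℂ) = _
      simp only [hy, Finset.mul_sum]
      rw [Finset.sum_comm]
      refine Finset.sum_congr rfl fun k _ => ?_
      rw [← h3, Finset.mul_sum]
      exact Finset.sum_congr rfl fun a' _ => by ring
    rw [h1, Pi.zero_apply]
    refine Finset.sum_eq_zero fun k _ => ?_
    by_cases hyk : y k = 0
    · rw [hyk, Pi.zero_apply, zero_mul]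
    · have h2 := hd (e k) (y k) (d k) (e.ne_zero k) hyk (he k) (htypes k)
      rw [h2, Pi.zero_apply, Int.cast_zero, zero_mul, mul_zero]
  refine ⟨hcol, fun a => ?_⟩
  change W.op *ᵥ cv (fun b => ω (a, b)) = 0
  funext b
  have h1 := htot a b
  have h2 : ∑ a', V.op a a' * (ω (a', b) : ℂ) = 0 := congrFun (hcol b) a
  rw [h2, zero_add] at h1
  exact h1

end types

section graded

variable {B B' : Type} [Fintype B] [Fintype B'] (V : HodgeSpace B') (W : HodgeSpace B)

/-- The component of degree `m`. -/
def comp {R : Type} [Zero R] (deg : B → ℕ) (m : ℕ) (x : B → R) : B → R :=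
  fun b => if deg b = m then x b else 0

theorem comp_hodge {x : B → ℚ} (hx : x ∈ W.hodge) (m : ℕ) : comp W.deg m x ∈ W.hodge := by
  change W.op *ᵥ cv (comp W.deg m x) = 0
  have hx' : W.op *ᵥ cv x = 0 := hx
  funext b
  change ∑ c, W.op b c * ((comp W.deg m x c : ℚ) : ℂ) = 0
  by_cases hb : W.deg b = m
  · have h1 := congrFun hx' b
    rw [← show (W.op *ᵥ cv x) b = 0 from h1]
    change _ = ∑ c, W.op b c * (x c : ℂ)
    refine Finset.sum_congr rfl fun c _ => ?_
    by_cases hc : W.deg c = m
    · rw [comp, if_pos hc]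
    · rw [W.graded b c (fun h => hc (by rw [← h, hb])), zero_mul, zero_mul]
  · refine Finset.sum_eq_zero fun c _ => ?_
    by_cases hc : W.deg c = m
    · rw [W.graded b c (fun h => hb (by rw [h, hc])), zero_mul]
    · rw [comp, if_neg hc, Rat.cast_zero, mul_zero]

theorem comp_part (x : B → ℚ) (m : ℕ) : comp W.deg m x ∈ W.part m :=
  fun _ hb => if_neg hb

/-- There are no Hodge classes of odd degree. -/
theorem hodge_odd {x : B → ℚ} (hx : x ∈ W.hodge) {m : ℕ} (hm : x ∈ W.part m) (hodd : ¬ Even m) :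
    x = 0 := by
  classical
  let T : Module.End ℂ (B → ℂ) := Matrix.toLin' W.op
  have h0 : cv x ∈ T.eigenspace 0 := by
    rw [Module.End.mem_eigenspace_iff, zero_smul]
    exact hx
  let π : (B → ℂ) →ₗ[ℂ] (B → ℂ) :=
    { toFun := fun w => comp W.deg m w
      map_add' := fun w w' => by
        funext b
        simp only [comp, Pi.add_apply]
        split_ifs <;> simp
      map_smul' := fun c w => by
        funext b
        simp only [comp, Pi.smul_apply, RingHom.id_apply]
        split_ifs <;> simp }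
  have hπ : π (cv x) = cv x := by
    funext b
    change (if W.deg b = m then (x b : ℂ) else 0) = (x b : ℂ)
    by_cases hb : W.deg b = m
    · rw [if_pos hb]
    · rw [if_neg hb, hm b hb, Rat.cast_zero]
  have h1 : ∀ w ∈ Submodule.span ℂ {y | ∃ (m : ℕ) (k : ℤ),
      (∀ b, W.deg b ≠ m → y b = 0) ∧ Even (k - m) ∧ W.op *ᵥ y = (k : ℂ) • y},
      π w ∈ ⨆ (μ : ℂ) (_ : μ ≠ 0), T.eigenspace μ := by
    intro w hw
    induction hw using Submodule.span_induction with
    | mem y hy =>
      obtain ⟨m', k, hy1, hk, hy2⟩ := hy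
      by_cases hm' : m' = m
      · subst hm'
        have h2 : π y = y := by
          funext b
          change (if W.deg b = m' then y b else 0) = y b
          by_cases hb : W.deg b = m'
          · rw [if_pos hb]
          · rw [if_neg hb, hy1 b hb]
        rw [h2]
        have h3 : (k : ℂ) ≠ 0 := by
          intro h4
          have h5 : k = 0 := by exact_mod_cast h4
          subst h5
          rw [zero_sub, even_neg] at hk
          exact hodd (by exact_mod_cast hk)
        refine Submodule.mem_iSup_of_mem (k : ℂ) (Submodule.mem_iSup_of_mem h3 ?_)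
        rw [Module.End.mem_eigenspace_iff]
        exact hy2
      · have h2 : π y = 0 := by
          funext b
          change (if W.deg b = m then y b else 0) = 0
          by_cases hb : W.deg b = m
          · rw [if_pos hb, hy1 b (fun h => hm' (by rw [← h, hb]))]
          · rw [if_neg hb]
        rw [h2]
        exact Submodule.zero_mem _
    | zero => rw [map_zero]; exact Submodule.zero_mem _
    | add y z _ _ hy hz => rw [map_add]; exact Submodule.add_mem _ hy hz
    | smul c y _ hy => rw [map_smul]; exact Submodule.smul_mem _ c hy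
  have h2 := h1 (cv x) (W.decomp (cv x))
  rw [hπ] at h2
  have h3 := Submodule.disjoint_def.1 (T.eigenspaces_iSupIndep 0) (cv x) h0 h2
  funext b
  have h4 : ((x b : ℚ) : ℂ) = 0 := congrFun h3 b
  exact_mod_cast h4

/-- The Hodge classes on the product are sums of products of Hodge classes. -/
def IsHodgeOfProducts : Prop :=
  ∀ j, (V.prod W).hodgeIn j ≤ Submodule.span ℚ {z | ∃ i k, i + k = j ∧
    ∃ x ∈ V.hodgeIn i, ∃ y ∈ W.hodgeIn k, z = cross x y}

variable {V W}

theorem isHodgeOfProducts (hV : V.IsOfCMType)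
    (hd : ∀ (x : B' → ℂ) (y : B → ℂ) (d : (ℂ ≃+* ℂ) → ℤ), x ≠ 0 → y ≠ 0 → V.HasTypes x d →
      W.HasTypes y (-d) → d = 0) : IsHodgeOfProducts V W := by
  classical
  intro j ω hω
  obtain ⟨h1, h2⟩ := hω
  obtain ⟨hcol, hrow⟩ := kunneth hV hd ω h1
  -- the components
  let c : ℕ → B' × B → ℚ := fun m p => if V.deg p.1 = m then ω p else 0
  have hsum : ω = ∑ m ∈ Finset.range (2 * j + 1), c m := by
    funext p
    rw [Finset.sum_apply]
    by_cases hp : V.deg p.1 + W.deg p.2 = 2 * j
    · rw [Finset.sum_eq_single (V.deg p.1)]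
      · exact (if_pos rfl).symm
      · intro m _ hm
        exact if_neg (Ne.symm hm)
      · intro h
        exact absurd (Finset.mem_range.2 (by omega)) h
    · have h3 : ω p = 0 := h2 p hp
      rw [h3]
      refine (Finset.sum_eq_zero fun m _ => ?_).symm
      change (if V.deg p.1 = m then ω p else 0) = 0
      rw [h3, ite_self]
  rw [hsum]
  refine Submodule.sum_mem _ fun m hm => ?_
  have hm' : m ≤ 2 * j := by
    have := Finset.mem_range.1 hm
    omega
  have hc1 : ∀ b, (fun a => c m (a, b)) ∈ V.hodge ⊓ V.part m := fun b =>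
    ⟨comp_hodge V (hcol b) m, comp_part V _ m⟩
  have hc2 : ∀ a, (fun b => c m (a, b)) ∈ W.hodge ⊓ W.part (2 * j - m) := by
    intro a
    by_cases ha : V.deg a = m
    · have h3 : (fun b => c m (a, b)) = fun b => ω (a, b) := by
        funext b
        exact if_pos ha
      rw [h3]
      refine ⟨hrow a, fun b hb => h2 (a, b) fun h => hb ?_⟩
      have h4 : V.deg a + W.deg b = 2 * j := h
      omega
    · have h3 : (fun b => c m (a, b)) = 0 := by
        funext b
        exact if_neg ha
      rw [h3]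
      exact Submodule.zero_mem _
  by_cases hev : Even m
  · obtain ⟨i, hi⟩ := hev
    have h3 := mem_span_of_rows _ _ (c m) hc1 hc2
    refine Submodule.span_mono ?_ h3
    rintro _ ⟨x, hx, y, hy, rfl⟩
    refine ⟨i, j - i, by omega, x, ?_, y, ?_, rfl⟩
    · rw [show m = 2 * i by omega] at hx
      exact hx
    · rw [show 2 * j - m = 2 * (j - i) by omega] at hy
      exact hy
  · have h3 : c m = 0 := by
      funext p
      exact congrFun (hodge_odd V (hc1 p.2).1 (hc1 p.2).2 hev) p.1
    rw [h3]
    exact Submodule.zero_mem _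

end graded

end Pool.Agent.H855.HG
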