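import Mathlib
import Pool.Agent.H855.HG.Kunneth

/-!
# Absolute Hodge classes: definitions
-/

set_option autoImplicit false
set_option linter.unusedSectionVars false

namespace Pool.Agent.H855.HG

open Matrix Module

/-- A rational vector as a vector with coefficients in a `ℚ`-algebra. -/
def rv (R : Type) [CommRing R] [Algebra ℚ R] {B : Type} (x : B → ℚ) : B → R :=
  fun b => algebraMap ℚ R (x b)

/-- The cohomology of a smooth projective complex variety `Z` and of its conjugates `Z^s` under the
automorphisms `s` of the field `ℂ`, `s` in `S`. The components `t` of the cohomology are the de Rham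
component, with `R t = ℂ`, and the étale component, with `R t` the ring of finite adeles. The
cohomology groups of `Z` and `Z^s` have bases indexed by the same set `B`, since the Betti numbers are
the same. -/
structure Conjugates (S T : Type) (R : T → Type) [∀ t, CommRing (R t)] [∀ t, Algebra ℚ (R t)]
    (B : Type) [Fintype B] where
  /-- the cohomology of `Z` -/
  coh : HodgeSpace B
  /-- the cohomology of the conjugate varieties -/
  conj : S → HodgeSpace B
  conj_deg : ∀ s, (conj s).deg = coh.deg
  /-- the images of the rational basis vectors of the cohomology of `Z` under the conjugation `s` in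
  the component `t`, as columns -/
  map : ∀ (s : S) (t : T), Matrix B B (R t)
  injective : ∀ (s : S) (t : T) (v : B → R t), map s t *ᵥ v = 0 → v = 0
  graded : ∀ s t b b', coh.deg b ≠ coh.deg b' → map s t b b' = 0
  /-- the unit class of `Z` -/
  one : B → ℚ
  /-- the unit classes of the conjugates -/
  oneC : S → B → ℚ
  one_mem : one ∈ coh.hodgeIn 0
  one_ne : one ≠ 0
  oneC_mem : ∀ s, oneC s ∈ (conj s).hodgeIn 0
  map_one : ∀ s t, map s t *ᵥ rv (R t) one = rv (R t) (oneC s)

section

variable {S T : Type} {R : T → Type} [∀ t, CommRing (R t)] [∀ t, Algebra ℚ (R t)]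
  {A B : Type} [Fintype A] [Fintype B]

/-- The space of the absolute Hodge classes of codimension `j` (in the sense of Deligne): the Hodge
classes `x` such that for each conjugate `Z^s` there is **one** Hodge class `y` on `Z^s` which is the
conjugate of `x` in all components. The units `tw s t` are the conjugates of the generator
`2 π i` of `ℚ(1)`: the twists by the powers of `2 π i` are included. -/
def Conjugates.absIn (Z : Conjugates S T R B) (tw : ∀ (_ : S) (t : T), (R t)ˣ) (j : ℕ) :
    Submodule ℚ (B → ℚ) where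
  carrier := {x | x ∈ Z.coh.hodgeIn j ∧ ∀ s, ∃ y ∈ (Z.conj s).hodgeIn j, ∀ t,
    ((tw s t : R t) ^ j) • (Z.map s t *ᵥ rv (R t) x) = rv (R t) y}
  zero_mem' := by
    refine ⟨Submodule.zero_mem _, fun s => ⟨0, Submodule.zero_mem _, fun t => ?_⟩⟩
    have h : rv (R t) (0 : B → ℚ) = 0 := by
      funext b
      exact map_zero _
    rw [h, Matrix.mulVec_zero, smul_zero]
  add_mem' := by
    rintro x x' ⟨h1, h2⟩ ⟨h1', h2'⟩
    refine ⟨Submodule.add_mem _ h1 h1', fun s => ?_⟩
    obtain ⟨y, hy, h3⟩ := h2 s
    obtain ⟨y', hy', h3'⟩ := h2' s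
    refine ⟨y + y', Submodule.add_mem _ hy hy', fun t => ?_⟩
    have h : ∀ u v : B → ℚ, rv (R t) (u + v) = rv (R t) u + rv (R t) v := by
      intro u v
      funext b
      exact map_add _ _ _
    rw [h, h, Matrix.mulVec_add, smul_add, h3, h3']
  smul_mem' := by
    rintro c x ⟨h1, h2⟩
    refine ⟨Submodule.smul_mem _ c h1, fun s => ?_⟩
    obtain ⟨y, hy, h3⟩ := h2 s
    refine ⟨c • y, Submodule.smul_mem _ c hy, fun t => ?_⟩
    have h : ∀ u : B → ℚ, rv (R t) (c • u) = (algebraMap ℚ (R t) c) • rv (R t) u := by
      intro u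
      funext b
      exact map_mul _ _ _
    rw [h, h, Matrix.mulVec_smul, smul_comm, h3]

/-- All Hodge classes are absolute Hodge classes. -/
def Conjugates.AllAbsolute (Z : Conjugates S T R B) (tw : ∀ (_ : S) (t : T), (R t)ˣ) : Prop :=
  ∀ j, Z.coh.hodgeIn j ≤ Z.absIn tw j

theorem rv_cross (Q : Type) [CommRing Q] [Algebra ℚ Q] (x : A → ℚ) (y : B → ℚ) :
    rv Q (cross x y) = cross (rv Q x) (rv Q y) := by
  funext p
  exact map_mul _ _ _

theorem kron_cross {Q : Type} [CommRing Q] (M : Matrix A A Q) (N : Matrix B B Q) (x : A → Q)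
    (y : B → Q) : Matrix.kroneckerMap (· * ·) M N *ᵥ cross x y = cross (M *ᵥ x) (N *ᵥ y) := by
  funext p
  change ∑ q : A × B, (M p.1 q.1 * N p.2 q.2) * (x q.1 * y q.2) =
    (∑ a, M p.1 a * x a) * ∑ b, N p.2 b * y b
  rw [Fintype.sum_prod_type, Finset.sum_mul_sum]
  exact Finset.sum_congr rfl fun a _ => Finset.sum_congr rfl fun b _ => by ring

theorem cross_hodge {V : HodgeSpace A} {W : HodgeSpace B} {i j : ℕ} {x : A → ℚ} {y : B → ℚ}
    (hx : x ∈ V.hodgeIn i) (hy : y ∈ W.hodgeIn j) : cross x y ∈ (V.prod W).hodgeIn (i + j) := by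
  obtain ⟨hx1, hx2⟩ := hx
  obtain ⟨hy1, hy2⟩ := hy
  constructor
  · have h1 : cv (cross x y) = cross (cv x) (cv y) := by
      funext p
      exact Rat.cast_mul _ _
    change prodOp V.op W.op *ᵥ cv (cross x y) = 0
    rw [h1, prodOp_cross, show V.op *ᵥ cv x = 0 from hx1, show W.op *ᵥ cv y = 0 from hy1]
    funext p
    simp [cross]
  · intro p hp
    change x p.1 * y p.2 = 0
    by_cases h : V.deg p.1 = 2 * i
    · have h' : W.deg p.2 ≠ 2 * j := fun h' => hp (by
        change V.deg p.1 + W.deg p.2 = 2 * (i + j)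
        rw [h, h']
        ring)
      rw [hy2 _ h', mul_zero]
    · rw [hx2 _ h, zero_mul]

/-- The cohomology of a product and its conjugates. -/
noncomputable def Conjugates.prod (X : Conjugates S T R A) (Y : Conjugates S T R B) :
    Conjugates S T R (A × B) where
  coh := X.coh.prod Y.coh
  conj s := (X.conj s).prod (Y.conj s)
  conj_deg s := by
    funext p
    change (X.conj s).deg p.1 + (Y.conj s).deg p.2 = X.coh.deg p.1 + Y.coh.deg p.2
    rw [X.conj_deg, Y.conj_deg]
  map s t := Matrix.kroneckerMap (· * ·) (X.map s t) (Y.map s t)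
  injective s t v hv := by
    have h1 : ∀ (a : A) (b : B), ∑ a', X.map s t a a' * ∑ b', Y.map s t b b' * v (a', b') = 0 := by
      intro a b
      have h2 := congrFun hv (a, b)
      rw [Pi.zero_apply] at h2
      rw [← h2]
      change _ = ∑ q : A × B, (X.map s t a q.1 * Y.map s t b q.2) * v q
      rw [Fintype.sum_prod_type]
      refine Finset.sum_congr rfl fun a' _ => ?_
      rw [Finset.mul_sum]
      exact Finset.sum_congr rfl fun b' _ => by ring
    have h2 : ∀ (b : B), (fun a' => ∑ b', Y.map s t b b' * v (a', b')) = 0 := fun b =>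
      X.injective s t _ (funext fun a => h1 a b)
    funext p
    obtain ⟨a, b⟩ := p
    have h3 := Y.injective s t (fun b' => v (a, b')) (funext fun b => congrFun (h2 b) a)
    exact congrFun h3 b
  graded s t p q h := by
    rw [Matrix.kroneckerMap_apply]
    by_cases h1 : X.coh.deg p.1 = X.coh.deg q.1
    · have h2 : Y.coh.deg p.2 ≠ Y.coh.deg q.2 := fun h2 => h (by
        change X.coh.deg p.1 + Y.coh.deg p.2 = X.coh.deg q.1 + Y.coh.deg q.2
        rw [h1, h2])
      rw [Y.graded s t _ _ h2, mul_zero]
    · rw [X.graded s t _ _ h1, zero_mul]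
  one := cross X.one Y.one
  oneC s := cross (X.oneC s) (Y.oneC s)
  one_mem := cross_hodge X.one_mem Y.one_mem
  one_ne := by
    intro h
    obtain ⟨a, ha⟩ := Function.ne_iff.1 X.one_ne
    obtain ⟨b, hb⟩ := Function.ne_iff.1 Y.one_ne
    have h1 : X.one a * Y.one b = 0 := congrFun h (a, b)
    rcases mul_eq_zero.1 h1 with h1 | h1
    · exact ha h1
    · exact hb h1
  oneC_mem s := cross_hodge (X.oneC_mem s) (Y.oneC_mem s)
  map_one s t := by
    rw [rv_cross, kron_cross, X.map_one, Y.map_one, ← rv_cross]

/-- The absolute Hodge classes on the product of `X` and `Y`: for all varieties `X`, `Y` with the given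
cohomology, for all their conjugates,

* all Hodge classes on `X × Y` are absolute if and only if all Hodge classes on `X` and on `Y` are;
* if all Hodge classes on `X` are absolute then the absolute Hodge classes of codimension `j` on
  `X × Y` are the sums of products of Hodge classes of codimension `i` on `X` and **absolute** Hodge
  classes of codimension `j - i` on `Y`; and all Hodge classes of codimension `j` on `X × Y` are
  absolute if and only if all Hodge classes of codimension `j - i` on `Y` are absolute, for all `i`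
  such that there are nonzero Hodge classes of codimension `i` on `X`. -/
def AbsoluteOnProducts (V : HodgeSpace A) (W : HodgeSpace B) : Prop :=
  ∀ (S T : Type) (R : T → Type) [∀ t, CommRing (R t)] [∀ t, Algebra ℚ (R t)] [Nonempty T]
    [∀ t, Nontrivial (R t)] (tw : ∀ (_ : S) (t : T), (R t)ˣ) (X : Conjugates S T R A)
    (Y : Conjugates S T R B), X.coh = V → Y.coh = W →
    ((X.prod Y).AllAbsolute tw ↔ X.AllAbsolute tw ∧ Y.AllAbsolute tw) ∧
    (X.AllAbsolute tw → ∀ j,
      (X.prod Y).absIn tw j = Submodule.span ℚ {z | ∃ i k, i + k = j ∧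
        ∃ x ∈ X.coh.hodgeIn i, ∃ y ∈ Y.absIn tw k, z = cross x y} ∧
      ((X.prod Y).coh.hodgeIn j ≤ (X.prod Y).absIn tw j ↔
        ∀ i k, i + k = j → X.coh.hodgeIn i ≠ ⊥ → Y.coh.hodgeIn k ≤ Y.absIn tw k))

end

end Pool.Agent.H855.HG
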