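import Mathlib
import Pool.Agent.H855.DP.SpaceDefs
import Pool.Agent.H855.HG.AbsDefs

/-!
# All powers of a variety: definitions
-/

set_option autoImplicit false
set_option linter.unusedSectionVars false

namespace Pool.Agent.H855.HG

open Matrix Module NumberField Pool.Agent.Y137.MV Pool.Agent.H855.CM Pool.Agent.H855.DP

/-- The index set of the basis of the cohomology of `Y^s`. -/
def Pow (B : Type) : ℕ → Type
  | 0 => Unit
  | s + 1 => B × Pow B s

instance instFintypePow (B : Type) [Fintype B] : ∀ s, Fintype (Pow B s)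
  | 0 => inferInstanceAs (Fintype Unit)
  | s + 1 =>
    have _ : Fintype (Pow B s) := instFintypePow B s
    inferInstanceAs (Fintype (B × Pow B s))

/-- The cohomology of a point. -/
def HodgeSpace.point : HodgeSpace Unit where
  deg _ := 0
  op := 0
  graded _ _ _ := rfl
  real := by
    ext a b
    simp
  decomp w := Submodule.subset_span ⟨0, 0, fun b hb => absurd rfl hb, by simp, by
    rw [Matrix.zero_mulVec, Int.cast_zero, zero_smul]⟩

variable {A B : Type} [Fintype A] [Fintype B]

/-- The cohomology of the power `Y^s`. -/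
noncomputable def HodgeSpace.pow (Y : HodgeSpace B) : ∀ s, HodgeSpace (Pow B s)
  | 0 => HodgeSpace.point
  | s + 1 => Y.prod (Y.pow s)

/-- The conjugate `σ⁻¹ T` of the matrix `T` of the Hodge operator. -/
def HodgeSpace.conjOp (Y : HodgeSpace B) (σ : ℂ ≃+* ℂ) : Matrix B B ℂ := Y.op.map σ.symm

/-- **The Lie algebra of the Hodge group** of `Y`, with complex coefficients: the smallest space of
matrices which contains all conjugates of the Hodge operator and the commutators of its elements. -/
noncomputable def HodgeSpace.lie (Y : HodgeSpace B) : Submodule ℂ (Matrix B B ℂ) :=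
  sInf {g | (∀ σ, Y.conjOp σ ∈ g) ∧ ∀ M ∈ g, ∀ N ∈ g, M * N - N * M ∈ g}

/-- The space generated by the commutators of the elements of the Lie algebra of the Hodge group. -/
noncomputable def HodgeSpace.comm (Y : HodgeSpace B) : Submodule ℂ (Matrix B B ℂ) :=
  Submodule.span ℂ {C | ∃ M ∈ Y.lie, ∃ N ∈ Y.lie, C = M * N - N * M}

/-- The rational functions `σ ↦ ℓ (σ⁻¹ T)` on the automorphisms of `ℂ`, where `ℓ` is a linear function
on the matrices which is zero on the commutators. -/
noncomputable def HodgeSpace.charQ (Y : HodgeSpace B) : Submodule ℚ ((ℂ ≃+* ℂ) → ℚ) where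
  carrier := {f | ∃ l : Matrix B B ℂ →ₗ[ℂ] ℂ, (∀ M ∈ Y.comm, l M = 0) ∧
    ∀ σ, ((f σ : ℚ) : ℂ) = l (Y.conjOp σ)}
  zero_mem' := ⟨0, fun _ _ => rfl, fun _ => Rat.cast_zero⟩
  add_mem' := by
    rintro f g ⟨l, h1, h2⟩ ⟨l', h1', h2'⟩
    refine ⟨l + l', fun M hM => ?_, fun σ => ?_⟩
    · rw [LinearMap.add_apply, h1 M hM, h1' M hM, add_zero]
    · rw [LinearMap.add_apply, ← h2, ← h2', Pi.add_apply, Rat.cast_add]
  smul_mem' := by
    rintro c f ⟨l, h1, h2⟩
    refine ⟨(c : ℂ) • l, fun M hM => ?_, fun σ => ?_⟩
    · rw [LinearMap.smul_apply, h1 M hM, smul_zero]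
    · rw [LinearMap.smul_apply, ← h2, Pi.smul_apply, smul_eq_mul, Rat.cast_mul, smul_eq_mul]

/-- The rational functions as real functions. -/
def castR (S : Type) : (S → ℚ) →ₗ[ℚ] (S → ℝ) where
  toFun f s := (f s : ℝ)
  map_add' f g := by
    funext s
    exact Rat.cast_add _ _
  map_smul' c f := by
    funext s
    rw [RingHom.id_apply, Pi.smul_apply, Pi.smul_apply, smul_eq_mul, Rat.cast_mul, Rat.smul_def]

/-- **The space of the characters of `Y`**, as functions on the automorphisms of `ℂ`. -/
noncomputable def HodgeSpace.charSpace (Y : HodgeSpace B) : Submodule ℚ ((ℂ ≃+* ℂ) → ℝ) :=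
  Y.charQ.map (castR _)

/-- The sizes of the spaces. The space `V` of the characters of `Y` has a finite dimension `d`, and

* `d + dim [g, g] ≤ dim g`, where `g` is the Lie algebra of the Hodge group of `Y`;
* for all CM fields `E` the dimension of the exceptional space `excSpace V E` is at most `d`;
* for all finite families of pairwise unrelated CM fields `E i` whose exceptional spaces are not zero
  `∑ m i ≤ d`, where `m i` is a lower bound for the dimensions of the nonzero stable spaces of odd
  rational functions on the embeddings of `E i` (`m i = 1` is possible). -/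
def CharactersAreSmall (Y : HodgeSpace B) : Prop :=
  FiniteDimensional ℚ Y.charSpace ∧
    finrank ℚ Y.charSpace + finrank ℂ Y.comm ≤ finrank ℂ Y.lie ∧
    (∀ (E : Type) [Field E] [NumberField E] [IsCMField E],
      FiniteDimensional ℚ (excSpace Y.charSpace E) ∧
        finrank ℚ (excSpace Y.charSpace E) ≤ finrank ℚ Y.charSpace) ∧
    ∀ (I : Type) [Fintype I] (E : I → Type) [∀ i, Field (E i)] [∀ i, NumberField (E i)]
      [∀ i, IsCMField (E i)] (m : I → ℕ), (∀ i k, i ≠ k → Unrelated (E i) (E k)) →
      (∀ i, IsLowerBound (E i) (m i)) → (∀ i, excSpace Y.charSpace (E i) ≠ ⊥) →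
      ∑ i, m i ≤ finrank ℚ Y.charSpace

section conj

variable {S T : Type} {R : T → Type} [∀ t, CommRing (R t)] [∀ t, Algebra ℚ (R t)]

/-- The cohomology of a point and its conjugates. -/
def Conjugates.point (S T : Type) (R : T → Type) [∀ t, CommRing (R t)] [∀ t, Algebra ℚ (R t)] :
    Conjugates S T R Unit where
  coh := HodgeSpace.point
  conj _ := HodgeSpace.point
  conj_deg _ := rfl
  map _ _ := fun _ _ => 1
  injective s t v h := by
    funext u
    have h1 := congrFun h u
    simpa [Matrix.mulVec, dotProduct] using h1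
  graded s t b b' h := absurd rfl h
  one _ := 1
  oneC _ _ := 1
  one_mem := ⟨by
    change (0 : Matrix Unit Unit ℂ) *ᵥ _ = 0
    rw [Matrix.zero_mulVec], fun b hb => absurd rfl hb⟩
  one_ne h := one_ne_zero (congrFun h ())
  oneC_mem s := ⟨by
    change (0 : Matrix Unit Unit ℂ) *ᵥ _ = 0
    rw [Matrix.zero_mulVec], fun b hb => absurd rfl hb⟩
  map_one s t := by
    funext u
    simp [Matrix.mulVec, dotProduct, rv]

/-- The cohomology of the power `Z^s` and its conjugates. -/
noncomputable def Conjugates.pow (Z : Conjugates S T R B) : ∀ s, Conjugates S T R (Pow B s)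
  | 0 => Conjugates.point S T R
  | s + 1 => Z.prod (Z.pow s)

end conj

/-- The Hodge classes on all the products `X^r × Y^s` are the sums of products of Hodge classes on `X^r`
and Hodge classes on `Y^s`. -/
def HodgeOnAllPowers (V : HodgeSpace A) (W : HodgeSpace B) : Prop :=
  ∀ r s j, ((V.pow r).prod (W.pow s)).hodgeIn j = Submodule.span ℚ {z | ∃ i k, i + k = j ∧
    ∃ x ∈ (V.pow r).hodgeIn i, ∃ y ∈ (W.pow s).hodgeIn k, z = cross x y}

/-- The absolute Hodge classes on all the products `X^r × Y^s`: for all varieties `X`, `Y` with the given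
cohomology, for all their conjugates,

* all Hodge classes on all the products `X^r × Y^s` are absolute if and only if all Hodge classes on all
  the powers `X^r` and on all the powers `Y^s` are;
* if all Hodge classes on `X^r` are absolute then the absolute Hodge classes of codimension `j` on
  `X^r × Y^s` are the sums of products of Hodge classes of codimension `i` on `X^r` and **absolute** Hodge
  classes of codimension `j - i` on `Y^s`. -/
def AbsoluteOnAllPowers (V : HodgeSpace A) (W : HodgeSpace B) : Prop :=
  ∀ (S T : Type) (R : T → Type) [∀ t, CommRing (R t)] [∀ t, Algebra ℚ (R t)] [Nonempty T]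
    [∀ t, Nontrivial (R t)] (tw : ∀ (_ : S) (t : T), (R t)ˣ) (X : Conjugates S T R A)
    (Y : Conjugates S T R B), X.coh = V → Y.coh = W →
    ((∀ r s, ((X.pow r).prod (Y.pow s)).AllAbsolute tw) ↔
      (∀ r, (X.pow r).AllAbsolute tw) ∧ ∀ s, (Y.pow s).AllAbsolute tw) ∧
    ∀ r s, (X.pow r).AllAbsolute tw → ∀ j,
      ((X.pow r).prod (Y.pow s)).absIn tw j = Submodule.span ℚ {z | ∃ i k, i + k = j ∧
        ∃ x ∈ (X.pow r).coh.hodgeIn i, ∃ y ∈ (Y.pow s).absIn tw k, z = cross x y}

/-- A property `P X` holds for all `X` of CM type whose types are generated by odd integral functions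
`x j` on the embeddings of finitely many CM fields `L j`, such that no nonzero vector in the exceptional
spaces of the fields `L j` is a combination of the functions `x j`. -/
def ForAllOutside (V : Submodule ℚ ((ℂ ≃+* ℂ) → ℝ))
    (P : ∀ (A : Type) [Fintype A], HodgeSpace A → Prop) : Prop :=
  ∀ (J : Type) [Fintype J] (L : J → Type) [∀ j, Field (L j)] [∀ j, NumberField (L j)]
    [∀ j, IsCMField (L j)] (x : ∀ j, (L j →+* ℂ) → ℤ),
    (∀ j φ, x j (ComplexEmbedding.conjugate φ) = - x j φ) →
    (∀ j, ∀ v ∈ excSpace V (L j), IsComb x v → v = 0) →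
    ∀ (A : Type) [Fintype A] (X : HodgeSpace A), X.IsOfCMType → X.IsGeneratedBy x → P A X

end Pool.Agent.H855.HG
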