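import Mathlib

/-!
# The fixed field of the automorphisms of the complex numbers, and descent to the rational numbers
-/

set_option autoImplicit false

namespace Pool.Agent.H855.HG

open Module

/-- Automorphisms of the algebraic closure of a subfield extend. -/
theorem exists_aut_of_closure (F : IntermediateField ℚ ℂ)
    (τ : algebraicClosure F ℂ ≃ₐ[F] algebraicClosure F ℂ) :
    ∃ σ : ℂ ≃+* ℂ, ∀ x : algebraicClosure F ℂ, σ x = (τ x : ℂ) := by
  obtain ⟨s, hs⟩ := exists_isTranscendenceBasis (algebraicClosure F ℂ) ℂ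
  letI := IsAlgClosed.isAlgClosure_of_transcendence_basis ((↑) : s → ℂ) hs
  let e : Algebra.adjoin (algebraicClosure F ℂ) (Set.range ((↑) : s → ℂ)) ≃+*
      Algebra.adjoin (algebraicClosure F ℂ) (Set.range ((↑) : s → ℂ)) :=
    (hs.1.aevalEquiv.symm.toRingEquiv.trans (MvPolynomial.mapEquiv s τ.toRingEquiv)).trans
      hs.1.aevalEquiv.toRingEquiv
  refine ⟨IsAlgClosure.equivOfEquiv ℂ ℂ e, ?_⟩
  intro x
  have h1 := IsAlgClosure.equivOfEquiv_algebraMap ℂ ℂ e
    (algebraMap (algebraicClosure F ℂ) _ x)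
  have h2 : e (algebraMap (algebraicClosure F ℂ) _ x) =
      algebraMap (algebraicClosure F ℂ) _ (τ x) := by
    simp only [e, RingEquiv.trans_apply]
    have h3 : hs.1.aevalEquiv.symm.toRingEquiv (algebraMap (algebraicClosure F ℂ) _ x) =
        MvPolynomial.C x := by
      exact hs.1.aevalEquiv.symm.commutes x
    rw [h3]
    have h4 : MvPolynomial.mapEquiv s τ.toRingEquiv (MvPolynomial.C x) =
        MvPolynomial.C (τ x) := by
      rw [MvPolynomial.mapEquiv_apply, MvPolynomial.map_C]
      rfl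
    rw [h4]
    exact hs.1.aevalEquiv.commutes (τ x)
  rw [h2] at h1
  exact h1

/-- An element algebraic over `F` and fixed by all automorphisms of `ℂ` is in `F`. -/
theorem mem_of_fixed (F : IntermediateField ℚ ℂ) {x : ℂ} (hx : IsAlgebraic F x)
    (hfix : ∀ σ : ℂ ≃+* ℂ, σ x = x) : x ∈ F := by
  haveI : IsAlgClosure F (algebraicClosure F ℂ) := algebraicClosure.isAlgClosure F ℂ
  haveI : Normal F (algebraicClosure F ℂ) := IsAlgClosure.normal F _
  haveI : CharZero F := inferInstance
  haveI : Algebra.IsSeparable F (algebraicClosure F ℂ) := inferInstance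
  haveI : IsGalois F (algebraicClosure F ℂ) := IsGalois.mk
  let y : algebraicClosure F ℂ := ⟨x, mem_algebraicClosure_iff.2 hx⟩
  have h1 : y ∈ (⊥ : IntermediateField F (algebraicClosure F ℂ)) := by
    rw [InfiniteGalois.mem_bot_iff_fixed]
    intro τ
    obtain ⟨σ, hσ⟩ := exists_aut_of_closure F τ
    refine Subtype.ext ?_
    rw [← hσ y]
    exact hfix σ
  obtain ⟨z, hz⟩ := IntermediateField.mem_bot.1 h1
  have h2 : ((z : ℂ)) = x := congrArg Subtype.val hz
  rw [← h2]
  exact z.2

/-- A transcendental number is not a rational function of its square. -/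
theorem notMem_adjoin_sq {x : ℂ} (hx : Transcendental ℚ x) :
    x ∉ IntermediateField.adjoin ℚ {x ^ 2} := by
  intro h
  rw [IntermediateField.mem_adjoin_simple_iff] at h
  obtain ⟨r, s, hrs⟩ := h
  have hx0 : x ≠ 0 := fun h0 => hx (by rw [h0]; exact isAlgebraic_zero)
  have hs : Polynomial.aeval (x ^ 2) s ≠ 0 := by
    intro h0
    rw [h0, div_zero] at hrs
    exact hx0 hrs
  have h1 : x * Polynomial.aeval (x ^ 2) s = Polynomial.aeval (x ^ 2) r := by
    nth_rewrite 1 [hrs]
    exact div_mul_cancel₀ _ hs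
  let p : Polynomial ℚ := Polynomial.X * Polynomial.expand ℚ 2 s - Polynomial.expand ℚ 2 r
  have hp : Polynomial.aeval x p = 0 := by
    simp only [p, map_sub, map_mul, Polynomial.aeval_X, Polynomial.expand_aeval]
    rw [h1, sub_self]
  have hp0 : p = 0 := by
    by_contra hne
    exact hx ⟨p, hne, hp⟩
  have h2 : Polynomial.X * Polynomial.expand ℚ 2 s = Polynomial.expand ℚ 2 r := sub_eq_zero.1 hp0
  have hs0 : s ≠ 0 := fun h0 => hs (by rw [h0, map_zero])
  have h3 := congrArg Polynomial.natDegree h2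
  rw [Polynomial.natDegree_expand, Polynomial.natDegree_X_mul, Polynomial.natDegree_expand] at h3
  · omega
  · intro h0
    exact hs0 ((Polynomial.expand_eq_zero two_pos).1 h0)

/-- **A complex number fixed by all automorphisms is rational.** -/
theorem exists_rat_of_fixed {x : ℂ} (hfix : ∀ σ : ℂ ≃+* ℂ, σ x = x) : ∃ q : ℚ, (q : ℂ) = x := by
  by_cases hx : IsAlgebraic ℚ x
  · have h1 := mem_of_fixed ⊥ (x := x) (by
      exact hx.tower_top _) hfix
    obtain ⟨q, hq⟩ := IntermediateField.mem_bot.1 h1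
    exact ⟨q, hq⟩
  · exfalso
    have h1 := mem_of_fixed (IntermediateField.adjoin ℚ {x ^ 2}) (x := x) (by
      let u : IntermediateField.adjoin ℚ {x ^ 2} :=
        ⟨x ^ 2, IntermediateField.mem_adjoin_simple_self ℚ _⟩
      refine ⟨Polynomial.X ^ 2 - Polynomial.C u, Polynomial.X_pow_sub_C_ne_zero two_pos u, ?_⟩
      rw [map_sub, map_pow, Polynomial.aeval_X, Polynomial.aeval_C]
      exact sub_self _) hfix
    exact notMem_adjoin_sq hx h1

end Pool.Agent.H855.HG
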