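import Mathlib
import Pool.Agent.H855.CM.Lines
import Pool.Agent.H855.HG.Kunneth

/-!
# The exceptional vectors of a variety
-/

set_option autoImplicit false
set_option linter.unusedSectionVars false
set_option linter.unusedVariables false

namespace Pool.Agent.H855.HG

open NumberField Finset Module Pool.Agent.TH170.MF Pool.Agent.TH170
  Pool.Agent.V1168.EV Pool.Agent.V1168.EF Pool.Agent.W484.HS Pool.Agent.Y137.MV Pool.Agent.H855.CM

section comb2

variable {J : Type} [Fintype J]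
  {L : J → Type} [∀ j, Field (L j)] [∀ j, NumberField (L j)] [∀ j, IsCMField (L j)]

/-- The functions on the embeddings, as a real function. -/
noncomputable def rx (x : ∀ j, (L j →+* ℂ) → ℤ) : Emb L → ℝ := fun y => (x y.1 y.2 : ℝ)

/-- **The combinations.** If the translates of `g` are values of relations, so are combinations. -/
theorem isComb_of (x₀ : ∀ j, (L j →+* ℂ) → ℤ) {E : Type} [Field E] [NumberField E] [IsCMField E]
    (v : (E →+* ℂ) → ℝ) (hodd : ∀ φ, v (ComplexEmbedding.conjugate φ) = - v φ)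
    (g : (ℂ ≃+* ℂ) → ℝ)
    (hv : ∀ φ, (fun σ : ℂ ≃+* ℂ => v ((σ : ℂ →+* ℂ).comp φ)) ∈ transSpan g)
    (n₁ : Emb L → ℚ) (hn₁ : OddQ n₁) (hg : relMap (rx x₀) n₁ = g) :
    IsComb x₀ v := by
  classical
  set x : Emb L → ℝ := rx x₀ with hx
  -- the values of relations
  let R : Submodule ℚ ((ℂ ≃+* ℂ) → ℝ) :=
    { carrier := {h | ∃ n : Emb L → ℚ, OddQ n ∧ relMap x n = h}
      zero_mem' := ⟨0, fun y => by simp, map_zero _⟩
      add_mem' := by
        rintro _ _ ⟨n, h1, rfl⟩ ⟨n', h2, rfl⟩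
        refine ⟨n + n', fun y => ?_, map_add _ _ _⟩
        rw [Pi.add_apply, Pi.add_apply, h1, h2]
        ring
      smul_mem' := by
        rintro c _ ⟨n, h1, rfl⟩
        refine ⟨c • n, fun y => ?_, map_smul _ _ _⟩
        rw [Pi.smul_apply, Pi.smul_apply, h1, smul_neg] }
  have hR : TranslatesQ R := by
    rintro _ ⟨n, h1, rfl⟩ τ
    refine ⟨fun y => n (act τ.symm y), fun y => ?_, relMap_act' x n τ⟩
    change n (act τ.symm (Pool.Agent.V1168.EV.bar y)) = - n (act τ.symm y)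
    rw [act_bar, h1]
  have hle : transSpan g ≤ R := transSpan_le hR ⟨n₁, hn₁, hg⟩
  choose n hn hrel using fun φ : E →+* ℂ => hle (hv φ)
  -- the relations
  let Z : Submodule ℚ (Emb L → ℚ) := relSpace x ⊥
  have hZst : ∀ τ : ℂ ≃+* ℂ, ∀ f ∈ Z, (fun y => f (act τ y)) ∈ Z :=
    fun τ f hf => relSpace_stable x translates_bot τ f hf
  have hP : ∀ (τ : ℂ ≃+* ℂ) (f : Emb L → ℚ),
      oproj Z (fun y => f (act τ y)) = fun y => oproj Z f (act τ y) := by
    intro τ f
    exact oproj_perm Z (act τ) (hZst τ) (fun f hf => hZst τ.symm f hf) f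
  let t : (E →+* ℂ) → Emb L → ℚ := fun φ => n φ - oproj Z (n φ)
  have htodd : ∀ φ, OddQ (t φ) := by
    intro φ y
    have h1 := hn φ y
    have h2 := (oproj_mem Z (n φ)).1 y
    change n φ (Pool.Agent.V1168.EV.bar y) - oproj Z (n φ) (Pool.Agent.V1168.EV.bar y) =
      -(n φ y - oproj Z (n φ) y)
    rw [h1, h2]
    ring
  have htP : ∀ φ, oproj Z (t φ) = 0 := by
    intro φ
    change oproj Z (n φ - oproj Z (n φ)) = 0
    rw [map_sub, oproj_eq Z (oproj_mem Z (n φ)), sub_self]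
  have htrel : ∀ φ, relMap x (t φ) = fun σ : ℂ ≃+* ℂ => v ((σ : ℂ →+* ℂ).comp φ) := by
    intro φ
    change relMap x (n φ - oproj Z (n φ)) = _
    have h1 := (oproj_mem Z (n φ)).2
    rw [Submodule.mem_bot] at h1
    rw [map_sub, h1, sub_zero, hrel]
  have huniq : ∀ f f' : Emb L → ℚ, OddQ f → OddQ f' → oproj Z f = 0 → oproj Z f' = 0 →
      relMap x f = relMap x f' → f = f' := by
    intro f f' h1 h2 h3 h4 h5
    have h6 : f - f' ∈ Z := by
      refine ⟨fun y => ?_, ?_⟩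
      · rw [Pi.sub_apply, Pi.sub_apply, h1, h2]
        ring
      · rw [Submodule.mem_bot, map_sub, h5, sub_self]
    have h7 := oproj_eq Z h6
    rw [map_sub, h3, h4, sub_zero] at h7
    exact (sub_eq_zero.1 h7.symm)
  have hinv : ∀ (τ : ℂ ≃+* ℂ) (φ : E →+* ℂ),
      (fun y => t ((τ : ℂ →+* ℂ).comp φ) (act τ y)) = t φ := by
    intro τ φ
    refine huniq _ _ (fun y => ?_) (htodd φ) ?_ (htP φ) ?_
    · rw [act_bar, htodd]
    · rw [hP, htP]
      rfl
    · rw [relMap_act, htrel, htrel]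
      funext σ
      have h1 : ((τ.symm.trans σ : ℂ ≃+* ℂ) : ℂ →+* ℂ).comp ((τ : ℂ →+* ℂ).comp φ) =
          (σ : ℂ →+* ℂ).comp φ := by
        ext z
        change σ (τ.symm (τ (φ z))) = σ (φ z)
        rw [RingEquiv.symm_apply_apply]
      exact congrArg v h1
  refine ⟨t, fun τ φ y => congrFun (hinv τ φ) y, fun φ y => htodd φ y, fun φ y hun => ?_,
    fun φ => ?_⟩
  · -- unrelated fields
    have htbar : t (ComplexEmbedding.conjugate φ) = - t φ := by
      refine huniq _ _ (htodd _) (fun y => ?_) (htP _) ?_ ?_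
      · rw [Pi.neg_apply, Pi.neg_apply, htodd]
      · rw [map_neg, htP, neg_zero]
      · rw [map_neg, htrel, htrel]
        funext σ
        rw [QC.comp_conj σ φ, hodd]
        rfl
    let T : ((E →+* ℂ) → ℚ) →ₗ[ℚ] ((L y.1 →+* ℂ) → ℚ) :=
      { toFun := fun m ψ => ∑ φ, m φ * t φ ⟨y.1, ψ⟩
        map_add' := fun m m' => by
          funext ψ
          rw [Pi.add_apply, ← Finset.sum_add_distrib]
          exact Finset.sum_congr rfl fun φ _ => by rw [Pi.add_apply, add_mul]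
        map_smul' := fun c m => by
          funext ψ
          rw [RingHom.id_apply, Pi.smul_apply, smul_eq_mul, Finset.mul_sum]
          exact Finset.sum_congr rfl fun φ _ => by rw [Pi.smul_apply, smul_eq_mul, mul_assoc] }
    have hT := hun T (by
      intro τ m ψ
      let e : Equiv.Perm (E →+* ℂ) :=
        { toFun := fun φ => (τ : ℂ →+* ℂ).comp φ
          invFun := fun φ => (τ.symm : ℂ →+* ℂ).comp φ
          left_inv := fun φ => by ext z; simp
          right_inv := fun φ => by ext z; simp }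
      change ∑ φ, m ((τ : ℂ →+* ℂ).comp φ) * t φ ⟨y.1, ψ⟩ =
        ∑ φ, m φ * t φ ⟨y.1, (τ : ℂ →+* ℂ).comp ψ⟩
      refine Fintype.sum_equiv e _ _ fun φ => ?_
      have h1 := congrFun (hinv τ φ) ⟨y.1, ψ⟩
      change t ((τ : ℂ →+* ℂ).comp φ) ⟨y.1, (τ : ℂ →+* ℂ).comp ψ⟩ = t φ ⟨y.1, ψ⟩ at h1
      change _ = m ((τ : ℂ →+* ℂ).comp φ) * t ((τ : ℂ →+* ℂ).comp φ)
        ⟨y.1, (τ : ℂ →+* ℂ).comp ψ⟩
      rw [h1]) (by
      intro m ψ
      change ∑ φ, m φ * t φ ⟨y.1, ComplexEmbedding.conjugate ψ⟩ = -∑ φ, m φ * t φ ⟨y.1, ψ⟩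
      rw [← Finset.sum_neg_distrib]
      refine Finset.sum_congr rfl fun φ _ => ?_
      have h1 := htodd φ ⟨y.1, ψ⟩
      change t φ ⟨y.1, ComplexEmbedding.conjugate ψ⟩ = - t φ ⟨y.1, ψ⟩ at h1
      rw [h1, mul_neg]) (dd φ) (dd_odd φ)
    have h1 := congrFun hT y.2
    change ∑ φ', dd φ φ' * t φ' ⟨y.1, y.2⟩ = 0 at h1
    rw [sum_ddQ φ (fun φ' => t φ' ⟨y.1, y.2⟩), htbar] at h1
    have h2 : t φ y - - t φ y = 0 := h1
    linarith
  · have h1 := congrFun (htrel φ) (RingEquiv.refl ℂ)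
    rw [relMap_apply] at h1
    have h2 : ((RingEquiv.refl ℂ : ℂ ≃+* ℂ) : ℂ →+* ℂ).comp φ = φ := by
      ext z
      rfl
    rw [h2] at h1
    rw [← h1]
    rfl

/-- A value of an odd relation is odd. -/
theorem relMap_star (x : Emb L → ℝ) (n : Emb L → ℚ) (hn : OddQ n) (σ : ℂ ≃+* ℂ) :
    relMap x n ((starRingAut : ℂ ≃+* ℂ).trans σ) = - relMap x n σ := by
  have h1 := congrFun (relMap_act' x n (starRingAut : ℂ ≃+* ℂ)) σ
  have h2 : (fun y => n (act (starRingAut : ℂ ≃+* ℂ).symm y)) = - n := by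
    funext y
    have h3 : act (starRingAut : ℂ ≃+* ℂ).symm y = Pool.Agent.V1168.EV.bar y := by
      rw [← act_symm_symm, Equiv.symm_apply_eq, act_star, bar_bar]
    rw [h3, hn, Pi.neg_apply]
  rw [← h1, h2, map_neg, Pi.neg_apply]

end comb2

section span

/-- A finite set of nonzero vectors stable under the sign. -/
theorem two_finrank_le {M : Type*} [AddCommGroup M] [Module ℚ M] [DecidableEq M] (S : Finset M) :
    (∀ x ∈ S, x ≠ 0) → (∀ x ∈ S, -x ∈ S) → 2 * finrank ℚ (Submodule.span ℚ (S : Set M)) ≤ S.card := by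
  induction S using Finset.strongInduction with
  | H S ih =>
    intro h0 hneg
    rcases S.eq_empty_or_nonempty with rfl | ⟨x, hx⟩
    · rw [Finset.coe_empty, Submodule.span_empty, finrank_bot]
      simp
    · have hxne : x ≠ -x := by
        intro h
        apply h0 x hx
        have h1 : (2 : ℚ) • x = 0 := by
          rw [two_smul]
          nth_rewrite 2 [h]
          exact add_neg_cancel x
        exact (smul_eq_zero.1 h1).resolve_left two_ne_zero
      let S' : Finset M := (S.erase x).erase (-x)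
      have hmem : ∀ y, y ∈ S' ↔ y ≠ -x ∧ y ≠ x ∧ y ∈ S := by
        intro y
        rw [Finset.mem_erase, Finset.mem_erase]
      have hcard : S'.card + 2 = S.card := by
        have h1 : (S.erase x).card + 1 = S.card := Finset.card_erase_add_one hx
        have h2 : S'.card + 1 = (S.erase x).card :=
          Finset.card_erase_add_one (Finset.mem_erase.2 ⟨hxne.symm, hneg x hx⟩)
        omega
      have hlt : S' ⊂ S := by
        refine ⟨fun y hy => ((hmem y).1 hy).2.2, fun h => ?_⟩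
        exact ((hmem x).1 (h hx)).2.1 rfl
      have h1 := ih S' hlt (fun y hy => h0 y ((hmem y).1 hy).2.2) (fun y hy => by
        obtain ⟨h1, h2, h3⟩ := (hmem y).1 hy
        exact (hmem _).2 ⟨fun h => h2 (neg_injective h), fun h => h1 (by rw [← h, neg_neg]),
          hneg y h3⟩)
      have h2 : Submodule.span ℚ (S : Set M) ≤
          Submodule.span ℚ (S' : Set M) ⊔ Submodule.span ℚ {x} := by
        rw [Submodule.span_le]
        intro y hy
        by_cases hyx : y = x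
        · rw [hyx]
          exact Submodule.mem_sup_right (Submodule.mem_span_singleton_self x)
        · by_cases hyx' : y = -x
          · rw [hyx']
            exact Submodule.neg_mem _ (Submodule.mem_sup_right (Submodule.mem_span_singleton_self x))
          · exact Submodule.mem_sup_left (Submodule.subset_span ((hmem y).2 ⟨hyx', hyx, hy⟩))
      have hfd : FiniteDimensional ℚ (Submodule.span ℚ (S' : Set M)) :=
        FiniteDimensional.span_finset ℚ S'
      have h3 := Submodule.finrank_mono h2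
      have h4 := Submodule.finrank_add_le_finrank_add_finrank (Submodule.span ℚ (S' : Set M))
        (Submodule.span ℚ {x})
      have h5 : finrank ℚ (Submodule.span ℚ ({x} : Set M)) ≤ 1 := by
        have h6 := finrank_span_le_card (R := ℚ) ({x} : Set M)
        rwa [Set.toFinset_singleton, Finset.card_singleton] at h6
      omega

end span

section main

/-- The types as a real function. -/
noncomputable def rd (d : (ℂ ≃+* ℂ) → ℤ) : (ℂ ≃+* ℂ) → ℝ := fun σ => (d σ : ℝ)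

theorem rd_inj {d d' : (ℂ ≃+* ℂ) → ℤ} (h : rd d = rd d') : d = d' := by
  funext σ
  have h1 : (d σ : ℝ) = (d' σ : ℝ) := congrFun h σ
  exact_mod_cast h1

theorem rd_eq_zero {d : (ℂ ≃+* ℂ) → ℤ} (h : rd d = 0) : d = 0 := by
  refine rd_inj (h.trans ?_)
  funext σ
  change (0 : ℝ) = ((0 : ℤ) : ℝ)
  rw [Int.cast_zero]

variable {I : Type} {K : I → Type} [∀ i, Field (K i)]
  [∀ i, NumberField (K i)] [∀ i, IsCMField (K i)]

/-- The function `d` is the value of a relation for a family of functions on the embeddings. -/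
def Reached (K : I → Type) [∀ i, Field (K i)]
    [∀ i, NumberField (K i)] [∀ i, IsCMField (K i)] (d : (ℂ ≃+* ℂ) → ℤ) : Prop :=
  d ≠ 0 ∧ ∃ (J : Type) (_ : Fintype J) (b : J → I) (x : ∀ j, (K (b j) →+* ℂ) → ℤ)
    (n : Emb (fun j => K (b j)) → ℚ), OddQ n ∧ relMap (rx x) n = rd d

theorem Reached.exists_vector {d : (ℂ ≃+* ℂ) → ℤ}
    (h : Reached K d) : ∃ e : Σ i, ((K i →+* ℂ) → ℝ), e.2 ≠ 0 ∧
      (∀ φ, e.2 (ComplexEmbedding.conjugate φ) = - e.2 φ) ∧
      ∀ φ, (fun σ : ℂ ≃+* ℂ => e.2 ((σ : ℂ →+* ℂ).comp φ)) ∈ transSpan (rd d) := by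
  obtain ⟨hd, J, hJ, b, x, n, hn, hrel⟩ := h
  obtain ⟨j, v, h1, h2, h3⟩ := Pool.Agent.H855.CM.exists_vector (L := fun j => K (b j))
    (rx x) n hn (by
      rw [hrel]
      exact fun h => hd (rd_eq_zero h))
  rw [hrel] at h3
  exact ⟨⟨b j, v⟩, h1, h2, h3⟩

theorem Reached.star {d : (ℂ ≃+* ℂ) → ℤ} (h : Reached K d) (τ : ℂ ≃+* ℂ) :
    (fun σ : ℂ ≃+* ℂ => d (τ.trans ((starRingAut : ℂ ≃+* ℂ).trans σ))) =
      fun σ => - d (τ.trans σ) := by
  obtain ⟨hd, J, hJ, b, x, n, hn, hrel⟩ := h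
  funext σ
  let n' : Emb (fun j => K (b j)) → ℚ := fun y => n (act τ.symm y)
  have hn' : OddQ n' := by
    intro y
    change n (act τ.symm (Pool.Agent.V1168.EV.bar y)) = - n (act τ.symm y)
    rw [act_bar, hn]
  have h1 : relMap (rx x) n' = fun σ => rd d (τ.trans σ) := by
    rw [← hrel]
    exact relMap_act' (rx x) n τ
  have h2 := relMap_star (rx x) n' hn' σ
  rw [h1] at h2
  have h3 : ((d (τ.trans ((starRingAut : ℂ ≃+* ℂ).trans σ)) : ℤ) : ℝ) = -((d (τ.trans σ) : ℤ) : ℝ) := h2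
  exact_mod_cast h3

/-- Translated functions. -/
def transSetoid : Setoid ((ℂ ≃+* ℂ) → ℤ) where
  r d d' := ∃ τ : ℂ ≃+* ℂ, (fun σ => d (τ.trans σ)) = d'
  iseqv := ⟨fun d => ⟨RingEquiv.refl ℂ, rfl⟩, fun {d d'} ⟨τ, h⟩ => ⟨τ.symm, by
      funext σ
      rw [← h]
      change d (τ.trans (τ.symm.trans σ)) = d σ
      congr 1
      ext z
      change σ (τ.symm (τ z)) = σ z
      rw [RingEquiv.symm_apply_apply]⟩,
    fun ⟨τ, h⟩ ⟨τ', h'⟩ => ⟨τ.trans τ', by rw [← h', ← h]; rfl⟩⟩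

/-- A representative of the translates. -/
noncomputable def rep (d : (ℂ ≃+* ℂ) → ℤ) : (ℂ ≃+* ℂ) → ℤ :=
  Quotient.out (Quotient.mk transSetoid d)

theorem rep_trans (d : (ℂ ≃+* ℂ) → ℤ) : ∃ τ : ℂ ≃+* ℂ, (fun σ => rep d (τ.trans σ)) = d :=
  Quotient.exact (Quotient.out_eq (Quotient.mk transSetoid d))

theorem rep_trans' (d : (ℂ ≃+* ℂ) → ℤ) : ∃ τ : ℂ ≃+* ℂ, (fun σ => d (τ.trans σ)) = rep d := by
  obtain ⟨τ, h⟩ := rep_trans d
  exact (transSetoid.symm ⟨τ, h⟩)

theorem rep_eq {d d' : (ℂ ≃+* ℂ) → ℤ} (τ : ℂ ≃+* ℂ) (h : (fun σ => d (τ.trans σ)) = d') :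
    rep d = rep d' := by
  unfold rep
  rw [show Quotient.mk transSetoid d = Quotient.mk transSetoid d' from Quotient.sound ⟨τ, h⟩]

theorem rep_rep (d : (ℂ ≃+* ℂ) → ℤ) : rep (rep d) = rep d := by
  obtain ⟨τ, h⟩ := rep_trans d
  exact rep_eq τ h

open Classical in
/-- **The general theorem on exceptional vectors.** -/
theorem exists_vectorsX {B : Type} [Fintype B] (K : I → Type) [∀ i, Field (K i)]
    [∀ i, NumberField (K i)] [∀ i, IsCMField (K i)] (m : I → ℕ)
    (hm : ∀ i, IsLowerBound (K i) (m i)) (Y : HodgeSpace B) :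
    ∃ E : Finset (Σ i, ((K i →+* ℂ) → ℝ)), IsSmallFor (fun i => 2 * m i) Y E ∧
      ∀ (J : Type) [Fintype J] (b : J → I) (x : ∀ j, (K (b j) →+* ℂ) → ℤ),
        (∀ e ∈ E, ¬ IsComb x e.2) → ∀ d ∈ typeSet Y,
        ∀ n : Emb (fun j => K (b j)) → ℚ, OddQ n → relMap (rx x) n ≠ rd d := by
  classical
  have hvec : ∀ β : {d : (ℂ ≃+* ℂ) → ℤ // Reached K d}, ∃ e : Σ i, ((K i →+* ℂ) → ℝ),
      e.2 ≠ 0 ∧ (∀ φ, e.2 (ComplexEmbedding.conjugate φ) = - e.2 φ) ∧
      ∀ φ, (fun σ : ℂ ≃+* ℂ => e.2 ((σ : ℂ →+* ℂ).comp φ)) ∈ transSpan (rd β.1) :=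
    fun β => β.2.exists_vector
  choose e he0 heodd he using hvec
  let D : Finset ((ℂ ≃+* ℂ) → ℤ) := (typeSet_finite Y).toFinset
  have hD : ∀ d, d ∈ D ↔ d ∈ typeSet Y := fun d => Set.Finite.mem_toFinset _
  let D₀ : Finset ((ℂ ≃+* ℂ) → ℤ) := D.image rep
  let C : Finset {d : (ℂ ≃+* ℂ) → ℤ // Reached K d} := D₀.subtype fun d => Reached K d
  have hrep : ∀ d ∈ D, rep d ∈ D := by
    intro d hd
    obtain ⟨τ, hτ⟩ := rep_trans' d
    rw [← hτ, hD]
    exact typeSet_trans ((hD d).1 hd) τ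
  have hC : ∀ β ∈ C, β.1 ∈ D ∧ rep β.1 = β.1 := by
    intro β hβ
    have h1 : β.1 ∈ D₀ := Finset.mem_subtype.1 hβ
    obtain ⟨γ, hγ, h2⟩ := Finset.mem_image.1 h1
    rw [← h2]
    exact ⟨hrep γ hγ, rep_rep γ⟩
  -- the weights
  have hweight : ∀ β ∈ C, 2 * m (e β).1 ≤ (D.filter fun γ => rep γ = β.1).card := by
    intro β hβ
    obtain ⟨h1, h2⟩ := hC β hβ
    set O : Finset ((ℂ ≃+* ℂ) → ℤ) := D.filter fun γ => rep γ = β.1 with hO
    let S : Finset ((ℂ ≃+* ℂ) → ℝ) := O.image rd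
    have hOt : ∀ γ ∈ O, ∃ τ : ℂ ≃+* ℂ, (fun σ => β.1 (τ.trans σ)) = γ := by
      intro γ hγ
      obtain ⟨h3, h4⟩ := Finset.mem_filter.1 hγ
      obtain ⟨τ, hτ⟩ := rep_trans γ
      rw [h4] at hτ
      exact ⟨τ, hτ⟩
    have hOt' : ∀ τ : ℂ ≃+* ℂ, (fun σ => β.1 (τ.trans σ)) ∈ O := by
      intro τ
      refine Finset.mem_filter.2 ⟨(hD _).2 (typeSet_trans ((hD _).1 h1) τ), ?_⟩
      rw [← rep_eq τ rfl, h2]
    have hS0 : ∀ f ∈ S, f ≠ 0 := by
      intro f hf hf0
      obtain ⟨γ, hγ, rfl⟩ := Finset.mem_image.1 hf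
      exact ((hD γ).1 (Finset.mem_filter.1 hγ).1).1 (rd_eq_zero hf0)
    have hSneg : ∀ f ∈ S, -f ∈ S := by
      intro f hf
      obtain ⟨γ, hγ, rfl⟩ := Finset.mem_image.1 hf
      obtain ⟨τ, hτ⟩ := hOt γ hγ
      have h5 := β.2.star τ
      refine Finset.mem_image.2 ⟨_, hOt' (τ.trans (starRingAut : ℂ ≃+* ℂ)), ?_⟩
      funext σ
      change ((β.1 ((τ.trans (starRingAut : ℂ ≃+* ℂ)).trans σ) : ℤ) : ℝ) = -((γ σ : ℤ) : ℝ)
      have h6 := congrFun h5 σ
      have h7 : (τ.trans (starRingAut : ℂ ≃+* ℂ)).trans σ =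
          τ.trans ((starRingAut : ℂ ≃+* ℂ).trans σ) := rfl
      rw [h7, ← hτ]
      exact_mod_cast h6
    have hfd : FiniteDimensional ℚ (Submodule.span ℚ (S : Set ((ℂ ≃+* ℂ) → ℝ))) :=
      FiniteDimensional.span_finset ℚ S
    have hle : transSpan (rd β.1) ≤ Submodule.span ℚ (S : Set ((ℂ ≃+* ℂ) → ℝ)) := by
      refine Submodule.span_le.2 ?_
      rintro _ ⟨τ, rfl⟩
      exact Submodule.subset_span (Finset.mem_coe.2 (Finset.mem_image.2 ⟨_, hOt' τ, rfl⟩))
    have h3 := lowerBound_le (hm (e β).1) (e β).2 (he0 β) (heodd β)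
      (Submodule.span ℚ (S : Set ((ℂ ≃+* ℂ) → ℝ))) (fun φ => hle (he β φ))
    have h4 := two_finrank_le S hS0 hSneg
    have h5 : S.card ≤ O.card := Finset.card_image_le
    omega
  refine ⟨C.image e, ⟨fun v hv => ?_, ?_⟩, ?_⟩
  · obtain ⟨β, hβ, rfl⟩ := Finset.mem_image.1 hv
    obtain ⟨-, u, hu, hud⟩ := (hD _).1 (hC β hβ).1
    exact ⟨he0 β, heodd β, u, β.1, hu, hud, he β⟩
  · have h1 : ∑ v ∈ C.image e, 2 * m v.1 ≤ D.card := by
      refine (Finset.sum_image_le_of_nonneg (s := C) (g := e) (f := fun v => 2 * m v.1)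
        (fun _ _ => Nat.zero_le _)).trans ?_
      refine (Finset.sum_le_sum hweight).trans ?_
      have h1 : ∑ β ∈ C, (D.filter fun γ => rep γ = β.1).card ≤
          ∑ β ∈ D₀, (D.filter fun γ => rep γ = β).card := by
        rw [Finset.sum_subtype_eq_sum_filter (f := fun β => (D.filter fun γ => rep γ = β).card)]
        exact Finset.sum_le_sum_of_subset (Finset.filter_subset _ _)
      refine h1.trans ?_
      rw [← Finset.card_eq_sum_card_image rep D]
    have h2 := card_types Y D (fun d hd => (hD d).1 hd)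
    exact (Nat.add_le_add_right h1 _).trans h2
  · intro J _ b x hcomb d hd n hn hrel
    -- the representative
    obtain ⟨θ, hθ⟩ := rep_trans d
    have hg : relMap (rx x) n = fun σ => rd (rep d) (θ.trans σ) := by
      rw [hrel]
      funext σ
      have h1 : d σ = rep d (θ.trans σ) := (congrFun hθ σ).symm
      change ((d σ : ℤ) : ℝ) = ((rep d (θ.trans σ) : ℤ) : ℝ)
      rw [h1]
    -- the translated relation
    let n' : Emb (fun j => K (b j)) → ℚ := fun y => n (act θ y)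
    have hn' : OddQ n' := by
      intro y
      change n (act θ (Pool.Agent.V1168.EV.bar y)) = - n (act θ y)
      rw [act_bar, hn]
    have hrel' : relMap (rx x) n' = rd (rep d) := by
      change relMap (rx x) (fun y => n (act θ y)) = _
      rw [relMap_act, hg]
      funext σ
      change rd (rep d) (θ.trans (θ.symm.trans σ)) = _
      congr 1
      ext z
      change σ (θ.symm (θ z)) = σ z
      rw [RingEquiv.symm_apply_apply]
    have hg0 : rep d ≠ 0 := ((hD _).1 (hrep d ((hD d).2 hd))).1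
    have hreach : Reached K (rep d) := ⟨hg0, J, inferInstance, b, x, n', hn', hrel'⟩
    have hmem : (⟨rep d, hreach⟩ : {d : (ℂ ≃+* ℂ) → ℤ // Reached K d}) ∈ C :=
      Finset.mem_subtype.2 (Finset.mem_image.2 ⟨d, (hD d).2 hd, rfl⟩)
    refine hcomb (e ⟨rep d, hreach⟩) (Finset.mem_image_of_mem e hmem) ?_
    exact isComb_of (L := fun j => K (b j)) x _ (heodd _) (rd (rep d)) (he ⟨rep d, hreach⟩)
      n' hn' hrel'

/-- The relation of a generated type. -/
theorem exists_relation {J : Type} [Fintype J] {L : J → Type} [∀ j, Field (L j)]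
    [∀ j, NumberField (L j)] [∀ j, IsCMField (L j)] (x : ∀ j, (L j →+* ℂ) → ℤ)
    (hx : ∀ j φ, x j (ComplexEmbedding.conjugate φ) = - x j φ) (d : (ℂ ≃+* ℂ) → ℤ) (N : ℕ)
    (m : (Σ j, (L j →+* ℂ)) → ℤ) (hN : 0 < N)
    (h : ∀ σ : ℂ ≃+* ℂ, (N : ℤ) * d σ = ∑ y, m y * x y.1 ((σ : ℂ →+* ℂ).comp y.2)) :
    ∃ n : Emb L → ℚ, OddQ n ∧ relMap (rx x) n = rd (-d) := by
  let n : Emb L → ℚ := fun y =>
    -((m y : ℚ) - (m (Pool.Agent.V1168.EV.bar y) : ℚ)) / (2 * N)
  refine ⟨n, fun y => ?_, ?_⟩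
  · change -((m (Pool.Agent.V1168.EV.bar y) : ℚ) -
      (m (Pool.Agent.V1168.EV.bar (Pool.Agent.V1168.EV.bar y)) : ℚ)) / (2 * N) =
      -(-((m y : ℚ) - (m (Pool.Agent.V1168.EV.bar y) : ℚ)) / (2 * N))
    rw [bar_bar]
    ring
  · funext σ
    have hN' : (N : ℝ) ≠ 0 := Nat.cast_ne_zero.2 hN.ne'
    have h1 : (N : ℝ) * (d σ : ℝ) = ∑ y : Emb L, (m y : ℝ) * rx x (act σ y) := by
      have h2 := congrArg (fun z : ℤ => (z : ℝ)) (h σ)
      simp only [Int.cast_mul, Int.cast_natCast, Int.cast_sum] at h2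
      exact h2
    have hodd : ∀ y : Emb L, rx x (Pool.Agent.V1168.EV.bar y) = - rx x y := by
      intro y
      change ((x y.1 (ComplexEmbedding.conjugate y.2) : ℤ) : ℝ) = -((x y.1 y.2 : ℤ) : ℝ)
      rw [hx]
      push_cast
      ring
    let eb : Equiv.Perm (Emb L) :=
      { toFun := Pool.Agent.V1168.EV.bar
        invFun := Pool.Agent.V1168.EV.bar
        left_inv := bar_bar
        right_inv := bar_bar }
    have h3 : ∑ y : Emb L, (m (Pool.Agent.V1168.EV.bar y) : ℝ) * rx x (act σ y) =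
        -∑ y : Emb L, (m y : ℝ) * rx x (act σ y) := by
      rw [← Finset.sum_neg_distrib]
      refine Fintype.sum_equiv eb _ _ fun y => ?_
      change _ = -((m (Pool.Agent.V1168.EV.bar y) : ℝ) * rx x (act σ (Pool.Agent.V1168.EV.bar y)))
      rw [act_bar, hodd]
      ring
    rw [relMap_apply]
    have h4 : ∀ y : Emb L, (n y : ℝ) * rx x (act σ y) = -(1 / (2 * N)) *
        ((m y : ℝ) * rx x (act σ y) - (m (Pool.Agent.V1168.EV.bar y) : ℝ) * rx x (act σ y)) := by
      intro y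
      simp only [n]
      push_cast
      ring
    rw [Finset.sum_congr rfl fun y _ => h4 y, ← Finset.mul_sum, Finset.sum_sub_distrib, h3, ← h1]
    change _ = (((-d) σ : ℤ) : ℝ)
    rw [Pi.neg_apply, Int.cast_neg]
    field_simp
    ring

/-- **The general theorem.** -/
theorem exists_vectors {B : Type} [Fintype B] (K : I → Type) [∀ i, Field (K i)]
    [∀ i, NumberField (K i)] [∀ i, IsCMField (K i)] (w : I → ℕ) (hw : ∀ i, IsWeight (K i) (w i))
    (Y : HodgeSpace B) :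
    ∃ E : Finset (Σ i, ((K i →+* ℂ) → ℝ)), IsSmallFor w Y E ∧
      ∀ P : ∀ (A : Type) [Fintype A], HodgeSpace A → Prop,
        (∀ (A : Type) [Fintype A] (X : HodgeSpace A), IsHodgeOfProducts X Y → P A X) →
          ForAllOfCMType K E P := by
  choose m hm hwm using fun i => (hw i).exists_lower
  obtain ⟨E, hE, h⟩ := exists_vectorsX K m hm Y
  refine ⟨E, ?_, fun P hP J _ b x hx hcomb A _ X hX hgen => ?_⟩
  · rw [show w = fun i => 2 * m i from funext hwm]
    exact hE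
  refine hP A X (isHodgeOfProducts hX fun u v d hu hv hud hvd => ?_)
  by_contra hd
  obtain ⟨N, mm, hN, hsum⟩ := hgen u d hu hud
  obtain ⟨n, hn, hrel⟩ := exists_relation x hx d N mm hN hsum
  refine h J b x hcomb (-d) ⟨neg_ne_zero.2 hd, v, hv, hvd⟩ n hn hrel

end main

end Pool.Agent.H855.HG
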