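import Mathlib
import Pool.Agent.H855.HG.AbsDefs

/-!
# Absolute Hodge classes on products
-/

set_option autoImplicit false
set_option linter.unusedSectionVars false
set_option linter.unusedVariables false

namespace Pool.Agent.H855.HG

open Matrix Module

section gen

variable {A B : Type} [Fintype A] [Fintype B]

theorem rv_injective {Q : Type} [CommRing Q] [Algebra ℚ Q] [Nontrivial Q] {x y : B → ℚ}
    (h : rv Q x = rv Q y) : x = y := by
  funext b
  exact (algebraMap ℚ Q).injective (congrFun h b)

theorem rv_zero {Q : Type} [CommRing Q] [Algebra ℚ Q] : rv Q (0 : B → ℚ) = 0 := by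
  funext b
  exact map_zero _

theorem cross_inj_left {x : A → ℂ} {y : B → ℂ} (hy : y ≠ 0) (h : cross x y = 0) : x = 0 := by
  obtain ⟨b, hb⟩ := Function.ne_iff.1 hy
  funext a
  have h1 : x a * y b = 0 := congrFun h (a, b)
  exact (mul_eq_zero.1 h1).resolve_right hb

theorem cross_inj_right {x : A → ℂ} {y : B → ℂ} (hx : x ≠ 0) (h : cross x y = 0) : y = 0 := by
  obtain ⟨a, ha⟩ := Function.ne_iff.1 hx
  funext b
  have h1 : x a * y b = 0 := congrFun h (a, b)
  exact (mul_eq_zero.1 h1).resolve_left ha

theorem cv_ne {x : B → ℚ} (h : x ≠ 0) : cv x ≠ 0 := by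
  intro h'
  apply h
  funext b
  have h1 : ((x b : ℚ) : ℂ) = 0 := congrFun h' b
  exact_mod_cast h1

theorem cv_cross (x : A → ℚ) (y : B → ℚ) : cv (cross x y) = cross (cv x) (cv y) := by
  funext p
  exact Rat.cast_mul _ _

/-- If a product is a Hodge class and one factor is a nonzero Hodge class so is the other. -/
theorem hodge_left {V : HodgeSpace A} {W : HodgeSpace B} {i j : ℕ} {x : A → ℚ} {y : B → ℚ}
    (hy : y ∈ W.hodgeIn j) (hy0 : y ≠ 0) (h : cross x y ∈ (V.prod W).hodgeIn (i + j)) :
    x ∈ V.hodgeIn i := by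
  obtain ⟨h1, h2⟩ := h
  constructor
  · have h3 : prodOp V.op W.op *ᵥ cv (cross x y) = 0 := h1
    rw [cv_cross, prodOp_cross, show W.op *ᵥ cv y = 0 from hy.1] at h3
    have h4 : cross (V.op *ᵥ cv x) (cv y) = 0 := by
      rw [← h3]
      funext p
      simp [cross]
    exact cross_inj_left (cv_ne hy0) h4
  · intro a ha
    obtain ⟨b, hb⟩ := Function.ne_iff.1 hy0
    have hbd : W.deg b = 2 * j := by
      by_contra hne
      exact hb (hy.2 b hne)
    have h3 : x a * y b = 0 := h2 (a, b) (by
      change V.deg a + W.deg b ≠ 2 * (i + j)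
      omega)
    exact (mul_eq_zero.1 h3).resolve_right hb

theorem hodge_right {V : HodgeSpace A} {W : HodgeSpace B} {i j : ℕ} {x : A → ℚ} {y : B → ℚ}
    (hx : x ∈ V.hodgeIn i) (hx0 : x ≠ 0) (h : cross x y ∈ (V.prod W).hodgeIn (i + j)) :
    y ∈ W.hodgeIn j := by
  obtain ⟨h1, h2⟩ := h
  constructor
  · have h3 : prodOp V.op W.op *ᵥ cv (cross x y) = 0 := h1
    rw [cv_cross, prodOp_cross, show V.op *ᵥ cv x = 0 from hx.1] at h3
    have h4 : cross (cv x) (W.op *ᵥ cv y) = 0 := by
      rw [← h3]
      funext p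
      simp [cross]
    exact cross_inj_right (cv_ne hx0) h4
  · intro b hb
    obtain ⟨a, ha⟩ := Function.ne_iff.1 hx0
    have had : V.deg a = 2 * i := by
      by_contra hne
      exact ha (hx.2 a hne)
    have h3 : x a * y b = 0 := h2 (a, b) (by
      change V.deg a + W.deg b ≠ 2 * (i + j)
      omega)
    exact (mul_eq_zero.1 h3).resolve_left ha

end gen

section abs

variable {S T : Type} {R : T → Type} [∀ t, CommRing (R t)] [∀ t, Algebra ℚ (R t)]
  {A B : Type} [Fintype A] [Fintype B] {X : Conjugates S T R A} {Y : Conjugates S T R B}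
  {tw : ∀ (_ : S) (t : T), (R t)ˣ}

theorem one_abs : Y.one ∈ Y.absIn tw 0 := by
  refine ⟨Y.one_mem, fun s => ⟨Y.oneC s, Y.oneC_mem s, fun t => ?_⟩⟩
  rw [pow_zero, one_smul]
  exact Y.map_one s t

theorem cross_abs {i j : ℕ} {x : A → ℚ} {y : B → ℚ} (hx : x ∈ X.absIn tw i)
    (hy : y ∈ Y.absIn tw j) : cross x y ∈ (X.prod Y).absIn tw (i + j) := by
  refine ⟨cross_hodge hx.1 hy.1, fun s => ?_⟩
  obtain ⟨x', hx', h1⟩ := hx.2 s
  obtain ⟨y', hy', h2⟩ := hy.2 s
  refine ⟨cross x' y', cross_hodge hx' hy', fun t => ?_⟩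
  change _ • (Matrix.kroneckerMap (· * ·) (X.map s t) (Y.map s t) *ᵥ rv (R t) (cross x y)) = _
  rw [rv_cross, kron_cross, rv_cross, ← h1, ← h2]
  funext p
  simp only [cross, Pi.smul_apply, smul_eq_mul]
  ring

/-- The conjugate of a nonzero class is not zero. -/
theorem conj_ne [Nonempty T] [∀ t, Nontrivial (R t)] {j : ℕ} {y y' : B → ℚ} {s : S} (hy : y ≠ 0)
    (h : ∀ t, ((tw s t : R t) ^ j) • (Y.map s t *ᵥ rv (R t) y) = rv (R t) y') : y' ≠ 0 := by
  rintro rfl
  obtain ⟨t⟩ := (inferInstance : Nonempty T)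
  have h1 := h t
  rw [rv_zero] at h1
  have h2 : Y.map s t *ᵥ rv (R t) y = 0 := by
    have h3 : IsUnit ((tw s t : R t) ^ j) := (tw s t).isUnit.pow j
    obtain ⟨u, hu⟩ := h3
    rw [← hu] at h1
    have h4 := congrArg (fun z => ((u⁻¹ : (R t)ˣ) : R t) • z) h1
    simp only [smul_smul, Units.inv_mul, one_smul, smul_zero] at h4
    exact h4
  have h3 := Y.injective s t _ h2
  exact hy (rv_injective (h3.trans rv_zero.symm))

theorem abs_left [Nonempty T] [∀ t, Nontrivial (R t)] {i j : ℕ} {x : A → ℚ} {y : B → ℚ}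
    (hy : y ∈ Y.absIn tw j) (hy0 : y ≠ 0) (h : cross x y ∈ (X.prod Y).absIn tw (i + j)) :
    x ∈ X.absIn tw i := by
  refine ⟨hodge_left hy.1 hy0 h.1, fun s => ?_⟩
  obtain ⟨y', hy', h2⟩ := hy.2 s
  obtain ⟨z, hz, h3⟩ := h.2 s
  have hy'0 : y' ≠ 0 := conj_ne hy0 h2
  obtain ⟨b, hb⟩ := Function.ne_iff.1 hy'0
  have hb : y' b ≠ 0 := hb
  let x' : A → ℚ := fun a => z (a, b) / y' b
  have hx' : ∀ t, ((tw s t : R t) ^ i) • (X.map s t *ᵥ rv (R t) x) = rv (R t) x' := by
    intro t
    have h4 : ((tw s t : R t) ^ (i + j)) •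
        (Matrix.kroneckerMap (· * ·) (X.map s t) (Y.map s t) *ᵥ rv (R t) (cross x y)) =
        rv (R t) z := h3 t
    rw [rv_cross, kron_cross] at h4
    funext a
    have h5 := congrFun h4 (a, b)
    have h6 := congrFun (h2 t) b
    simp only [cross, Pi.smul_apply, smul_eq_mul, rv] at h5 h6 ⊢
    have h7 : ((tw s t : R t) ^ i * (X.map s t *ᵥ rv (R t) x) a) * algebraMap ℚ (R t) (y' b) =
        algebraMap ℚ (R t) (z (a, b)) := by
      rw [← h5, ← h6]
      ring
    have h8 : algebraMap ℚ (R t) (z (a, b)) =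
        algebraMap ℚ (R t) (x' a) * algebraMap ℚ (R t) (y' b) := by
      rw [← map_mul]
      congr 1
      change z (a, b) = z (a, b) / y' b * y' b
      rw [div_mul_cancel₀ _ hb]
    rw [h8] at h7
    have h9 : IsUnit (algebraMap ℚ (R t) (y' b)) := (isUnit_iff_ne_zero.2 hb).map _
    exact h9.mul_right_cancel h7
  refine ⟨x', ?_, hx'⟩
  have hzx : z = cross x' y' := by
    obtain ⟨t⟩ := (inferInstance : Nonempty T)
    have h4 : ((tw s t : R t) ^ (i + j)) •
        (Matrix.kroneckerMap (· * ·) (X.map s t) (Y.map s t) *ᵥ rv (R t) (cross x y)) =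
        rv (R t) z := h3 t
    rw [rv_cross, kron_cross] at h4
    refine rv_injective (Q := R t) ?_
    rw [← h4, rv_cross, ← hx' t, ← h2 t]
    funext p
    simp only [cross, Pi.smul_apply, smul_eq_mul]
    ring
  rw [hzx] at hz
  exact hodge_left hy' hy'0 hz

theorem abs_right [Nonempty T] [∀ t, Nontrivial (R t)] {i j : ℕ} {x : A → ℚ} {y : B → ℚ}
    (hx : x ∈ X.absIn tw i) (hx0 : x ≠ 0) (h : cross x y ∈ (X.prod Y).absIn tw (i + j)) :
    y ∈ Y.absIn tw j := by
  refine ⟨hodge_right hx.1 hx0 h.1, fun s => ?_⟩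
  obtain ⟨x', hx', h2⟩ := hx.2 s
  obtain ⟨z, hz, h3⟩ := h.2 s
  have hx'0 : x' ≠ 0 := conj_ne hx0 h2
  obtain ⟨a, ha⟩ := Function.ne_iff.1 hx'0
  have ha : x' a ≠ 0 := ha
  let y' : B → ℚ := fun b => z (a, b) / x' a
  have hy' : ∀ t, ((tw s t : R t) ^ j) • (Y.map s t *ᵥ rv (R t) y) = rv (R t) y' := by
    intro t
    have h4 : ((tw s t : R t) ^ (i + j)) •
        (Matrix.kroneckerMap (· * ·) (X.map s t) (Y.map s t) *ᵥ rv (R t) (cross x y)) =
        rv (R t) z := h3 t
    rw [rv_cross, kron_cross] at h4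
    funext b
    have h5 := congrFun h4 (a, b)
    have h6 := congrFun (h2 t) a
    simp only [cross, Pi.smul_apply, smul_eq_mul, rv] at h5 h6 ⊢
    have h7 : ((tw s t : R t) ^ j * (Y.map s t *ᵥ rv (R t) y) b) * algebraMap ℚ (R t) (x' a) =
        algebraMap ℚ (R t) (z (a, b)) := by
      rw [← h5, ← h6]
      ring
    have h8 : algebraMap ℚ (R t) (z (a, b)) =
        algebraMap ℚ (R t) (y' b) * algebraMap ℚ (R t) (x' a) := by
      rw [← map_mul]
      congr 1
      change z (a, b) = z (a, b) / x' a * x' a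
      rw [div_mul_cancel₀ _ ha]
    rw [h8] at h7
    have h9 : IsUnit (algebraMap ℚ (R t) (x' a)) := (isUnit_iff_ne_zero.2 ha).map _
    exact h9.mul_right_cancel h7
  refine ⟨y', ?_, hy'⟩
  have hzx : z = cross x' y' := by
    obtain ⟨t⟩ := (inferInstance : Nonempty T)
    have h4 : ((tw s t : R t) ^ (i + j)) •
        (Matrix.kroneckerMap (· * ·) (X.map s t) (Y.map s t) *ᵥ rv (R t) (cross x y)) =
        rv (R t) z := h3 t
    rw [rv_cross, kron_cross] at h4
    refine rv_injective (Q := R t) ?_
    rw [← h4, rv_cross, ← h2 t, ← hy' t]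
    funext p
    simp only [cross, Pi.smul_apply, smul_eq_mul]
    ring
  rw [hzx] at hz
  exact hodge_right hx' hx'0 hz

variable (X Y tw)

/-- **All Hodge classes on the product are absolute if and only if this is true for the factors.** -/
theorem allAbsolute_prod [Nonempty T] [∀ t, Nontrivial (R t)]
    (h : IsHodgeOfProducts X.coh Y.coh) :
    (X.prod Y).AllAbsolute tw ↔ X.AllAbsolute tw ∧ Y.AllAbsolute tw := by
  constructor
  · intro h1
    constructor
    · intro i x hx
      exact abs_left (one_abs (Y := Y)) Y.one_ne (h1 (i + 0) (cross_hodge hx Y.one_mem))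
    · intro j y hy
      refine abs_right (i := 0) (one_abs (Y := X)) X.one_ne (h1 (0 + j) (cross_hodge X.one_mem hy))
  · rintro ⟨h1, h2⟩ j
    refine (h j).trans (Submodule.span_le.2 ?_)
    rintro _ ⟨i, k, rfl, x, hx, y, hy, rfl⟩
    exact cross_abs (h1 i hx) (h2 k hy)

/-- **Codimension by codimension.** -/
theorem absolute_iff [Nonempty T] [∀ t, Nontrivial (R t)]
    (h : IsHodgeOfProducts X.coh Y.coh) (hX : X.AllAbsolute tw) (j : ℕ) :
    (X.coh.prod Y.coh).hodgeIn j ≤ (X.prod Y).absIn tw j ↔
      ∀ i k, i + k = j → X.coh.hodgeIn i ≠ ⊥ → Y.coh.hodgeIn k ≤ Y.absIn tw k := by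
  constructor
  · rintro h1 i k rfl hi y hy
    obtain ⟨x, hx, hx0⟩ := (Submodule.ne_bot_iff _).1 hi
    exact abs_right (hX i hx) hx0 (h1 (cross_hodge hx hy))
  · intro h1
    refine (h j).trans (Submodule.span_le.2 ?_)
    rintro _ ⟨i, k, rfl, x, hx, y, hy, rfl⟩
    by_cases hx0 : X.coh.hodgeIn i = ⊥
    · rw [hx0, Submodule.mem_bot] at hx
      rw [hx]
      have h2 : cross (0 : A → ℚ) y = 0 := by
        funext p
        exact zero_mul _
      change cross (0 : A → ℚ) y ∈ (X.prod Y).absIn tw (i + k)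
      rw [h2]
      exact Submodule.zero_mem _
    · exact cross_abs (hX i hx) (h1 i k rfl hx0 hy)

end abs

section comp

variable {A B : Type} [Fintype A] [Fintype B]

/-- The component of a class on a product which has degree `m` on the first factor. -/
def pc (deg : A → ℕ) (m : ℕ) : (A × B → ℚ) →ₗ[ℚ] (A × B → ℚ) where
  toFun z p := if deg p.1 = m then z p else 0
  map_add' z z' := by
    funext p
    simp only [Pi.add_apply]
    split_ifs <;> simp
  map_smul' c z := by
    funext p
    simp only [Pi.smul_apply, RingHom.id_apply]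
    split_ifs <;> simp

theorem pc_apply (deg : A → ℕ) (m : ℕ) (z : A × B → ℚ) (p : A × B) :
    pc deg m z p = if deg p.1 = m then z p else 0 := rfl

theorem pc_hodge {V : HodgeSpace A} {W : HodgeSpace B} {j : ℕ} {z : A × B → ℚ}
    (hz : z ∈ (V.prod W).hodgeIn j) (m : ℕ) : pc V.deg m z ∈ (V.prod W).hodgeIn j := by
  obtain ⟨h1, h2⟩ := hz
  constructor
  · change (V.prod W).op *ᵥ cv (pc V.deg m z) = 0
    funext p
    rw [prod_mulVec, Pi.zero_apply]
    have h3 := congrFun (show (V.prod W).op *ᵥ cv z = 0 from h1) p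
    rw [prod_mulVec, Pi.zero_apply] at h3
    by_cases hp : V.deg p.1 = m
    · rw [← h3]
      congr 1
      · refine Finset.sum_congr rfl fun a _ => ?_
        by_cases ha : V.deg a = m
        · change V.op p.1 a * (((if V.deg a = m then z (a, p.2) else 0 : ℚ)) : ℂ) = _
          rw [if_pos ha]
          rfl
        · rw [V.graded p.1 a (fun h => ha (by rw [← h, hp])), zero_mul, zero_mul]
      · refine Finset.sum_congr rfl fun b _ => ?_
        change W.op p.2 b * (((if V.deg p.1 = m then z (p.1, b) else 0 : ℚ)) : ℂ) = _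
        rw [if_pos hp]
        rfl
    · rw [Finset.sum_eq_zero, Finset.sum_eq_zero, add_zero]
      · intro b _
        change W.op p.2 b * (((if V.deg p.1 = m then z (p.1, b) else 0 : ℚ)) : ℂ) = 0
        rw [if_neg hp, Rat.cast_zero, mul_zero]
      · intro a _
        change V.op p.1 a * (((if V.deg a = m then z (a, p.2) else 0 : ℚ)) : ℂ) = 0
        by_cases ha : V.deg a = m
        · rw [V.graded p.1 a (fun h => hp (by rw [h, ha])), zero_mul]
        · rw [if_neg ha, Rat.cast_zero, mul_zero]
  · intro p hp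
    rw [pc_apply, h2 p hp, ite_self]

theorem pc_cross_same {V : HodgeSpace A} {i : ℕ} {x : A → ℚ} (hx : x ∈ V.hodgeIn i) (y : B → ℚ) :
    pc V.deg (2 * i) (cross x y) = cross x y := by
  funext p
  rw [pc_apply]
  by_cases h : V.deg p.1 = 2 * i
  · rw [if_pos h]
  · rw [if_neg h]
    change 0 = x p.1 * y p.2
    rw [hx.2 _ h, zero_mul]

theorem pc_cross_ne {V : HodgeSpace A} {i m : ℕ} {x : A → ℚ} (hx : x ∈ V.hodgeIn i) (y : B → ℚ)
    (hm : m ≠ 2 * i) : pc V.deg m (cross x y) = 0 := by
  funext p
  rw [pc_apply]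
  by_cases h : V.deg p.1 = m
  · rw [if_pos h]
    change x p.1 * y p.2 = 0
    rw [hx.2 _ (fun h' => hm (by rw [← h, h'])), zero_mul]
  · rw [if_neg h]
    rfl

variable {V : HodgeSpace A} {W : HodgeSpace B} {j : ℕ} {w : A × B → ℚ}

theorem sum_pc (hw : w ∈ Submodule.span ℚ {z | ∃ i k, i + k = j ∧
    ∃ x ∈ V.hodgeIn i, ∃ y ∈ W.hodgeIn k, z = cross x y}) :
    w = ∑ a ∈ Finset.range (j + 1), pc V.deg (2 * a) w := by
  classical
  induction hw using Submodule.span_induction with
  | mem w hw =>
    obtain ⟨i, k, rfl, x, hx, y, hy, rfl⟩ := hw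
    rw [Finset.sum_eq_single i, pc_cross_same hx]
    · intro a _ ha
      exact pc_cross_ne hx y (by omega)
    · intro h
      exact absurd (Finset.mem_range.2 (by omega)) h
  | zero => simp
  | add u v _ _ hu hv =>
    have h1 : ∑ a ∈ Finset.range (j + 1), pc V.deg (2 * a) (u + v) =
        ∑ a ∈ Finset.range (j + 1), pc V.deg (2 * a) u +
          ∑ a ∈ Finset.range (j + 1), pc V.deg (2 * a) v := by
      rw [← Finset.sum_add_distrib]
      exact Finset.sum_congr rfl fun a _ => map_add _ _ _
    rw [h1, ← hu, ← hv]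
  | smul c u _ hu =>
    have h1 : ∑ a ∈ Finset.range (j + 1), pc V.deg (2 * a) (c • u) =
        c • ∑ a ∈ Finset.range (j + 1), pc V.deg (2 * a) u := by
      rw [Finset.smul_sum]
      exact Finset.sum_congr rfl fun a _ => map_smul _ _ _
    rw [h1, ← hu]

theorem expand_pc {r a : ℕ} (e : Basis (Fin r) ℚ (V.hodgeIn a))
    (hw : w ∈ Submodule.span ℚ {z | ∃ i k, i + k = j ∧
    ∃ x ∈ V.hodgeIn i, ∃ y ∈ W.hodgeIn k, z = cross x y}) :
    ∃ c : Fin r → B → ℚ, (∀ l, c l ∈ W.hodgeIn (j - a)) ∧
      pc V.deg (2 * a) w = ∑ l, cross (e l : A → ℚ) (c l) := by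
  classical
  induction hw using Submodule.span_induction with
  | mem w hw =>
    obtain ⟨i, k, rfl, x, hx, y, hy, rfl⟩ := hw
    by_cases ha : a = i
    · subst ha
      refine ⟨fun l => e.repr ⟨x, hx⟩ l • y, fun l => ?_, ?_⟩
      · rw [show a + k - a = k by omega]
        exact Submodule.smul_mem _ _ hy
      · rw [pc_cross_same hx]
        have h1 := congrArg Subtype.val (e.sum_repr ⟨x, hx⟩)
        rw [Submodule.coe_sum] at h1
        funext p
        have h2 := congrFun h1 p.1
        rw [Finset.sum_apply] at h2 ⊢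
        change x p.1 * y p.2 = _
        have h3 : x p.1 = ∑ l, e.repr ⟨x, hx⟩ l * (e l : A → ℚ) p.1 := h2.symm
        rw [h3, Finset.sum_mul]
        refine Finset.sum_congr rfl fun l _ => ?_
        change _ = (e l : A → ℚ) p.1 * (e.repr ⟨x, hx⟩ l * y p.2)
        ring
    · refine ⟨0, fun l => Submodule.zero_mem _, ?_⟩
      rw [pc_cross_ne hx y (by omega)]
      symm
      refine Finset.sum_eq_zero fun l _ => ?_
      funext p
      exact mul_zero _
  | zero =>
    refine ⟨0, fun l => Submodule.zero_mem _, ?_⟩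
    rw [map_zero]
    symm
    refine Finset.sum_eq_zero fun l _ => ?_
    funext p
    exact mul_zero _
  | add u v _ _ hu hv =>
    obtain ⟨c, hc, h1⟩ := hu
    obtain ⟨c', hc', h2⟩ := hv
    refine ⟨c + c', fun l => Submodule.add_mem _ (hc l) (hc' l), ?_⟩
    rw [map_add, h1, h2, ← Finset.sum_add_distrib]
    refine Finset.sum_congr rfl fun l _ => ?_
    funext p
    exact (mul_add _ _ _).symm
  | smul q u _ hu =>
    obtain ⟨c, hc, h1⟩ := hu
    refine ⟨q • c, fun l => Submodule.smul_mem _ q (hc l), ?_⟩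
    rw [map_smul, h1, Finset.smul_sum]
    refine Finset.sum_congr rfl fun l _ => ?_
    funext p
    change q * ((e l : A → ℚ) p.1 * c l p.2) = (e l : A → ℚ) p.1 * (q * c l p.2)
    ring

/-- Dual coefficients of independent vectors. -/
theorem exists_dual {r : ℕ} (v : Fin r → A → ℚ) (hv : LinearIndependent ℚ v) :
    ∃ L : Fin r → A → ℚ, ∀ l k, ∑ a, L l a * v k a = if l = k then 1 else 0 := by
  classical
  obtain ⟨g, hg⟩ := LinearMap.exists_leftInverse_of_injective
    (Fintype.linearCombination ℚ v) (by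
      rw [LinearMap.ker_eq_bot]
      exact linearIndependent_iff_injective_fintypeLinearCombination.1 hv)
  refine ⟨fun l a => g (Pi.single a 1) l, fun l k => ?_⟩
  have h1 : ∑ a, g (Pi.single a 1) l * v k a = g (v k) l := by
    have h2 : v k = ∑ a, v k a • (Pi.single a 1 : A → ℚ) := by
      funext a
      rw [Finset.sum_apply, Finset.sum_eq_single a]
      · rw [Pi.smul_apply, Pi.single_eq_same, smul_eq_mul, mul_one]
      · intro a' _ ha'
        rw [Pi.smul_apply, Pi.single_eq_of_ne (Ne.symm ha'), smul_zero]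
      · intro h
        exact absurd (Finset.mem_univ _) h
    conv_rhs => rw [h2]
    rw [map_sum, Finset.sum_apply]
    refine Finset.sum_congr rfl fun a _ => ?_
    rw [map_smul, Pi.smul_apply, smul_eq_mul, mul_comm]
  rw [h1]
  have h3 := LinearMap.congr_fun hg (Pi.single k 1)
  rw [LinearMap.comp_apply, LinearMap.id_apply] at h3
  have h4 : Fintype.linearCombination ℚ v (Pi.single k 1) = v k := by
    rw [Fintype.linearCombination_apply, Finset.sum_eq_single k]
    · rw [Pi.single_eq_same, one_smul]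
    · intro b _ hb
      rw [Pi.single_eq_of_ne hb, zero_smul]
    · intro h
      exact absurd (Finset.mem_univ _) h
  rw [h4] at h3
  rw [h3, Pi.single_apply]

end comp

section abs2

variable {S T : Type} {R : T → Type} [∀ t, CommRing (R t)] [∀ t, Algebra ℚ (R t)]
  {A B : Type} [Fintype A] [Fintype B] (X : Conjugates S T R A) (Y : Conjugates S T R B)
  (tw : ∀ (_ : S) (t : T), (R t)ˣ)

theorem rv_sum {Q : Type} [CommRing Q] [Algebra ℚ Q] {r : ℕ} (f : Fin r → B → ℚ) :
    rv Q (∑ l, f l) = ∑ l, rv Q (f l) := by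
  funext b
  change algebraMap ℚ Q ((∑ l, f l) b) = (∑ l, rv Q (f l)) b
  rw [Finset.sum_apply, map_sum, Finset.sum_apply]
  rfl

/-- The components of an absolute Hodge class on a product are absolute. -/
theorem pc_abs {j : ℕ} {w : A × B → ℚ} (hw : w ∈ (X.prod Y).absIn tw j) (m : ℕ) :
    pc X.coh.deg m w ∈ (X.prod Y).absIn tw j := by
  refine ⟨pc_hodge hw.1 m, fun s => ?_⟩
  obtain ⟨z, hz, h1⟩ := hw.2 s
  refine ⟨pc (X.conj s).deg m z, pc_hodge hz m, fun t => ?_⟩
  rw [X.conj_deg]
  have h2 := h1 t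
  funext p
  have h3 := congrFun h2 p
  rw [Pi.smul_apply, smul_eq_mul] at h3 ⊢
  change _ = algebraMap ℚ (R t) (if X.coh.deg p.1 = m then z p else 0)
  by_cases hp : X.coh.deg p.1 = m
  · rw [if_pos hp]
    change _ = rv (R t) z p
    rw [← h3]
    congr 1
    change ∑ q : A × B, (X.map s t p.1 q.1 * Y.map s t p.2 q.2) *
      algebraMap ℚ (R t) (if X.coh.deg q.1 = m then w q else 0) =
      ∑ q : A × B, (X.map s t p.1 q.1 * Y.map s t p.2 q.2) * algebraMap ℚ (R t) (w q)
    refine Finset.sum_congr rfl fun q _ => ?_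
    by_cases hq : X.coh.deg q.1 = m
    · rw [if_pos hq]
    · rw [X.graded s t p.1 q.1 (fun h => hq (by rw [← h, hp])), zero_mul, zero_mul, zero_mul]
  · rw [if_neg hp, map_zero]
    have h4 : ((X.prod Y).map s t *ᵥ rv (R t) (pc X.coh.deg m w)) p = 0 := by
      change ∑ q : A × B, (X.map s t p.1 q.1 * Y.map s t p.2 q.2) *
        algebraMap ℚ (R t) (if X.coh.deg q.1 = m then w q else 0) = 0
      refine Finset.sum_eq_zero fun q _ => ?_
      by_cases hq : X.coh.deg q.1 = m
      · rw [X.graded s t p.1 q.1 (fun h => hp (by rw [h, hq])), zero_mul, zero_mul]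
      · rw [if_neg hq, map_zero, mul_zero]
    rw [h4, mul_zero]

/-- **The absolute Hodge classes on the product.** -/
theorem absIn_prod [Nonempty T] [∀ t, Nontrivial (R t)]
    (h : IsHodgeOfProducts X.coh Y.coh) (hX : X.AllAbsolute tw) (j : ℕ) :
    (X.prod Y).absIn tw j = Submodule.span ℚ {z | ∃ i k, i + k = j ∧
      ∃ x ∈ X.coh.hodgeIn i, ∃ y ∈ Y.absIn tw k, z = cross x y} := by
  classical
  apply le_antisymm
  · intro w hw
    have hw' := h j hw.1
    rw [sum_pc hw']
    refine Submodule.sum_mem _ fun a ha => ?_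
    have haj : a ≤ j := by
      have := Finset.mem_range.1 ha
      omega
    let e : Basis (Fin (finrank ℚ (X.coh.hodgeIn a))) ℚ (X.coh.hodgeIn a) := Module.finBasis ℚ _
    obtain ⟨c, hc, hexp⟩ := expand_pc (j := j) e hw'
    have hv := pc_abs X Y tw hw (2 * a)
    rw [hexp] at hv
    have he : LinearIndependent ℚ (fun l => (e l : A → ℚ)) :=
      e.linearIndependent.map' (Submodule.subtype _) (Submodule.ker_subtype _)
    have hcabs : ∀ l, c l ∈ Y.absIn tw (j - a) := by
      intro l
      refine ⟨hc l, fun s => ?_⟩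
      obtain ⟨z, hz, h1⟩ := hv.2 s
      choose e' he' h2 using fun l => (hX a (e l).2).2 s
      obtain ⟨t₀⟩ := (inferInstance : Nonempty T)
      -- the conjugates of the basis are independent
      have hind : LinearIndependent ℚ e' := by
        rw [Fintype.linearIndependent_iff] at he ⊢
        intro q hq
        refine he q ?_
        have h3 : Y.coh.deg = Y.coh.deg := rfl
        have h4 : ((tw s t₀ : R t₀) ^ a) • (X.map s t₀ *ᵥ rv (R t₀) (∑ l, q l • (e l : A → ℚ))) =
            0 := by
          have h5 : rv (R t₀) (∑ l, q l • (e l : A → ℚ)) =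
              ∑ l, algebraMap ℚ (R t₀) (q l) • rv (R t₀) (e l : A → ℚ) := by
            rw [rv_sum]
            refine Finset.sum_congr rfl fun l _ => ?_
            funext b
            exact map_mul _ _ _
          rw [h5, Matrix.mulVec_sum, Finset.smul_sum]
          have h6 : ∀ l, ((tw s t₀ : R t₀) ^ a) • (X.map s t₀ *ᵥ
              (algebraMap ℚ (R t₀) (q l) • rv (R t₀) (e l : A → ℚ))) =
              algebraMap ℚ (R t₀) (q l) • rv (R t₀) (e' l) := by
            intro l
            rw [Matrix.mulVec_smul, smul_comm, h2 l t₀]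
          rw [Finset.sum_congr rfl fun l _ => h6 l]
          have h7 : ∑ l, algebraMap ℚ (R t₀) (q l) • rv (R t₀) (e' l) =
              rv (R t₀) (∑ l, q l • e' l) := by
            rw [rv_sum]
            refine Finset.sum_congr rfl fun l _ => ?_
            funext b
            exact (map_mul _ _ _).symm
          rw [h7, hq, rv_zero]
        by_contra hne
        exact conj_ne (Y := X) (y' := 0) hne (fun t => by
          rw [rv_zero]
          by_cases ht : t = t₀
          · subst ht
            exact h4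
          · have h5 : ((tw s t : R t) ^ a) • (X.map s t *ᵥ rv (R t) (∑ l, q l • (e l : A → ℚ))) =
                rv (R t) (∑ l, q l • e' l) := by
              rw [rv_sum, rv_sum, Matrix.mulVec_sum, Finset.smul_sum]
              refine Finset.sum_congr rfl fun l _ => ?_
              have h6 : ∀ f : A → ℚ, rv (R t) (q l • f) = algebraMap ℚ (R t) (q l) • rv (R t) f := by
                intro f
                funext b
                exact map_mul _ _ _
              rw [h6, h6, Matrix.mulVec_smul, smul_comm, h2 l t]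
            rw [h5, hq, rv_zero]) rfl
      obtain ⟨L, hL⟩ := exists_dual e' hind
      let y' : Fin (finrank ℚ (X.coh.hodgeIn a)) → B → ℚ := fun l b => ∑ p, L l p * z (p, b)
      -- the conjugates of the coefficients
      have hz' : ∀ t, rv (R t) z = ∑ k, cross (rv (R t) (e' k))
          (((tw s t : R t) ^ (j - a)) • (Y.map s t *ᵥ rv (R t) (c k))) := by
        intro t
        rw [← h1 t]
        change ((tw s t : R t) ^ j) • (Matrix.kroneckerMap (· * ·) (X.map s t) (Y.map s t) *ᵥ
          rv (R t) (∑ l, cross (e l : A → ℚ) (c l))) = _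
        rw [rv_sum, Matrix.mulVec_sum, Finset.smul_sum]
        refine Finset.sum_congr rfl fun k _ => ?_
        rw [rv_cross, kron_cross, ← h2 k t]
        have hj : (tw s t : R t) ^ j = (tw s t : R t) ^ a * (tw s t : R t) ^ (j - a) := by
          rw [← pow_add]
          congr 1
          omega
        funext p
        simp only [cross, Pi.smul_apply, smul_eq_mul]
        rw [hj]
        ring
      have hy' : ∀ l t, ((tw s t : R t) ^ (j - a)) • (Y.map s t *ᵥ rv (R t) (c l)) =
          rv (R t) (y' l) := by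
        intro l t
        funext b
        have h3 : rv (R t) (y' l) b = ∑ p, algebraMap ℚ (R t) (L l p) * rv (R t) z (p, b) := by
          change algebraMap ℚ (R t) (∑ p, L l p * z (p, b)) = _
          rw [map_sum]
          exact Finset.sum_congr rfl fun p _ => map_mul _ _ _
        rw [h3, hz' t]
        have h4 : ∀ p, algebraMap ℚ (R t) (L l p) * (∑ k, cross (rv (R t) (e' k))
            (((tw s t : R t) ^ (j - a)) • (Y.map s t *ᵥ rv (R t) (c k)))) (p, b) =
            ∑ k, (algebraMap ℚ (R t) (L l p * e' k p)) *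
              (((tw s t : R t) ^ (j - a)) • (Y.map s t *ᵥ rv (R t) (c k))) b := by
          intro p
          rw [Finset.sum_apply, Finset.mul_sum]
          refine Finset.sum_congr rfl fun k _ => ?_
          rw [map_mul]
          simp only [cross, rv]
          ring
        rw [Finset.sum_congr rfl fun p _ => h4 p, Finset.sum_comm]
        have h5 : ∀ k, ∑ p, (algebraMap ℚ (R t) (L l p * e' k p)) *
              (((tw s t : R t) ^ (j - a)) • (Y.map s t *ᵥ rv (R t) (c k))) b =
            (if l = k then 1 else 0) *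
              (((tw s t : R t) ^ (j - a)) • (Y.map s t *ᵥ rv (R t) (c k))) b := by
          intro k
          rw [← Finset.sum_mul, ← map_sum, hL]
          split_ifs
          · rw [map_one]
          · rw [map_zero]
        rw [Finset.sum_congr rfl fun k _ => h5 k, Finset.sum_eq_single l]
        · rw [if_pos rfl, one_mul]
        · intro k _ hk
          rw [if_neg (Ne.symm hk), zero_mul]
        · intro h
          exact absurd (Finset.mem_univ _) h
      have hzsum : z = ∑ k, cross (e' k) (y' k) := by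
        refine rv_injective (Q := R t₀) ?_
        rw [hz' t₀, rv_sum]
        refine Finset.sum_congr rfl fun k _ => ?_
        rw [rv_cross, hy' k t₀]
      refine ⟨y' l, ⟨?_, ?_⟩, fun t => hy' l t⟩
      · change (Y.conj s).op *ᵥ cv (y' l) = 0
        have h3 : prodOp (X.conj s).op (Y.conj s).op *ᵥ cv z = 0 := hz.1
        have h4 : cv z = ∑ k, cross (cv (e' k)) (cv (y' k)) := by
          rw [hzsum]
          funext p
          change ((((∑ k, cross (e' k) (y' k)) p : ℚ)) : ℂ) = _
          rw [Finset.sum_apply, Finset.sum_apply, Rat.cast_sum]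
          refine Finset.sum_congr rfl fun k _ => ?_
          exact Rat.cast_mul _ _
        rw [h4, Matrix.mulVec_sum] at h3
        have h5 : ∀ k, prodOp (X.conj s).op (Y.conj s).op *ᵥ cross (cv (e' k)) (cv (y' k)) =
            cross (cv (e' k)) ((Y.conj s).op *ᵥ cv (y' k)) := by
          intro k
          rw [prodOp_cross, show (X.conj s).op *ᵥ cv (e' k) = 0 from (he' k).1]
          funext p
          simp [cross]
        rw [Finset.sum_congr rfl fun k _ => h5 k] at h3
        funext b
        have h6 : ∑ p, (L l p : ℂ) * (∑ k, cross (cv (e' k)) ((Y.conj s).op *ᵥ cv (y' k))) (p, b) =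
            ((Y.conj s).op *ᵥ cv (y' l)) b := by
          have h7 : ∀ p, (L l p : ℂ) * (∑ k, cross (cv (e' k)) ((Y.conj s).op *ᵥ cv (y' k))) (p, b) =
              ∑ k, (((L l p * e' k p : ℚ)) : ℂ) * ((Y.conj s).op *ᵥ cv (y' k)) b := by
            intro p
            rw [Finset.sum_apply, Finset.mul_sum]
            refine Finset.sum_congr rfl fun k _ => ?_
            rw [Rat.cast_mul]
            simp only [cross, cv]
            ring
          rw [Finset.sum_congr rfl fun p _ => h7 p, Finset.sum_comm]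
          have h8 : ∀ k, ∑ p, (((L l p * e' k p : ℚ)) : ℂ) * ((Y.conj s).op *ᵥ cv (y' k)) b =
              (if l = k then 1 else 0) * ((Y.conj s).op *ᵥ cv (y' k)) b := by
            intro k
            rw [← Finset.sum_mul, ← Rat.cast_sum, hL]
            split_ifs
            · rw [Rat.cast_one]
            · rw [Rat.cast_zero]
          rw [Finset.sum_congr rfl fun k _ => h8 k, Finset.sum_eq_single l]
          · rw [if_pos rfl, one_mul]
          · intro k _ hk
            rw [if_neg (Ne.symm hk), zero_mul]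
          · intro h
            exact absurd (Finset.mem_univ _) h
        rw [← h6, h3]
        simp
      · intro b hb
        rw [Y.conj_deg] at hb
        have h3 := congrFun (hy' l t₀) b
        have h4 : (((tw s t₀ : R t₀) ^ (j - a)) • (Y.map s t₀ *ᵥ rv (R t₀) (c l))) b = 0 := by
          rw [Pi.smul_apply, smul_eq_mul]
          have h5 : (Y.map s t₀ *ᵥ rv (R t₀) (c l)) b = 0 := by
            change ∑ b', Y.map s t₀ b b' * algebraMap ℚ (R t₀) (c l b') = 0
            refine Finset.sum_eq_zero fun b' _ => ?_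
            by_cases hb' : Y.coh.deg b' = 2 * (j - a)
            · rw [Y.graded s t₀ b b' (fun h => hb (by rw [h, hb'])), zero_mul]
            · rw [(hc l).2 b' hb', map_zero, mul_zero]
          rw [h5, mul_zero]
        rw [h4] at h3
        have h5 : algebraMap ℚ (R t₀) (y' l b) = algebraMap ℚ (R t₀) 0 := by
          rw [map_zero]
          exact h3.symm
        exact (algebraMap ℚ (R t₀)).injective h5
    rw [hexp]
    exact Submodule.sum_mem _ fun l _ => Submodule.subset_span
      ⟨a, j - a, by omega, _, (e l).2, _, hcabs l, rfl⟩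
  · refine Submodule.span_le.2 ?_
    rintro _ ⟨i, k, rfl, x, hx, y, hy, rfl⟩
    exact cross_abs (hX i hx) hy

omit X Y tw in
/-- **Absolute Hodge classes on products.** -/
theorem absoluteOnProducts {A B : Type} [Fintype A] [Fintype B] {V : HodgeSpace A}
    {W : HodgeSpace B} (h : IsHodgeOfProducts V W) : AbsoluteOnProducts V W := by
  intro S T R _ _ _ _ tw X Y hX hY
  subst hX
  subst hY
  exact ⟨allAbsolute_prod X Y tw h, fun h1 j => ⟨absIn_prod X Y tw h h1 j, absolute_iff X Y tw h h1 j⟩⟩

end abs2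

end Pool.Agent.H855.HG
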