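import Mathlib
import Pool.Agent.H855.HG.PowDefs
import Pool.Agent.H855.HG.Abs
import Pool.Agent.H855.HG.Vectors
import Pool.Agent.H855.DP.Space

/-!
# All powers of a variety
-/

set_option autoImplicit false
set_option linter.unusedSectionVars false
set_option linter.unusedVariables false

namespace Pool.Agent.H855.HG

open Matrix Module NumberField Pool.Agent.V1168.EV Pool.Agent.Y137.MV Pool.Agent.H855.CM
  Pool.Agent.H855.DP

section lie

variable {B B' : Type} [Fintype B] [Fintype B']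

theorem conjOp_mem (Y : HodgeSpace B) (σ : ℂ ≃+* ℂ) : Y.conjOp σ ∈ Y.lie :=
  Submodule.mem_sInf.2 fun _ hg => hg.1 σ

theorem comm_mem_lie (Y : HodgeSpace B) {M N : Matrix B B ℂ} (hM : M ∈ Y.lie) (hN : N ∈ Y.lie) :
    M * N - N * M ∈ Y.lie :=
  Submodule.mem_sInf.2 fun g hg => hg.2 M (Submodule.mem_sInf.1 hM g hg) N
    (Submodule.mem_sInf.1 hN g hg)

theorem comm_le_lie (Y : HodgeSpace B) : Y.comm ≤ Y.lie := by
  refine Submodule.span_le.2 ?_
  rintro _ ⟨M, hM, N, hN, rfl⟩
  exact comm_mem_lie Y hM hN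

theorem map_sub_mul (τ : ℂ ≃+* ℂ) (M N : Matrix B B ℂ) :
    (M * N - N * M).map τ = M.map τ * N.map τ - N.map τ * M.map τ := by
  ext a b
  simp only [Matrix.map_apply, Matrix.sub_apply, Matrix.mul_apply, map_sub, map_sum, map_mul]

/-- The Lie algebra is stable under conjugation. -/
theorem lie_map (Y : HodgeSpace B) (τ : ℂ ≃+* ℂ) {M : Matrix B B ℂ} (hM : M ∈ Y.lie) :
    M.map τ ∈ Y.lie := by
  let g : Submodule ℂ (Matrix B B ℂ) :=
    { carrier := {M | M.map τ ∈ Y.lie}
      zero_mem' := by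
        have h : (0 : Matrix B B ℂ).map τ = 0 := by
          ext a b
          simp
        change (0 : Matrix B B ℂ).map τ ∈ Y.lie
        rw [h]
        exact Submodule.zero_mem _
      add_mem' := fun {M N} hM hN => by
        have h : (M + N).map τ = M.map τ + N.map τ := by
          ext a b
          simp
        change (M + N).map τ ∈ Y.lie
        rw [h]
        exact Submodule.add_mem _ hM hN
      smul_mem' := fun c M hM => by
        have h : (c • M).map τ = τ c • M.map τ := by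
          ext a b
          simp
        change (c • M).map τ ∈ Y.lie
        rw [h]
        exact Submodule.smul_mem _ _ hM }
  have h1 : Y.lie ≤ g := by
    refine sInf_le ⟨fun σ => ?_, fun M hM N hN => ?_⟩
    · change (Y.conjOp σ).map τ ∈ Y.lie
      have h2 : (Y.conjOp σ).map τ = Y.conjOp (τ.symm.trans σ) := by
        ext a b
        rfl
      rw [h2]
      exact conjOp_mem Y _
    · change (M * N - N * M).map τ ∈ Y.lie
      rw [map_sub_mul]
      exact comm_mem_lie Y hM hN
  exact h1 hM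

theorem comm_map (Y : HodgeSpace B) (τ : ℂ ≃+* ℂ) {M : Matrix B B ℂ} (hM : M ∈ Y.comm) :
    M.map τ ∈ Y.comm := by
  unfold HodgeSpace.comm at hM
  induction hM using Submodule.span_induction with
  | mem C hC =>
    obtain ⟨M, hM, N, hN, rfl⟩ := hC
    rw [map_sub_mul]
    exact Submodule.subset_span ⟨_, lie_map Y τ hM, _, lie_map Y τ hN, rfl⟩
  | zero =>
    have h : (0 : Matrix B B ℂ).map τ = 0 := by
      ext a b
      simp
    rw [h]
    exact Submodule.zero_mem _
  | add M N _ _ hM hN =>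
    have h : (M + N).map τ = M.map τ + N.map τ := by
      ext a b
      simp
    rw [h]
    exact Submodule.add_mem _ hM hN
  | smul c M _ hM =>
    have h : (c • M).map τ = τ c • M.map τ := by
      ext a b
      simp
    rw [h]
    exact Submodule.smul_mem _ _ hM

/-- The space of the characters is stable under translations. -/
theorem translates_charSpace (Y : HodgeSpace B) : TranslatesQ Y.charSpace := by
  rintro _ ⟨f, ⟨l, h1, h2⟩, rfl⟩ τ
  let l' : Matrix B B ℂ →ₗ[ℂ] ℂ :=
    { toFun := fun M => τ (l (M.map τ.symm))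
      map_add' := fun M N => by
        have h : (M + N).map τ.symm = M.map τ.symm + N.map τ.symm := by
          ext a b
          simp
        rw [h, map_add, map_add]
      map_smul' := fun c M => by
        have h : (c • M).map τ.symm = τ.symm c • M.map τ.symm := by
          ext a b
          simp
        rw [h, map_smul, smul_eq_mul, map_mul, RingEquiv.apply_symm_apply]
        rfl }
  refine ⟨fun σ => f (τ.trans σ), ⟨l', fun M hM => ?_, fun σ => ?_⟩, rfl⟩
  · change τ (l (M.map τ.symm)) = 0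
    rw [h1 _ (comm_map Y τ.symm hM), map_zero]
  · change ((f (τ.trans σ) : ℚ) : ℂ) = τ (l ((Y.conjOp σ).map τ.symm))
    have h3 : (Y.conjOp σ).map τ.symm = Y.conjOp (τ.trans σ) := by
      ext a b
      rfl
    rw [h3, ← h2, map_ratCast]

/-- The dimension of the space of the characters. -/
theorem finrank_charQ (Y : HodgeSpace B) : FiniteDimensional ℚ Y.charQ ∧
    finrank ℚ Y.charQ + finrank ℂ Y.comm ≤ finrank ℂ Y.lie := by
  classical
  let q : Matrix B B ℂ →ₗ[ℂ] (Matrix B B ℂ ⧸ Y.comm) := Y.comm.mkQ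
  let c : (ℂ ≃+* ℂ) → (Matrix B B ℂ ⧸ Y.comm) := fun σ => q (Y.conjOp σ)
  obtain ⟨b, hb, hspan, hli⟩ := exists_linearIndependent ℂ (Set.range c)
  have hfin : Finite b := hli.finite
  have hft : Fintype b := Fintype.ofFinite b
  choose σ hσ using fun k : b => hb k.2
  let Φ : Y.charQ →ₗ[ℚ] (b → ℚ) :=
    { toFun := fun f k => f.1 (σ k)
      map_add' := fun f g => rfl
      map_smul' := fun a f => rfl }
  have hΦ : Function.Injective Φ := by
    rw [injective_iff_map_eq_zero]
    rintro ⟨f, l, h1, h2⟩ hf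
    have hf' : ∀ k, f (σ k) = 0 := fun k => congrFun hf k
    let m : (Matrix B B ℂ ⧸ Y.comm) →ₗ[ℂ] ℂ := Y.comm.liftQ l (fun M hM => h1 M hM)
    have hm : ∀ M, m (q M) = l M := fun M => rfl
    have h3 : ∀ z ∈ Submodule.span ℂ b, m z = 0 := by
      intro z hz
      induction hz using Submodule.span_induction with
      | mem z hz =>
        have h4 := hσ ⟨z, hz⟩
        have h5 : m z = l (Y.conjOp (σ ⟨z, hz⟩)) := by
          rw [← hm]
          exact congrArg m h4.symm
        rw [h5, ← h2, hf', Rat.cast_zero]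
      | zero => exact map_zero _
      | add z w _ _ hz hw => rw [map_add, hz, hw, add_zero]
      | smul a z _ hz => rw [map_smul, hz, smul_zero]
    refine Subtype.ext (funext fun τ => ?_)
    have h4 : c τ ∈ Submodule.span ℂ b := by
      rw [hspan]
      exact Submodule.subset_span ⟨τ, rfl⟩
    have h5 := h3 _ h4
    change m (q (Y.conjOp τ)) = 0 at h5
    rw [hm, ← h2] at h5
    exact_mod_cast h5
  have h1 : FiniteDimensional ℚ Y.charQ := Module.Finite.of_injective Φ hΦ
  refine ⟨h1, ?_⟩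
  have h2 := LinearMap.finrank_le_finrank_of_injective hΦ
  rw [Module.finrank_fintype_fun_eq_card] at h2
  have h3 : Submodule.span ℂ b ≤ Y.lie.map q := by
    rw [hspan, Submodule.span_le]
    rintro _ ⟨τ, rfl⟩
    exact ⟨_, conjOp_mem Y τ, rfl⟩
  have h4 : Fintype.card b ≤ finrank ℂ (Y.lie.map q) := by
    have h5 : finrank ℂ (Submodule.span ℂ b) = Fintype.card b := by
      have h6 := finrank_span_eq_card hli
      rw [Subtype.range_coe] at h6
      exact h6
    rw [← h5]
    exact Submodule.finrank_mono h3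
  have h5 : finrank ℂ (Y.lie.map q) + finrank ℂ Y.comm = finrank ℂ Y.lie := by
    let r : Y.lie →ₗ[ℂ] (Matrix B B ℂ ⧸ Y.comm) := q.comp Y.lie.subtype
    have h6 := LinearMap.finrank_range_add_finrank_ker r
    have h7 : LinearMap.range r = Y.lie.map q := by
      change LinearMap.range (q.comp Y.lie.subtype) = _
      rw [LinearMap.range_comp, Submodule.range_subtype]
    have h8 : LinearMap.ker r = Y.comm.comap Y.lie.subtype := by
      change LinearMap.ker (q.comp Y.lie.subtype) = _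
      rw [LinearMap.ker_comp, Submodule.ker_mkQ]
    rw [h7, h8] at h6
    have h9 : finrank ℂ (Y.comm.comap Y.lie.subtype) = finrank ℂ Y.comm :=
      (Submodule.comapSubtypeEquivOfLe (comm_le_lie Y)).finrank_eq
    rw [h9] at h6
    exact h6
  omega

theorem castR_injective (S : Type) : Function.Injective (castR S) := by
  intro f g h
  funext s
  have h1 : ((f s : ℚ) : ℝ) = ((g s : ℚ) : ℝ) := congrFun h s
  exact_mod_cast h1

theorem finiteDimensional_charSpace (Y : HodgeSpace B) : FiniteDimensional ℚ Y.charSpace := by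
  have h := (finrank_charQ Y).1
  exact inferInstanceAs (FiniteDimensional ℚ (Y.charQ.map (castR _)))

theorem finrank_charSpace (Y : HodgeSpace B) :
    finrank ℚ Y.charSpace + finrank ℂ Y.comm ≤ finrank ℂ Y.lie := by
  have h1 : finrank ℚ Y.charSpace = finrank ℚ Y.charQ :=
    LinearEquiv.finrank_eq (Submodule.equivMapOfInjective (castR _) (castR_injective _) Y.charQ).symm
  rw [h1]
  exact (finrank_charQ Y).2

theorem charactersAreSmall (Y : HodgeSpace B) : CharactersAreSmall Y := by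
  have h := finiteDimensional_charSpace Y
  refine ⟨h, finrank_charSpace Y, ?_, ?_⟩
  · intro E _ _ _
    exact finrank_excSpace _ E
  · intro I _ E _ _ _ m hun hm hV
    exact sum_le m hun hm _ hV

end lie

section powers

variable {B B' : Type} [Fintype B] [Fintype B']

/-- The action of a matrix on the cohomology of the powers, as a derivation. -/
noncomputable def deriv (M : Matrix B B ℂ) : ∀ s, Matrix (Pow B s) (Pow B s) ℂ
  | 0 => (0 : Matrix Unit Unit ℂ)
  | s + 1 => prodOp M (deriv M s)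

theorem prodOp_add (M M' : Matrix B' B' ℂ) (N N' : Matrix B B ℂ) :
    prodOp (M + M') (N + N') = prodOp M N + prodOp M' N' := by
  classical
  unfold prodOp
  ext p q
  simp only [Matrix.add_apply, Matrix.kroneckerMap_apply]
  ring

theorem prodOp_smul (c : ℂ) (M : Matrix B' B' ℂ) (N : Matrix B B ℂ) :
    prodOp (c • M) (c • N) = c • prodOp M N := by
  classical
  unfold prodOp
  ext p q
  simp only [Matrix.add_apply, Matrix.kroneckerMap_apply, Matrix.smul_apply, smul_eq_mul]
  ring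

theorem prodOp_map (τ : ℂ ≃+* ℂ) (M : Matrix B' B' ℂ) (N : Matrix B B ℂ) :
    (prodOp M N).map τ = prodOp (M.map τ) (N.map τ) := by
  classical
  unfold prodOp
  have h1 : ∀ (C : Type) [DecidableEq C] (c c' : C), τ ((1 : Matrix C C ℂ) c c') =
      (1 : Matrix C C ℂ) c c' := by
    intro C _ c c'
    by_cases h : c = c'
    · subst h
      rw [Matrix.one_apply_eq, map_one]
    · rw [Matrix.one_apply_ne h, map_zero]
  ext p q
  simp only [Matrix.map_apply, Matrix.add_apply, Matrix.kroneckerMap_apply, map_add, map_mul, h1]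

theorem prodOp_comm (M M' : Matrix B' B' ℂ) (N N' : Matrix B B ℂ) :
    prodOp (M * M' - M' * M) (N * N' - N' * N) =
      prodOp M N * prodOp M' N' - prodOp M' N' * prodOp M N := by
  classical
  unfold prodOp
  have e1 : ∀ (X X' : Matrix B' B' ℂ), Matrix.kroneckerMap (· * ·) X (1 : Matrix B B ℂ) *
      Matrix.kroneckerMap (· * ·) X' (1 : Matrix B B ℂ) =
      Matrix.kroneckerMap (· * ·) (X * X') (1 : Matrix B B ℂ) := by
    intro X X'
    have := Matrix.mul_kronecker_mul X X' (1 : Matrix B B ℂ) (1 : Matrix B B ℂ)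
    rw [mul_one] at this
    exact this.symm
  have e2 : ∀ (X X' : Matrix B B ℂ), Matrix.kroneckerMap (· * ·) (1 : Matrix B' B' ℂ) X *
      Matrix.kroneckerMap (· * ·) (1 : Matrix B' B' ℂ) X' =
      Matrix.kroneckerMap (· * ·) (1 : Matrix B' B' ℂ) (X * X') := by
    intro X X'
    have := Matrix.mul_kronecker_mul (1 : Matrix B' B' ℂ) (1 : Matrix B' B' ℂ) X X'
    rw [mul_one] at this
    exact this.symm
  have e3 : ∀ (X : Matrix B' B' ℂ) (X' : Matrix B B ℂ),
      Matrix.kroneckerMap (· * ·) X (1 : Matrix B B ℂ) *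
      Matrix.kroneckerMap (· * ·) (1 : Matrix B' B' ℂ) X' = Matrix.kroneckerMap (· * ·) X X' := by
    intro X X'
    have := Matrix.mul_kronecker_mul X (1 : Matrix B' B' ℂ) (1 : Matrix B B ℂ) X'
    rw [mul_one, one_mul] at this
    exact this.symm
  have e4 : ∀ (X : Matrix B' B' ℂ) (X' : Matrix B B ℂ),
      Matrix.kroneckerMap (· * ·) (1 : Matrix B' B' ℂ) X' *
      Matrix.kroneckerMap (· * ·) X (1 : Matrix B B ℂ) = Matrix.kroneckerMap (· * ·) X X' := by
    intro X X'
    have := Matrix.mul_kronecker_mul (1 : Matrix B' B' ℂ) X X' (1 : Matrix B B ℂ)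
    rw [mul_one, one_mul] at this
    exact this.symm
  have e5 : Matrix.kroneckerMap (· * ·) (M * M' - M' * M) (1 : Matrix B B ℂ) =
      Matrix.kroneckerMap (· * ·) (M * M') (1 : Matrix B B ℂ) -
      Matrix.kroneckerMap (· * ·) (M' * M) (1 : Matrix B B ℂ) := by
    ext p q
    simp only [Matrix.sub_apply, Matrix.kroneckerMap_apply, sub_mul]
  have e6 : Matrix.kroneckerMap (· * ·) (1 : Matrix B' B' ℂ) (N * N' - N' * N) =
      Matrix.kroneckerMap (· * ·) (1 : Matrix B' B' ℂ) (N * N') -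
      Matrix.kroneckerMap (· * ·) (1 : Matrix B' B' ℂ) (N' * N) := by
    ext p q
    simp only [Matrix.sub_apply, Matrix.kroneckerMap_apply, mul_sub]
  rw [e5, e6, add_mul, mul_add, mul_add, add_mul, mul_add, mul_add, e1, e3, e4, e2, e1, e3, e4, e2]
  abel

theorem deriv_zero (M : Matrix B B ℂ) : deriv M 0 = 0 := rfl

theorem deriv_add (M N : Matrix B B ℂ) (s : ℕ) : deriv (M + N) s = deriv M s + deriv N s := by
  induction s with
  | zero => rw [deriv_zero, deriv_zero, deriv_zero, add_zero]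
  | succ s ih =>
    change prodOp (M + N) (deriv (M + N) s) = prodOp M (deriv M s) + prodOp N (deriv N s)
    rw [ih, prodOp_add]

theorem deriv_smul (c : ℂ) (M : Matrix B B ℂ) (s : ℕ) : deriv (c • M) s = c • deriv M s := by
  induction s with
  | zero => rw [deriv_zero, deriv_zero, smul_zero]
  | succ s ih =>
    change prodOp (c • M) (deriv (c • M) s) = c • prodOp M (deriv M s)
    rw [ih, prodOp_smul]

theorem deriv_map (τ : ℂ ≃+* ℂ) (M : Matrix B B ℂ) (s : ℕ) :
    (deriv M s).map τ = deriv (M.map τ) s := by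
  induction s with
  | zero =>
    ext a b
    exact map_zero τ
  | succ s ih =>
    change (prodOp M (deriv M s)).map τ = prodOp (M.map τ) (deriv (M.map τ) s)
    rw [prodOp_map, ih]

theorem deriv_comm (M N : Matrix B B ℂ) (s : ℕ) :
    deriv (M * N - N * M) s = deriv M s * deriv N s - deriv N s * deriv M s := by
  induction s with
  | zero => rw [deriv_zero, deriv_zero, deriv_zero, mul_zero, sub_zero]
  | succ s ih =>
    change prodOp (M * N - N * M) (deriv (M * N - N * M) s) =
      prodOp M (deriv M s) * prodOp N (deriv N s) - prodOp N (deriv N s) * prodOp M (deriv M s)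
    rw [ih, prodOp_comm]

theorem pow_op (Y : HodgeSpace B) (s : ℕ) : (Y.pow s).op = deriv Y.op s := by
  induction s with
  | zero => rfl
  | succ s ih =>
    change prodOp Y.op (Y.pow s).op = prodOp Y.op (deriv Y.op s)
    rw [ih]

/-- **The types of the vectors of the cohomology of the powers are characters.** -/
theorem type_mem_charSpace (Y : HodgeSpace B) (s : ℕ) {w : Pow B s → ℂ}
    {d : (ℂ ≃+* ℂ) → ℤ} (hw : w ≠ 0) (h : (Y.pow s).HasTypes w d) : rd d ∈ Y.charSpace := by
  obtain ⟨p, hp⟩ := Function.ne_iff.1 hw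
  have hp : w p ≠ 0 := hp
  let l : Matrix B B ℂ →ₗ[ℂ] ℂ :=
    { toFun := fun M => (deriv M s *ᵥ w) p / w p
      map_add' := fun M N => by
        rw [deriv_add, Matrix.add_mulVec, Pi.add_apply, add_div]
      map_smul' := fun c M => by
        rw [deriv_smul, Matrix.smul_mulVec, Pi.smul_apply, smul_eq_mul, mul_div_assoc]
        rfl }
  have hop : ∀ σ, deriv (Y.conjOp σ) s *ᵥ w = (d σ : ℂ) • w := by
    intro σ
    have h1 := hasTypes_map h σ
    rw [pow_op, deriv_map] at h1
    exact h1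
  let g : Submodule ℂ (Matrix B B ℂ) :=
    { carrier := {M | ∃ c : ℂ, deriv M s *ᵥ w = c • w}
      zero_mem' := ⟨0, by
        have h1 := deriv_smul (0 : ℂ) (0 : Matrix B B ℂ) s
        rw [smul_zero, zero_smul] at h1
        rw [h1, Matrix.zero_mulVec, zero_smul]⟩
      add_mem' := by
        rintro M N ⟨c, hc⟩ ⟨c', hc'⟩
        exact ⟨c + c', by rw [deriv_add, Matrix.add_mulVec, hc, hc', add_smul]⟩
      smul_mem' := by
        rintro a M ⟨c, hc⟩
        exact ⟨a * c, by rw [deriv_smul, Matrix.smul_mulVec, hc, smul_smul]⟩ }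
  have hcomm : ∀ M ∈ g, ∀ N ∈ g, deriv (M * N - N * M) s *ᵥ w = 0 := by
    rintro M ⟨c, hc⟩ N ⟨c', hc'⟩
    rw [deriv_comm, Matrix.sub_mulVec, ← Matrix.mulVec_mulVec, ← Matrix.mulVec_mulVec, hc, hc',
      Matrix.mulVec_smul, Matrix.mulVec_smul, hc, hc', smul_smul, smul_smul, mul_comm, sub_self]
  have hle : Y.lie ≤ g := by
    refine sInf_le ⟨fun σ => ⟨_, hop σ⟩, fun M hM N hN => ⟨0, ?_⟩⟩
    rw [hcomm M hM N hN, zero_smul]
  refine ⟨fun σ => (d σ : ℚ), ⟨l, fun M hM => ?_, fun σ => ?_⟩, ?_⟩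
  · unfold HodgeSpace.comm at hM
    induction hM using Submodule.span_induction with
    | mem C hC =>
      obtain ⟨M, hM, N, hN, rfl⟩ := hC
      change (deriv (M * N - N * M) s *ᵥ w) p / w p = 0
      rw [hcomm M (hle hM) N (hle hN), Pi.zero_apply, zero_div]
    | zero => exact map_zero l
    | add M N _ _ hM hN => rw [map_add, hM, hN, add_zero]
    | smul c M _ hM => rw [map_smul, hM, smul_zero]
  · change (((d σ : ℚ)) : ℂ) = (deriv (Y.conjOp σ) s *ᵥ w) p / w p
    rw [hop, Pi.smul_apply, smul_eq_mul, mul_div_cancel_right₀ _ hp]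
    push_cast
    rfl
  · funext σ
    change ((((d σ : ℤ) : ℚ)) : ℝ) = ((d σ : ℤ) : ℝ)
    push_cast
    rfl

end powers

section cm

variable {A B B' : Type} [Fintype A] [Fintype B] [Fintype B']

/-- The type of a nonzero vector is one of the types of a generating set. -/
theorem type_mem_of_span {V : HodgeSpace B} (G : Set ((ℂ ≃+* ℂ) → ℤ))
    (hG : Submodule.span ℂ {w | ∃ d ∈ G, V.HasTypes w d} = ⊤) {w : B → ℂ}
    {d : (ℂ ≃+* ℂ) → ℤ} (hw : w ≠ 0) (h : V.HasTypes w d) : d ∈ G := by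
  by_contra hd
  apply hw
  have h1 : (⊤ : Submodule ℂ (B → ℂ)) ≤ ⨆ (d') (_ : d' ≠ d), typeSpace V d' := by
    rw [← hG, Submodule.span_le]
    rintro v ⟨d', hd', hv⟩
    have hne : d' ≠ d := fun h => hd (h ▸ hd')
    exact Submodule.mem_iSup_of_mem d' (Submodule.mem_iSup_of_mem hne hv)
  exact Submodule.disjoint_def.1 (typeSpace_indep (V := V) d) w h (h1 Submodule.mem_top)

/-- The functions generated by the functions `x j`. -/
def genSet {J : Type} [Fintype J] {L : J → Type} [∀ j, Field (L j)] [∀ j, NumberField (L j)]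
    (x : ∀ j, (L j →+* ℂ) → ℤ) : Set ((ℂ ≃+* ℂ) → ℤ) :=
  {d | ∃ (N : ℕ) (m : (Σ j, (L j →+* ℂ)) → ℤ), 0 < N ∧
    ∀ σ : ℂ ≃+* ℂ, (N : ℤ) * d σ = ∑ y, m y * x y.1 ((σ : ℂ →+* ℂ).comp y.2)}

variable {J : Type} [Fintype J] {L : J → Type} [∀ j, Field (L j)] [∀ j, NumberField (L j)]
  {x : ∀ j, (L j →+* ℂ) → ℤ}

theorem genSet_zero : (0 : (ℂ ≃+* ℂ) → ℤ) ∈ genSet x :=
  ⟨1, 0, one_pos, fun σ => by simp⟩

theorem genSet_add {d d' : (ℂ ≃+* ℂ) → ℤ} (h : d ∈ genSet x) (h' : d' ∈ genSet x) :
    d + d' ∈ genSet x := by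
  obtain ⟨N, m, hN, h1⟩ := h
  obtain ⟨N', m', hN', h1'⟩ := h'
  refine ⟨N * N', fun y => N' * m y + N * m' y, Nat.mul_pos hN hN', fun σ => ?_⟩
  have h2 : ∑ y : (Σ j, (L j →+* ℂ)), ((N' : ℤ) * m y + N * m' y) *
      x y.1 ((σ : ℂ →+* ℂ).comp y.2) =
      N' * ∑ y : (Σ j, (L j →+* ℂ)), m y * x y.1 ((σ : ℂ →+* ℂ).comp y.2) +
      N * ∑ y : (Σ j, (L j →+* ℂ)), m' y * x y.1 ((σ : ℂ →+* ℂ).comp y.2) := by
    rw [Finset.mul_sum, Finset.mul_sum, ← Finset.sum_add_distrib]
    exact Finset.sum_congr rfl fun y _ => by ring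
  rw [h2, ← h1, ← h1', Pi.add_apply]
  push_cast
  ring

theorem span_of_gen {V : HodgeSpace B} (hV : V.IsOfCMType) (hx : V.IsGeneratedBy x) :
    Submodule.span ℂ {w | ∃ d ∈ genSet x, V.HasTypes w d} = ⊤ := by
  rw [eq_top_iff]
  have h1 : V.cmPart = ⊤ := hV
  rw [← h1]
  refine Submodule.span_le.2 ?_
  rintro w ⟨d, hd⟩
  by_cases hw : w = 0
  · rw [hw]
    exact Submodule.zero_mem _
  · exact Submodule.subset_span ⟨d, hx w d hw hd, hd⟩

theorem isOfCMType_of_span {V : HodgeSpace B}
    (h : Submodule.span ℂ {w | ∃ d ∈ genSet x, V.HasTypes w d} = ⊤) : V.IsOfCMType := by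
  change V.cmPart = ⊤
  rw [eq_top_iff, ← h]
  refine Submodule.span_mono ?_
  rintro w ⟨d, -, hd⟩
  exact ⟨d, hd⟩

theorem isGeneratedBy_of_span {V : HodgeSpace B}
    (h : Submodule.span ℂ {w | ∃ d ∈ genSet x, V.HasTypes w d} = ⊤) : V.IsGeneratedBy x :=
  fun _ _ hw hd => type_mem_of_span _ h hw hd

theorem hasTypes_cross {V : HodgeSpace B'} {W : HodgeSpace B} {u : B' → ℂ} {v : B → ℂ}
    {d d' : (ℂ ≃+* ℂ) → ℤ} (hu : V.HasTypes u d) (hv : W.HasTypes v d') :
    (V.prod W).HasTypes (cross u v) (d + d') := by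
  intro σ
  have h1 : (fun p : B' × B => σ (cross u v p)) = cross (fun a => σ (u a)) (fun b => σ (v b)) := by
    funext p
    exact map_mul σ _ _
  rw [h1]
  change prodOp V.op W.op *ᵥ _ = _
  rw [prodOp_cross, hu σ, hv σ]
  funext p
  simp only [cross, Pi.add_apply, Pi.smul_apply, smul_eq_mul, Int.cast_add]
  ring

theorem span_prod {V : HodgeSpace B'} {W : HodgeSpace B}
    (hV : Submodule.span ℂ {w | ∃ d ∈ genSet x, V.HasTypes w d} = ⊤)
    (hW : Submodule.span ℂ {w | ∃ d ∈ genSet x, W.HasTypes w d} = ⊤) :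
    Submodule.span ℂ {w | ∃ d ∈ genSet x, (V.prod W).HasTypes w d} = ⊤ := by
  rw [eq_top_iff]
  intro w _
  have h1 := mem_span_cross w (S := {w | ∃ d ∈ genSet x, V.HasTypes w d})
    (T := {w | ∃ d ∈ genSet x, W.HasTypes w d}) (fun u => by rw [hV]; exact Submodule.mem_top)
    (fun v => by rw [hW]; exact Submodule.mem_top)
  refine Submodule.span_mono ?_ h1
  rintro _ ⟨u, ⟨d, hd, hu⟩, v, ⟨d', hd', hv⟩, rfl⟩
  exact ⟨d + d', genSet_add hd hd', hasTypes_cross hu hv⟩

theorem span_point : Submodule.span ℂ {w | ∃ d ∈ genSet x, HodgeSpace.point.HasTypes w d} = ⊤ := by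
  rw [eq_top_iff]
  intro w _
  refine Submodule.subset_span ⟨0, genSet_zero, fun σ => ?_⟩
  change (0 : Matrix Unit Unit ℂ) *ᵥ _ = _
  rw [Matrix.zero_mulVec, Pi.zero_apply, Int.cast_zero, zero_smul]

theorem span_pow {V : HodgeSpace A}
    (hV : Submodule.span ℂ {w | ∃ d ∈ genSet x, V.HasTypes w d} = ⊤) (r : ℕ) :
    Submodule.span ℂ {w | ∃ d ∈ genSet x, (V.pow r).HasTypes w d} = ⊤ := by
  induction r with
  | zero => exact span_point
  | succ r ih => exact span_prod hV ih

end cm

section main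

variable {A B : Type} [Fintype A] [Fintype B]

/-- **The theorem on all powers.** -/
theorem hodgeOfProducts_pow {Y : HodgeSpace B} {J : Type} [Fintype J] {L : J → Type}
    [∀ j, Field (L j)] [∀ j, NumberField (L j)] [∀ j, IsCMField (L j)] (x : ∀ j, (L j →+* ℂ) → ℤ)
    (hx : ∀ j φ, x j (ComplexEmbedding.conjugate φ) = - x j φ)
    (hcomb : ∀ j, ∀ v ∈ excSpace Y.charSpace (L j), IsComb x v → v = 0)
    {X : HodgeSpace A} (hX : X.IsOfCMType) (hgen : X.IsGeneratedBy x) (s : ℕ) :
    IsHodgeOfProducts X (Y.pow s) := by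
  refine isHodgeOfProducts hX fun u v d hu hv hud hvd => ?_
  by_contra hd
  obtain ⟨N, mm, hN, hsum⟩ := hgen u d hu hud
  obtain ⟨n, hn, hrel⟩ := exists_relation x hx d N mm hN hsum
  have h0 : relMap (rx x) n ≠ 0 := by
    rw [hrel]
    exact fun h => neg_ne_zero.2 hd (rd_eq_zero h)
  have hmem : relMap (rx x) n ∈ Y.charSpace := by
    rw [hrel]
    exact type_mem_charSpace Y s hv hvd
  obtain ⟨j, v', hv0, hodd, hv'⟩ := Pool.Agent.H855.CM.exists_vector (rx x) n hn h0
  refine hv0 (hcomb j v' ⟨hodd, fun φ => transSpan_le (translates_charSpace Y) hmem (hv' φ)⟩ ?_)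
  exact isComb_of x v' hodd _ hv' n hn rfl

theorem hodgeIn_prod_eq {V : HodgeSpace A} {W : HodgeSpace B} (h : IsHodgeOfProducts V W) (j : ℕ) :
    (V.prod W).hodgeIn j = Submodule.span ℚ {z | ∃ i k, i + k = j ∧
      ∃ x ∈ V.hodgeIn i, ∃ y ∈ W.hodgeIn k, z = cross x y} := by
  refine le_antisymm (h j) (Submodule.span_le.2 ?_)
  rintro _ ⟨i, k, rfl, x, hx, y, hy, rfl⟩
  exact cross_hodge hx hy

section conj

variable {S T : Type} {R : T → Type} [∀ t, CommRing (R t)] [∀ t, Algebra ℚ (R t)]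

theorem pow_coh (Z : Conjugates S T R B) (s : ℕ) : (Z.pow s).coh = Z.coh.pow s := by
  induction s with
  | zero => rfl
  | succ s ih =>
    change Z.coh.prod (Z.pow s).coh = Z.coh.prod (Z.coh.pow s)
    rw [ih]

end conj

theorem absoluteOnAllPowers {V : HodgeSpace A} {W : HodgeSpace B}
    (h : ∀ r s, IsHodgeOfProducts (V.pow r) (W.pow s)) : AbsoluteOnAllPowers V W := by
  intro S T R _ _ _ _ tw X Y hX hY
  subst hX
  subst hY
  have h1 : ∀ r s, AbsoluteOnProducts (X.coh.pow r) (Y.coh.pow s) := fun r s =>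
    absoluteOnProducts (h r s)
  have h2 : ∀ r s, (((X.pow r).prod (Y.pow s)).AllAbsolute tw ↔
      (X.pow r).AllAbsolute tw ∧ (Y.pow s).AllAbsolute tw) := fun r s =>
    (h1 r s S T R tw (X.pow r) (Y.pow s) (pow_coh X r) (pow_coh Y s)).1
  refine ⟨⟨fun h3 => ⟨fun r => ((h2 r 0).1 (h3 r 0)).1, fun s => ((h2 0 s).1 (h3 0 s)).2⟩,
    fun h3 r s => (h2 r s).2 ⟨h3.1 r, h3.2 s⟩⟩, fun r s h3 j => ?_⟩
  exact ((h1 r s S T R tw (X.pow r) (Y.pow s) (pow_coh X r) (pow_coh Y s)).2 h3 j).1

/-- **The theorem on all powers of a variety.** -/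
theorem forAllOutside (Y : HodgeSpace B) :
    ForAllOutside Y.charSpace (fun _ _ X => HodgeOnAllPowers X Y ∧ AbsoluteOnAllPowers X Y) := by
  intro J _ L _ _ _ x hx hcomb A _ X hX hgen
  have h1 : ∀ r s, IsHodgeOfProducts (X.pow r) (Y.pow s) := by
    intro r s
    have h2 := span_pow (span_of_gen hX hgen) r
    exact hodgeOfProducts_pow x hx hcomb (isOfCMType_of_span h2) (isGeneratedBy_of_span h2) s
  exact ⟨fun r s j => hodgeIn_prod_eq (h1 r s) j, absoluteOnAllPowers h1⟩

end main

end Pool.Agent.H855.HG
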