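import Mathlib
import Pool.Agent.H855.HG.Kunneth

/-!
# Algebraic classes on the products with the fibres of a family: definitions
-/

set_option autoImplicit false
set_option linter.unusedSectionVars false

namespace Pool.Agent.H855.HG

open Matrix Module

variable {A B : Type} [Fintype A] [Fintype B]

/-- The value of the bilinear form with the matrix `g`. -/
def form (g : A → A → ℚ) (x y : A → ℚ) : ℚ := ∑ a, ∑ b, x a * g a b * y b

/-- The contraction of the class `w` on the product with the class `x` on the first factor: the
push-forward of the product of `w` with the pull-back of `x`. -/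
def contract (g : A → A → ℚ) (x : A → ℚ) (w : A × B → ℚ) : B → ℚ :=
  fun b => form g x (fun a => w (a, b))

/-- Algebraic classes. `V` is the rational cohomology of a smooth projective complex variety `X`, and
`N` is the rational Hodge structure of the global sections of the local systems `R^m π_* ℚ` of a
smooth projective morphism `π : 𝒴 → S`; by the theorem of the fixed part its Hodge structure, induced
by `H^m(𝒴_s)`, does not depend on the point `s`. The global sections for `X × 𝒴 → S` are the elements
of `V ⊗ N`. -/
structure FamilyTimes (V : HodgeSpace A) (N : HodgeSpace B) (S : Type) where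
  /-- the dimension of `X` -/
  n : ℕ
  /-- the intersection form on the cohomology of `X` -/
  pair : A → A → ℚ
  pair_deg : ∀ a b, V.deg a + V.deg b ≠ 2 * n → pair a b = 0
  deg_le : ∀ a, V.deg a ≤ 2 * n
  /-- the unit class of `X` -/
  one : A → ℚ
  one_mem : one ∈ V.hodgeIn 0
  one_ne : one ≠ 0
  /-- the algebraic classes on `X` -/
  algX : ℕ → Submodule ℚ (A → ℚ)
  /-- the global sections whose values at the point `s` are algebraic classes on `𝒴_s` -/
  alg : S → ℕ → Submodule ℚ (B → ℚ)
  /-- the global sections whose values at the point `s` are algebraic classes on `X × 𝒴_s` -/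
  algP : S → ℕ → Submodule ℚ (A × B → ℚ)
  algX_le : ∀ i, algX i ≤ V.hodgeIn i
  alg_le : ∀ s k, alg s k ≤ N.hodgeIn k
  algP_le : ∀ s j, algP s j ≤ (V.prod N).hodgeIn j
  /-- products of algebraic classes are algebraic -/
  cross_mem : ∀ s i k, ∀ x ∈ algX i, ∀ y ∈ alg s k, cross x y ∈ algP s (i + k)
  /-- contractions with algebraic classes on `X` are algebraic -/
  contract_mem : ∀ s i j k, i + j = n + k → ∀ x ∈ algX i, ∀ w ∈ algP s j,
    contract pair x w ∈ alg s k

variable {V : HodgeSpace A} {N : HodgeSpace B} {S : Type}

/-- The Hodge conjecture for `X`. -/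
def FamilyTimes.HodgeForX (F : FamilyTimes V N S) : Prop := ∀ i, V.hodgeIn i ≤ F.algX i

/-- The intersection form is nondegenerate on the Hodge classes on `X` (this is true for all smooth
projective varieties, by the theorem of Lefschetz and the bilinear relations of Hodge and Riemann). -/
def FamilyTimes.IsPerfect (F : FamilyTimes V N S) : Prop :=
  ∀ i, i ≤ F.n → ∀ x ∈ V.hodgeIn i, (∀ x' ∈ V.hodgeIn (F.n - i), form F.pair x' x = 0) → x = 0

/-- The variational Hodge conjecture for `𝒴/S` in codimension `k`: a global section whose value at one
point is algebraic is algebraic at all points. -/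
def FamilyTimes.Variational (F : FamilyTimes V N S) (k : ℕ) : Prop :=
  ∀ s s', F.alg s k ≤ F.alg s' k

/-- The variational Hodge conjecture for `X × 𝒴/S` in codimension `j`. -/
def FamilyTimes.VariationalP (F : FamilyTimes V N S) (j : ℕ) : Prop :=
  ∀ s s', F.algP s j ≤ F.algP s' j

/-- The algebraic classes on the fibres `X × 𝒴_s` which are values of global sections. If the Hodge
conjecture is true for `X` then

* the algebraic classes on `X × 𝒴_s` which are values of global sections are the sums of products of
  algebraic classes on `X` and algebraic classes on `𝒴_s` which are values of global sections;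
* the variational Hodge conjecture for `X × 𝒴/S` in codimension `j` is true if and only if it is true
  for `𝒴/S` in codimension `j - i`, for all `i` such that there are nonzero Hodge classes of
  codimension `i` on `X` (all `i ≤ dim X`);
* the variational Hodge conjecture for `X × 𝒴/S` in all codimensions is true if and only if it is
  true for `𝒴/S` in all codimensions. -/
def VariationalOnProducts (V : HodgeSpace A) (N : HodgeSpace B) : Prop :=
  ∀ (S : Type) (F : FamilyTimes V N S), F.HodgeForX → F.IsPerfect →
    (∀ s j, F.algP s j = Submodule.span ℚ {z | ∃ i k, i + k = j ∧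
      ∃ x ∈ V.hodgeIn i, ∃ y ∈ F.alg s k, z = cross x y}) ∧
    (∀ j, F.VariationalP j ↔ ∀ i k, i + k = j → V.hodgeIn i ≠ ⊥ → F.Variational k) ∧
    ((∀ j, F.VariationalP j) ↔ ∀ k, F.Variational k)

end Pool.Agent.H855.HG
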