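import Mathlib
import Pool.Agent.H855.HG.VarDefs

/-!
# Hodge classes of the exterior products of categories: definitions
-/

set_option autoImplicit false
set_option linter.unusedSectionVars false

namespace Pool.Agent.H855.HG

open Matrix Module

variable {A B : Type} [Fintype A] [Fintype B]

/-- The contraction of the class `w` on the product with the class `y` on the second factor. -/
def contractR (g : B → B → ℚ) (y : B → ℚ) (w : A × B → ℚ) : A → ℚ :=
  fun a => form g y (fun b => w (a, b))

/-- Classes of objects. `V` and `W` are the topological K-theories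
`K_0^top ⊗ ℚ ⊕ K_1^top ⊗ ℚ` of the admissible subcategories `𝒟` and `𝒞` of the categories of perfect
complexes on smooth proper complex varieties, with their Hodge structures: the degree is `0` or `1`,
and the Hodge operator is the multiplication by `p - q`, with the eigenspaces `HH_(p - q)`. The
topological K-theory of the exterior product `𝒟 ⊠ 𝒞` is `V ⊗ W`. -/
structure CategoryTimes (V : HodgeSpace A) (W : HodgeSpace B) where
  /-- the matrix of the Euler form `χ(D, D')` on `K_*^top(𝒟) ⊗ ℚ` -/
  euler : A → A → ℚ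
  /-- the matrix of the Euler form `χ(C, C')` on `K_*^top(𝒞) ⊗ ℚ` -/
  eulerC : B → B → ℚ
  /-- the image of `K_0(𝒟) ⊗ ℚ` -/
  algD : Submodule ℚ (A → ℚ)
  /-- the image of `K_0(𝒞) ⊗ ℚ` -/
  algC : Submodule ℚ (B → ℚ)
  /-- the image of `K_0(𝒟 ⊠ 𝒞) ⊗ ℚ` -/
  algP : Submodule ℚ (A × B → ℚ)
  algD_le : algD ≤ V.hodge
  algC_le : algC ≤ W.hodge
  algP_le : algP ≤ (V.prod W).hodge
  /-- exterior products of objects -/
  cross_mem : ∀ x ∈ algD, ∀ y ∈ algC, cross x y ∈ algP
  /-- the functors `RHom(D, -) : 𝒟 ⊠ 𝒞 → 𝒞`, for the objects `D` of `𝒟` -/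
  contract_mem : ∀ x ∈ algD, ∀ w ∈ algP, contract euler x w ∈ algC
  /-- the functors `RHom(C, -) : 𝒟 ⊠ 𝒞 → 𝒟`, for the objects `C` of `𝒞` -/
  contractR_mem : ∀ y ∈ algC, ∀ w ∈ algP, contractR eulerC y w ∈ algD

variable {V : HodgeSpace A} {W : HodgeSpace B}

/-- The noncommutative Hodge conjecture for `𝒟`: `K_0(𝒟) ⊗ ℚ → Hdg(𝒟, ℚ)` is surjective. -/
def CategoryTimes.HodgeForD (F : CategoryTimes V W) : Prop := V.hodge ≤ F.algD

/-- The noncommutative Hodge conjecture for `𝒞`. -/
def CategoryTimes.HodgeForC (F : CategoryTimes V W) : Prop := W.hodge ≤ F.algC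

/-- The noncommutative Hodge conjecture for `𝒟 ⊠ 𝒞`. -/
def CategoryTimes.HodgeForP (F : CategoryTimes V W) : Prop := (V.prod W).hodge ≤ F.algP

/-- The Euler form is nondegenerate on the Hodge classes of `𝒟` (this is true for all admissible
subcategories of the categories of perfect complexes on smooth projective varieties). -/
def CategoryTimes.IsPerfect (F : CategoryTimes V W) : Prop :=
  ∀ x ∈ V.hodge, (∀ x' ∈ V.hodge, form F.euler x' x = 0) → x = 0

/-- The Euler forms are not zero on `K_0(𝒟)` and `K_0(𝒞)` (for instance if the categories have objects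
which are exceptional, or if they are the categories of perfect complexes on varieties). -/
def CategoryTimes.IsNontrivial (F : CategoryTimes V W) : Prop :=
  (∃ x ∈ F.algD, ∃ x' ∈ F.algD, form F.euler x' x ≠ 0) ∧
    ∃ y ∈ F.algC, ∃ y' ∈ F.algC, form F.eulerC y' y ≠ 0

/-- Hodge classes of the exterior product of `𝒟` and `𝒞`:

* the Hodge classes of `𝒟 ⊠ 𝒞` are the sums of exterior products of Hodge classes of `𝒟` and `𝒞`;
* the noncommutative Hodge conjecture is true for `𝒟 ⊠ 𝒞` if and only if it is true for `𝒟` and for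
  `𝒞` (if the Euler forms are not zero on `K_0(𝒟)` and `K_0(𝒞)`);
* if the noncommutative Hodge conjecture is true for `𝒟` then the classes of `K_0(𝒟 ⊠ 𝒞) ⊗ ℚ` are
  the sums of exterior products of Hodge classes of `𝒟` and classes of `K_0(𝒞) ⊗ ℚ`; and, if there
  are nonzero Hodge classes of `𝒟`, the noncommutative Hodge conjecture is true for `𝒟 ⊠ 𝒞` if and
  only if it is true for `𝒞`. -/
def NoncommutativeOnProducts (V : HodgeSpace A) (W : HodgeSpace B) : Prop :=
  (V.prod W).hodge = Submodule.span ℚ {z | ∃ x ∈ V.hodge, ∃ y ∈ W.hodge, z = cross x y} ∧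
  (∀ F : CategoryTimes V W, F.IsNontrivial → (F.HodgeForP ↔ F.HodgeForD ∧ F.HodgeForC)) ∧
  ∀ F : CategoryTimes V W, F.HodgeForD → F.IsPerfect →
    F.algP = Submodule.span ℚ {z | ∃ x ∈ V.hodge, ∃ y ∈ F.algC, z = cross x y} ∧
    (V.hodge ≠ ⊥ → (F.HodgeForP ↔ F.HodgeForC))

/-- Classes of objects in a family. `V` is the topological K-theory of an admissible subcategory `𝒟`
as above; `N` is the rational Hodge structure of the global sections of the local systems
`K_m^top(𝒞/S) ⊗ ℚ` (`m = 0, 1`) of an `S`-linear admissible subcategory `𝒞` of the category of perfect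
complexes on the total space of a smooth proper morphism; it does not depend on the point of `S`. The
global sections for `𝒟 ⊠ 𝒞` are the elements of `V ⊗ N`. -/
structure CategoryFamilyTimes (V : HodgeSpace A) (N : HodgeSpace B) (S : Type) where
  /-- the matrix of the Euler form on `K_*^top(𝒟) ⊗ ℚ` -/
  euler : A → A → ℚ
  /-- the image of `K_0(𝒟) ⊗ ℚ` -/
  algD : Submodule ℚ (A → ℚ)
  /-- the global sections whose values at the point `s` are in the image of `K_0(𝒞_s) ⊗ ℚ` -/
  alg : S → Submodule ℚ (B → ℚ)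
  /-- the global sections whose values at the point `s` are in the image of
  `K_0(𝒟 ⊠ 𝒞_s) ⊗ ℚ` -/
  algP : S → Submodule ℚ (A × B → ℚ)
  algD_le : algD ≤ V.hodge
  alg_le : ∀ s, alg s ≤ N.hodge
  algP_le : ∀ s, algP s ≤ (V.prod N).hodge
  /-- exterior products of objects -/
  cross_mem : ∀ s, ∀ x ∈ algD, ∀ y ∈ alg s, cross x y ∈ algP s
  /-- the functors `RHom(D, -) : 𝒟 ⊠ 𝒞_s → 𝒞_s`, for the objects `D` of `𝒟` -/
  contract_mem : ∀ s, ∀ x ∈ algD, ∀ w ∈ algP s, contract euler x w ∈ alg s

/-- Algebraic global sections for the exterior product of `𝒟` and the family `𝒞/S`, if the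
noncommutative Hodge conjecture is true for `𝒟` and the Euler form is nondegenerate on the Hodge
classes of `𝒟`:

* the global sections for `𝒟 ⊠ 𝒞` which are algebraic at the point `s` are the sums of exterior
  products of Hodge classes of `𝒟` and global sections for `𝒞` which are algebraic at `s`;
* if there are nonzero Hodge classes of `𝒟`: for all points `s`, `s'`, all global sections for
  `𝒟 ⊠ 𝒞` which are algebraic at `s` are algebraic at `s'` if and only if this is true for the global
  sections for `𝒞`; in particular the noncommutative variational Hodge conjecture is true for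
  `𝒟 ⊠ 𝒞` if and only if it is true for `𝒞`. -/
def NCVariationalOnProducts (V : HodgeSpace A) (N : HodgeSpace B) : Prop :=
  ∀ (S : Type) (F : CategoryFamilyTimes V N S), V.hodge ≤ F.algD →
    (∀ x ∈ V.hodge, (∀ x' ∈ V.hodge, form F.euler x' x = 0) → x = 0) →
    (∀ s, F.algP s = Submodule.span ℚ {z | ∃ x ∈ V.hodge, ∃ y ∈ F.alg s, z = cross x y}) ∧
    (V.hodge ≠ ⊥ → (∀ s s', F.algP s ≤ F.algP s' ↔ F.alg s ≤ F.alg s') ∧
      ((∀ s s', F.algP s ≤ F.algP s') ↔ ∀ s s', F.alg s ≤ F.alg s'))

end Pool.Agent.H855.HG
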