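import Mathlib
import Pool.Agent.H855.HG.VarDefs
import Pool.Agent.H855.HG.Abs

/-!
# Algebraic classes on the products with the fibres of a family
-/

set_option autoImplicit false
set_option linter.unusedSectionVars false
set_option linter.unusedVariables false

namespace Pool.Agent.H855.HG

open Matrix Module

variable {A B : Type} [Fintype A] [Fintype B]

/-- The bilinear form. -/
def formL (g : A → A → ℚ) : (A → ℚ) →ₗ[ℚ] (A → ℚ) →ₗ[ℚ] ℚ :=
  LinearMap.mk₂ ℚ (form g)
    (fun x x' y => by
      simp only [form, ← Finset.sum_add_distrib]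
      exact Finset.sum_congr rfl fun a _ => Finset.sum_congr rfl fun b _ => by
        rw [Pi.add_apply]; ring)
    (fun c x y => by
      simp only [form, smul_eq_mul, Finset.mul_sum]
      exact Finset.sum_congr rfl fun a _ => Finset.sum_congr rfl fun b _ => by
        rw [Pi.smul_apply, smul_eq_mul]; ring)
    (fun x y y' => by
      simp only [form, ← Finset.sum_add_distrib]
      exact Finset.sum_congr rfl fun a _ => Finset.sum_congr rfl fun b _ => by
        rw [Pi.add_apply]; ring)
    (fun c x y => by
      simp only [form, smul_eq_mul, Finset.mul_sum]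
      exact Finset.sum_congr rfl fun a _ => Finset.sum_congr rfl fun b _ => by
        rw [Pi.smul_apply, smul_eq_mul]; ring)

theorem formL_apply (g : A → A → ℚ) (x y : A → ℚ) : formL g x y = form g x y := rfl

/-- Dual vectors. -/
theorem exists_dual_form (g : A → A → ℚ) (P Q : Submodule ℚ (A → ℚ))
    (h : ∀ x ∈ Q, (∀ x' ∈ P, form g x' x = 0) → x = 0) {r : ℕ} (e : Basis (Fin r) ℚ Q) :
    ∃ f : Fin r → A → ℚ, (∀ l, f l ∈ P) ∧ ∀ l k, form g (f l) (e k) = if l = k then 1 else 0 := by
  classical
  let φ : Q →ₗ[ℚ] Module.Dual ℚ P :=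
    { toFun := fun x => ((formL g).flip (x : A → ℚ)).comp P.subtype
      map_add' := fun x y => by
        ext z
        simp
      map_smul' := fun c x => by
        ext z
        simp }
  have hφ : Function.Injective φ := by
    rw [injective_iff_map_eq_zero]
    intro x hx
    refine Subtype.ext (h x.1 x.2 fun x' hx' => ?_)
    exact LinearMap.congr_fun hx ⟨x', hx'⟩
  have hsurj := LinearMap.dualMap_surjective_of_injective hφ
  choose F hF using fun l => hsurj (e.coord l)
  let f : Fin r → P := fun l => (Module.evalEquiv ℚ P).symm (F l)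
  refine ⟨fun l => (f l : A → ℚ), fun l => (f l).2, fun l k => ?_⟩
  have h1 : F l = Module.evalEquiv ℚ P (f l) := ((Module.evalEquiv ℚ P).apply_symm_apply (F l)).symm
  have h2 := LinearMap.congr_fun (hF l) (e k)
  rw [LinearMap.dualMap_apply, h1, Module.evalEquiv_apply, Basis.coord_apply, Basis.repr_self,
    Finsupp.single_apply] at h2
  have h3 : Dual.eval ℚ P (f l) (φ (e k)) = form g (f l) (e k) := rfl
  rw [h3] at h2
  rw [h2]
  by_cases hlk : l = k
  · rw [if_pos hlk, if_pos hlk.symm]
  · rw [if_neg hlk, if_neg (Ne.symm hlk)]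

theorem contract_cross (g : A → A → ℚ) (x e : A → ℚ) (y : B → ℚ) :
    contract g x (cross e y) = form g x e • y := by
  funext b
  simp only [contract, form, cross, Pi.smul_apply, smul_eq_mul, Finset.sum_mul]
  exact Finset.sum_congr rfl fun a _ => Finset.sum_congr rfl fun c _ => by ring

/-- The contraction as a linear map. -/
def contractL (g : A → A → ℚ) (x : A → ℚ) : (A × B → ℚ) →ₗ[ℚ] (B → ℚ) where
  toFun w := contract g x w
  map_add' w w' := by
    funext b
    simp only [contract, form, Pi.add_apply, ← Finset.sum_add_distrib]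
    exact Finset.sum_congr rfl fun a _ => Finset.sum_congr rfl fun c _ => by ring
  map_smul' c w := by
    funext b
    simp only [contract, form, Pi.smul_apply, smul_eq_mul, Finset.mul_sum, RingHom.id_apply]
    exact Finset.sum_congr rfl fun a _ => Finset.sum_congr rfl fun c _ => by ring

theorem contractL_apply (g : A → A → ℚ) (x : A → ℚ) (w : A × B → ℚ) :
    contractL g x w = contract g x w := rfl

variable {V : HodgeSpace A} {N : HodgeSpace B} {S : Type} (F : FamilyTimes V N S)

/-- The contraction depends only on one component. -/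
theorem contract_pc {a : ℕ} (ha : a ≤ F.n) {f : A → ℚ} (hf : f ∈ V.hodgeIn (F.n - a))
    (w : A × B → ℚ) : contract F.pair f w = contract F.pair f (pc V.deg (2 * a) w) := by
  funext b
  simp only [contract, form]
  refine Finset.sum_congr rfl fun c _ => Finset.sum_congr rfl fun d _ => ?_
  rw [pc_apply]
  by_cases hd : V.deg d = 2 * a
  · rw [if_pos hd]
  · rw [if_neg hd, mul_zero]
    by_cases hc : V.deg c = 2 * (F.n - a)
    · rw [F.pair_deg c d (by omega), mul_zero, zero_mul]
    · rw [hf.2 c hc, zero_mul, zero_mul]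

theorem hodgeIn_zero_of_lt {a : ℕ} (ha : F.n < a) {x : A → ℚ} (hx : x ∈ V.hodgeIn a) : x = 0 := by
  funext c
  refine hx.2 c fun h => ?_
  have := F.deg_le c
  omega

/-- **The algebraic classes on the product.** -/
theorem algP_eq (h : IsHodgeOfProducts V N) (hX : F.HodgeForX) (hp : F.IsPerfect) (s : S) (j : ℕ) :
    F.algP s j = Submodule.span ℚ {z | ∃ i k, i + k = j ∧
      ∃ x ∈ V.hodgeIn i, ∃ y ∈ F.alg s k, z = cross x y} := by
  classical
  apply le_antisymm
  · intro w hw
    have hw' := h j (F.algP_le s j hw)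
    rw [sum_pc hw']
    refine Submodule.sum_mem _ fun a ha => ?_
    have haj : a ≤ j := by
      have := Finset.mem_range.1 ha
      omega
    let e : Basis (Fin (finrank ℚ (V.hodgeIn a))) ℚ (V.hodgeIn a) := Module.finBasis ℚ _
    obtain ⟨c, hc, hexp⟩ := expand_pc (j := j) e hw'
    rw [hexp]
    by_cases han : a ≤ F.n
    · obtain ⟨f, hf, hdual⟩ := exists_dual_form F.pair (V.hodgeIn (F.n - a)) (V.hodgeIn a)
        (hp a han) e
      refine Submodule.sum_mem _ fun l _ => Submodule.subset_span
        ⟨a, j - a, by omega, _, (e l).2, _, ?_, rfl⟩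
      have h1 := F.contract_mem s (F.n - a) j (j - a) (by omega) (f l) (hX _ (hf l)) w hw
      have h2 : contract F.pair (f l) w = c l := by
        rw [contract_pc F han (hf l), hexp, ← contractL_apply, map_sum, Finset.sum_eq_single l]
        · rw [contractL_apply, contract_cross, hdual, if_pos rfl, one_smul]
        · intro k _ hk
          rw [contractL_apply, contract_cross, hdual, if_neg (Ne.symm hk), zero_smul]
        · intro h
          exact absurd (Finset.mem_univ _) h
      rw [← h2]
      exact h1
    · refine Submodule.sum_mem _ fun l _ => ?_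
      have h1 : (e l : A → ℚ) = 0 := hodgeIn_zero_of_lt F (by omega) (e l).2
      rw [h1]
      have h2 : cross (0 : A → ℚ) (c l) = 0 := by
        funext p
        exact zero_mul _
      rw [h2]
      exact Submodule.zero_mem _
  · refine Submodule.span_le.2 ?_
    rintro _ ⟨i, k, rfl, x, hx, y, hy, rfl⟩
    exact F.cross_mem s i k x (hX i hx) y hy

theorem cross_mem_iff (hX : F.HodgeForX) (hp : F.IsPerfect) (s : S) {i k : ℕ} {x : A → ℚ}
    (hx : x ∈ V.hodgeIn i) (hx0 : x ≠ 0) {y : B → ℚ} (h : cross x y ∈ F.algP s (i + k)) :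
    y ∈ F.alg s k := by
  have hin : i ≤ F.n := by
    by_contra hlt
    exact hx0 (hodgeIn_zero_of_lt F (by omega) hx)
  have h1 : ∃ x' ∈ V.hodgeIn (F.n - i), form F.pair x' x ≠ 0 := by
    by_contra hcon
    push Not at hcon
    exact hx0 (hp i hin x hx hcon)
  obtain ⟨x', hx', hne⟩ := h1
  have h2 := F.contract_mem s (F.n - i) (i + k) k (by omega) x' (hX _ hx') _ h
  rw [contract_cross] at h2
  have h3 := Submodule.smul_mem _ (form F.pair x' x)⁻¹ h2
  rwa [smul_smul, inv_mul_cancel₀ hne, one_smul] at h3

theorem variationalP_iff (h : IsHodgeOfProducts V N) (hX : F.HodgeForX) (hp : F.IsPerfect)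
    (j : ℕ) : F.VariationalP j ↔ ∀ i k, i + k = j → V.hodgeIn i ≠ ⊥ → F.Variational k := by
  constructor
  · rintro h1 i k rfl hi s s' y hy
    obtain ⟨x, hx, hx0⟩ := (Submodule.ne_bot_iff _).1 hi
    exact cross_mem_iff F hX hp s' hx hx0
      (h1 s s' (F.cross_mem s i k x (hX i hx) y hy))
  · intro h1 s s'
    rw [algP_eq F h hX hp s j]
    refine Submodule.span_le.2 ?_
    rintro _ ⟨i, k, hik, x, hx, y, hy, rfl⟩
    by_cases hx0 : x = 0
    · have h2 : cross x y = 0 := by
        rw [hx0]
        funext p
        exact zero_mul _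
      change cross x y ∈ F.algP s' j
      rw [h2]
      exact Submodule.zero_mem _
    · subst hik
      have hi : V.hodgeIn i ≠ ⊥ := (Submodule.ne_bot_iff _).2 ⟨x, hx, hx0⟩
      exact F.cross_mem s' i k x (hX i hx) y (h1 i k rfl hi s s' hy)

/-- **The variational Hodge conjecture on products.** -/
theorem variationalOnProducts (h : IsHodgeOfProducts V N) : VariationalOnProducts V N := by
  intro S F hX hp
  refine ⟨algP_eq F h hX hp, variationalP_iff F h hX hp, fun h1 k => ?_, fun h1 j => ?_⟩
  · refine (variationalP_iff F h hX hp (0 + k)).1 (h1 _) 0 k rfl ?_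
    exact (Submodule.ne_bot_iff _).2 ⟨F.one, F.one_mem, F.one_ne⟩
  · exact (variationalP_iff F h hX hp j).2 fun i k _ _ => h1 k

end Pool.Agent.H855.HG
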