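import Mathlib
import Pool.Agent.H855.HG.CatDefs
import Pool.Agent.H855.HG.Var

/-!
# Hodge classes of the exterior products of categories
-/

set_option autoImplicit false
set_option linter.unusedSectionVars false
set_option linter.unusedVariables false

namespace Pool.Agent.H855.HG

open Matrix Module

variable {A B : Type} [Fintype A] [Fintype B] {V : HodgeSpace A} {W : HodgeSpace B}

theorem hodgeIn_le (V : HodgeSpace A) (j : ℕ) : V.hodgeIn j ≤ V.hodge := inf_le_left

theorem cross_hodge' {x : A → ℚ} {y : B → ℚ} (hx : x ∈ V.hodge) (hy : y ∈ W.hodge) :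
    cross x y ∈ (V.prod W).hodge := by
  change prodOp V.op W.op *ᵥ cv (cross x y) = 0
  rw [cv_cross, prodOp_cross, show V.op *ᵥ cv x = 0 from hx, show W.op *ᵥ cv y = 0 from hy]
  funext p
  simp [cross]

/-- All Hodge classes are sums of Hodge classes of the single codimensions. -/
theorem hodge_eq_sum {x : A → ℚ} (hx : x ∈ V.hodge) : x ∈ ⨆ j, V.hodgeIn j := by
  classical
  have h1 : x = ∑ m ∈ Finset.univ.image V.deg, comp V.deg m x := by
    funext a
    rw [Finset.sum_apply, Finset.sum_eq_single (V.deg a)]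
    · exact (if_pos rfl).symm
    · intro m _ hm
      exact if_neg (Ne.symm hm)
    · intro h
      exact absurd (Finset.mem_image_of_mem _ (Finset.mem_univ a)) h
  rw [h1]
  refine Submodule.sum_mem _ fun m _ => ?_
  by_cases hev : Even m
  · obtain ⟨i, hi⟩ := hev
    refine Submodule.mem_iSup_of_mem i ⟨comp_hodge V hx m, ?_⟩
    rw [show 2 * i = m by omega]
    exact comp_part V x m
  · rw [hodge_odd V (comp_hodge V hx m) (comp_part V x m) hev]
    exact Submodule.zero_mem _

/-- The Hodge classes of a product. -/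
theorem hodge_prod (h : IsHodgeOfProducts V W) :
    (V.prod W).hodge = Submodule.span ℚ {z | ∃ x ∈ V.hodge, ∃ y ∈ W.hodge, z = cross x y} := by
  apply le_antisymm
  · intro z hz
    refine (iSup_le fun j => (h j).trans (Submodule.span_mono ?_)) (hodge_eq_sum hz)
    rintro _ ⟨i, k, -, x, hx, y, hy, rfl⟩
    exact ⟨x, hx.1, y, hy.1, rfl⟩
  · refine Submodule.span_le.2 ?_
    rintro _ ⟨x, hx, y, hy, rfl⟩
    exact cross_hodge' hx hy

/-- Expansion in a basis. -/
theorem expand_basis {P : Submodule ℚ (A → ℚ)} {Q : Submodule ℚ (B → ℚ)} {r : ℕ}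
    (e : Basis (Fin r) ℚ P) {w : A × B → ℚ}
    (hw : w ∈ Submodule.span ℚ {z | ∃ x ∈ P, ∃ y ∈ Q, z = cross x y}) :
    ∃ c : Fin r → B → ℚ, (∀ l, c l ∈ Q) ∧ w = ∑ l, cross (e l : A → ℚ) (c l) := by
  classical
  induction hw using Submodule.span_induction with
  | mem w hw =>
    obtain ⟨x, hx, y, hy, rfl⟩ := hw
    refine ⟨fun l => e.repr ⟨x, hx⟩ l • y, fun l => Submodule.smul_mem _ _ hy, ?_⟩
    have h1 := congrArg Subtype.val (e.sum_repr ⟨x, hx⟩)
    rw [Submodule.coe_sum] at h1
    funext p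
    have h2 := congrFun h1 p.1
    rw [Finset.sum_apply] at h2 ⊢
    change x p.1 * y p.2 = _
    have h3 : x p.1 = ∑ l, e.repr ⟨x, hx⟩ l * (e l : A → ℚ) p.1 := h2.symm
    rw [h3, Finset.sum_mul]
    refine Finset.sum_congr rfl fun l _ => ?_
    change _ = (e l : A → ℚ) p.1 * (e.repr ⟨x, hx⟩ l * y p.2)
    ring
  | zero =>
    refine ⟨0, fun l => Submodule.zero_mem _, ?_⟩
    symm
    refine Finset.sum_eq_zero fun l _ => ?_
    funext p
    exact mul_zero _
  | add u v _ _ hu hv =>
    obtain ⟨c, hc, h1⟩ := hu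
    obtain ⟨c', hc', h2⟩ := hv
    refine ⟨c + c', fun l => Submodule.add_mem _ (hc l) (hc' l), ?_⟩
    rw [h1, h2, ← Finset.sum_add_distrib]
    refine Finset.sum_congr rfl fun l _ => ?_
    funext p
    exact (mul_add _ _ _).symm
  | smul q u _ hu =>
    obtain ⟨c, hc, h1⟩ := hu
    refine ⟨q • c, fun l => Submodule.smul_mem _ q (hc l), ?_⟩
    rw [h1, Finset.smul_sum]
    refine Finset.sum_congr rfl fun l _ => ?_
    funext p
    change q * ((e l : A → ℚ) p.1 * c l p.2) = (e l : A → ℚ) p.1 * (q * c l p.2)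
    ring

/-- The algebraic classes of a product, in general. -/
theorem alg_eq {g : A → A → ℚ} {algP : Submodule ℚ (A × B → ℚ)} {alg : Submodule ℚ (B → ℚ)}
    (h : IsHodgeOfProducts V W) (hle : algP ≤ (V.prod W).hodge)
    (hcross : ∀ x ∈ V.hodge, ∀ y ∈ alg, cross x y ∈ algP)
    (hcon : ∀ x ∈ V.hodge, ∀ w ∈ algP, contract g x w ∈ alg)
    (hp : ∀ x ∈ V.hodge, (∀ x' ∈ V.hodge, form g x' x = 0) → x = 0) :
    algP = Submodule.span ℚ {z | ∃ x ∈ V.hodge, ∃ y ∈ alg, z = cross x y} := by
  classical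
  apply le_antisymm
  · intro w hw
    have hw' := hle hw
    rw [hodge_prod h] at hw'
    let e : Basis (Fin (finrank ℚ V.hodge)) ℚ V.hodge := Module.finBasis ℚ _
    obtain ⟨c, hc, hexp⟩ := expand_basis e hw'
    obtain ⟨f, hf, hdual⟩ := exists_dual_form g V.hodge V.hodge hp e
    have hcl : ∀ l, c l ∈ alg := by
      intro l
      have h1 := hcon (f l) (hf l) w hw
      have h2 : contract g (f l) w = c l := by
        rw [hexp, ← contractL_apply, map_sum, Finset.sum_eq_single l]
        · rw [contractL_apply, contract_cross, hdual, if_pos rfl, one_smul]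
        · intro k _ hk
          rw [contractL_apply, contract_cross, hdual, if_neg (Ne.symm hk), zero_smul]
        · intro h
          exact absurd (Finset.mem_univ _) h
      rw [← h2]
      exact h1
    rw [hexp]
    exact Submodule.sum_mem _ fun l _ => Submodule.subset_span ⟨_, (e l).2, _, hcl l, rfl⟩
  · refine Submodule.span_le.2 ?_
    rintro _ ⟨x, hx, y, hy, rfl⟩
    exact hcross x hx y hy

/-- Cancellation. -/
theorem alg_cancel {g : A → A → ℚ} {algP : Submodule ℚ (A × B → ℚ)} {alg : Submodule ℚ (B → ℚ)}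
    (hcon : ∀ x ∈ V.hodge, ∀ w ∈ algP, contract g x w ∈ alg)
    (hp : ∀ x ∈ V.hodge, (∀ x' ∈ V.hodge, form g x' x = 0) → x = 0) {x : A → ℚ}
    (hx : x ∈ V.hodge) (hx0 : x ≠ 0) {y : B → ℚ} (h : cross x y ∈ algP) : y ∈ alg := by
  have h1 : ∃ x' ∈ V.hodge, form g x' x ≠ 0 := by
    by_contra hcon
    push Not at hcon
    exact hx0 (hp x hx hcon)
  obtain ⟨x', hx', hne⟩ := h1
  have h2 := hcon x' hx' _ h
  rw [contract_cross] at h2
  have h3 := Submodule.smul_mem _ (form g x' x)⁻¹ h2
  rwa [smul_smul, inv_mul_cancel₀ hne, one_smul] at h3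

theorem contractR_cross (g : B → B → ℚ) (y : B → ℚ) (x : A → ℚ) (z : B → ℚ) :
    contractR g y (cross x z) = form g y z • x := by
  funext a
  simp only [contractR, form, cross, Pi.smul_apply, smul_eq_mul, Finset.sum_mul]
  exact Finset.sum_congr rfl fun b _ => Finset.sum_congr rfl fun c _ => by ring

/-- **The noncommutative Hodge conjecture for the exterior product and for the factors.** -/
theorem hodgeForP_iff (h : IsHodgeOfProducts V W) (F : CategoryTimes V W) (hF : F.IsNontrivial) :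
    F.HodgeForP ↔ F.HodgeForD ∧ F.HodgeForC := by
  obtain ⟨⟨x, hx, x', hx', hne⟩, y, hy, y', hy', hne'⟩ := hF
  constructor
  · intro h1
    constructor
    · intro u hu
      have h2 := F.contractR_mem y' hy' _ (h1 (cross_hodge' hu (F.algC_le hy)))
      rw [contractR_cross] at h2
      have h3 := Submodule.smul_mem _ (form F.eulerC y' y)⁻¹ h2
      rwa [smul_smul, inv_mul_cancel₀ hne', one_smul] at h3
    · intro u hu
      have h2 := F.contract_mem x' hx' _ (h1 (cross_hodge' (F.algD_le hx) hu))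
      rw [contract_cross] at h2
      have h3 := Submodule.smul_mem _ (form F.euler x' x)⁻¹ h2
      rwa [smul_smul, inv_mul_cancel₀ hne, one_smul] at h3
  · rintro ⟨h1, h2⟩
    change (V.prod W).hodge ≤ F.algP
    rw [hodge_prod h]
    refine Submodule.span_le.2 ?_
    rintro _ ⟨u, hu, v, hv, rfl⟩
    exact F.cross_mem u (h1 hu) v (h2 hv)

theorem noncommutativeOnProducts (h : IsHodgeOfProducts V W) : NoncommutativeOnProducts V W := by
  refine ⟨hodge_prod h, hodgeForP_iff h, fun F hD hp => ?_⟩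
  have h1 := alg_eq h F.algP_le (fun x hx => F.cross_mem x (hD hx))
    (fun x hx => F.contract_mem x (hD hx)) hp
  refine ⟨h1, fun hne => ⟨fun h2 => ?_, fun h2 => ?_⟩⟩
  · intro y hy
    obtain ⟨x, hx, hx0⟩ := (Submodule.ne_bot_iff _).1 hne
    exact alg_cancel (V := V) (fun x hx => F.contract_mem x (hD hx)) hp hx hx0
      (h2 (cross_hodge' hx hy))
  · change (V.prod W).hodge ≤ F.algP
    rw [hodge_prod h, h1]
    refine Submodule.span_mono ?_
    rintro _ ⟨x, hx, y, hy, rfl⟩
    exact ⟨x, hx, y, h2 hy, rfl⟩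

theorem ncVariationalOnProducts (h : IsHodgeOfProducts V W) : NCVariationalOnProducts V W := by
  intro S F hD hp
  have h1 : ∀ s, F.algP s = Submodule.span ℚ {z | ∃ x ∈ V.hodge, ∃ y ∈ F.alg s, z = cross x y} :=
    fun s => alg_eq h (F.algP_le s) (fun x hx => F.cross_mem s x (hD hx))
      (fun x hx => F.contract_mem s x (hD hx)) hp
  have h2 : V.hodge ≠ ⊥ → ∀ s s', F.algP s ≤ F.algP s' ↔ F.alg s ≤ F.alg s' := by
    intro hne s s'
    constructor
    · intro h2 y hy
      obtain ⟨x, hx, hx0⟩ := (Submodule.ne_bot_iff _).1 hne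
      exact alg_cancel (V := V) (fun x hx => F.contract_mem s' x (hD hx)) hp hx hx0
        (h2 (F.cross_mem s x (hD hx) y hy))
    · intro h2
      rw [h1 s, h1 s']
      refine Submodule.span_mono ?_
      rintro _ ⟨x, hx, y, hy, rfl⟩
      exact ⟨x, hx, y, h2 hy, rfl⟩
  exact ⟨h1, fun hne => ⟨h2 hne, ⟨fun h3 s s' => (h2 hne s s').1 (h3 s s'),
    fun h3 s s' => (h2 hne s s').2 (h3 s s')⟩⟩⟩

end Pool.Agent.H855.HG
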