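import Mathlib

/-!
# Ideals with perfect quotients in a Lie algebra
-/

set_option autoImplicit false
set_option linter.unusedSectionVars false

namespace Pool.Agent.H855.HG

open Module

section

variable {R : Type*} [NonUnitalRing R] [Module ℂ R] [IsScalarTower ℂ R R] [SMulCommClass ℂ R R]

/-- The commutator. -/
def br (a b : R) : R := a * b - b * a

theorem br_add_left (a b c : R) : br (a + b) c = br a c + br b c := by
  unfold br
  rw [add_mul, mul_add]
  abel

theorem br_add_right (a b c : R) : br a (b + c) = br a b + br a c := by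
  unfold br
  rw [add_mul, mul_add]
  abel

theorem br_neg (a b : R) : br a b = - br b a := by
  unfold br
  abel

theorem br_self (a : R) : br a a = 0 := sub_self _

theorem br_smul_left (c : ℂ) (a b : R) : br (c • a) b = c • br a b := by
  unfold br
  rw [smul_mul_assoc, mul_smul_comm, smul_sub]

theorem br_smul_right (c : ℂ) (a b : R) : br a (c • b) = c • br a b := by
  unfold br
  rw [smul_mul_assoc, mul_smul_comm, smul_sub]

/-- The space generated by the commutators of elements of `g`. -/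
def cm (g : Submodule ℂ R) : Submodule ℂ R :=
  Submodule.span ℂ {C | ∃ M ∈ g, ∃ N ∈ g, C = br M N}

/-- `P` is an ideal of `g`. -/
def IsIdl (g P : Submodule ℂ R) : Prop := P ≤ g ∧ ∀ M ∈ g, ∀ N ∈ P, br M N ∈ P

variable {g P Q Q' : Submodule ℂ R}

theorem IsIdl.right (h : IsIdl g P) {M N : R} (hM : M ∈ g) (hN : N ∈ P) : br N M ∈ P := by
  rw [br_neg]
  exact P.neg_mem (h.2 M hM N hN)

theorem IsIdl.inf (h : IsIdl g P) (h' : IsIdl g Q) : IsIdl g (P ⊓ Q) :=
  ⟨inf_le_left.trans h.1, fun M hM N hN => ⟨h.2 M hM N hN.1, h'.2 M hM N hN.2⟩⟩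

theorem isIdl_self (hg : ∀ M ∈ g, ∀ N ∈ g, br M N ∈ g) : IsIdl g g := ⟨le_rfl, hg⟩

/-- The decomposition of a commutator. -/
theorem br_decomp (hP : IsIdl g P) (hQ : IsIdl g Q) (hQ' : IsIdl g Q') (h : g ≤ P ⊔ Q)
    (h' : g ≤ P ⊔ Q') {M N : R} (hM : M ∈ g) (hN : N ∈ g) :
    ∃ q ∈ Q, ∃ q' ∈ Q', ∃ p ∈ P, br M N = br q q' + p := by
  obtain ⟨p1, hp1, q1, hq1, rfl⟩ := Submodule.mem_sup.1 (h hM)
  obtain ⟨p2, hp2, q2, hq2, rfl⟩ := Submodule.mem_sup.1 (h' hN)
  refine ⟨q1, hq1, q2, hq2, br p1 (p2 + q2) + br q1 p2, ?_, ?_⟩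
  · exact P.add_mem (hP.right hN hp1) (hP.2 _ (hQ.1 hq1) _ hp2)
  · rw [br_add_left, br_add_right q1]
    abel

theorem cm_le_sup_inf (hP : IsIdl g P) (hQ : IsIdl g Q) (hQ' : IsIdl g Q') (h : g ≤ P ⊔ Q)
    (h' : g ≤ P ⊔ Q') : cm g ≤ P ⊔ (Q ⊓ Q') := by
  refine Submodule.span_le.2 ?_
  rintro _ ⟨M, hM, N, hN, rfl⟩
  obtain ⟨q, hq, q', hq', p, hp, heq⟩ := br_decomp hP hQ hQ' h h' hM hN
  rw [heq, add_comm]
  exact Submodule.add_mem_sup hp ⟨hQ.right (hQ'.1 hq') hq, hQ'.2 _ (hQ.1 hq) _ hq'⟩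

/-- **Comaximal with two ideals, comaximal with the intersection.** -/
theorem le_sup_inf (hP : IsIdl g P) (hQ : IsIdl g Q) (hQ' : IsIdl g Q') (h : g ≤ P ⊔ Q)
    (h' : g ≤ P ⊔ Q') (hperf : g ≤ cm g ⊔ P) : g ≤ P ⊔ (Q ⊓ Q') :=
  hperf.trans (sup_le (cm_le_sup_inf hP hQ hQ' h h') le_sup_left)

theorem le_cm_sup_inf_aux (hP : IsIdl g P) (hQ : IsIdl g Q) (h : g ≤ P ⊔ Q)
    (hperf : g ≤ cm g ⊔ P) : Q ≤ cm g ⊔ (P ⊓ Q) := by
  have h1 : cm g ≤ (cm g ⊓ Q) ⊔ P := by
    refine Submodule.span_le.2 ?_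
    rintro _ ⟨M, hM, N, hN, rfl⟩
    obtain ⟨q, hq, q', hq', p, hp, heq⟩ := br_decomp hP hQ hQ h h hM hN
    rw [heq]
    exact Submodule.add_mem_sup ⟨Submodule.subset_span ⟨q, hQ.1 hq, q', hQ.1 hq', rfl⟩,
      hQ.2 _ (hQ.1 hq) _ hq'⟩ hp
  intro x hx
  obtain ⟨c, hc, p, hp, rfl⟩ := Submodule.mem_sup.1 (hperf (hQ.1 hx))
  obtain ⟨c', hc', p', hp', rfl⟩ := Submodule.mem_sup.1 (h1 hc)
  have h2 : p' + p ∈ Q := by
    have h3 := Q.sub_mem hx hc'.2
    have h4 : c' + p' + p - c' = p' + p := by abel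
    rw [h4] at h3
    exact h3
  rw [add_assoc]
  exact Submodule.add_mem_sup hc'.1 ⟨P.add_mem hp' hp, h2⟩

/-- **The quotient by the intersection of two comaximal ideals with perfect quotients is perfect.** -/
theorem le_cm_sup_inf (hP : IsIdl g P) (hQ : IsIdl g Q) (h : g ≤ P ⊔ Q)
    (hp : g ≤ cm g ⊔ P) (hq : g ≤ cm g ⊔ Q) : g ≤ cm g ⊔ (P ⊓ Q) := by
  refine h.trans (sup_le ?_ (le_cm_sup_inf_aux hP hQ h hp))
  rw [inf_comm]
  exact le_cm_sup_inf_aux hQ hP (by rwa [sup_comm]) hq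

variable [FiniteDimensional ℂ R]

theorem finrank_inf (hP : IsIdl g P) (hQ : IsIdl g Q) (h : g ≤ P ⊔ Q) :
    finrank ℂ g + finrank ℂ (P ⊓ Q : Submodule ℂ R) = finrank ℂ P + finrank ℂ Q := by
  have h1 := Submodule.finrank_sup_add_finrank_inf_eq P Q
  have h2 : P ⊔ Q = g := le_antisymm (sup_le hP.1 hQ.1) h
  rw [h2] at h1
  exact h1

/-- **A nonzero perfect quotient has dimension at least three.** -/
theorem three_le (hP : IsIdl g P) (hperf : g ≤ cm g ⊔ P) (hne : ¬ g ≤ P) :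
    finrank ℂ P + 3 ≤ finrank ℂ g := by
  by_contra hlt
  obtain ⟨u, hu, huP⟩ := Set.not_subset.1 hne
  have key : ∀ v : R, v ∈ g → g ≤ P ⊔ Submodule.span ℂ {u, v} → g ≤ P ⊔ Submodule.span ℂ {br u v} := by
    intro v hv h
    refine hperf.trans (sup_le (Submodule.span_le.2 ?_) le_sup_left)
    rintro _ ⟨M, hM, N, hN, rfl⟩
    obtain ⟨p, hp, m, hm, rfl⟩ := Submodule.mem_sup.1 (h hM)
    obtain ⟨p', hp', n, hn, rfl⟩ := Submodule.mem_sup.1 (h hN)
    obtain ⟨a, b, rfl⟩ := Submodule.mem_span_pair.1 hm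
    obtain ⟨a', b', rfl⟩ := Submodule.mem_span_pair.1 hn
    have h1 : a • u + b • v ∈ g := g.add_mem (g.smul_mem _ hu) (g.smul_mem _ hv)
    have h2 : br (a • u + b • v) (a' • u + b' • v) = (a * b' - b * a') • br u v := by
      rw [br_add_left, br_add_right, br_add_right]
      simp only [br_smul_left, br_smul_right, br_self]
      rw [br_neg v u]
      module
    have h3 : br (p + (a • u + b • v)) (p' + (a' • u + b' • v)) =
        (br p (p' + (a' • u + b' • v)) + br (a • u + b • v) p') + (a * b' - b * a') • br u v := by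
      rw [br_add_left p, br_add_right (a • u + b • v) p', h2]
      abel
    change br (p + (a • u + b • v)) (p' + (a' • u + b' • v)) ∈ P ⊔ Submodule.span ℂ {br u v}
    rw [h3]
    refine Submodule.add_mem_sup (P.add_mem (hP.right hN hp) (hP.2 _ h1 _ hp')) ?_
    exact Submodule.smul_mem _ _ (Submodule.mem_span_singleton_self _)
  -- the step
  have step : ∀ (S : Submodule ℂ R), S ≤ g → g ≤ P ⊔ Submodule.span ℂ {u} → False := by
    intro S _ h
    have h1 := key u hu (by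
      rw [Set.pair_eq_singleton]
      exact h)
    rw [br_self, Submodule.span_zero_singleton, sup_bot_eq] at h1
    exact hne h1
  have h1 : P < P ⊔ Submodule.span ℂ {u} := by
    refine lt_of_le_of_ne le_sup_left fun h => huP ?_
    rw [h]
    exact Submodule.mem_sup_right (Submodule.mem_span_singleton_self _)
  have h2 := Submodule.finrank_lt_finrank_of_lt h1
  have hle : P ⊔ Submodule.span ℂ {u} ≤ g :=
    sup_le hP.1 ((Submodule.span_singleton_le_iff_mem _ _).2 hu)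
  by_cases hg : g ≤ P ⊔ Submodule.span ℂ {u}
  · exact step g le_rfl hg
  · obtain ⟨v, hv, hvP⟩ := Set.not_subset.1 hg
    have h3 : P ⊔ Submodule.span ℂ {u} < P ⊔ Submodule.span ℂ {u, v} := by
      refine lt_of_le_of_ne (sup_le_sup_left (Submodule.span_mono (by simp)) _) fun h => hvP ?_
      rw [h]
      exact Submodule.mem_sup_right (Submodule.subset_span (by simp))
    have h4 := Submodule.finrank_lt_finrank_of_lt h3
    have hle' : P ⊔ Submodule.span ℂ {u, v} ≤ g := by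
      refine sup_le hP.1 (Submodule.span_le.2 ?_)
      rintro x (rfl | rfl)
      · exact hu
      · exact hv
    have h5 : P ⊔ Submodule.span ℂ {u, v} = g :=
      Submodule.eq_of_le_of_finrank_le hle' (by omega)
    have h6 := key v hv h5.ge
    have h7 : finrank ℂ (P ⊔ Submodule.span ℂ {br u v} : Submodule ℂ R) ≤ finrank ℂ P + 1 := by
      refine (Submodule.finrank_add_le_finrank_add_finrank _ _).trans ?_
      have h9 : finrank ℂ (Submodule.span ℂ {br u v}) ≤ 1 := by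
        have h10 := finrank_span_le_card (R := ℂ) ({br u v} : Set R)
        simpa using h10
      omega
    have h8 := Submodule.finrank_mono h6
    have h9 := Submodule.finrank_mono hle'
    omega

/-- **The Chinese remainder theorem and the count.** -/
theorem card_le {I : Type*} (J : I → Submodule ℂ R) (hg : ∀ M ∈ g, ∀ N ∈ g, br M N ∈ g)
    (hJ : ∀ i, IsIdl g (J i)) (hperf : ∀ i, g ≤ cm g ⊔ J i) (hcop : ∀ i k, i ≠ k → g ≤ J i ⊔ J k)
    (E : Finset I) (hE : ∀ i ∈ E, ¬ g ≤ J i) : 3 * E.card ≤ finrank ℂ (cm g) := by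
  classical
  have key : ∀ E : Finset I, (∀ i ∈ E, ¬ g ≤ J i) → ∃ K : Submodule ℂ R, IsIdl g K ∧
      g ≤ cm g ⊔ K ∧ (∀ k, k ∉ E → g ≤ J k ⊔ K) ∧ finrank ℂ K + 3 * E.card ≤ finrank ℂ g := by
    intro E
    induction E using Finset.induction_on with
    | empty =>
      intro _
      exact ⟨g, isIdl_self hg, le_sup_right, fun k _ => le_sup_right, by simp⟩
    | insert i E hi ih =>
      intro hE
      obtain ⟨K, hK, hKp, hKc, hKf⟩ := ih fun k hk => hE k (Finset.mem_insert_of_mem hk)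
      have h1 := hKc i hi
      refine ⟨J i ⊓ K, (hJ i).inf hK, le_cm_sup_inf (hJ i) hK h1 (hperf i) hKp, fun k hk => ?_, ?_⟩
      · have hk1 : k ≠ i := fun h => hk (h ▸ Finset.mem_insert_self _ _)
        have hk2 : k ∉ E := fun h => hk (Finset.mem_insert_of_mem h)
        exact le_sup_inf (hJ k) (hJ i) hK (hcop k i hk1) (hKc k hk2) (hperf k)
      · rw [Finset.card_insert_of_notMem hi]
        have h2 := finrank_inf (hJ i) hK h1
        have h3 := three_le (hJ i) (hperf i) (hE i (Finset.mem_insert_self _ _))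
        omega
  obtain ⟨K, -, hKp, -, hKf⟩ := key E hE
  have h1 := Submodule.finrank_mono hKp
  have h2 := Submodule.finrank_add_le_finrank_add_finrank (cm g) K
  omega

end

end Pool.Agent.H855.HG
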