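import Mathlib

/-!
# The cyclotomic character
-/

set_option autoImplicit false

namespace Pool.Agent.H855.HG

/-- The `ℓ`-adic cyclotomic character of the absolute Galois group of a field, with values in the
group of the units of `ℚ_ℓ`. -/
noncomputable def cyclo (L : Type) [Field L] (ℓ : ℕ) [Fact ℓ.Prime] :
    Field.absoluteGaloisGroup L →* ℚ_[ℓ]ˣ where
  toFun g := Units.map (algebraMap ℤ_[ℓ] ℚ_[ℓ]).toMonoidHom
    (cyclotomicCharacter (AlgebraicClosure L) ℓ
      (g : AlgebraicClosure L ≃ₐ[L] AlgebraicClosure L).toRingEquiv)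
  map_one' := by
    have h : ((1 : Field.absoluteGaloisGroup L) : AlgebraicClosure L ≃ₐ[L]
        AlgebraicClosure L).toRingEquiv = 1 := rfl
    rw [h, map_one, map_one]
  map_mul' g h := by
    have h' : ((g * h : Field.absoluteGaloisGroup L) : AlgebraicClosure L ≃ₐ[L]
        AlgebraicClosure L).toRingEquiv =
        (g : AlgebraicClosure L ≃ₐ[L] AlgebraicClosure L).toRingEquiv *
          (h : AlgebraicClosure L ≃ₐ[L] AlgebraicClosure L).toRingEquiv := rfl
    rw [h', map_mul, map_mul]

end Pool.Agent.H855.HG
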