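import Mathlib
import Pool.Agent.H855.HG.AutC
import Pool.Agent.H855.HG.AbsDefs

/-!
# Descent to the rational numbers
-/

set_option autoImplicit false
set_option linter.unusedSectionVars false

namespace Pool.Agent.H855.HG

open Matrix Module

section descent

variable {B : Type} [Fintype B]

open Classical in
/-- The support of a vector. -/
noncomputable def vsupp {R : Type} [Zero R] (w : B → R) : Finset B := Finset.univ.filter fun b => w b ≠ 0

theorem mem_vsupp {R : Type} [Zero R] {w : B → R} {b : B} : b ∈ vsupp w ↔ w b ≠ 0 := by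
  simp [vsupp]

theorem vsupp_nonempty {R : Type} [Zero R] {w : B → R} (hw : w ≠ 0) : (vsupp w).Nonempty := by
  obtain ⟨b, hb⟩ := Function.ne_iff.1 hw
  exact ⟨b, mem_vsupp.2 hb⟩

/-- **Descent.** A space stable under the automorphisms of `ℂ` is generated by rational vectors. -/
theorem descent (W : Submodule ℂ (B → ℂ))
    (hW : ∀ w ∈ W, ∀ σ : ℂ ≃+* ℂ, (fun b => σ (w b)) ∈ W) :
    W ≤ Submodule.span ℂ {w | ∃ x : B → ℚ, w = cv x ∧ cv x ∈ W} := by
  classical
  have key : ∀ (n : ℕ) (w : B → ℂ), w ∈ W → (vsupp w).card = n →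
      w ∈ Submodule.span ℂ {w | ∃ x : B → ℚ, w = cv x ∧ cv x ∈ W} := by
    intro n
    induction n using Nat.strong_induction_on with
    | _ n ih =>
      intro w hw hn
      by_cases hw0 : w = 0
      · rw [hw0]
        exact Submodule.zero_mem _
      have hex : ∃ k, ∃ u ∈ W, u ≠ 0 ∧ vsupp u ⊆ vsupp w ∧ (vsupp u).card = k :=
        ⟨_, w, hw, hw0, Finset.Subset.refl _, rfl⟩
      obtain ⟨u, hu, hu0, hsub, hk⟩ := Nat.find_spec hex
      have hmin : ∀ v ∈ W, vsupp v ⊆ vsupp w → (vsupp v).card < (vsupp u).card → v = 0 := by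
        intro v hv hvs hlt
        by_contra hv0
        rw [hk] at hlt
        exact Nat.find_min hex hlt ⟨v, hv, hv0, hvs, rfl⟩
      obtain ⟨b, hb⟩ := vsupp_nonempty hu0
      have hub : u b ≠ 0 := mem_vsupp.1 hb
      let u' : B → ℂ := (u b)⁻¹ • u
      have hu' : u' ∈ W := Submodule.smul_mem _ _ hu
      have hu'b : u' b = 1 := by
        change (u b)⁻¹ * u b = 1
        exact inv_mul_cancel₀ hub
      have hsupp : ∀ c, u' c ≠ 0 → c ∈ vsupp u := by
        intro c hc
        refine mem_vsupp.2 fun h => hc ?_
        change (u b)⁻¹ * u c = 0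
        rw [h, mul_zero]
      have hfix : ∀ (σ : ℂ ≃+* ℂ) c, σ (u' c) = u' c := by
        intro σ c
        have h1 : (fun b => σ (u' b)) - u' ∈ W := Submodule.sub_mem _ (hW u' hu' σ) hu'
        have hs : vsupp ((fun b => σ (u' b)) - u') ⊆ (vsupp u).erase b := by
          intro c hc
          have h2 := mem_vsupp.1 hc
          have h3 : σ (u' c) - u' c ≠ 0 := h2
          refine Finset.mem_erase.2 ⟨fun h => ?_, hsupp c fun h => ?_⟩
          · rw [h, hu'b, map_one, sub_self] at h3
            exact h3 rfl
          · rw [h, map_zero, sub_self] at h3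
            exact h3 rfl
        have h4 := hmin _ h1 ((hs.trans (Finset.erase_subset _ _)).trans hsub)
          (lt_of_le_of_lt (Finset.card_le_card hs) (Finset.card_erase_lt_of_mem hb))
        have h5 : σ (u' c) - u' c = 0 := congrFun h4 c
        exact sub_eq_zero.1 h5
      choose x hx using fun c => exists_rat_of_fixed fun σ => hfix σ c
      have hx' : cv x = u' := funext hx
      have h6 : w - w b • u' ∈ W := Submodule.sub_mem _ hw (Submodule.smul_mem _ _ hu')
      have hs6 : vsupp (w - w b • u') ⊆ (vsupp w).erase b := by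
        intro c hc
        have h2' := mem_vsupp.1 hc
        have h2 : w c - w b * u' c ≠ 0 := h2'
        refine Finset.mem_erase.2 ⟨fun h => ?_, ?_⟩
        · rw [h, hu'b, mul_one, sub_self] at h2
          exact h2 rfl
        · by_contra h7
          have h8 : w c = 0 := by
            by_contra h9
            exact h7 (mem_vsupp.2 h9)
          have h9 : u' c = 0 := by
            by_contra h10
            exact h7 (hsub (hsupp c h10))
          rw [h8, h9, mul_zero, sub_zero] at h2
          exact h2 rfl
      have hlt : (vsupp (w - w b • u')).card < n := by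
        rw [← hn]
        exact lt_of_le_of_lt (Finset.card_le_card hs6) (Finset.card_erase_lt_of_mem (hsub hb))
      have h7 := ih _ hlt _ h6 rfl
      have h8 : w = (w - w b • u') + w b • u' := by rw [sub_add_cancel]
      rw [h8]
      refine Submodule.add_mem _ h7 (Submodule.smul_mem _ _ (Submodule.subset_span ⟨x, hx'.symm, ?_⟩))
      rw [hx']
      exact hu'
  exact fun w hw => key _ w hw rfl

end descent

section scalars

variable {R : Type} [Field R] [Algebra ℚ R] {B : Type} [Fintype B]

/-- The functionals detect the spans of rational vectors. -/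
theorem mem_span_rv {P : Submodule ℚ (B → ℚ)} {y : B → R}
    (h : ∀ f : R →ₗ[ℚ] ℚ, (fun b => f (y b)) ∈ P) :
    y ∈ Submodule.span R {z | ∃ x ∈ P, z = rv R x} := by
  classical
  -- the space of the coefficients
  let M : Submodule ℚ R := Submodule.span ℚ (Set.range y)
  haveI : FiniteDimensional ℚ M := FiniteDimensional.span_of_finite ℚ (Set.finite_range y)
  let e := Module.finBasis ℚ M
  choose f hf using fun i => LinearMap.exists_extend (e.coord i)
  have hf' : ∀ i (x : M), f i x = e.repr x i := fun i x => LinearMap.congr_fun (hf i) x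
  have hy : ∀ b, y b ∈ M := fun b => Submodule.subset_span ⟨b, rfl⟩
  have h1 : y = ∑ i, (e i : R) • rv R (fun b => f i (y b)) := by
    funext b
    have h2 := congrArg (fun x : M => (x : R)) (e.sum_repr ⟨y b, hy b⟩)
    change _ = y b at h2
    rw [Finset.sum_apply, ← h2]
    rw [Submodule.coe_sum]
    refine Finset.sum_congr rfl fun i _ => ?_
    have h3 : f i (y b) = e.repr ⟨y b, hy b⟩ i := hf' i ⟨y b, hy b⟩
    change (e.repr ⟨y b, hy b⟩ i) • (e i : R) = (e i : R) * algebraMap ℚ R (f i (y b))
    rw [h3, Algebra.smul_def, mul_comm]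
  rw [h1]
  exact Submodule.sum_mem _ fun i _ => Submodule.smul_mem _ _ (Submodule.subset_span ⟨_, h (f i), rfl⟩)

theorem coeff_mem {P : Submodule ℚ (B → ℚ)} {y : B → R}
    (h : y ∈ Submodule.span R {z | ∃ x ∈ P, z = rv R x}) (f : R →ₗ[ℚ] ℚ) :
    (fun b => f (y b)) ∈ P := by
  have key : ∀ y ∈ Submodule.span R {z | ∃ x ∈ P, z = rv R x}, ∀ f : R →ₗ[ℚ] ℚ,
      (fun b => f (y b)) ∈ P := by
    intro y hy
    induction hy using Submodule.span_induction with
    | mem z hz =>
      obtain ⟨x, hx, rfl⟩ := hz
      intro f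
      have h1 : (fun b => f (rv R x b)) = f 1 • x := by
        funext b
        change f (algebraMap ℚ R (x b)) = f 1 * x b
        rw [Algebra.algebraMap_eq_smul_one, map_smul, smul_eq_mul, mul_comm]
      rw [h1]
      exact Submodule.smul_mem _ _ hx
    | zero =>
      intro f
      have h1 : (fun b => f ((0 : B → R) b)) = 0 := by
        funext b
        exact map_zero f
      rw [h1]
      exact Submodule.zero_mem _
    | add y z _ _ hy hz =>
      intro f
      have h1 : (fun b => f ((y + z) b)) = (fun b => f (y b)) + fun b => f (z b) := by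
        funext b
        exact map_add f _ _
      rw [h1]
      exact Submodule.add_mem _ (hy f) (hz f)
    | smul c y _ hy =>
      intro f
      exact hy (f ∘ₗ LinearMap.mulLeft ℚ c)
  exact key y h f

end scalars

section iota

variable {R : Type} [Field R] {B : Type} [Fintype B] (ι : R →+* ℂ)

/-- The scalars of a vector. -/
def iv (y : B → R) : B → ℂ := fun b => ι (y b)

theorem iv_injective {y z : B → R} (h : iv ι y = iv ι z) : y = z := by
  funext b
  exact ι.injective (congrFun h b)

theorem iv_rv [Algebra ℚ R] (x : B → ℚ) : iv ι (rv R x) = cv x := by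
  funext b
  change ι (algebraMap ℚ R (x b)) = (x b : ℂ)
  rw [eq_ratCast, map_ratCast]

/-- Linear combinations descend. -/
theorem mem_span_of_iv {S : Set (B → R)} {y : B → R}
    (h : iv ι y ∈ Submodule.span ℂ (iv ι '' S)) : y ∈ Submodule.span R S := by
  classical
  by_contra hy
  obtain ⟨f, hf, hS⟩ := Submodule.exists_le_ker_of_notMem hy
  -- the functional as a sum
  have h1 : ∀ z : B → R, f z = ∑ b, z b * f (Pi.single b 1) := by
    intro z
    have h2 : z = ∑ b, z b • (Pi.single b 1 : B → R) := by
      funext c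
      rw [Finset.sum_apply, Finset.sum_eq_single c]
      · rw [Pi.smul_apply, Pi.single_eq_same, smul_eq_mul, mul_one]
      · intro b _ hb
        rw [Pi.smul_apply, Pi.single_eq_of_ne (Ne.symm hb), smul_zero]
      · intro h
        exact absurd (Finset.mem_univ _) h
    conv_lhs => rw [h2]
    rw [map_sum]
    refine Finset.sum_congr rfl fun b _ => ?_
    rw [map_smul, smul_eq_mul]
  let F : (B → ℂ) →ₗ[ℂ] ℂ :=
    { toFun := fun w => ∑ b, w b * ι (f (Pi.single b 1))
      map_add' := fun w w' => by
        simp only [Pi.add_apply, add_mul, Finset.sum_add_distrib]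
      map_smul' := fun c w => by
        simp only [Pi.smul_apply, smul_eq_mul, RingHom.id_apply, Finset.mul_sum, mul_assoc] }
  have hF : ∀ z : B → R, F (iv ι z) = ι (f z) := by
    intro z
    rw [h1 z, map_sum]
    change ∑ b, ι (z b) * ι (f (Pi.single b 1)) = _
    exact Finset.sum_congr rfl fun b _ => (map_mul ι _ _).symm
  have h2 : Submodule.span ℂ (iv ι '' S) ≤ LinearMap.ker F := by
    rw [Submodule.span_le]
    rintro _ ⟨s, hs, rfl⟩
    change F (iv ι s) = 0
    rw [hF, show f s = 0 from hS (Submodule.subset_span hs), map_zero]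
  have h3 : F (iv ι y) = 0 := h2 h
  rw [hF] at h3
  exact hf ((map_eq_zero ι).1 h3)

/-- Independence is preserved. -/
theorem linearIndependent_iv {n : ℕ} (v : Fin n → B → R) (hv : LinearIndependent R v) :
    LinearIndependent ℂ (fun i => iv ι (v i)) := by
  letI : Algebra R ℂ := ι.toAlgebra
  rw [Fintype.linearIndependent_iff] at hv ⊢
  intro c hc i
  by_contra hci
  have h1 : ∃ f : ℂ →ₗ[R] R, f (c i) ≠ 0 := by
    by_contra h2
    push Not at h2
    exact hci ((Module.forall_dual_apply_eq_zero_iff R (c i)).1 h2)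
  obtain ⟨f, hf⟩ := h1
  apply hf
  refine hv (fun k => f (c k)) ?_ i
  funext b
  have h2 := congrArg f (congrFun hc b)
  rw [Finset.sum_apply, map_sum, Pi.zero_apply, map_zero] at h2
  rw [Finset.sum_apply, Pi.zero_apply, ← h2]
  refine Finset.sum_congr rfl fun k _ => ?_
  rw [Pi.smul_apply, Pi.smul_apply, smul_eq_mul, smul_eq_mul]
  change _ = f (c k * ι (v k b))
  have h3 : c k * ι (v k b) = (v k b) • c k := by
    rw [Algebra.smul_def, mul_comm]
    rfl
  rw [h3, map_smul, smul_eq_mul, mul_comm]

end iota

section rows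

variable {R : Type} [Field R] {B B' : Type} [Fintype B] [Fintype B']

/-- A matrix with columns in `P` and rows in `Q` is a sum of products of elements of `P` and `Q`. -/
theorem mem_span_of_rowsR (P : Submodule R (B' → R)) (Q : Submodule R (B → R)) (ω : B' × B → R)
    (hP : ∀ b, (fun a => ω (a, b)) ∈ P) (hQ : ∀ a, (fun b => ω (a, b)) ∈ Q) :
    ω ∈ Submodule.span R {z | ∃ x ∈ P, ∃ y ∈ Q, z = cross x y} := by
  classical
  let e : Basis (Fin (finrank R P)) R P := Module.finBasis R P
  choose ℓ hℓ using fun i => LinearMap.exists_extend (e.coord i)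
  have hℓ' : ∀ i (x : P), ℓ i x = e.repr x i := fun i x => LinearMap.congr_fun (hℓ i) x
  let c : Fin (finrank R P) → B → R := fun i b => ℓ i (fun a => ω (a, b))
  have h1 : ω = ∑ i, cross (e i : B' → R) (c i) := by
    funext p
    obtain ⟨a, b⟩ := p
    have h2 := congrArg (fun x : P => (x : B' → R) a) (e.sum_repr ⟨_, hP b⟩)
    change ω (a, b) = _
    have h3 : (fun a => ω (a, b)) a = ω (a, b) := rfl
    rw [Finset.sum_apply, ← h3]
    refine h2.symm.trans ?_
    rw [Submodule.coe_sum, Finset.sum_apply]
    refine Finset.sum_congr rfl fun i _ => ?_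
    change (e.repr ⟨_, hP b⟩ i) * (e i : B' → R) a = (e i : B' → R) a * c i b
    rw [mul_comm, ← hℓ' i ⟨_, hP b⟩]
  have h2 : ∀ i, c i ∈ Q := by
    intro i
    have h3 : c i = ∑ a, ℓ i (Pi.single a 1) • fun b => ω (a, b) := by
      funext b
      rw [Finset.sum_apply]
      change ℓ i (fun a => ω (a, b)) = _
      have h4 : (fun a => ω (a, b)) = ∑ a, ω (a, b) • (Pi.single a 1 : B' → R) := by
        funext a
        rw [Finset.sum_apply, Finset.sum_eq_single a]
        · rw [Pi.smul_apply, Pi.single_eq_same, smul_eq_mul, mul_one]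
        · intro a' _ ha'
          rw [Pi.smul_apply, Pi.single_eq_of_ne (Ne.symm ha'), smul_zero]
        · intro h
          exact absurd (Finset.mem_univ _) h
      conv_lhs => rw [h4]
      rw [map_sum]
      refine Finset.sum_congr rfl fun a _ => ?_
      rw [map_smul, Pi.smul_apply, smul_eq_mul, smul_eq_mul, mul_comm]
    rw [h3]
    exact Submodule.sum_mem _ fun a _ => Submodule.smul_mem _ _ (hQ a)
  rw [h1]
  exact Submodule.sum_mem _ fun i _ => Submodule.subset_span ⟨_, (e i).2, _, h2 i, rfl⟩

end rows

end Pool.Agent.H855.HG
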