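import Mathlib
import Pool.Agent.H855.HG.Descent

/-!
# Hodge classes and Tate classes on the products with varieties of CM type: definitions
-/

set_option autoImplicit false
set_option linter.unusedSectionVars false

namespace Pool.Agent.H855.HG

open Matrix Module NumberField

/-- The property `P` holds for all elements of a subgroup of finite index. -/
def Near {Γ : Type} [Group Γ] (P : Γ → Prop) : Prop :=
  ∃ H : Subgroup Γ, H.FiniteIndex ∧ ∀ g ∈ H, P g

/-- The algebraic Hecke characters of the finite extensions of a number field `L`, as characters of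
open subgroups of the Galois group `Γ` of `L` with values in `ℚ̄_ℓ ≃ ℂ` (Weil, Serre). Here `R = ℚ_ℓ`,
`ι` is an embedding in `ℂ` and `cyc` is the cyclotomic character. The infinity type of a character
(for embeddings `L' → ℂ` of a finite extension `L'` of `L` in `ℂ`) is written as a pair `(m, d)`: the
weight `m` is an integer and `d` is a function on the automorphisms of `ℂ`; the character of a
one-dimensional piece of the cohomology in degree `m`, whose conjugate under `σ` is of type `(p, q)`,
has the type `(m, d)` with `d σ = p - q`. The function `chr m d` on `Γ` is the character with the type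
`(m, d)` on a subgroup of finite index. -/
structure HeckeCharacters (Γ : Type) [Group Γ] {R : Type} [Field R] (ι : R →+* ℂ)
    (cyc : Γ →* Rˣ) where
  /-- the infinity types -/
  IsType : ℤ → ((ℂ ≃+* ℂ) → ℤ) → Prop
  /-- the characters -/
  chr : ℤ → ((ℂ ≃+* ℂ) → ℤ) → Γ → ℂ
  isType_add : ∀ {m m' d d'}, IsType m d → IsType m' d' → IsType (m + m') (d + d')
  isType_neg : ∀ {m d}, IsType m d → IsType (-m) (-d)
  /-- the type of the character of the dual of `ℚ(1)` -/
  isType_tate : IsType 2 0
  chr_add : ∀ {m m' d d'}, IsType m d → IsType m' d' →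
    Near fun g => chr (m + m') (d + d') g = chr m d g * chr m' d' g
  chr_tate : Near fun g => chr 2 0 g = ι ((cyc g)⁻¹ : Rˣ)
  /-- the character is determined by its type, and the type by the character -/
  chr_injective : ∀ {m m' d d'}, IsType m d → IsType m' d' →
    (Near fun g => chr m d g = chr m' d' g) → m = m' ∧ d = d'
  /-- `p + q = m` and `p - q = d σ` -/
  even : ∀ {m d}, IsType m d → ∀ σ, Even (d σ - m)

/-- The cohomology of a smooth projective variety over a number field `L` contained in `ℂ`: the Betti
cohomology `ℚ^B` with its Hodge structure and the action of the Galois group `Γ` of `L` on the `ℓ`-adic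
cohomology `R^B`, `R = ℚ_ℓ` (by the theorem of Artin it is the Betti cohomology with coefficients
`ℚ_ℓ`). -/
structure GaloisSpace (Γ : Type) [Group Γ] (R : Type) [Field R] [Algebra ℚ R] (B : Type)
    [Fintype B] extends HodgeSpace B where
  /-- the action of the Galois group -/
  rho : Γ → Matrix B B R
  rho_one : ∀ v, rho 1 *ᵥ v = v
  rho_mul : ∀ g h, rho (g * h) = rho g * rho h
  rho_graded : ∀ g b b', deg b ≠ deg b' → rho g b b' = 0
  /-- the class `1` of degree zero -/
  one : B → ℚ
  one_mem : one ∈ toHodgeSpace.hodgeIn 0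
  one_ne : one ≠ 0
  rho_unit : ∀ g, rho g *ᵥ rv R one = rv R one

section near

variable {Γ : Type} [Group Γ]

theorem Near.mono {P Q : Γ → Prop} (h : Near P) (hPQ : ∀ g, P g → Q g) : Near Q := by
  obtain ⟨H, hH, h⟩ := h
  exact ⟨H, hH, fun g hg => hPQ g (h g hg)⟩

theorem Near.and {P Q : Γ → Prop} (hP : Near P) (hQ : Near Q) : Near fun g => P g ∧ Q g := by
  obtain ⟨H, hH, h⟩ := hP
  obtain ⟨H', hH', h'⟩ := hQ
  refine ⟨H ⊓ H', inferInstance, fun g hg => ⟨h g ?_, h' g ?_⟩⟩
  · exact hg.1
  · exact hg.2

theorem near_of_all {P : Γ → Prop} (h : ∀ g, P g) : Near P := ⟨⊤, inferInstance, fun g _ => h g⟩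

theorem near_finset {J : Type} (s : Finset J) (P : J → Γ → Prop) (h : ∀ j ∈ s, Near (P j)) :
    Near fun g => ∀ j ∈ s, P j g := by
  classical
  induction s using Finset.induction_on with
  | empty => exact near_of_all fun g j hj => absurd hj (Finset.notMem_empty j)
  | insert a s ha ih =>
    have h1 := ih fun j hj => h j (Finset.mem_insert_of_mem hj)
    refine ((h a (Finset.mem_insert_self _ _)).and h1).mono fun g hg j hj => ?_
    rcases Finset.mem_insert.1 hj with rfl | hj
    · exact hg.1
    · exact hg.2 j hj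

end near

section

variable {Γ : Type} [Group Γ] {R : Type} [Field R] [Algebra ℚ R] {B B' : Type} [Fintype B]
  [Fintype B']

/-- The Tate classes of codimension `j`: the elements of `H^(2 j)(j)` fixed by a subgroup of finite
index. (The action of `g` on `H^(2 j)(j)` is its action on `H^(2 j)` times `cyc g ^ j`.) -/
def GaloisSpace.tate (cyc : Γ →* Rˣ) (V : GaloisSpace Γ R B) (j : ℕ) : Submodule R (B → R) where
  carrier := {x | (∀ b, V.deg b ≠ 2 * j → x b = 0) ∧
    Near fun g => ((cyc g : R) ^ j) • (V.rho g *ᵥ x) = x}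
  zero_mem' := ⟨fun _ _ => rfl, near_of_all fun g => by rw [Matrix.mulVec_zero, smul_zero]⟩
  add_mem' := fun {x y} hx hy => by
    refine ⟨fun b hb => ?_, (hx.2.and hy.2).mono fun g hg => ?_⟩
    · rw [Pi.add_apply, hx.1 b hb, hy.1 b hb, add_zero]
    · rw [Matrix.mulVec_add, smul_add, hg.1, hg.2]
  smul_mem' := fun c x hx => by
    refine ⟨fun b hb => ?_, hx.2.mono fun g hg => ?_⟩
    · rw [Pi.smul_apply, hx.1 b hb, smul_zero]
    · rw [Matrix.mulVec_smul, smul_comm, hg]

/-- The `ℚ_ℓ`-subspace generated by the Hodge classes of codimension `j`. -/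
def GaloisSpace.hodgeR (V : GaloisSpace Γ R B) (j : ℕ) : Submodule R (B → R) :=
  Submodule.span R {z | ∃ x ∈ V.toHodgeSpace.hodgeIn j, z = rv R x}

/-- All Tate classes of codimension `j` are combinations of Hodge classes. -/
def GaloisSpace.TateIsHodge (cyc : Γ →* Rˣ) (V : GaloisSpace Γ R B) (j : ℕ) : Prop :=
  V.tate cyc j ≤ V.hodgeR j

/-- All Hodge classes of codimension `j` are Tate classes. -/
def GaloisSpace.HodgeIsTate (cyc : Γ →* Rˣ) (V : GaloisSpace Γ R B) (j : ℕ) : Prop :=
  V.hodgeR j ≤ V.tate cyc j

/-- The cohomology of a product. -/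
noncomputable def GaloisSpace.prod (V : GaloisSpace Γ R B') (W : GaloisSpace Γ R B) :
    GaloisSpace Γ R (B' × B) where
  toHodgeSpace := V.toHodgeSpace.prod W.toHodgeSpace
  rho g := Matrix.kroneckerMap (· * ·) (V.rho g) (W.rho g)
  rho_one := by
    classical
    intro v
    have h1 : V.rho 1 = 1 := by
      ext a b
      have h2 := congrFun (V.rho_one (Pi.single b 1)) a
      rw [Matrix.mulVec_single_one] at h2
      rw [Matrix.one_apply, ← Pi.single_apply]
      exact h2
    have h1' : W.rho 1 = 1 := by
      ext a b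
      have h2 := congrFun (W.rho_one (Pi.single b 1)) a
      rw [Matrix.mulVec_single_one] at h2
      rw [Matrix.one_apply, ← Pi.single_apply]
      exact h2
    have h3 : Matrix.kroneckerMap (· * ·) (V.rho 1) (W.rho 1) = 1 := by
      rw [h1, h1']
      exact Matrix.one_kronecker_one
    rw [h3, Matrix.one_mulVec]
  rho_mul g h := by
    rw [V.rho_mul, W.rho_mul]
    exact Matrix.mul_kronecker_mul _ _ _ _
  rho_graded := by
    rintro g ⟨a, b⟩ ⟨a', b'⟩ h
    rw [Matrix.kroneckerMap_apply]
    by_cases ha : V.deg a = V.deg a'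
    · have hb : W.deg b ≠ W.deg b' := fun h' => h (by
        change V.deg a + W.deg b = V.deg a' + W.deg b'
        rw [ha, h'])
      rw [W.rho_graded g b b' hb, mul_zero]
    · rw [V.rho_graded g a a' ha, zero_mul]
  one := cross V.one W.one
  one_mem := by
    refine ⟨?_, fun p hp => ?_⟩
    · change (V.toHodgeSpace.prod W.toHodgeSpace).op *ᵥ cv (cross V.one W.one) = 0
      have h1 : cv (cross V.one W.one) = cross (cv V.one) (cv W.one) := by
        funext p
        exact Rat.cast_mul _ _
      rw [h1]
      change prodOp V.op W.op *ᵥ _ = 0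
      rw [prodOp_cross, show V.op *ᵥ cv V.one = 0 from V.one_mem.1,
        show W.op *ᵥ cv W.one = 0 from W.one_mem.1]
      funext p
      simp [cross]
    · change V.one p.1 * W.one p.2 = 0
      by_cases ha : V.deg p.1 = 0
      · have hb : W.deg p.2 ≠ 2 * 0 := fun h' => hp (by
          change V.deg p.1 + W.deg p.2 = 2 * 0
          rw [ha, h'])
        rw [W.one_mem.2 p.2 hb, mul_zero]
      · rw [V.one_mem.2 p.1 (by simpa using ha), zero_mul]
  one_ne := by
    obtain ⟨a, ha⟩ := Function.ne_iff.1 V.one_ne
    obtain ⟨b, hb⟩ := Function.ne_iff.1 W.one_ne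
    exact Function.ne_iff.2 ⟨(a, b), mul_ne_zero ha hb⟩
  rho_unit g := by
    funext p
    have h1 := congrFun (V.rho_unit g) p.1
    have h2 := congrFun (W.rho_unit g) p.2
    change _ = algebraMap ℚ R (V.one p.1 * W.one p.2)
    rw [map_mul]
    change _ = rv R V.one p.1 * rv R W.one p.2
    rw [← h1, ← h2]
    simp only [Matrix.mulVec, dotProduct, Fintype.sum_prod_type, Finset.sum_mul_sum,
      Matrix.kroneckerMap_apply]
    refine Finset.sum_congr rfl fun a _ => Finset.sum_congr rfl fun b _ => ?_
    change _ * algebraMap ℚ R (V.one a * W.one b) = _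
    rw [map_mul]
    change _ = (_ * algebraMap ℚ R (V.one a)) * (_ * algebraMap ℚ R (W.one b))
    ring

variable {ι : R →+* ℂ} {cyc : Γ →* Rˣ} (A : HeckeCharacters Γ ι cyc)

/-- The vector `w` is homogeneous of degree `m` and a subgroup of finite index acts on it through the
character with the type `(m, d)`. -/
def GaloisSpace.HasGaloisType (V : GaloisSpace Γ R B) (w : B → ℂ) (m : ℕ)
    (d : (ℂ ≃+* ℂ) → ℤ) : Prop :=
  (∀ b, V.deg b ≠ m → w b = 0) ∧ Near fun g => (V.rho g).map ι *ᵥ w = A.chr m d g • w

/-- The `ℓ`-adic part of CM type: the space generated by the eigenvectors of subgroups of finite index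
whose characters are algebraic Hecke characters. -/
def GaloisSpace.galPart (V : GaloisSpace Γ R B) : Submodule ℂ (B → ℂ) :=
  Submodule.span ℂ {w | ∃ (m : ℕ) (d : (ℂ ≃+* ℂ) → ℤ), A.IsType m d ∧ V.HasGaloisType A w m d}

/-- The variety is of CM type: the cohomology with coefficients in `ℚ̄_ℓ ≃ ℂ` is generated by
homogeneous vectors `w` such that the conjugate of `w` under `σ` is a sum of classes of types `(p, q)`
with `p - q = d σ` and the Galois group of a finite extension of `L` acts on `w` through an algebraic
Hecke character with the infinity type given by `d` (the theory of complex multiplication of Shimura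
and Taniyama). -/
def GaloisSpace.HasCM (V : GaloisSpace Γ R B) : Prop :=
  Submodule.span ℂ {w | ∃ (m : ℕ) (d : (ℂ ≃+* ℂ) → ℤ), A.IsType m d ∧ V.toHodgeSpace.HasTypes w d ∧
    V.HasGaloisType A w m d} = ⊤

/-- A property `P X` of the cohomology of a variety `X` over `L` holds for all `X` of CM type whose
types are generated by functions `x j` with `x j (conj φ) = - x j φ` on the embeddings of finitely many
of the fields `K i`, such that no vector in `E` is a combination of the functions `x j`. -/
def ForAllWithCM {I : Type} (K : I → Type) [∀ i, Field (K i)] [∀ i, NumberField (K i)]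
    [∀ i, IsCMField (K i)] (E : Finset (Σ i, ((K i →+* ℂ) → ℝ)))
    (P : ∀ (C : Type) [Fintype C], GaloisSpace Γ R C → Prop) : Prop :=
  ∀ (J : Type) [Fintype J] (b : J → I) (x : ∀ j, (K (b j) →+* ℂ) → ℤ),
    (∀ j φ, x j (ComplexEmbedding.conjugate φ) = - x j φ) → (∀ e ∈ E, ¬ IsComb x e.2) →
    ∀ (C : Type) [Fintype C] (X : GaloisSpace Γ R C), X.HasCM A →
      X.toHodgeSpace.IsGeneratedBy x → P C X

/-- The function `v` on the complex embeddings of the field `F` comes from the Galois types of `Y`:
there is one vector `w ≠ 0` of the cohomology of `Y` with Galois type `(m, d)`, such that for all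
embeddings `φ` of `F` the function `σ ↦ v (σ φ)` is a linear combination, with rational coefficients, of
the translates `σ ↦ d (σ τ)` of `d`. -/
def IsFromGaloisTypes (Y : GaloisSpace Γ R B) {F : Type} [Field F] (v : (F →+* ℂ) → ℝ) : Prop :=
  ∃ (w : B → ℂ) (m : ℕ) (d : (ℂ ≃+* ℂ) → ℤ), w ≠ 0 ∧ A.IsType m d ∧ Y.HasGaloisType A w m d ∧
    ∀ φ : F →+* ℂ, (fun σ : ℂ ≃+* ℂ => v ((σ : ℂ →+* ℂ).comp φ)) ∈
      Submodule.span ℚ (Set.range fun (τ : ℂ ≃+* ℂ) (σ : ℂ ≃+* ℂ) => (d (τ.trans σ) : ℝ))

/-- The vectors in `E` are odd and not zero, and they come from the Galois types of `Y`. Their number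
and the dimension of the space of the Tate classes (of all codimensions) on `Y` is at most the dimension
of the `ℓ`-adic part of CM type of the cohomology of `Y`; in particular it is at most the sum of the
Betti numbers of `Y`. -/
def IsSmallForGalois {I : Type} {K : I → Type} [∀ i, Field (K i)] (Y : GaloisSpace Γ R B)
    (E : Finset (Σ i, ((K i →+* ℂ) → ℝ))) : Prop :=
  (∀ e ∈ E, e.2 ≠ 0 ∧ (∀ φ, e.2 (ComplexEmbedding.conjugate φ) = - e.2 φ) ∧
    IsFromGaloisTypes A Y e.2) ∧
    E.card + finrank R (⨆ j, Y.tate cyc j : Submodule R (B → R)) ≤ finrank ℂ (Y.galPart A)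

end

end Pool.Agent.H855.HG
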