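import Mathlib
import Pool.Agent.H855.HG.GalDefs
import Pool.Agent.H855.HG.Abs

/-!
# Tate classes on a product with a variety of CM type
-/

set_option autoImplicit false
set_option linter.unusedSectionVars false
set_option linter.unusedVariables false

namespace Pool.Agent.H855.HG

open Matrix Module

section chars

variable {Γ : Type} [Group Γ] {R : Type} [Field R] {ι : R →+* ℂ} {cyc : Γ →* Rˣ}
  (A : HeckeCharacters Γ ι cyc)

theorem isType_zero : A.IsType 0 0 := by
  have h1 := A.isType_add A.isType_tate (A.isType_neg A.isType_tate)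
  have h2 : (0 : (ℂ ≃+* ℂ) → ℤ) + -0 = 0 := by rw [neg_zero, add_zero]
  rw [h2] at h1
  exact h1

theorem chr_tate_ne (g : Γ) : ι ((cyc g)⁻¹ : Rˣ) ≠ 0 := by
  rw [Ne, map_eq_zero]
  exact Units.ne_zero _

theorem chr_zero : Near fun g => A.chr 0 0 g = 1 := by
  have h1 := A.chr_add A.isType_tate (isType_zero A)
  refine (h1.and A.chr_tate).mono fun g hg => ?_
  obtain ⟨h2, h3⟩ := hg
  rw [add_zero, add_zero] at h2
  have h4 : A.chr 2 0 g ≠ 0 := by
    rw [h3]
    exact chr_tate_ne g
  exact mul_left_cancel₀ h4 (by rw [mul_one]; exact h2.symm)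

theorem chr_neg {m : ℤ} {d : (ℂ ≃+* ℂ) → ℤ} (h : A.IsType m d) :
    Near fun g => A.chr m d g * A.chr (-m) (-d) g = 1 := by
  refine ((A.chr_add h (A.isType_neg h)).and (chr_zero A)).mono fun g hg => ?_
  rw [add_neg_cancel, add_neg_cancel] at hg
  rw [← hg.1, hg.2]

theorem isType_tate_pow (j : ℕ) : A.IsType (2 * j) 0 := by
  induction j with
  | zero => exact isType_zero A
  | succ j ih =>
    have h1 := A.isType_add ih A.isType_tate
    rw [add_zero] at h1
    have h2 : (2 * (j : ℤ) + 2) = 2 * ((j + 1 : ℕ) : ℤ) := by push_cast; ring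
    rw [← h2]
    exact h1

theorem chr_tate_pow (j : ℕ) : Near fun g => A.chr (2 * j) 0 g = (ι ((cyc g)⁻¹ : Rˣ)) ^ j := by
  induction j with
  | zero =>
    refine (chr_zero A).mono fun g hg => ?_
    rw [pow_zero]
    exact hg
  | succ j ih =>
    have h1 := A.chr_add (isType_tate_pow A j) A.isType_tate
    refine ((h1.and ih).and A.chr_tate).mono fun g hg => ?_
    obtain ⟨⟨h3, h4⟩, h5⟩ := hg
    rw [add_zero] at h3
    have h2 : (2 * (j : ℤ) + 2) = 2 * ((j + 1 : ℕ) : ℤ) := by push_cast; ring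
    rw [← h2, h3, h4, h5, pow_succ]

/-- The dual type, twisted. -/
theorem chr_dual {m : ℤ} {d : (ℂ ≃+* ℂ) → ℤ} (h : A.IsType m d) (j : ℕ) :
    A.IsType (2 * j - m) (-d) ∧
      Near fun g => A.chr m d g * A.chr (2 * j - m) (-d) g = (ι ((cyc g)⁻¹ : Rˣ)) ^ j := by
  have h1 := A.isType_add (isType_tate_pow A j) (A.isType_neg h)
  rw [zero_add] at h1
  have h2 : (2 * (j : ℤ) + -m) = 2 * j - m := by ring
  rw [h2] at h1
  refine ⟨h1, ((A.chr_add h h1).and (chr_tate_pow A j)).mono fun g hg => ?_⟩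
  have h3 : m + (2 * (j : ℤ) - m) = 2 * j := by ring
  rw [h3, add_neg_cancel] at hg
  rw [← hg.1, hg.2]

end chars

section kron

variable {B B' : Type} [Fintype B] [Fintype B']

theorem kron_crossR {R : Type} [CommRing R] (M : Matrix B' B' R) (N : Matrix B B R) (x : B' → R)
    (y : B → R) : Matrix.kroneckerMap (· * ·) M N *ᵥ cross x y = cross (M *ᵥ x) (N *ᵥ y) := by
  funext p
  simp only [cross, Matrix.mulVec, dotProduct, Fintype.sum_prod_type, Finset.sum_mul_sum,
    Matrix.kroneckerMap_apply]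
  refine Finset.sum_congr rfl fun a _ => Finset.sum_congr rfl fun b _ => ?_
  ring

theorem map_kron {R : Type} [CommRing R] (ι : R →+* ℂ) (M : Matrix B' B' R) (N : Matrix B B R) :
    (Matrix.kroneckerMap (· * ·) M N).map ι =
      Matrix.kroneckerMap (· * ·) (M.map ι) (N.map ι) := by
  ext p q
  simp only [Matrix.map_apply, Matrix.kroneckerMap_apply, map_mul]

theorem map_mulVec_iv {R : Type} [Field R] (ι : R →+* ℂ) (M : Matrix B B R) (x : B → R) :
    M.map ι *ᵥ iv ι x = iv ι (M *ᵥ x) := by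
  funext b
  simp only [iv, Matrix.mulVec, dotProduct, Matrix.map_apply, map_sum, map_mul]

/-- Coefficients with respect to a basis. -/
theorem cross_basis {κ : Type} [Fintype κ] (e : Basis κ ℂ (B' → ℂ)) {z z' : κ → B → ℂ}
    (h : ∑ k, cross (e k) (z k) = ∑ k, cross (e k) (z' k)) : z = z' := by
  classical
  funext k b
  have h1 : ∑ k, z k b • e k = ∑ k, z' k b • e k := by
    funext a
    have h2 := congrFun h (a, b)
    rw [Finset.sum_apply, Finset.sum_apply] at h2 ⊢
    simp only [cross, Pi.smul_apply, smul_eq_mul] at h2 ⊢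
    simpa [mul_comm] using h2
  have h3 := congrArg (fun w => e.repr w k) h1
  simp only [map_sum, map_smul, Basis.repr_self, Finsupp.coe_finsetSum, Finset.sum_apply,
    Finsupp.smul_apply, smul_eq_mul] at h3
  simpa [Finsupp.single_apply] using h3

end kron

variable {Γ : Type} [Group Γ] {R : Type} [Field R] [Algebra ℚ R] {B B' : Type} [Fintype B]
  [Fintype B'] {ι : R →+* ℂ} {cyc : Γ →* Rˣ} (A : HeckeCharacters Γ ι cyc)

/-- The vectors of Galois type `(m, d)`. -/
def galSpace (V : GaloisSpace Γ R B) (m : ℕ) (d : (ℂ ≃+* ℂ) → ℤ) : Submodule ℂ (B → ℂ) where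
  carrier := {w | V.HasGaloisType A w m d}
  zero_mem' := ⟨fun _ _ => rfl, near_of_all fun g => by rw [Matrix.mulVec_zero, smul_zero]⟩
  add_mem' := fun {x y} hx hy => by
    refine ⟨fun b hb => ?_, (hx.2.and hy.2).mono fun g hg => ?_⟩
    · rw [Pi.add_apply, hx.1 b hb, hy.1 b hb, add_zero]
    · rw [Matrix.mulVec_add, smul_add, hg.1, hg.2]
  smul_mem' := fun c x hx => by
    refine ⟨fun b hb => ?_, hx.2.mono fun g hg => ?_⟩
    · rw [Pi.smul_apply, hx.1 b hb, smul_zero]
    · rw [Matrix.mulVec_smul, hg, smul_comm]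

theorem mem_galSpace {V : GaloisSpace Γ R B} {m : ℕ} {d : (ℂ ≃+* ℂ) → ℤ} {w : B → ℂ} :
    w ∈ galSpace A V m d ↔ V.HasGaloisType A w m d := Iff.rfl

/-- **The spaces of different types are independent.** -/
theorem galSpace_indep (V : GaloisSpace Γ R B) :
    iSupIndep fun p : {p : ℕ × ((ℂ ≃+* ℂ) → ℤ) // A.IsType p.1 p.2} =>
      galSpace A V p.1.1 p.1.2 := by
  classical
  rw [iSupIndep_iff_finsetSum_eq_zero_imp_eq_zero]
  intro s
  induction s using Finset.induction_on with
  | empty =>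
    intro v _ _ i hi
    exact absurd hi (Finset.notMem_empty i)
  | insert p₀ s hp₀ ih =>
    intro v hv hsum
    obtain ⟨H, hH, hg⟩ := near_finset (insert p₀ s)
      (fun p g => (V.rho g).map ι *ᵥ v p = A.chr p.1.1 p.1.2 g • v p) (fun p hp => (hv p hp).2)
    rw [Finset.sum_insert hp₀] at hsum
    have hz : ∀ p ∈ s, v p = 0 := by
      intro p hp
      have hne : p ≠ p₀ := fun h => hp₀ (h ▸ hp)
      have hex : ∃ g ∈ H, A.chr p.1.1 p.1.2 g ≠ A.chr p₀.1.1 p₀.1.2 g := by
        by_contra hcon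
        push Not at hcon
        obtain ⟨h1, h2⟩ := A.chr_injective p.2 p₀.2 ⟨H, hH, hcon⟩
        exact hne (Subtype.ext (Prod.ext (by exact_mod_cast h1) h2))
      obtain ⟨g, hgH, hne'⟩ := hex
      have h1 := ih (fun p => (A.chr p.1.1 p.1.2 g - A.chr p₀.1.1 p₀.1.2 g) • v p)
        (fun p hp => Submodule.smul_mem _ _ (hv p (Finset.mem_insert_of_mem hp))) (by
          have h2 : (V.rho g).map ι *ᵥ (v p₀ + ∑ p ∈ s, v p) -
              A.chr p₀.1.1 p₀.1.2 g • (v p₀ + ∑ p ∈ s, v p) = 0 := by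
            rw [hsum, Matrix.mulVec_zero, smul_zero, sub_zero]
          rw [Matrix.mulVec_add, hg g hgH p₀ (Finset.mem_insert_self _ _),
            Matrix.mulVec_sum, smul_add, add_sub_add_left_eq_sub, Finset.smul_sum,
            ← Finset.sum_sub_distrib] at h2
          rw [← h2]
          refine Finset.sum_congr rfl fun p hp => ?_
          rw [hg g hgH p (Finset.mem_insert_of_mem hp), sub_smul]) p hp
      exact (smul_eq_zero.1 h1).resolve_left (sub_ne_zero.2 hne')
    intro p hp
    rcases Finset.mem_insert.1 hp with rfl | hp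
    · rw [Finset.sum_eq_zero hz, add_zero] at hsum
      exact hsum
    · exact hz p hp

/-- The Tate classes with complex coefficients. -/
def tateC (ι : R →+* ℂ) (cyc : Γ →* Rˣ) (V : GaloisSpace Γ R B) (i : ℕ) :
    Submodule ℂ (B → ℂ) where
  carrier := {w | (∀ b, V.deg b ≠ 2 * i → w b = 0) ∧
    Near fun g => (ι (cyc g : R) ^ i) • ((V.rho g).map ι *ᵥ w) = w}
  zero_mem' := ⟨fun _ _ => rfl, near_of_all fun g => by rw [Matrix.mulVec_zero, smul_zero]⟩
  add_mem' := fun {x y} hx hy => by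
    refine ⟨fun b hb => ?_, (hx.2.and hy.2).mono fun g hg => ?_⟩
    · rw [Pi.add_apply, hx.1 b hb, hy.1 b hb, add_zero]
    · rw [Matrix.mulVec_add, smul_add, hg.1, hg.2]
  smul_mem' := fun c x hx => by
    refine ⟨fun b hb => ?_, hx.2.mono fun g hg => ?_⟩
    · rw [Pi.smul_apply, hx.1 b hb, smul_zero]
    · rw [Matrix.mulVec_smul, smul_comm, hg]

theorem iv_mem_tateC {V : GaloisSpace Γ R B} {i : ℕ} {x : B → R} :
    iv ι x ∈ tateC ι cyc V i ↔ x ∈ V.tate cyc i := by
  have key : ∀ g, ((ι (cyc g : R) ^ i) • ((V.rho g).map ι *ᵥ iv ι x) = iv ι x) ↔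
      (((cyc g : R) ^ i) • (V.rho g *ᵥ x) = x) := by
    intro g
    rw [map_mulVec_iv]
    have h1 : (ι (cyc g : R) ^ i) • iv ι (V.rho g *ᵥ x) =
        iv ι (((cyc g : R) ^ i) • (V.rho g *ᵥ x)) := by
      funext b
      change ι (cyc g : R) ^ i * ι ((V.rho g *ᵥ x) b) = ι ((cyc g : R) ^ i * (V.rho g *ᵥ x) b)
      rw [map_mul, map_pow]
    rw [h1]
    exact ⟨fun h => iv_injective ι h, fun h => by rw [h]⟩
  constructor
  · rintro ⟨h1, h2⟩
    refine ⟨fun b hb => ?_, h2.mono fun g hg => (key g).1 hg⟩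
    exact (map_eq_zero ι).1 (h1 b hb)
  · rintro ⟨h1, h2⟩
    refine ⟨fun b hb => ?_, h2.mono fun g hg => (key g).2 hg⟩
    change ι (x b) = 0
    rw [h1 b hb, map_zero]

theorem hasGaloisType_tate {V : GaloisSpace Γ R B} {i : ℕ} {w : B → ℂ} :
    V.HasGaloisType A w (2 * i) 0 ↔ w ∈ tateC ι cyc V i := by
  have key : ∀ g, A.chr (2 * i) 0 g = (ι ((cyc g)⁻¹ : Rˣ)) ^ i →
      ((ι (cyc g : R) ^ i) • ((V.rho g).map ι *ᵥ w) = w ↔
        (V.rho g).map ι *ᵥ w = A.chr (2 * i) 0 g • w) := by
    intro g hg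
    have h1 : ι (cyc g : R) ^ i * (ι ((cyc g)⁻¹ : Rˣ)) ^ i = 1 := by
      rw [← mul_pow, ← map_mul, Units.mul_inv, map_one, one_pow]
    rw [hg]
    constructor
    · intro h
      nth_rewrite 2 [← h]
      rw [smul_smul, mul_comm, h1, one_smul]
    · intro h
      rw [h, smul_smul, h1, one_smul]
  constructor
  · rintro ⟨h1, h2⟩
    refine ⟨h1, (h2.and (chr_tate_pow A i)).mono fun g hg => (key g hg.2).2 ?_⟩
    have h3 := hg.1
    push_cast at h3
    exact h3
  · rintro ⟨h1, h2⟩
    refine ⟨h1, (h2.and (chr_tate_pow A i)).mono fun g hg => ?_⟩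
    have h3 := (key g hg.2).1 hg.1
    push_cast
    exact h3

/-- There is a basis of vectors with types. -/
theorem exists_basisG {V : GaloisSpace Γ R B'} (hV : V.HasCM A) :
    ∃ (κ : Type) (_ : Fintype κ) (e : Basis κ ℂ (B' → ℂ)) (m : κ → ℕ)
      (d : κ → (ℂ ≃+* ℂ) → ℤ), ∀ k, A.IsType (m k) (d k) ∧ V.toHodgeSpace.HasTypes (e k) (d k) ∧
        V.HasGaloisType A (e k) (m k) (d k) := by
  classical
  obtain ⟨b, hb, hspan, hli⟩ := exists_linearIndependent ℂ {w | ∃ (m : ℕ) (d : (ℂ ≃+* ℂ) → ℤ),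
    A.IsType m d ∧ V.toHodgeSpace.HasTypes w d ∧ V.HasGaloisType A w m d}
  have hfin : Finite b := hli.finite
  have hft : Fintype b := Fintype.ofFinite b
  have htop : ⊤ ≤ Submodule.span ℂ (Set.range ((↑) : b → B' → ℂ)) := by
    rw [Subtype.range_coe, hspan]
    exact hV.ge
  choose m d hd using fun i : b => hb i.2
  refine ⟨b, hft, Basis.mk hli htop, m, d, fun i => ?_⟩
  rw [Basis.mk_apply]
  exact hd i

/-- The homogeneous coefficients. -/
theorem coeff_deg {V : GaloisSpace Γ R B'} {κ : Type} [Fintype κ] (e : Basis κ ℂ (B' → ℂ))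
    {m : κ → ℕ} (he : ∀ k a, V.deg a ≠ m k → e k a = 0) {n : ℕ} {w : B' → ℂ}
    (hw : ∀ a, V.deg a ≠ n → w a = 0) (k : κ) (hk : e.repr w k ≠ 0) : m k = n := by
  classical
  by_contra hne
  have h1 : ∑ k, (if m k = n then e.repr w k else 0) • e k = w := by
    funext a
    rw [Finset.sum_apply]
    by_cases ha : V.deg a = n
    · have h2 := congrFun (e.sum_repr w) a
      rw [Finset.sum_apply] at h2
      refine Eq.trans (Finset.sum_congr rfl fun k _ => ?_) h2
      by_cases hmk : m k = n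
      · rw [if_pos hmk]
      · rw [if_neg hmk, zero_smul, Pi.smul_apply, he k a (fun h => hmk (by rw [← h, ha])),
          smul_zero, Pi.zero_apply]
    · rw [hw a ha]
      refine Finset.sum_eq_zero fun k _ => ?_
      by_cases hmk : m k = n
      · rw [Pi.smul_apply, he k a (fun h => ha (by rw [h, hmk])), smul_zero]
      · rw [if_neg hmk, zero_smul, Pi.zero_apply]
  have h2 := congrArg (fun u => e.repr u k) h1
  simp only [map_sum, map_smul, Basis.repr_self, Finsupp.coe_finsetSum, Finset.sum_apply,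
    Finsupp.smul_apply, smul_eq_mul] at h2
  have h3 : (if m k = n then e.repr w k else 0) = e.repr w k := by
    simpa [Finsupp.single_apply] using h2
  rw [if_neg hne] at h3
  exact hk h3.symm

/-- **The theorem of Pohlmann**: on a variety of CM type the Hodge classes generate the Tate classes. -/
theorem hodgeR_eq_tate {V : GaloisSpace Γ R B'} (hV : V.HasCM A) (i : ℕ) :
    V.hodgeR i = V.tate cyc i := by
  classical
  obtain ⟨κ, hκ, e, m, d, he⟩ := exists_basisG A hV
  have hedeg : ∀ k a, V.deg a ≠ m k → e k a = 0 := fun k a h => (he k).2.2.1 a h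
  apply le_antisymm
  · refine Submodule.span_le.2 ?_
    rintro _ ⟨x, hx, rfl⟩
    change rv R x ∈ V.tate cyc i
    rw [← iv_mem_tateC (ι := ι), iv_rv, ← e.sum_repr (cv x)]
    refine Submodule.sum_mem _ fun k _ => ?_
    by_cases hk : e.repr (cv x) k = 0
    · rw [hk, zero_smul]
      exact Submodule.zero_mem _
    refine Submodule.smul_mem _ _ ?_
    have hmk : m k = 2 * i := coeff_deg e hedeg (fun a ha => by
      change ((x a : ℚ) : ℂ) = 0
      rw [hx.2 a ha, Rat.cast_zero]) k hk
    have hdk : d k = 0 := by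
      funext σ
      have h1 := hasTypes_map (hodge_hasTypes hx.1) σ
      rw [Pi.zero_apply, Int.cast_zero, zero_smul] at h1
      nth_rewrite 1 [← e.sum_repr (cv x)] at h1
      rw [Matrix.mulVec_sum] at h1
      have h2 : ∑ k, (e.repr (cv x) k * (d k σ : ℂ)) • e k = 0 := by
        rw [← h1]
        refine Finset.sum_congr rfl fun k _ => ?_
        rw [Matrix.mulVec_smul, hasTypes_map (he k).2.1 σ, smul_smul]
      have h3 := Fintype.linearIndependent_iff.1 e.linearIndependent _ h2 k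
      have h4 : (d k σ : ℂ) = 0 := (mul_eq_zero.1 h3).resolve_left hk
      exact_mod_cast h4
    have h5 := (he k).2.2
    rw [hmk, hdk] at h5
    exact (hasGaloisType_tate A).1 h5
  · intro x hx
    have hx' := (iv_mem_tateC (ι := ι) (cyc := cyc) (V := V) (i := i) (x := x)).2 hx
    -- the stable space
    let W : Submodule ℂ (B' → ℂ) :=
      { carrier := {w | (∀ b, V.deg b ≠ 2 * i → w b = 0) ∧ w ∈ typeSpace V.toHodgeSpace 0}
        zero_mem' := ⟨fun _ _ => rfl, Submodule.zero_mem _⟩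
        add_mem' := fun {x y} hx hy => ⟨fun b hb => by
          rw [Pi.add_apply, hx.1 b hb, hy.1 b hb, add_zero], Submodule.add_mem _ hx.2 hy.2⟩
        smul_mem' := fun c x hx => ⟨fun b hb => by
          rw [Pi.smul_apply, hx.1 b hb, smul_zero], Submodule.smul_mem _ _ hx.2⟩ }
    have hW : ∀ w ∈ W, ∀ σ : ℂ ≃+* ℂ, (fun b => σ (w b)) ∈ W := by
      intro w hw σ
      refine ⟨fun b hb => ?_, ?_⟩
      · change σ (w b) = 0
        rw [hw.1 b hb, map_zero]
      · exact hasTypes_trans hw.2 σ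
    have hxW : iv ι x ∈ W := by
      rw [← e.sum_repr (iv ι x)]
      refine Submodule.sum_mem _ fun k _ => ?_
      by_cases hk : e.repr (iv ι x) k = 0
      · rw [hk, zero_smul]
        exact Submodule.zero_mem _
      refine Submodule.smul_mem _ _ ?_
      have hmk : m k = 2 * i := coeff_deg e hedeg hx'.1 k hk
      have hchr : Near fun g => A.chr (m k) (d k) g = A.chr (2 * i) 0 g := by
        have h1 := near_finset Finset.univ
          (fun k g => (V.rho g).map ι *ᵥ e k = A.chr (m k) (d k) g • e k)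
          (fun k _ => (he k).2.2.2)
        refine ((h1.and hx'.2).and (chr_tate_pow A i)).mono fun g hg => ?_
        obtain ⟨⟨h2, h3⟩, h4⟩ := hg
        have h5 : ∑ k, ((ι (cyc g : R) ^ i * A.chr (m k) (d k) g - 1) * e.repr (iv ι x) k) • e k =
            0 := by
          have h6 : (ι (cyc g : R) ^ i) • ((V.rho g).map ι *ᵥ iv ι x) - iv ι x = 0 := by
            rw [h3, sub_self]
          rw [← h6]
          conv_rhs => rw [← e.sum_repr (iv ι x)]
          rw [Matrix.mulVec_sum, Finset.smul_sum, ← Finset.sum_sub_distrib]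
          refine Finset.sum_congr rfl fun k _ => ?_
          rw [Matrix.mulVec_smul, h2 k (Finset.mem_univ _), smul_smul, smul_smul, ← sub_smul]
          congr 1
          ring
        have h6 := Fintype.linearIndependent_iff.1 e.linearIndependent _ h5 k
        have h7 := (mul_eq_zero.1 h6).resolve_right hk
        have h8 : ι (cyc g : R) ^ i * (ι ((cyc g)⁻¹ : Rˣ)) ^ i = 1 := by
          rw [← mul_pow, ← map_mul, Units.mul_inv, map_one, one_pow]
        have h9 : ι (cyc g : R) ^ i ≠ 0 := fun h0 => by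
          rw [h0, zero_mul] at h8
          exact zero_ne_one h8
        rw [h4]
        refine mul_left_cancel₀ h9 ?_
        rw [h8]
        exact sub_eq_zero.1 h7
      obtain ⟨-, hdk⟩ := A.chr_injective (he k).1 (isType_tate_pow A i) hchr
      refine ⟨fun b hb => hedeg k b (by rw [hmk]; exact hb), ?_⟩
      rw [← hdk]
      exact (he k).2.1
    have h1 := descent W hW hxW
    refine mem_span_of_iv ι (Submodule.span_mono ?_ h1)
    rintro _ ⟨x', rfl, hx'W⟩
    refine ⟨rv R x', ⟨x', ⟨?_, fun b hb => ?_⟩, rfl⟩, iv_rv ι x'⟩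
    · have h2 := hx'W.2 (RingEquiv.refl ℂ)
      rw [cv_conj, Pi.zero_apply, Int.cast_zero, zero_smul] at h2
      exact h2
    · have h2 : ((x' b : ℚ) : ℂ) = 0 := hx'W.1 b hb
      exact_mod_cast h2

end Pool.Agent.H855.HG
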