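import Mathlib
import Pool.Agent.H855.HG.Gal

/-!
# Tate classes on a product with a variety of CM type, II
-/

set_option autoImplicit false
set_option linter.unusedSectionVars false
set_option linter.unusedVariables false

namespace Pool.Agent.H855.HG

open Matrix Module

variable {Γ : Type} [Group Γ] {R : Type} [Field R] [Algebra ℚ R] {B B' : Type} [Fintype B]
  [Fintype B'] {ι : R →+* ℂ} {cyc : Γ →* Rˣ} (A : HeckeCharacters Γ ι cyc)

/-- The Tate classes on the product are sums of products of Tate classes. -/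
def IsTateOfProducts (cyc : Γ →* Rˣ) (V : GaloisSpace Γ R B') (W : GaloisSpace Γ R B) : Prop :=
  ∀ j, (V.prod W).tate cyc j ≤ Submodule.span R {z | ∃ i k, i + k = j ∧
    ∃ x ∈ V.tate cyc i, ∃ y ∈ W.tate cyc k, z = cross x y}

variable {V : GaloisSpace Γ R B'} {W : GaloisSpace Γ R B}

/-- **The theorem of Künneth and the Galois types.** -/
theorem isTateOfProducts (hV : V.HasCM A)
    (hd : ∀ (u : B' → ℂ) (y : B → ℂ) (m m' : ℕ) (d : (ℂ ≃+* ℂ) → ℤ), u ≠ 0 → y ≠ 0 →
      V.toHodgeSpace.HasTypes u d → A.IsType m d → A.IsType m' (-d) →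
      W.HasGaloisType A y m' (-d) → d = 0) : IsTateOfProducts cyc V W := by
  classical
  intro j ω hω
  obtain ⟨κ, hκ, e, m, d, he⟩ := exists_basisG A hV
  have hedeg : ∀ k a, V.deg a ≠ m k → e k a = 0 := fun k a h => (he k).2.2.1 a h
  let y : κ → B → ℂ := fun k b => e.repr (fun a => ι (ω (a, b))) k
  have hsum : iv ι ω = ∑ k, cross (e k) (y k) := by
    funext p
    obtain ⟨a, b⟩ := p
    have h1 := congrFun (e.sum_repr (fun a => ι (ω (a, b)))) a
    rw [Finset.sum_apply] at h1 ⊢
    rw [show iv ι ω (a, b) = ι (ω (a, b)) from rfl, ← h1]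
    exact Finset.sum_congr rfl fun k _ => mul_comm _ _
  -- the degrees of the coefficients
  have hydeg : ∀ k b, y k b ≠ 0 → m k + W.deg b = 2 * j := by
    intro k b hkb
    by_cases hb : W.deg b ≤ 2 * j
    · have h1 := coeff_deg e hedeg (n := 2 * j - W.deg b) (w := fun a => ι (ω (a, b)))
        (fun a ha => by
          rw [hω.1 (a, b) (fun h => ha (by
            have h2 : V.deg a + W.deg b = 2 * j := h
            omega)), map_zero]) k hkb
      omega
    · exfalso
      apply hkb
      have h2 : (fun a => ι (ω (a, b))) = 0 := by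
        funext a
        rw [hω.1 (a, b) (fun h => hb (by
          have h2 : V.deg a + W.deg b = 2 * j := h
          omega)), map_zero]
        rfl
      change e.repr (fun a => ι (ω (a, b))) k = 0
      rw [h2, map_zero]
      rfl
  -- the Galois action on the coefficients
  have hgal : Near fun g => ∀ k, (ι (cyc g : R) ^ j * A.chr (m k) (d k) g) •
      ((W.rho g).map ι *ᵥ y k) = y k := by
    have h1 := near_finset Finset.univ
      (fun k g => (V.rho g).map ι *ᵥ e k = A.chr (m k) (d k) g • e k)
      (fun k _ => (he k).2.2.2)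
    refine (h1.and hω.2).mono fun g hg => ?_
    obtain ⟨h2, h3⟩ := hg
    have h4 : (ι (cyc g : R) ^ j) •
        (((V.prod W).rho g).map ι *ᵥ iv ι ω) = iv ι ω := by
      rw [map_mulVec_iv]
      funext p
      have h5 : ι (((cyc g : R) ^ j • ((V.prod W).rho g *ᵥ ω)) p) = ι (ω p) := by rw [h3]
      rw [Pi.smul_apply, smul_eq_mul, map_mul, map_pow] at h5
      exact h5
    have h5 : ∑ k, cross (e k) ((ι (cyc g : R) ^ j * A.chr (m k) (d k) g) •
        ((W.rho g).map ι *ᵥ y k)) = ∑ k, cross (e k) (y k) := by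
      rw [← hsum, ← h4]
      nth_rewrite 1 [hsum]
      change _ = _ • ((Matrix.kroneckerMap (· * ·) (V.rho g) (W.rho g)).map ι *ᵥ _)
      rw [map_kron, Matrix.mulVec_sum, Finset.smul_sum]
      refine Finset.sum_congr rfl fun k _ => ?_
      rw [kron_crossR, h2 k (Finset.mem_univ _)]
      funext p
      simp only [cross, Pi.smul_apply, smul_eq_mul]
      ring
    have h6 := cross_basis e h5
    intro k
    exact congrFun h6 k
  have htype : ∀ k, y k ≠ 0 → ∃ m' : ℕ, m k + m' = 2 * j ∧ A.IsType m' (-d k) ∧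
      W.HasGaloisType A (y k) m' (-d k) := by
    intro k hk
    obtain ⟨b₀, hb₀⟩ := Function.ne_iff.1 hk
    have h1 := hydeg k b₀ hb₀
    refine ⟨W.deg b₀, h1, ?_⟩
    have h2 : ((W.deg b₀ : ℕ) : ℤ) = 2 * j - m k := by omega
    obtain ⟨h3, h4⟩ := chr_dual A (he k).1 j
    rw [h2]
    refine ⟨h3, fun b hb => ?_, ?_⟩
    · by_contra hyb
      exact hb (by
        have := hydeg k b hyb
        omega)
    · refine (hgal.and h4).mono fun g hg => ?_
      obtain ⟨h5, h6⟩ := hg
      rw [h2]
      have h7 : ι (cyc g : R) ^ j * (ι ((cyc g)⁻¹ : Rˣ)) ^ j = 1 := by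
        rw [← mul_pow, ← map_mul, Units.mul_inv, map_one, one_pow]
      nth_rewrite 2 [← h5 k]
      rw [smul_smul]
      have h8 : A.chr (2 * j - m k) (-d k) g * (ι (cyc g : R) ^ j * A.chr (m k) (d k) g) = 1 := by
        rw [← h7, ← h6]
        ring
      rw [h8, one_smul]
  -- the coefficients are Tate classes
  have htate : ∀ k, y k ≠ 0 → ∃ i k', i + k' = j ∧ m k = 2 * i ∧ e k ∈ tateC ι cyc V i ∧
      y k ∈ tateC ι cyc W k' := by
    intro k hk
    obtain ⟨m', h1, h2, h3⟩ := htype k hk
    have h4 := hd (e k) (y k) (m k) m' (d k) (e.ne_zero k) hk (he k).2.1 (he k).1 h2 h3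
    have h5 := A.even (he k).1 (RingEquiv.refl ℂ)
    rw [h4, Pi.zero_apply, zero_sub, even_neg] at h5
    have h6 : Even (m k) := by exact_mod_cast h5
    obtain ⟨i, hi⟩ := h6
    refine ⟨i, j - i, by omega, by omega, ?_, ?_⟩
    · have h7 := (he k).2.2
      rw [h4, show m k = 2 * i by omega] at h7
      exact (hasGaloisType_tate A).1 h7
    · rw [h4, neg_zero, show m' = 2 * (j - i) by omega] at h3
      exact (hasGaloisType_tate A).1 h3
  -- the components
  let c : ℕ → B' × B → R := fun n p => if V.deg p.1 = n then ω p else 0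
  have hsumc : ω = ∑ n ∈ Finset.range (2 * j + 1), c n := by
    funext p
    rw [Finset.sum_apply]
    by_cases hp : V.deg p.1 + W.deg p.2 = 2 * j
    · rw [Finset.sum_eq_single (V.deg p.1)]
      · exact (if_pos rfl).symm
      · intro n _ hn
        exact if_neg (Ne.symm hn)
      · intro h
        exact absurd (Finset.mem_range.2 (by omega)) h
    · have h3 : ω p = 0 := hω.1 p hp
      rw [h3]
      refine (Finset.sum_eq_zero fun n _ => ?_).symm
      change (if V.deg p.1 = n then ω p else 0) = 0
      rw [h3, ite_self]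
  rw [hsumc]
  refine Submodule.sum_mem _ fun n hn => ?_
  have hn' : n ≤ 2 * j := by
    have := Finset.mem_range.1 hn
    omega
  have hcval : ∀ a b, ι (c n (a, b)) = ∑ k, if m k = n then e k a * y k b else 0 := by
    intro a b
    have h1 := congrFun hsum (a, b)
    rw [Finset.sum_apply] at h1
    change ι (if V.deg a = n then ω (a, b) else 0) = _
    by_cases ha : V.deg a = n
    · rw [if_pos ha]
      refine Eq.trans h1 (Finset.sum_congr rfl fun k _ => ?_)
      by_cases hk : m k = n
      · rw [if_pos hk]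
        rfl
      · rw [if_neg hk]
        change e k a * y k b = 0
        rw [hedeg k a (fun h => hk (by rw [← h, ha])), zero_mul]
    · rw [if_neg ha, map_zero]
      refine (Finset.sum_eq_zero fun k _ => ?_).symm
      by_cases hk : m k = n
      · rw [if_pos hk, hedeg k a (fun h => ha (by rw [h, hk])), zero_mul]
      · rw [if_neg hk]
  by_cases hev : Even n
  · obtain ⟨i, hi⟩ := hev
    have hc1 : ∀ b, (fun a => c n (a, b)) ∈ V.tate cyc i := by
      intro b
      rw [← iv_mem_tateC (ι := ι)]
      have h1 : iv ι (fun a => c n (a, b)) = ∑ k, if m k = n then y k b • (e k : B' → ℂ) else 0 := by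
        funext a
        rw [Finset.sum_apply]
        change ι (c n (a, b)) = _
        rw [hcval]
        refine Finset.sum_congr rfl fun k _ => ?_
        by_cases hk : m k = n
        · rw [if_pos hk, if_pos hk, Pi.smul_apply, smul_eq_mul, mul_comm]
        · rw [if_neg hk, if_neg hk, Pi.zero_apply]
      rw [h1]
      refine Submodule.sum_mem _ fun k _ => ?_
      by_cases hk : m k = n
      · rw [if_pos hk]
        by_cases hyk : y k = 0
        · rw [hyk, Pi.zero_apply, zero_smul]
          exact Submodule.zero_mem _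
        · obtain ⟨i', k', -, h2, h3, -⟩ := htate k hyk
          rw [show i' = i by omega] at h3
          exact Submodule.smul_mem _ _ h3
      · rw [if_neg hk]
        exact Submodule.zero_mem _
    have hc2 : ∀ a, (fun b => c n (a, b)) ∈ W.tate cyc (j - i) := by
      intro a
      rw [← iv_mem_tateC (ι := ι)]
      have h1 : iv ι (fun b => c n (a, b)) = ∑ k, if m k = n then (e k a) • y k else 0 := by
        funext b
        rw [Finset.sum_apply]
        change ι (c n (a, b)) = _
        rw [hcval]
        refine Finset.sum_congr rfl fun k _ => ?_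
        by_cases hk : m k = n
        · rw [if_pos hk, if_pos hk, Pi.smul_apply, smul_eq_mul]
        · rw [if_neg hk, if_neg hk, Pi.zero_apply]
      rw [h1]
      refine Submodule.sum_mem _ fun k _ => ?_
      by_cases hk : m k = n
      · rw [if_pos hk]
        by_cases hyk : y k = 0
        · rw [hyk, smul_zero]
          exact Submodule.zero_mem _
        · obtain ⟨i', k', h1, h2, -, h3⟩ := htate k hyk
          rw [show k' = j - i by omega] at h3
          exact Submodule.smul_mem _ _ h3
      · rw [if_neg hk]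
        exact Submodule.zero_mem _
    have h3 := mem_span_of_rowsR _ _ (c n) hc1 hc2
    refine Submodule.span_mono ?_ h3
    rintro _ ⟨x, hx, y, hy, rfl⟩
    exact ⟨i, j - i, by omega, x, hx, y, hy, rfl⟩
  · have h3 : c n = 0 := by
      funext p
      have h4 := hcval p.1 p.2
      have h5 : ∑ k, (if m k = n then e k p.1 * y k p.2 else 0) = 0 := by
        refine Finset.sum_eq_zero fun k _ => ?_
        by_cases hk : m k = n
        · rw [if_pos hk]
          by_cases hyk : y k = 0
          · rw [hyk, Pi.zero_apply, mul_zero]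
          · obtain ⟨i', k', -, h2, -, -⟩ := htate k hyk
            exact absurd (⟨i', by omega⟩ : Even n) hev
        · rw [if_neg hk]
      rw [h5] at h4
      exact (map_eq_zero ι).1 h4
    rw [h3]
    exact Submodule.zero_mem _

section card

variable (W)

/-- The nonzero functions which are Galois types of vectors. -/
def galTypeSet : Set ((ℂ ≃+* ℂ) → ℤ) :=
  {d | d ≠ 0 ∧ ∃ (w : B → ℂ) (m : ℕ), w ≠ 0 ∧ A.IsType m d ∧ W.HasGaloisType A w m d}

theorem galTypeSet_finite : (galTypeSet A W).Finite := by
  have h1 := WellFoundedGT.finite_ne_bot_of_iSupIndep (galSpace_indep A W)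
  refine (h1.image fun p => p.1.2).subset ?_
  rintro d ⟨-, w, m, hw, hm, h⟩
  exact ⟨⟨(m, d), hm⟩, (Submodule.ne_bot_iff _).2 ⟨w, h, hw⟩, rfl⟩

/-- The number of Galois types. -/
theorem card_galTypes (D : Finset ((ℂ ≃+* ℂ) → ℤ)) (hD : ∀ d ∈ D, d ∈ galTypeSet A W) :
    D.card + finrank R (⨆ j, W.tate cyc j : Submodule R (B → R)) ≤ finrank ℂ (W.galPart A) := by
  classical
  choose! w m hw0 hm hw using fun d (hd : d ∈ D) => (hD d hd).2
  let T : Submodule R (B → R) := ⨆ j, W.tate cyc j
  let n := finrank R T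
  let e : Basis (Fin n) R T := Module.finBasis R T
  let h : Fin n → B → R := fun i => (e i : B → R)
  have hh : LinearIndependent R h := e.linearIndependent.map' (Submodule.subtype _)
    (Submodule.ker_subtype _)
  have hhC := linearIndependent_iv ι h hh
  -- the sums of the Tate classes with complex coefficients
  let t : {p : ℕ × ((ℂ ≃+* ℂ) → ℤ) // A.IsType p.1 p.2} → Submodule ℂ (B → ℂ) := fun p =>
    galSpace A W p.1.1 p.1.2
  let S₀ : Set {p : ℕ × ((ℂ ≃+* ℂ) → ℤ) // A.IsType p.1 p.2} := {p | p.1.2 = 0}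
  let S₁ : Set {p : ℕ × ((ℂ ≃+* ℂ) → ℤ) // A.IsType p.1 p.2} := {p | p.1.2 ≠ 0}
  have hdisj : Disjoint (⨆ p ∈ S₁, t p) (⨆ p ∈ S₀, t p) :=
    (galSpace_indep A W).disjoint_biSup_biSup (Set.disjoint_left.2 (by
      intro p hp hp'
      exact hp hp'))
  have hT : ∀ x ∈ T, iv ι x ∈ ⨆ p ∈ S₀, t p := by
    intro x hx
    have h1 : T ≤ Submodule.span R {x : B → R | iv ι x ∈ ⨆ p ∈ S₀, t p} := by
      refine iSup_le fun j x hx => Submodule.subset_span ?_
      have h2 := (hasGaloisType_tate A).2 ((iv_mem_tateC (ι := ι)).2 hx)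
      have h3 : A.IsType ((2 * j : ℕ) : ℤ) 0 := by
        have := isType_tate_pow A j
        push_cast
        exact this
      exact Submodule.mem_iSup_of_mem (⟨(2 * j, 0), h3⟩ : {p : ℕ × ((ℂ ≃+* ℂ) → ℤ) //
        A.IsType p.1 p.2}) (Submodule.mem_iSup_of_mem rfl h2)
    have h2 := h1 hx
    clear hx
    induction h2 using Submodule.span_induction with
    | mem z hz => exact hz
    | zero =>
      have h3 : iv ι (0 : B → R) = 0 := by
        funext b
        exact map_zero ι
      rw [h3]
      exact Submodule.zero_mem _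
    | add y z _ _ hy hz =>
      have h3 : iv ι (y + z) = iv ι y + iv ι z := by
        funext b
        exact map_add ι _ _
      rw [h3]
      exact Submodule.add_mem _ hy hz
    | smul c y _ hy =>
      have h3 : iv ι (c • y) = ι c • iv ι y := by
        funext b
        exact map_mul ι _ _
      rw [h3]
      exact Submodule.smul_mem _ _ hy
  have hle : ∀ x ∈ T, iv ι x ∈ W.galPart A := by
    intro x hx
    refine (iSup₂_le (fun p hp => ?_) : (⨆ p ∈ S₀, t p) ≤ W.galPart A) (hT x hx)
    intro z hz
    exact Submodule.subset_span ⟨p.1.1, p.1.2, p.2, hz⟩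
  let u : D ⊕ Fin n → W.galPart A := Sum.elim
    (fun d => ⟨w d.1, Submodule.subset_span ⟨m d.1, d.1, hm d.1 d.2, hw d.1 d.2⟩⟩)
    (fun i => ⟨iv ι (h i), hle _ (e i).2⟩)
  have hu : LinearIndependent ℂ u := by
    rw [Fintype.linearIndependent_iff]
    intro c hc
    have hc' : ∑ d : D, c (Sum.inl d) • w d.1 + ∑ i, c (Sum.inr i) • iv ι (h i) = 0 := by
      have h1 := congrArg Subtype.val hc
      rw [Fintype.sum_sum_type] at h1
      simpa [u, Submodule.coe_sum] using h1
    let q : D → {p : ℕ × ((ℂ ≃+* ℂ) → ℤ) // A.IsType p.1 p.2} := fun d =>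
      ⟨(m d.1, d.1), hm d.1 d.2⟩
    have h1 : ∑ d : D, c (Sum.inl d) • w d.1 ∈ ⨆ p ∈ S₁, t p := by
      refine Submodule.sum_mem _ fun d _ => Submodule.smul_mem _ _ ?_
      exact Submodule.mem_iSup_of_mem (q d) (Submodule.mem_iSup_of_mem (hD d.1 d.2).1 (hw d.1 d.2))
    have h2 : ∑ i, c (Sum.inr i) • iv ι (h i) ∈ ⨆ p ∈ S₀, t p :=
      Submodule.sum_mem _ fun i _ => Submodule.smul_mem _ _ (hT _ (e i).2)
    have h3 : ∑ d : D, c (Sum.inl d) • w d.1 = 0 := by
      refine Submodule.disjoint_def.1 hdisj _ h1 ?_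
      rw [eq_neg_of_add_eq_zero_left hc']
      exact Submodule.neg_mem _ h2
    rw [h3, zero_add] at hc'
    have hq : Function.Injective q := by
      intro d d' hdd
      have h4 := congrArg (fun p => p.1.2) hdd
      exact Subtype.ext h4
    have hli : LinearIndependent ℂ (fun d : D => w d.1) :=
      ((galSpace_indep A W).comp hq).linearIndependent _ (fun d => hw d.1 d.2)
        (fun d => hw0 d.1 d.2)
    rintro (d | i)
    · exact (Fintype.linearIndependent_iff.1 hli) (fun d => c (Sum.inl d)) h3 d
    · exact (Fintype.linearIndependent_iff.1 hhC) (fun i => c (Sum.inr i)) hc' i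
  have h1 := hu.fintype_card_le_finrank
  rw [Fintype.card_sum, Fintype.card_coe, Fintype.card_fin] at h1
  exact h1

end card

end Pool.Agent.H855.HG
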