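import Mathlib
import Pool.Agent.H855.HG.GalProd
import Pool.Agent.H855.HG.Vectors

/-!
# The exceptional vectors for Tate classes
-/

set_option autoImplicit false
set_option linter.unusedSectionVars false
set_option linter.unusedVariables false

namespace Pool.Agent.H855.HG

open NumberField Finset Module Pool.Agent.TH170.MF Pool.Agent.TH170
  Pool.Agent.V1168.EV Pool.Agent.V1168.EF Pool.Agent.W484.HS Pool.Agent.Y137.MV Pool.Agent.H855.CM

variable {I : Type} (K : I → Type) [∀ i, Field (K i)] [∀ i, NumberField (K i)]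
  [∀ i, IsCMField (K i)]

/-- **The exceptional vectors of a finite set of types.** -/
theorem exists_vectors_of_finset (D : Finset ((ℂ ≃+* ℂ) → ℤ)) (hD0 : ∀ d ∈ D, d ≠ 0) :
    ∃ E : Finset (Σ i, ((K i →+* ℂ) → ℝ)),
      (∀ e ∈ E, e.2 ≠ 0 ∧ (∀ φ, e.2 (ComplexEmbedding.conjugate φ) = - e.2 φ) ∧ ∃ d ∈ D,
        ∀ φ, (fun σ : ℂ ≃+* ℂ => e.2 ((σ : ℂ →+* ℂ).comp φ)) ∈ transSpan (rd d)) ∧
      E.card ≤ D.card ∧
      ∀ (J : Type) [Fintype J] (b : J → I) (x : ∀ j, (K (b j) →+* ℂ) → ℤ),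
        (∀ e ∈ E, ¬ IsComb x e.2) → ∀ d ∈ D,
        ∀ n : Emb (fun j => K (b j)) → ℚ, OddQ n → relMap (rx x) n ≠ rd d := by
  classical
  have hvec : ∀ β : {d : (ℂ ≃+* ℂ) → ℤ // Reached K d}, ∃ e : Σ i, ((K i →+* ℂ) → ℝ),
      e.2 ≠ 0 ∧ (∀ φ, e.2 (ComplexEmbedding.conjugate φ) = - e.2 φ) ∧
      ∀ φ, (fun σ : ℂ ≃+* ℂ => e.2 ((σ : ℂ →+* ℂ).comp φ)) ∈ transSpan (rd β.1) :=
    fun β => β.2.exists_vector
  choose e he0 heodd he using hvec
  let C : Finset {d : (ℂ ≃+* ℂ) → ℤ // Reached K d} := D.subtype fun d => Reached K d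
  refine ⟨C.image e, fun v hv => ?_, ?_, ?_⟩
  · obtain ⟨β, hβ, rfl⟩ := Finset.mem_image.1 hv
    exact ⟨he0 β, heodd β, β.1, Finset.mem_subtype.1 hβ, he β⟩
  · refine Finset.card_image_le.trans ?_
    rw [Finset.card_subtype]
    exact Finset.card_filter_le _ _
  · intro J _ b x hcomb d hd n hn hrel
    have hreach : Reached K d := ⟨hD0 d hd, J, inferInstance, b, x, n, hn, hrel⟩
    have hmem : (⟨d, hreach⟩ : {d : (ℂ ≃+* ℂ) → ℤ // Reached K d}) ∈ C :=
      Finset.mem_subtype.2 hd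
    refine hcomb (e ⟨d, hreach⟩) (Finset.mem_image_of_mem e hmem) ?_
    exact isComb_of (L := fun j => K (b j)) x _ (heodd _) (rd d) (he ⟨d, hreach⟩) n hn hrel

variable {Γ : Type} [Group Γ] {R : Type} [Field R] [Algebra ℚ R] {B B' : Type} [Fintype B]
  [Fintype B'] {ι : R →+* ℂ} {cyc : Γ →* Rˣ} (A : HeckeCharacters Γ ι cyc)

/-- **The exceptional vectors for the Tate classes.** -/
theorem exists_vectorsG (Y : GaloisSpace Γ R B) :
    ∃ E : Finset (Σ i, ((K i →+* ℂ) → ℝ)), IsSmallForGalois A Y E ∧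
      ∀ P : ∀ (C : Type) [Fintype C], GaloisSpace Γ R C → Prop,
        (∀ (C : Type) [Fintype C] (X : GaloisSpace Γ R C), X.HasCM A →
          IsTateOfProducts cyc X Y → P C X) → ForAllWithCM A K E P := by
  classical
  let D : Finset ((ℂ ≃+* ℂ) → ℤ) := (galTypeSet_finite A Y).toFinset
  have hD : ∀ d, d ∈ D ↔ d ∈ galTypeSet A Y := fun d => Set.Finite.mem_toFinset _
  obtain ⟨E, hE, hcard, hav⟩ := exists_vectors_of_finset K D fun d hd => ((hD d).1 hd).1
  refine ⟨E, ⟨fun e he => ?_, ?_⟩, fun P hP J _ b x hx hcomb C _ X hX hgen => ?_⟩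
  · obtain ⟨h1, h2, d, hd, h3⟩ := hE e he
    obtain ⟨-, w, m, hw, hm, hwm⟩ := (hD d).1 hd
    exact ⟨h1, h2, w, m, d, hw, hm, hwm, h3⟩
  · have h1 := card_galTypes A Y D fun d hd => (hD d).1 hd
    exact (Nat.add_le_add_right hcard _).trans h1
  · refine hP C X hX (isTateOfProducts A hX fun u y m m' d hu hy hud hmd hm'd hyd => ?_)
    by_contra hd
    obtain ⟨N, mm, hN, hsum⟩ := hgen u d hu hud
    obtain ⟨n, hn, hrel⟩ := exists_relation x hx d N mm hN hsum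
    exact hav J b x hcomb (-d) ((hD _).2 ⟨neg_ne_zero.2 hd, y, m', hy, hm'd, hyd⟩) n hn hrel

/-- A variety of CM type over a number field is of CM type. -/
theorem isOfCMType_of_hasCM {V : GaloisSpace Γ R B} (hV : V.HasCM A) :
    V.toHodgeSpace.IsOfCMType := by
  change Submodule.span ℂ _ = ⊤
  rw [eq_top_iff, ← hV]
  refine Submodule.span_mono ?_
  rintro w ⟨m, d, -, h, -⟩
  exact ⟨d, h⟩

/-- **The exceptional vectors for the Hodge classes.** -/
theorem exists_vectorsB (w : I → ℕ) (hw : ∀ i, IsWeight (K i) (w i)) (Y : GaloisSpace Γ R B) :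
    ∃ E : Finset (Σ i, ((K i →+* ℂ) → ℝ)), IsSmallFor w Y.toHodgeSpace E ∧
      ∀ P : ∀ (C : Type) [Fintype C], GaloisSpace Γ R C → Prop,
        (∀ (C : Type) [Fintype C] (X : GaloisSpace Γ R C), X.HasCM A →
          IsHodgeOfProducts X.toHodgeSpace Y.toHodgeSpace → P C X) → ForAllWithCM A K E P := by
  obtain ⟨E, hE, h⟩ := exists_vectors K w hw Y.toHodgeSpace
  refine ⟨E, hE, fun P hP J _ b x hx hcomb C _ X hX hgen => ?_⟩
  refine hP C X hX ?_
  exact h (fun C _ X => IsHodgeOfProducts X Y.toHodgeSpace) (fun C _ X h => h) J b x hx hcomb C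
    X.toHodgeSpace (isOfCMType_of_hasCM A hX) hgen

end Pool.Agent.H855.HG
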