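import Mathlib
import Pool.Agent.H855.HG.PowDefs

/-!
# Independent Hodge structures: definitions
-/

set_option autoImplicit false
set_option linter.unusedSectionVars false

namespace Pool.Agent.H855.HG

open Matrix Module

variable {A B : Type} [Fintype A] [Fintype B]

/-- **The Lie algebra of the Hodge group of `X × Y`**, with complex coefficients: the smallest space of
pairs of matrices which contains the pairs of the conjugates `σ⁻¹ T` of the Hodge operators of `X` and `Y`
and the commutators of its elements. -/
noncomputable def pairLie (X : HodgeSpace A) (Y : HodgeSpace B) :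
    Submodule ℂ (Matrix A A ℂ × Matrix B B ℂ) :=
  sInf {g | (∀ σ, (X.conjOp σ, Y.conjOp σ) ∈ g) ∧
    ∀ P ∈ g, ∀ Q ∈ g, (P.1 * Q.1 - Q.1 * P.1, P.2 * Q.2 - Q.2 * P.2) ∈ g}

/-- `X` and `Y` are independent: the Lie algebra of the Hodge group of `X × Y` is the product of the Lie
algebras of the Hodge groups of `X` and of `Y`. -/
def AreIndependent (X : HodgeSpace A) (Y : HodgeSpace B) : Prop :=
  ∀ M ∈ X.lie, ∀ N ∈ Y.lie, (M, N) ∈ pairLie X Y

/-- The Lie algebra of the Hodge group of `X` is generated, as a vector space, by commutators. For the
cohomology of a smooth projective variety this means that the Hodge group is semisimple. -/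
def HodgeSpace.IsPerfect (X : HodgeSpace A) : Prop := X.lie ≤ X.comm

/-- The index set of the basis of the cohomology of the product of the `X i`, `i` in the list `l`. -/
def Prd {I : Type} (A : I → Type) : List I → Type
  | [] => Unit
  | i :: l => A i × Prd A l

instance instFintypePrd {I : Type} (A : I → Type) [∀ i, Fintype (A i)] :
    ∀ l : List I, Fintype (Prd A l)
  | [] => inferInstanceAs (Fintype Unit)
  | i :: l =>
    have _ : Fintype (Prd A l) := instFintypePrd A l
    inferInstanceAs (Fintype (A i × Prd A l))

/-- The cohomology of the product of the `X i`, `i` in the list `l`. -/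
noncomputable def prodOver {I : Type} {A : I → Type} [∀ i, Fintype (A i)]
    (X : ∀ i, HodgeSpace (A i)) : ∀ l : List I, HodgeSpace (Prd A l)
  | [] => HodgeSpace.point
  | i :: l => (X i).prod (prodOver X l)

end Pool.Agent.H855.HG
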