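import Mathlib
import Pool.Agent.H855.HG.GoursatDefs
import Pool.Agent.H855.HG.Crt
import Pool.Agent.H855.HG.Pow

/-!
# Independent Hodge structures
-/

set_option autoImplicit false
set_option linter.unusedSectionVars false
set_option linter.unusedVariables false

namespace Pool.Agent.H855.HG

open Matrix Module

section pair

variable {A A' B : Type} [Fintype A] [Fintype A'] [Fintype B]

theorem pair_mem (X : HodgeSpace A) (Y : HodgeSpace B) (σ : ℂ ≃+* ℂ) :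
    (X.conjOp σ, Y.conjOp σ) ∈ pairLie X Y :=
  (Submodule.mem_sInf).2 fun _ hg => hg.1 σ

theorem pair_br {X : HodgeSpace A} {Y : HodgeSpace B} {M M' : Matrix A A ℂ} {N N' : Matrix B B ℂ}
    (h : (M, N) ∈ pairLie X Y) (h' : (M', N') ∈ pairLie X Y) :
    (br M M', br N N') ∈ pairLie X Y := by
  rw [pairLie, Submodule.mem_sInf] at h h' ⊢
  intro g hg
  exact hg.2 _ (h g hg) _ (h' g hg)

theorem pairLie_le {X : HodgeSpace A} {Y : HodgeSpace B}
    {g : Submodule ℂ (Matrix A A ℂ × Matrix B B ℂ)} (h1 : ∀ σ, (X.conjOp σ, Y.conjOp σ) ∈ g)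
    (h2 : ∀ M N M' N', (M, N) ∈ g → (M', N') ∈ g → (br M M', br N N') ∈ g) : pairLie X Y ≤ g :=
  sInf_le ⟨h1, fun P hP Q hQ => h2 _ _ _ _ hP hQ⟩

theorem lie_br (Y : HodgeSpace B) {M N : Matrix B B ℂ} (hM : M ∈ Y.lie) (hN : N ∈ Y.lie) :
    br M N ∈ Y.lie := comm_mem_lie Y hM hN

theorem lie_le {Y : HodgeSpace B} {g : Submodule ℂ (Matrix B B ℂ)} (h1 : ∀ σ, Y.conjOp σ ∈ g)
    (h2 : ∀ M ∈ g, ∀ N ∈ g, br M N ∈ g) : Y.lie ≤ g := sInf_le ⟨h1, h2⟩

theorem comm_eq (Y : HodgeSpace B) : Y.comm = cm Y.lie := rfl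

theorem pair_fst {X : HodgeSpace A} {Y : HodgeSpace B} {M : Matrix A A ℂ} {N : Matrix B B ℂ}
    (h : (M, N) ∈ pairLie X Y) : M ∈ X.lie := by
  have h1 : pairLie X Y ≤ X.lie.comap (LinearMap.fst ℂ (Matrix A A ℂ) (Matrix B B ℂ)) :=
    pairLie_le (fun σ => conjOp_mem X σ) fun M N M' N' h h' => lie_br X h h'
  exact h1 h

theorem pair_snd {X : HodgeSpace A} {Y : HodgeSpace B} {M : Matrix A A ℂ} {N : Matrix B B ℂ}
    (h : (M, N) ∈ pairLie X Y) : N ∈ Y.lie := by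
  have h1 : pairLie X Y ≤ Y.lie.comap (LinearMap.snd ℂ (Matrix A A ℂ) (Matrix B B ℂ)) :=
    pairLie_le (fun σ => conjOp_mem Y σ) fun M N M' N' h h' => lie_br Y h h'
  exact h1 h

theorem exists_fst (X : HodgeSpace A) {Y : HodgeSpace B} {N : Matrix B B ℂ} (hN : N ∈ Y.lie) :
    ∃ M, (M, N) ∈ pairLie X Y := by
  have h1 : Y.lie ≤ (pairLie X Y).map (LinearMap.snd ℂ (Matrix A A ℂ) (Matrix B B ℂ)) := by
    refine lie_le (fun σ => ⟨_, pair_mem X Y σ, rfl⟩) ?_
    rintro _ ⟨⟨M, N⟩, h, rfl⟩ _ ⟨⟨M', N'⟩, h', rfl⟩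
    exact ⟨(br M M', br N N'), pair_br h h', rfl⟩
  obtain ⟨⟨M, N'⟩, h, rfl⟩ := h1 hN
  exact ⟨M, h⟩

theorem exists_snd {X : HodgeSpace A} (Y : HodgeSpace B) {M : Matrix A A ℂ} (hM : M ∈ X.lie) :
    ∃ N, (M, N) ∈ pairLie X Y := by
  have h1 : X.lie ≤ (pairLie X Y).map (LinearMap.fst ℂ (Matrix A A ℂ) (Matrix B B ℂ)) := by
    refine lie_le (fun σ => ⟨_, pair_mem X Y σ, rfl⟩) ?_
    rintro _ ⟨⟨M, N⟩, h, rfl⟩ _ ⟨⟨M', N'⟩, h', rfl⟩
    exact ⟨(br M M', br N N'), pair_br h h', rfl⟩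
  obtain ⟨⟨M', N⟩, h, rfl⟩ := h1 hM
  exact ⟨N, h⟩

/-- The ideal of `Y` with respect to `X`. -/
noncomputable def idl (X : HodgeSpace A) (Y : HodgeSpace B) : Submodule ℂ (Matrix B B ℂ) :=
  (pairLie X Y).comap (LinearMap.inr ℂ (Matrix A A ℂ) (Matrix B B ℂ))

theorem mem_idl {X : HodgeSpace A} {Y : HodgeSpace B} {N : Matrix B B ℂ} :
    N ∈ idl X Y ↔ ((0 : Matrix A A ℂ), N) ∈ pairLie X Y := Iff.rfl

theorem idl_isIdl (X : HodgeSpace A) (Y : HodgeSpace B) : IsIdl Y.lie (idl X Y) := by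
  refine ⟨fun N hN => pair_snd (mem_idl.1 hN), fun M hM N hN => ?_⟩
  obtain ⟨M', hM'⟩ := exists_fst X hM
  have h1 := pair_br hM' (mem_idl.1 hN)
  rw [show br M' 0 = 0 by unfold br; rw [mul_zero, zero_mul, sub_zero]] at h1
  exact h1

/-- The relation between perfect Lie algebras. -/
theorem comm_partner (X : HodgeSpace A) (Y : HodgeSpace B) {M : Matrix A A ℂ} (hM : M ∈ X.comm) :
    ∃ N ∈ Y.comm, (M, N) ∈ pairLie X Y := by
  rw [comm_eq] at hM
  unfold cm at hM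
  induction hM using Submodule.span_induction with
  | mem C hC =>
    obtain ⟨P, hP, Q, hQ, rfl⟩ := hC
    obtain ⟨p, hp⟩ := exists_snd Y hP
    obtain ⟨q, hq⟩ := exists_snd Y hQ
    exact ⟨br p q, Submodule.subset_span ⟨p, pair_snd hp, q, pair_snd hq, rfl⟩, pair_br hp hq⟩
  | zero => exact ⟨0, Submodule.zero_mem _, Submodule.zero_mem _⟩
  | add M M' _ _ h h' =>
    obtain ⟨N, hN, h⟩ := h
    obtain ⟨N', hN', h'⟩ := h'
    exact ⟨N + N', Submodule.add_mem _ hN hN', Submodule.add_mem _ h h'⟩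
  | smul c M _ h =>
    obtain ⟨N, hN, h⟩ := h
    exact ⟨c • N, Submodule.smul_mem _ c hN, Submodule.smul_mem _ c h⟩

theorem lie_le_comm_sup {X : HodgeSpace A} (Y : HodgeSpace B) (hX : X.IsPerfect) :
    Y.lie ≤ cm Y.lie ⊔ idl X Y := by
  intro N hN
  obtain ⟨M, hM⟩ := exists_fst X hN
  obtain ⟨N', hN', h⟩ := comm_partner X Y (hX (pair_fst hM))
  have h1 : N - N' ∈ idl X Y := by
    rw [mem_idl]
    have h2 := Submodule.sub_mem _ hM h
    rw [Prod.mk_sub_mk, sub_self] at h2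
    exact h2
  have h2 : N = N' + (N - N') := by abel
  rw [h2]
  exact Submodule.add_mem_sup hN' h1

theorem independent_of_zero {X : HodgeSpace A} {Y : HodgeSpace B} (h : Y.lie ≤ idl X Y) :
    AreIndependent X Y := by
  intro M hM N hN
  obtain ⟨N', hN'⟩ := exists_snd Y hM
  have h1 := mem_idl.1 (h (Submodule.sub_mem _ hN (pair_snd hN')))
  have h2 := Submodule.add_mem _ hN' h1
  rw [Prod.mk_add_mk, add_zero, add_sub_cancel] at h2
  exact h2

/-- **Independent Hodge structures have comaximal ideals.** -/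
theorem lie_le_sup_idl {X : HodgeSpace A} {X' : HodgeSpace A'} (Y : HodgeSpace B)
    (h : AreIndependent X X') : Y.lie ≤ idl X Y ⊔ idl X' Y := by
  have hJ : IsIdl Y.lie (idl X Y ⊔ idl X' Y) := by
    refine ⟨sup_le (idl_isIdl X Y).1 (idl_isIdl X' Y).1, fun M hM N hN => ?_⟩
    obtain ⟨N1, h1, N2, h2, rfl⟩ := Submodule.mem_sup.1 hN
    rw [br_add_right]
    exact Submodule.add_mem_sup ((idl_isIdl X Y).2 M hM N1 h1) ((idl_isIdl X' Y).2 M hM N2 h2)
  let R : Submodule ℂ (Matrix A A ℂ × Matrix A' A' ℂ) :=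
    { carrier := {P | ∃ N N', (P.1, N) ∈ pairLie X Y ∧ (P.2, N') ∈ pairLie X' Y ∧
        N - N' ∈ idl X Y ⊔ idl X' Y}
      zero_mem' := ⟨0, 0, Submodule.zero_mem _, Submodule.zero_mem _, by
        rw [sub_zero]
        exact Submodule.zero_mem _⟩
      add_mem' := by
        rintro P Q ⟨N, N', h1, h2, h3⟩ ⟨K, K', k1, k2, k3⟩
        refine ⟨N + K, N' + K', Submodule.add_mem _ h1 k1, Submodule.add_mem _ h2 k2, ?_⟩
        rw [show N + K - (N' + K') = N - N' + (K - K') by abel]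
        exact Submodule.add_mem _ h3 k3
      smul_mem' := by
        rintro c P ⟨N, N', h1, h2, h3⟩
        refine ⟨c • N, c • N', Submodule.smul_mem _ c h1, Submodule.smul_mem _ c h2, ?_⟩
        rw [← smul_sub]
        exact Submodule.smul_mem _ c h3 }
  have hle : pairLie X X' ≤ R := by
    refine pairLie_le (fun σ => ⟨Y.conjOp σ, Y.conjOp σ, pair_mem X Y σ, pair_mem X' Y σ, ?_⟩) ?_
    · rw [sub_self]
      exact Submodule.zero_mem _
    · rintro M M' P P' ⟨N, N', h1, h2, h3⟩ ⟨K, K', k1, k2, k3⟩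
      refine ⟨br N K, br N' K', pair_br h1 k1, pair_br h2 k2, ?_⟩
      have h4 : br N K - br N' K' = br N (K - K') + br (N - N') K' := by
        unfold br
        rw [mul_sub, sub_mul, sub_mul, mul_sub]
        abel
      rw [h4]
      exact Submodule.add_mem _ (hJ.2 _ (pair_snd h1) _ k3) (hJ.right (pair_snd k2) h3)
  intro N0 hN0
  obtain ⟨M, hM⟩ := exists_fst X hN0
  obtain ⟨N, N', h1, h2, h3⟩ := hle (h M (pair_fst hM) 0 (Submodule.zero_mem _))
  have h4 : N' ∈ idl X Y ⊔ idl X' Y := Submodule.mem_sup_right h2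
  have h5 : N ∈ idl X Y ⊔ idl X' Y := by
    have h6 := Submodule.add_mem _ h3 h4
    rw [sub_add_cancel] at h6
    exact h6
  have h6 : N0 - N ∈ idl X Y := by
    rw [mem_idl]
    have h7 := Submodule.sub_mem _ hM h1
    rw [Prod.mk_sub_mk, sub_self] at h7
    exact h7
  have h7 := Submodule.add_mem _ (Submodule.mem_sup_left h6 : N0 - N ∈ idl X Y ⊔ idl X' Y) h5
  rw [sub_add_cancel] at h7
  exact h7

theorem pair_swap {X : HodgeSpace A} {Y : HodgeSpace B} {M : Matrix A A ℂ} {N : Matrix B B ℂ}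
    (h : (M, N) ∈ pairLie X Y) : (N, M) ∈ pairLie Y X := by
  have h1 : pairLie X Y ≤ (pairLie Y X).comap
      ((LinearMap.snd ℂ (Matrix A A ℂ) (Matrix B B ℂ)).prod
        (LinearMap.fst ℂ (Matrix A A ℂ) (Matrix B B ℂ))) :=
    pairLie_le (fun σ => pair_mem Y X σ) fun M N M' N' h h' => pair_br h h'
  exact h1 h

theorem AreIndependent.symm {X : HodgeSpace A} {Y : HodgeSpace B} (h : AreIndependent X Y) :
    AreIndependent Y X := fun N hN M hM => pair_swap (h M hM N hN)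

end pair

section count

variable {B : Type} [Fintype B]

/-- **The exceptional set.** -/
theorem exists_finset (Y : HodgeSpace B) {I : Type} (A : I → Type) [∀ i, Fintype (A i)]
    (X : ∀ i, HodgeSpace (A i)) (hX : ∀ i, (X i).IsPerfect)
    (hI : ∀ i k, i ≠ k → AreIndependent (X i) (X k)) :
    ∃ E : Finset I, 3 * E.card ≤ finrank ℂ Y.comm ∧ ∀ i, i ∉ E → AreIndependent (X i) Y := by
  classical
  have h1 : ∀ E : Finset I, (∀ i ∈ E, ¬ Y.lie ≤ idl (X i) Y) → 3 * E.card ≤ finrank ℂ Y.comm := by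
    intro E hE
    rw [comm_eq]
    exact card_le (g := Y.lie) (fun i => idl (X i) Y) (fun M hM N hN => lie_br Y hM hN)
      (fun i => idl_isIdl (X i) Y) (fun i => lie_le_comm_sup Y (hX i))
      (fun i k hik => lie_le_sup_idl Y (hI i k hik)) E hE
  have hfin : {i | ¬ Y.lie ≤ idl (X i) Y}.Finite := by
    by_contra hinf
    obtain ⟨E, hE, hcard⟩ := Set.Infinite.exists_subset_card_eq hinf (finrank ℂ Y.comm + 1)
    have h2 := h1 E fun i hi => hE hi
    omega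
  refine ⟨hfin.toFinset, h1 _ fun i hi => hfin.mem_toFinset.1 hi, fun i hi => ?_⟩
  refine independent_of_zero ?_
  by_contra h2
  exact hi (hfin.mem_toFinset.2 h2)

end count

end Pool.Agent.H855.HG
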