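import Mathlib
import Pool.Agent.H855.HG.Goursat

/-!
# Products of independent Hodge structures, and the Hodge classes
-/

set_option autoImplicit false
set_option linter.unusedSectionVars false
set_option linter.unusedVariables false

namespace Pool.Agent.H855.HG

open Matrix Module

section three

variable {A A' B : Type} [Fintype A] [Fintype A'] [Fintype B]

theorem prodOp_zero : prodOp (0 : Matrix A A ℂ) (0 : Matrix B B ℂ) = 0 := by
  have h := prodOp_smul (0 : ℂ) (0 : Matrix A A ℂ) (0 : Matrix B B ℂ)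
  rw [smul_zero, smul_zero, zero_smul] at h
  exact h

theorem prodOp_br (M M' : Matrix A A ℂ) (N N' : Matrix B B ℂ) :
    prodOp (br M M') (br N N') = br (prodOp M N) (prodOp M' N') := prodOp_comm M M' N N'

theorem prod_conjOp (X : HodgeSpace A) (Y : HodgeSpace B) (σ : ℂ ≃+* ℂ) :
    (X.prod Y).conjOp σ = prodOp (X.conjOp σ) (Y.conjOp σ) := prodOp_map σ.symm X.op Y.op

/-- The first two of three. -/
theorem three12 (X : HodgeSpace A) (X' : HodgeSpace A') (Y : HodgeSpace B) {M : Matrix A A ℂ}
    {M' : Matrix A' A' ℂ} (h : (M, M') ∈ pairLie X X') :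
    ∃ N, (prodOp M M', N) ∈ pairLie (X.prod X') Y := by
  let R : Submodule ℂ (Matrix A A ℂ × Matrix A' A' ℂ) :=
    { carrier := {P | ∃ N, (prodOp P.1 P.2, N) ∈ pairLie (X.prod X') Y}
      zero_mem' := ⟨0, by
        change (prodOp (0 : Matrix A A ℂ) (0 : Matrix A' A' ℂ), (0 : Matrix B B ℂ)) ∈ _
        rw [prodOp_zero]
        exact Submodule.zero_mem _⟩
      add_mem' := by
        rintro P Q ⟨N, hN⟩ ⟨N', hN'⟩
        refine ⟨N + N', ?_⟩
        change (prodOp (P.1 + Q.1) (P.2 + Q.2), N + N') ∈ _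
        rw [prodOp_add]
        exact Submodule.add_mem _ hN hN'
      smul_mem' := by
        rintro c P ⟨N, hN⟩
        refine ⟨c • N, ?_⟩
        change (prodOp (c • P.1) (c • P.2), c • N) ∈ _
        rw [prodOp_smul]
        exact Submodule.smul_mem _ c hN }
  have hle : pairLie X X' ≤ R := by
    refine pairLie_le (fun σ => ⟨Y.conjOp σ, ?_⟩) ?_
    · change (prodOp (X.conjOp σ) (X'.conjOp σ), Y.conjOp σ) ∈ _
      rw [← prod_conjOp]
      exact pair_mem _ _ σ
    · rintro M M' P P' ⟨N, hN⟩ ⟨K, hK⟩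
      refine ⟨br N K, ?_⟩
      change (prodOp (br M P) (br M' P'), br N K) ∈ _
      rw [prodOp_br]
      exact pair_br hN hK
  exact hle h

/-- The first and the third of three. -/
theorem three13 (X : HodgeSpace A) (X' : HodgeSpace A') (Y : HodgeSpace B) {M : Matrix A A ℂ}
    {N : Matrix B B ℂ} (h : (M, N) ∈ pairLie X Y) :
    ∃ M', (prodOp M M', N) ∈ pairLie (X.prod X') Y := by
  let R : Submodule ℂ (Matrix A A ℂ × Matrix B B ℂ) :=
    { carrier := {P | ∃ M', (prodOp P.1 M', P.2) ∈ pairLie (X.prod X') Y}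
      zero_mem' := ⟨0, by
        change (prodOp (0 : Matrix A A ℂ) (0 : Matrix A' A' ℂ), (0 : Matrix B B ℂ)) ∈ _
        rw [prodOp_zero]
        exact Submodule.zero_mem _⟩
      add_mem' := by
        rintro P Q ⟨N, hN⟩ ⟨N', hN'⟩
        refine ⟨N + N', ?_⟩
        change (prodOp (P.1 + Q.1) (N + N'), P.2 + Q.2) ∈ _
        rw [prodOp_add]
        exact Submodule.add_mem _ hN hN'
      smul_mem' := by
        rintro c P ⟨N, hN⟩
        refine ⟨c • N, ?_⟩
        change (prodOp (c • P.1) (c • N), c • P.2) ∈ _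
        rw [prodOp_smul]
        exact Submodule.smul_mem _ c hN }
  have hle : pairLie X Y ≤ R := by
    refine pairLie_le (fun σ => ⟨X'.conjOp σ, ?_⟩) ?_
    · change (prodOp (X.conjOp σ) (X'.conjOp σ), Y.conjOp σ) ∈ _
      rw [← prod_conjOp]
      exact pair_mem _ _ σ
    · rintro M M' P P' ⟨N, hN⟩ ⟨K, hK⟩
      refine ⟨br N K, ?_⟩
      change (prodOp (br M P) (br N K), br M' P') ∈ _
      rw [prodOp_br]
      exact pair_br hN hK
  exact hle h

/-- The second and the third of three. -/
theorem three23 (X : HodgeSpace A) (X' : HodgeSpace A') (Y : HodgeSpace B) {M' : Matrix A' A' ℂ}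
    {N : Matrix B B ℂ} (h : (M', N) ∈ pairLie X' Y) :
    ∃ M, (prodOp M M', N) ∈ pairLie (X.prod X') Y := by
  let R : Submodule ℂ (Matrix A' A' ℂ × Matrix B B ℂ) :=
    { carrier := {P | ∃ M, (prodOp M P.1, P.2) ∈ pairLie (X.prod X') Y}
      zero_mem' := ⟨0, by
        change (prodOp (0 : Matrix A A ℂ) (0 : Matrix A' A' ℂ), (0 : Matrix B B ℂ)) ∈ _
        rw [prodOp_zero]
        exact Submodule.zero_mem _⟩
      add_mem' := by
        rintro P Q ⟨N, hN⟩ ⟨N', hN'⟩
        refine ⟨N + N', ?_⟩
        change (prodOp (N + N') (P.1 + Q.1), P.2 + Q.2) ∈ _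
        rw [prodOp_add]
        exact Submodule.add_mem _ hN hN'
      smul_mem' := by
        rintro c P ⟨N, hN⟩
        refine ⟨c • N, ?_⟩
        change (prodOp (c • N) (c • P.1), c • P.2) ∈ _
        rw [prodOp_smul]
        exact Submodule.smul_mem _ c hN }
  have hle : pairLie X' Y ≤ R := by
    refine pairLie_le (fun σ => ⟨X.conjOp σ, ?_⟩) ?_
    · change (prodOp (X.conjOp σ) (X'.conjOp σ), Y.conjOp σ) ∈ _
      rw [← prod_conjOp]
      exact pair_mem _ _ σ
    · rintro M M' P P' ⟨N, hN⟩ ⟨K, hK⟩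
      refine ⟨br N K, ?_⟩
      change (prodOp (br N K) (br M P), br M' P') ∈ _
      rw [prodOp_br]
      exact pair_br hN hK
  exact hle h

theorem br_zero_left (M : Matrix A A ℂ) : br 0 M = 0 := by
  unfold br
  rw [zero_mul, mul_zero, sub_zero]

theorem br_zero_right (M : Matrix A A ℂ) : br M 0 = 0 := by
  unfold br
  rw [zero_mul, mul_zero, sub_zero]

theorem left_mem {X : HodgeSpace A} {X' : HodgeSpace A'} {Y : HodgeSpace B} (hX : X.IsPerfect)
    (h1 : AreIndependent X X') (h2 : AreIndependent X Y) {M : Matrix A A ℂ} (hM : M ∈ X.lie) :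
    (prodOp M (0 : Matrix A' A' ℂ), (0 : Matrix B B ℂ)) ∈ pairLie (X.prod X') Y := by
  have hc := hX hM
  rw [comm_eq] at hc
  unfold cm at hc
  clear hM
  induction hc using Submodule.span_induction with
  | mem C hC =>
    obtain ⟨P, hP, Q, hQ, rfl⟩ := hC
    obtain ⟨N, hN⟩ := three12 X X' Y (h1 P hP 0 (Submodule.zero_mem _))
    obtain ⟨K, hK⟩ := three13 X X' Y (h2 Q hQ 0 (Submodule.zero_mem _))
    have h3 := pair_br hN hK
    rw [← prodOp_br, br_zero_left, br_zero_right] at h3
    exact h3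
  | zero =>
    rw [prodOp_zero]
    exact Submodule.zero_mem _
  | add M M' _ _ h h' =>
    have h3 := Submodule.add_mem _ h h'
    rw [Prod.mk_add_mk, ← prodOp_add, add_zero, add_zero] at h3
    exact h3
  | smul c M _ h =>
    have h3 := Submodule.smul_mem _ c h
    rw [Prod.smul_mk, ← prodOp_smul, smul_zero, smul_zero] at h3
    exact h3

theorem right_mem {X : HodgeSpace A} {X' : HodgeSpace A'} {Y : HodgeSpace B} (hX' : X'.IsPerfect)
    (h1 : AreIndependent X X') (h2 : AreIndependent X' Y) {M : Matrix A' A' ℂ} (hM : M ∈ X'.lie) :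
    (prodOp (0 : Matrix A A ℂ) M, (0 : Matrix B B ℂ)) ∈ pairLie (X.prod X') Y := by
  have hc := hX' hM
  rw [comm_eq] at hc
  unfold cm at hc
  clear hM
  induction hc using Submodule.span_induction with
  | mem C hC =>
    obtain ⟨P, hP, Q, hQ, rfl⟩ := hC
    obtain ⟨N, hN⟩ := three12 X X' Y (h1 0 (Submodule.zero_mem _) P hP)
    obtain ⟨K, hK⟩ := three23 X X' Y (h2 Q hQ 0 (Submodule.zero_mem _))
    have h3 := pair_br hN hK
    rw [← prodOp_br, br_zero_left, br_zero_right] at h3
    exact h3
  | zero =>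
    rw [prodOp_zero]
    exact Submodule.zero_mem _
  | add M M' _ _ h h' =>
    have h3 := Submodule.add_mem _ h h'
    rw [Prod.mk_add_mk, ← prodOp_add, add_zero, add_zero] at h3
    exact h3
  | smul c M _ h =>
    have h3 := Submodule.smul_mem _ c h
    rw [Prod.smul_mk, ← prodOp_smul, smul_zero, smul_zero] at h3
    exact h3

/-- The elements of the Lie algebra of a product. -/
theorem prod_lie_mem {X : HodgeSpace A} {X' : HodgeSpace A'} {L : Matrix (A × A') (A × A') ℂ}
    (hL : L ∈ (X.prod X').lie) : ∃ M ∈ X.lie, ∃ M' ∈ X'.lie, L = prodOp M M' := by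
  let R : Submodule ℂ (Matrix (A × A') (A × A') ℂ) :=
    { carrier := {L | ∃ M ∈ X.lie, ∃ M' ∈ X'.lie, L = prodOp M M'}
      zero_mem' := ⟨0, Submodule.zero_mem _, 0, Submodule.zero_mem _, prodOp_zero.symm⟩
      add_mem' := by
        rintro _ _ ⟨M, hM, M', hM', rfl⟩ ⟨P, hP, P', hP', rfl⟩
        exact ⟨M + P, Submodule.add_mem _ hM hP, M' + P', Submodule.add_mem _ hM' hP',
          (prodOp_add M P M' P').symm⟩
      smul_mem' := by
        rintro c _ ⟨M, hM, M', hM', rfl⟩
        exact ⟨c • M, Submodule.smul_mem _ c hM, c • M', Submodule.smul_mem _ c hM',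
          (prodOp_smul c M M').symm⟩ }
  have hle : (X.prod X').lie ≤ R := by
    refine lie_le (fun σ => ⟨_, conjOp_mem X σ, _, conjOp_mem X' σ, prod_conjOp X X' σ⟩) ?_
    rintro _ ⟨M, hM, M', hM', rfl⟩ _ ⟨P, hP, P', hP', rfl⟩
    exact ⟨br M P, lie_br X hM hP, br M' P', lie_br X' hM' hP', (prodOp_br M P M' P').symm⟩
  exact hle hL

theorem prodOp_mem_lie {X : HodgeSpace A} {X' : HodgeSpace A'} {M : Matrix A A ℂ}
    {M' : Matrix A' A' ℂ} (h : (M, M') ∈ pairLie X X') : prodOp M M' ∈ (X.prod X').lie := by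
  obtain ⟨N, hN⟩ := three12 X X' HodgeSpace.point h
  exact pair_fst hN

/-- **The product of two independent perfect Hodge structures is perfect.** -/
theorem perfect_prod {X : HodgeSpace A} {X' : HodgeSpace A'} (hX : X.IsPerfect)
    (hX' : X'.IsPerfect) (h : AreIndependent X X') : (X.prod X').IsPerfect := by
  intro L hL
  obtain ⟨M, hM, M', hM', rfl⟩ := prod_lie_mem hL
  have h1 : ∀ M ∈ X.lie, prodOp M (0 : Matrix A' A' ℂ) ∈ (X.prod X').comm := by
    intro M hM
    have hc := hX hM
    rw [comm_eq] at hc ⊢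
    unfold cm at hc
    clear hM
    induction hc using Submodule.span_induction with
    | mem C hC =>
      obtain ⟨P, hP, Q, hQ, rfl⟩ := hC
      refine Submodule.subset_span ⟨prodOp P 0, prodOp_mem_lie (h P hP 0 (Submodule.zero_mem _)),
        prodOp Q 0, prodOp_mem_lie (h Q hQ 0 (Submodule.zero_mem _)), ?_⟩
      rw [← prodOp_br, br_zero_left]
    | zero =>
      rw [prodOp_zero]
      exact Submodule.zero_mem _
    | add M M' _ _ h h' =>
      have h3 := Submodule.add_mem _ h h'
      rw [← prodOp_add, add_zero] at h3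
      exact h3
    | smul c M _ h =>
      have h3 := Submodule.smul_mem _ c h
      rw [← prodOp_smul, smul_zero] at h3
      exact h3
  have h2 : ∀ M ∈ X'.lie, prodOp (0 : Matrix A A ℂ) M ∈ (X.prod X').comm := by
    intro M hM
    have hc := hX' hM
    rw [comm_eq] at hc ⊢
    unfold cm at hc
    clear hM
    induction hc using Submodule.span_induction with
    | mem C hC =>
      obtain ⟨P, hP, Q, hQ, rfl⟩ := hC
      refine Submodule.subset_span ⟨prodOp 0 P, prodOp_mem_lie (h 0 (Submodule.zero_mem _) P hP),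
        prodOp 0 Q, prodOp_mem_lie (h 0 (Submodule.zero_mem _) Q hQ), ?_⟩
      rw [← prodOp_br, br_zero_left]
    | zero =>
      rw [prodOp_zero]
      exact Submodule.zero_mem _
    | add M M' _ _ h h' =>
      have h3 := Submodule.add_mem _ h h'
      rw [← prodOp_add, add_zero] at h3
      exact h3
    | smul c M _ h =>
      have h3 := Submodule.smul_mem _ c h
      rw [← prodOp_smul, smul_zero] at h3
      exact h3
  have h3 := Submodule.add_mem _ (h1 M hM) (h2 M' hM')
  rw [← prodOp_add, add_zero, zero_add] at h3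
  exact h3

/-- **The product of two independent perfect Hodge structures is independent of all Hodge structures which
are independent of both.** -/
theorem independent_prod {X : HodgeSpace A} {X' : HodgeSpace A'} {Y : HodgeSpace B}
    (hX : X.IsPerfect) (hX' : X'.IsPerfect) (h : AreIndependent X X') (h1 : AreIndependent X Y)
    (h2 : AreIndependent X' Y) : AreIndependent (X.prod X') Y := by
  have h3 : ∀ L ∈ (X.prod X').lie, (L, (0 : Matrix B B ℂ)) ∈ pairLie (X.prod X') Y := by
    intro L hL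
    obtain ⟨M, hM, M', hM', rfl⟩ := prod_lie_mem hL
    have h4 := Submodule.add_mem _ (left_mem hX h h1 hM) (right_mem hX' h h2 hM')
    rw [Prod.mk_add_mk, ← prodOp_add, add_zero, zero_add, add_zero] at h4
    exact h4
  intro L hL N hN
  obtain ⟨L', hL'⟩ := exists_fst (X.prod X') hN
  have h4 := Submodule.add_mem _ hL' (h3 (L - L') (Submodule.sub_mem _ hL (pair_fst hL')))
  rw [Prod.mk_add_mk, add_sub_cancel, add_zero] at h4
  exact h4

end three

section list

theorem point_conjOp (σ : ℂ ≃+* ℂ) : HodgeSpace.point.conjOp σ = 0 := by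
  ext a b
  exact map_zero σ.symm

theorem point_lie {M : Matrix Unit Unit ℂ} (h : M ∈ HodgeSpace.point.lie) : M = 0 := by
  have h1 : HodgeSpace.point.lie ≤ ⊥ := by
    refine lie_le (fun σ => ?_) ?_
    · rw [point_conjOp]
      exact Submodule.zero_mem _
    · intro M hM N hN
      rw [Submodule.mem_bot] at hM
      rw [hM, br_zero_left]
      exact Submodule.zero_mem _
  exact (Submodule.mem_bot ℂ).1 (h1 h)

theorem point_perfect : HodgeSpace.point.IsPerfect := by
  intro M hM
  rw [point_lie hM]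
  exact Submodule.zero_mem _

theorem point_independent {B : Type} [Fintype B] (Y : HodgeSpace B) :
    AreIndependent HodgeSpace.point Y := by
  intro M hM N hN
  rw [point_lie hM]
  have h1 : Y.lie ≤ idl HodgeSpace.point Y := by
    refine lie_le (fun σ => ?_) fun M hM N hN => ?_
    · have h2 := pair_mem HodgeSpace.point Y σ
      rw [point_conjOp] at h2
      exact h2
    · have h2 := pair_br (mem_idl.1 hM) (mem_idl.1 hN)
      rw [br_zero_left] at h2
      exact h2
  exact h1 hN

variable {I : Type} {A : I → Type} [∀ i, Fintype (A i)] {X : ∀ i, HodgeSpace (A i)}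

theorem prodOver_independent (hX : ∀ i, (X i).IsPerfect)
    (hI : ∀ i k, i ≠ k → AreIndependent (X i) (X k)) (l : List I) (hl : l.Nodup) :
    (prodOver X l).IsPerfect ∧ ∀ {B : Type} [Fintype B] (Z : HodgeSpace B),
      (∀ i ∈ l, AreIndependent (X i) Z) → AreIndependent (prodOver X l) Z := by
  induction l with
  | nil => exact ⟨point_perfect, fun Z _ => point_independent Z⟩
  | cons i l ih =>
    obtain ⟨h1, h2⟩ := List.nodup_cons.1 hl
    obtain ⟨h3, h4⟩ := ih h2
    have h5 : AreIndependent (X i) (prodOver X l) :=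
      (h4 (X i) fun k hk => hI k i fun h => h1 (h ▸ hk)).symm
    exact ⟨perfect_prod (hX i) h3 h5, fun Z hZ => independent_prod (hX i) h3 h5
      (hZ i List.mem_cons_self) (h4 Z fun k hk => hZ k (List.mem_cons_of_mem _ hk))⟩

end list

section hodge

variable {B B' : Type} [Fintype B] [Fintype B']

theorem isHodgeOfProducts_of_killed {V : HodgeSpace B'} {W : HodgeSpace B}
    (h : ∀ ω ∈ (V.prod W).hodge, (∀ b, (fun a => ω (a, b)) ∈ V.hodge) ∧
      ∀ a, (fun b => ω (a, b)) ∈ W.hodge) : IsHodgeOfProducts V W := by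
  classical
  intro j ω hω
  obtain ⟨h1, h2⟩ := hω
  obtain ⟨hcol, hrow⟩ := h ω h1
  let c : ℕ → B' × B → ℚ := fun m p => if V.deg p.1 = m then ω p else 0
  have hsum : ω = ∑ m ∈ Finset.range (2 * j + 1), c m := by
    funext p
    rw [Finset.sum_apply]
    by_cases hp : V.deg p.1 + W.deg p.2 = 2 * j
    · rw [Finset.sum_eq_single (V.deg p.1)]
      · exact (if_pos rfl).symm
      · intro m _ hm
        exact if_neg (Ne.symm hm)
      · intro h
        exact absurd (Finset.mem_range.2 (by omega)) h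
    · have h3 : ω p = 0 := h2 p hp
      rw [h3]
      refine (Finset.sum_eq_zero fun m _ => ?_).symm
      change (if V.deg p.1 = m then ω p else 0) = 0
      rw [h3, ite_self]
  rw [hsum]
  refine Submodule.sum_mem _ fun m hm => ?_
  have hm' : m ≤ 2 * j := by
    have := Finset.mem_range.1 hm
    omega
  have hc1 : ∀ b, (fun a => c m (a, b)) ∈ V.hodge ⊓ V.part m := fun b =>
    ⟨comp_hodge V (hcol b) m, comp_part V _ m⟩
  have hc2 : ∀ a, (fun b => c m (a, b)) ∈ W.hodge ⊓ W.part (2 * j - m) := by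
    intro a
    by_cases ha : V.deg a = m
    · have h3 : (fun b => c m (a, b)) = fun b => ω (a, b) := by
        funext b
        exact if_pos ha
      rw [h3]
      refine ⟨hrow a, fun b hb => h2 (a, b) fun h => hb ?_⟩
      have h4 : V.deg a + W.deg b = 2 * j := h
      omega
    · have h3 : (fun b => c m (a, b)) = 0 := by
        funext b
        exact if_neg ha
      rw [h3]
      exact Submodule.zero_mem _
  by_cases hev : Even m
  · obtain ⟨i, hi⟩ := hev
    have h3 := mem_span_of_rows _ _ (c m) hc1 hc2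
    refine Submodule.span_mono ?_ h3
    rintro _ ⟨x, hx, y, hy, rfl⟩
    refine ⟨i, j - i, by omega, x, ?_, y, ?_, rfl⟩
    · rw [show m = 2 * i by omega] at hx
      exact hx
    · rw [show 2 * j - m = 2 * (j - i) by omega] at hy
      exact hy
  · have h3 : c m = 0 := by
      funext p
      exact congrFun (hodge_odd V (hc1 p.2).1 (hc1 p.2).2 hev) p.1
    rw [h3]
    exact Submodule.zero_mem _

variable {A : Type} [Fintype A]

theorem deriv_of_zero {C : Type} [Fintype C] (k : ℕ) : deriv (0 : Matrix C C ℂ) k = 0 := by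
  have h1 := deriv_smul (0 : ℂ) (0 : Matrix C C ℂ) k
  rw [smul_zero, zero_smul] at h1
  exact h1

/-- The derivation of the power of `X` times the power of `Y`. -/
noncomputable def dd (r s : ℕ) (M : Matrix A A ℂ) (N : Matrix B B ℂ) :
    Matrix (Pow A r × Pow B s) (Pow A r × Pow B s) ℂ := prodOp (deriv M r) (deriv N s)

theorem dd_add (r s : ℕ) (M M' : Matrix A A ℂ) (N N' : Matrix B B ℂ) :
    dd r s (M + M') (N + N') = dd r s M N + dd r s M' N' := by
  unfold dd
  rw [deriv_add, deriv_add, prodOp_add]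

theorem dd_smul (r s : ℕ) (c : ℂ) (M : Matrix A A ℂ) (N : Matrix B B ℂ) :
    dd r s (c • M) (c • N) = c • dd r s M N := by
  unfold dd
  rw [deriv_smul, deriv_smul, prodOp_smul]

theorem dd_zero (r s : ℕ) : dd r s (0 : Matrix A A ℂ) (0 : Matrix B B ℂ) = 0 := by
  unfold dd
  rw [deriv_of_zero, deriv_of_zero, prodOp_zero]

theorem dd_br (r s : ℕ) (M M' : Matrix A A ℂ) (N N' : Matrix B B ℂ) :
    dd r s (br M M') (br N N') = dd r s M N * dd r s M' N' - dd r s M' N' * dd r s M N := by
  unfold dd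
  have h1 : deriv (br M M') r = deriv M r * deriv M' r - deriv M' r * deriv M r := deriv_comm M M' r
  have h2 : deriv (br N N') s = deriv N s * deriv N' s - deriv N' s * deriv N s := deriv_comm N N' s
  rw [h1, h2, prodOp_comm]

theorem dd_conj (X : HodgeSpace A) (Y : HodgeSpace B) (r s : ℕ) (σ : ℂ ≃+* ℂ) :
    dd r s (X.conjOp σ) (Y.conjOp σ) = (((X.pow r).prod (Y.pow s)).op).map σ.symm := by
  unfold dd
  have h1 : ((X.pow r).prod (Y.pow s)).op = prodOp (X.pow r).op (Y.pow s).op := rfl
  rw [h1, prodOp_map, pow_op, pow_op, deriv_map, deriv_map]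
  rfl

/-- The vectors killed by a rational matrix. -/
theorem map_mulVec_cv {C : Type} [Fintype C] (τ : ℂ ≃+* ℂ) (M : Matrix C C ℂ) (ω : C → ℚ)
    (h : M *ᵥ cv ω = 0) : M.map τ *ᵥ cv ω = 0 := by
  funext p
  have h2 := congrArg τ (congrFun h p)
  rw [Pi.zero_apply, map_zero] at h2
  rw [Pi.zero_apply, ← h2]
  simp only [Matrix.mulVec, dotProduct, map_sum, map_mul, Matrix.map_apply]
  refine Finset.sum_congr rfl fun q _ => ?_
  congr 1
  exact (map_ratCast τ (ω q)).symm

/-- The pairs which kill a vector. -/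
noncomputable def killer (r s : ℕ) (w : Pow A r × Pow B s → ℂ) :
    Submodule ℂ (Matrix A A ℂ × Matrix B B ℂ) where
  carrier := {P | dd r s P.1 P.2 *ᵥ w = 0}
  zero_mem' := by
    rw [Set.mem_setOf_eq, Prod.fst_zero, Prod.snd_zero, dd_zero, Matrix.zero_mulVec]
  add_mem' := by
    intro P Q hP hQ
    rw [Set.mem_setOf_eq] at hP hQ ⊢
    rw [Prod.fst_add, Prod.snd_add, dd_add, Matrix.add_mulVec, hP, hQ, add_zero]
  smul_mem' := by
    intro c P hP
    rw [Set.mem_setOf_eq] at hP ⊢
    rw [Prod.smul_fst, Prod.smul_snd, dd_smul, Matrix.smul_mulVec, hP, smul_zero]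

theorem mem_killer {r s : ℕ} {w : Pow A r × Pow B s → ℂ} {M : Matrix A A ℂ} {N : Matrix B B ℂ} :
    (M, N) ∈ killer r s w ↔ dd r s M N *ᵥ w = 0 := Iff.rfl

theorem pairLie_le_killer {X : HodgeSpace A} {Y : HodgeSpace B} {r s : ℕ}
    {ω : Pow A r × Pow B s → ℚ} (hω : ω ∈ ((X.pow r).prod (Y.pow s)).hodge) :
    pairLie X Y ≤ killer r s (cv ω) := by
  refine pairLie_le (fun σ => ?_) ?_
  · rw [mem_killer, dd_conj]
    exact map_mulVec_cv σ.symm _ ω hω
  · intro M N M' N' h1 h2
    rw [mem_killer] at h1 h2 ⊢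
    rw [dd_br, Matrix.sub_mulVec, ← Matrix.mulVec_mulVec, ← Matrix.mulVec_mulVec, h1, h2,
      Matrix.mulVec_zero, Matrix.mulVec_zero, sub_zero]

theorem op_mem (X : HodgeSpace A) : X.op ∈ X.lie := by
  have h1 := conjOp_mem X (RingEquiv.refl ℂ)
  have h2 : X.conjOp (RingEquiv.refl ℂ) = X.op := by
    ext a b
    rfl
  rwa [h2] at h1

/-- **The Hodge classes on all products of powers of two independent Hodge structures.** -/
theorem hodgeOfProducts_independent {X : HodgeSpace A} {Y : HodgeSpace B}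
    (h : AreIndependent X Y) (r s : ℕ) : IsHodgeOfProducts (X.pow r) (Y.pow s) := by
  refine isHodgeOfProducts_of_killed fun ω hω => ?_
  have h1 := mem_killer.1 (pairLie_le_killer hω (h X.op (op_mem X) 0 (Submodule.zero_mem _)))
  have h2 := mem_killer.1 (pairLie_le_killer hω (h 0 (Submodule.zero_mem _) Y.op (op_mem Y)))
  unfold dd at h1 h2
  rw [deriv_of_zero, ← pow_op] at h1 h2
  constructor
  · intro b
    have h4 : (X.pow r).op *ᵥ cv (fun a => ω (a, b)) = 0 := by
      funext a
      have h3 := congrFun h1 (a, b)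
      rw [prodOp_mulVec] at h3
      simp only [Matrix.zero_apply, zero_mul, Finset.sum_const_zero, add_zero] at h3
      exact h3
    exact h4
  · intro a
    have h4 : (Y.pow s).op *ᵥ cv (fun b => ω (a, b)) = 0 := by
      funext b
      have h3 := congrFun h2 (a, b)
      rw [prodOp_mulVec] at h3
      simp only [Matrix.zero_apply, zero_mul, Finset.sum_const_zero, zero_add] at h3
      exact h3
    exact h4

end hodge

end Pool.Agent.H855.HG
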