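import Mathlib
import Pool.Agent.H855.HG.GoursatPrd

/-!
# All but few members of a family of independent Hodge structures are independent of a given one
-/

set_option autoImplicit false
set_option linter.unusedSectionVars false

namespace Pool.Agent.H855.HG

open Matrix Module

theorem hodgeOnAllPowers_of_independent {A B : Type} [Fintype A] [Fintype B] {X : HodgeSpace A}
    {Y : HodgeSpace B} (h : AreIndependent X Y) : HodgeOnAllPowers X Y := fun r s j =>
  hodgeIn_prod_eq (hodgeOfProducts_independent h r s) j

theorem absoluteOnAllPowers_of_independent {A B : Type} [Fintype A] [Fintype B] {X : HodgeSpace A}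
    {Y : HodgeSpace B} (h : AreIndependent X Y) : AbsoluteOnAllPowers X Y :=
  absoluteOnAllPowers fun r s => hodgeOfProducts_independent h r s

theorem exists_finset_prod {B : Type} [Fintype B] (Y : HodgeSpace B) {I : Type} (A : I → Type)
    [∀ i, Fintype (A i)] (X : ∀ i, HodgeSpace (A i)) (hX : ∀ i, (X i).IsPerfect)
    (hI : ∀ i k, i ≠ k → AreIndependent (X i) (X k)) :
    ∃ E : Finset I, 3 * E.card ≤ finrank ℂ Y.comm ∧ ∀ l : List I, l.Nodup →
      (∀ i ∈ l, i ∉ E) → AreIndependent (prodOver X l) Y := by
  obtain ⟨E, h1, h2⟩ := exists_finset Y A X hX hI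
  exact ⟨E, h1, fun l hl hE => (prodOver_independent hX hI l hl).2 Y fun i hi => h2 i (hE i hi)⟩

end Pool.Agent.H855.HG
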