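import Mathlib
import Pool.Agent.H855.HG.GoursatMain

/-!
# Independent factors with perfect Lie algebras, together with factors of CM type
-/

set_option autoImplicit false
set_option linter.unusedSectionVars false

namespace Pool.Agent.H855.HG

open Matrix Module NumberField Pool.Agent.Y137.MV Pool.Agent.H855.CM Pool.Agent.H855.DP

section

variable {A B : Type} [Fintype A] [Fintype B]

theorem prodOp_left_comm {X : HodgeSpace A} {Y : HodgeSpace B} (hX : X.IsPerfect)
    (h : AreIndependent X Y) {M : Matrix A A ℂ} (hM : M ∈ X.lie) :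
    prodOp M (0 : Matrix B B ℂ) ∈ (X.prod Y).comm := by
  have hc := hX hM
  rw [comm_eq] at hc ⊢
  unfold cm at hc
  clear hM
  induction hc using Submodule.span_induction with
  | mem C hC =>
    obtain ⟨P, hP, Q, hQ, rfl⟩ := hC
    refine Submodule.subset_span ⟨prodOp P 0, prodOp_mem_lie (h P hP 0 (Submodule.zero_mem _)),
      prodOp Q 0, prodOp_mem_lie (h Q hQ 0 (Submodule.zero_mem _)), ?_⟩
    rw [← prodOp_br, br_zero_left]
  | zero =>
    rw [prodOp_zero]
    exact Submodule.zero_mem _
  | add M M' _ _ h h' =>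
    have h3 := Submodule.add_mem _ h h'
    rw [← prodOp_add, add_zero] at h3
    exact h3
  | smul c M _ h =>
    have h3 := Submodule.smul_mem _ c h
    rw [← prodOp_smul, smul_zero] at h3
    exact h3

theorem prodOp_right_comm {X : HodgeSpace A} {Y : HodgeSpace B} (h : AreIndependent X Y)
    {N : Matrix B B ℂ} (hN : N ∈ Y.comm) : prodOp (0 : Matrix A A ℂ) N ∈ (X.prod Y).comm := by
  rw [comm_eq] at hN ⊢
  unfold cm at hN
  induction hN using Submodule.span_induction with
  | mem C hC =>
    obtain ⟨P, hP, Q, hQ, rfl⟩ := hC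
    refine Submodule.subset_span ⟨prodOp 0 P, prodOp_mem_lie (h 0 (Submodule.zero_mem _) P hP),
      prodOp 0 Q, prodOp_mem_lie (h 0 (Submodule.zero_mem _) Q hQ), ?_⟩
    rw [← prodOp_br, br_zero_left]
  | zero =>
    rw [prodOp_zero]
    exact Submodule.zero_mem _
  | add M M' _ _ h h' =>
    have h3 := Submodule.add_mem _ h h'
    rw [← prodOp_add, add_zero] at h3
    exact h3
  | smul c M _ h =>
    have h3 := Submodule.smul_mem _ c h
    rw [← prodOp_smul, smul_zero] at h3
    exact h3

/-- `N ↦ (0, N)` as a linear map. -/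
noncomputable def rightMap (A : Type) [Fintype A] : Matrix B B ℂ →ₗ[ℂ] Matrix (A × B) (A × B) ℂ where
  toFun N := prodOp (0 : Matrix A A ℂ) N
  map_add' N N' := by
    rw [← prodOp_add, add_zero]
  map_smul' c N := by
    rw [RingHom.id_apply, ← prodOp_smul, smul_zero]

theorem charQ_prod_le {X : HodgeSpace A} {Y : HodgeSpace B} (hX : X.IsPerfect)
    (h : AreIndependent X Y) : (X.prod Y).charQ ≤ Y.charQ := by
  rintro f ⟨l, h1, h2⟩
  refine ⟨l.comp (rightMap A), fun N hN => h1 _ (prodOp_right_comm h hN), fun σ => ?_⟩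
  rw [h2 σ, prod_conjOp]
  have h3 : prodOp (X.conjOp σ) (Y.conjOp σ) =
      prodOp (X.conjOp σ) (0 : Matrix B B ℂ) + prodOp (0 : Matrix A A ℂ) (Y.conjOp σ) := by
    rw [← prodOp_add, add_zero, zero_add]
  rw [h3, map_add, h1 _ (prodOp_left_comm hX h (conjOp_mem X σ)), zero_add]
  rfl

/-- **The characters of the product of `Y` with an independent factor with a perfect Lie algebra are
characters of `Y`.** -/
theorem charSpace_prod_le {X : HodgeSpace A} {Y : HodgeSpace B} (hX : X.IsPerfect)
    (h : AreIndependent X Y) : (X.prod Y).charSpace ≤ Y.charSpace :=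
  Submodule.map_mono (charQ_prod_le hX h)

end

theorem forAllOutside_mono {V V' : Submodule ℚ ((ℂ ≃+* ℂ) → ℝ)} (h : V ≤ V')
    {P : ∀ (A : Type) [Fintype A], HodgeSpace A → Prop} (hP : ForAllOutside V P) :
    ForAllOutside V' P := by
  intro J _ L _ _ _ x hx hcomb A _ X hX hgen
  exact hP J L x hx (fun j v hv hc => hcomb j v ⟨hv.1, fun φ => h (hv.2 φ)⟩ hc) A X hX hgen

end Pool.Agent.H855.HG
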