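import Mathlib
import Pool.Agent.H855.HG.GoursatCM

/-!
# The exceptional factors of a Hodge structure in an arbitrary family
-/

set_option autoImplicit false
set_option linter.unusedSectionVars false

namespace Pool.Agent.H855.HG

open Matrix Module NumberField Pool.Agent.Y137.MV Pool.Agent.H855.CM Pool.Agent.H855.DP

section

variable {A B : Type} [Fintype A] [Fintype B]

/-- A Hodge structure which is independent of itself has Lie algebra zero. -/
theorem eq_zero_of_self {X : HodgeSpace A} (h : AreIndependent X X) {M : Matrix A A ℂ}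
    (hM : M ∈ X.lie) : M = 0 := by
  let R : Submodule ℂ (Matrix A A ℂ × Matrix A A ℂ) :=
    { carrier := {P | P.1 = P.2}
      zero_mem' := rfl
      add_mem' := by
        intro P Q hP hQ
        rw [Set.mem_ofPred_eq] at hP hQ ⊢
        rw [Prod.fst_add, Prod.snd_add, hP, hQ]
      smul_mem' := by
        intro c P hP
        rw [Set.mem_ofPred_eq] at hP ⊢
        rw [Prod.smul_fst, Prod.smul_snd, hP] }
  have hle : pairLie X X ≤ R := by
    refine pairLie_le (fun σ => rfl) ?_
    intro M M' P P' h1 h2
    have h1' : M = M' := h1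
    have h2' : P = P' := h2
    rw [h1', h2']
    rfl
  exact hle (h M hM 0 (Submodule.zero_mem _))

theorem independent_of_lie_zero {X : HodgeSpace A} (Y : HodgeSpace B)
    (h : ∀ M ∈ X.lie, M = 0) : AreIndependent X Y := by
  intro M hM N hN
  rw [h M hM]
  have h1 : Y.lie ≤ idl X Y := by
    refine lie_le (fun σ => ?_) fun M hM N hN => ?_
    · have h2 := pair_mem X Y σ
      rw [h _ (conjOp_mem X σ)] at h2
      exact h2
    · have h2 := pair_br (mem_idl.1 hM) (mem_idl.1 hN)
      rw [br_zero_left] at h2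
      exact h2
  exact h1 hN

end

variable {B : Type} [Fintype B]

/-- **A maximal set of pairwise independent members which are not independent of `Y`.** -/
theorem exists_maximal (Y : HodgeSpace B) {I : Type} (A : I → Type) [∀ i, Fintype (A i)]
    (X : ∀ i, HodgeSpace (A i)) (hX : ∀ i, (X i).IsPerfect) :
    ∃ E : Finset I, 3 * E.card ≤ finrank ℂ Y.comm ∧ (∀ e ∈ E, ¬ AreIndependent (X e) Y) ∧
      (∀ e ∈ E, ∀ k ∈ E, e ≠ k → AreIndependent (X e) (X k)) ∧
      ∀ i, (∀ e ∈ E, AreIndependent (X i) (X e)) → AreIndependent (X i) Y := by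
  classical
  have hbound : ∀ E : Finset I, (∀ e ∈ E, ¬ AreIndependent (X e) Y) →
      (∀ e ∈ E, ∀ k ∈ E, e ≠ k → AreIndependent (X e) (X k)) →
      3 * E.card ≤ finrank ℂ Y.comm := by
    intro E h1 h2
    rw [comm_eq, ← Finset.card_attach]
    exact card_le (g := Y.lie) (fun i : E => idl (X i) Y) (fun M hM N hN => lie_br Y hM hN)
      (fun i => idl_isIdl (X i) Y) (fun i => lie_le_comm_sup Y (hX i))
      (fun i k hik => lie_le_sup_idl Y (h2 i i.2 k k.2 fun h => hik (Subtype.ext h))) E.attach
      (fun i _ h => h1 i i.2 (independent_of_zero h))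
  by_contra hneg
  have hstep : ∀ n : ℕ, ∃ E : Finset I, E.card = n ∧ (∀ e ∈ E, ¬ AreIndependent (X e) Y) ∧
      ∀ e ∈ E, ∀ k ∈ E, e ≠ k → AreIndependent (X e) (X k) := by
    intro n
    induction n with
    | zero =>
      exact ⟨∅, Finset.card_empty, fun e he => absurd he (Finset.notMem_empty e),
        fun e he => absurd he (Finset.notMem_empty e)⟩
    | succ n ih =>
      obtain ⟨E, hn, h1, h2⟩ := ih
      have h3 : ∃ i, (∀ e ∈ E, AreIndependent (X i) (X e)) ∧ ¬ AreIndependent (X i) Y := by
        by_contra h4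
        refine hneg ⟨E, hbound E h1 h2, h1, h2, fun i hi => ?_⟩
        by_contra h5
        exact h4 ⟨i, hi, h5⟩
      obtain ⟨i, hi1, hi2⟩ := h3
      have hiE : i ∉ E := fun h => hi2
        (independent_of_lie_zero Y fun M hM => eq_zero_of_self (hi1 i h) hM)
      refine ⟨insert i E, by rw [Finset.card_insert_of_notMem hiE, hn], ?_, ?_⟩
      · intro e he
        rcases Finset.mem_insert.1 he with h | h
        · rw [h]
          exact hi2
        · exact h1 e h
      · intro e he k hk hek
        rcases Finset.mem_insert.1 he with h | h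
        · rcases Finset.mem_insert.1 hk with h' | h'
          · exact absurd (h.trans h'.symm) hek
          · rw [h]
            exact hi1 k h'
        · rcases Finset.mem_insert.1 hk with h' | h'
          · rw [h']
            exact (hi1 e h).symm
          · exact h2 e h k h' hek
  obtain ⟨E, hn, h1, h2⟩ := hstep (finrank ℂ Y.comm + 1)
  have h3 := hbound E h1 h2
  omega

section

variable {I : Type} {A : I → Type} [∀ i, Fintype (A i)] {X : ∀ i, HodgeSpace (A i)}

theorem prodOver_pairwise (hX : ∀ i, (X i).IsPerfect) (l : List I)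
    (hl : l.Pairwise fun i k => AreIndependent (X i) (X k)) :
    (prodOver X l).IsPerfect ∧ ∀ {B : Type} [Fintype B] (Z : HodgeSpace B),
      (∀ i ∈ l, AreIndependent (X i) Z) → AreIndependent (prodOver X l) Z := by
  induction l with
  | nil => exact ⟨point_perfect, fun Z _ => point_independent Z⟩
  | cons i l ih =>
    obtain ⟨h1, h2⟩ := List.pairwise_cons.1 hl
    obtain ⟨h3, h4⟩ := ih h2
    have h5 : AreIndependent (X i) (prodOver X l) := (h4 (X i) fun k hk => (h1 k hk).symm).symm
    exact ⟨perfect_prod (hX i) h3 h5, fun Z hZ => independent_prod (hX i) h3 h5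
      (hZ i List.mem_cons_self) (h4 Z fun k hk => hZ k (List.mem_cons_of_mem _ hk))⟩

end

theorem fewExceptional {B : Type} [Fintype B] (Y : HodgeSpace B) {I : Type} (A : I → Type)
    [∀ i, Fintype (A i)] (X : ∀ i, HodgeSpace (A i)) (hX : ∀ i, (X i).IsPerfect) :
    ∃ E : Finset I, 3 * E.card ≤ finrank ℂ Y.comm ∧ (∀ e ∈ E, ¬ AreIndependent (X e) Y) ∧
      (∀ e ∈ E, ∀ k ∈ E, e ≠ k → AreIndependent (X e) (X k)) ∧
      ∀ l : List I, (l.Pairwise fun i k => AreIndependent (X i) (X k)) →
        (∀ i ∈ l, ∀ e ∈ E, AreIndependent (X i) (X e)) →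
        AreIndependent (prodOver X l) Y ∧
        (HodgeOnAllPowers (prodOver X l) Y ∧ AbsoluteOnAllPowers (prodOver X l) Y) ∧
        ForAllOutside Y.charSpace (fun _ _ Z => HodgeOnAllPowers Z ((prodOver X l).prod Y) ∧
          AbsoluteOnAllPowers Z ((prodOver X l).prod Y)) := by
  obtain ⟨E, h1, h2, h3, h4⟩ := exists_maximal Y A X hX
  refine ⟨E, h1, h2, h3, fun l hl hE => ?_⟩
  obtain ⟨h5, h6⟩ := prodOver_pairwise hX l hl
  have h7 : AreIndependent (prodOver X l) Y := h6 Y fun i hi => h4 i (hE i hi)
  exact ⟨h7, ⟨hodgeOnAllPowers_of_independent h7, absoluteOnAllPowers_of_independent h7⟩,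
    forAllOutside_mono (charSpace_prod_le h5 h7) (forAllOutside ((prodOver X l).prod Y))⟩

end Pool.Agent.H855.HG
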