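import Mathlib
import Pool.Agent.H855.HG.GalDefs

/-!
# The conjecture of Tate for products over number fields: definitions
-/

set_option autoImplicit false

namespace Pool.Agent.H855.HG

open Matrix Module NumberField

section

variable {Γ : Type} [Group Γ] {R : Type} [Field R] [Algebra ℚ R] {B B' : Type} [Fintype B]
  [Fintype B']

/-- The contraction of the class `w` on `X × Y` with the class `x` on `X`: the push-forward to `Y` of the
product of `w` with the pull-back of `x`. Here `G` is the matrix of the intersection form of `X`. -/
def contractG (G : Matrix B' B' R) (x : B' → R) (w : B' × B → R) : B → R :=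
  fun b => x ⬝ᵥ (G *ᵥ fun a => w (a, b))

/-- Algebraic classes on `X`, `Y` and `X × Y`: the `ℚ_ℓ`-linear combinations of the classes of algebraic
cycles, and the intersection form of `X`. -/
structure CyclesTimes (cyc : Γ →* Rˣ) (X : GaloisSpace Γ R B') (Y : GaloisSpace Γ R B) where
  /-- the dimension of `X` -/
  n : ℕ
  /-- the matrix of the intersection form of `X` -/
  pair : Matrix B' B' R
  /-- the degrees -/
  pair_deg : ∀ a a', X.deg a + X.deg a' ≠ 2 * n → pair a a' = 0
  /-- Poincaré duality -/
  pair_nondegenerate : ∀ x, pair *ᵥ x = 0 → x = 0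
  /-- the Galois group acts on `H^(2 n)(X)` through the inverse of the `n`-th power of the cyclotomic
  character -/
  pair_equivariant : ∀ g, ((cyc g : R) ^ n) • ((X.rho g)ᵀ * pair * X.rho g) = pair
  /-- the combinations of algebraic classes on `X`, by codimension -/
  algX : ℕ → Submodule R (B' → R)
  /-- the combinations of algebraic classes on `Y` -/
  algY : ℕ → Submodule R (B → R)
  /-- the combinations of algebraic classes on `X × Y` -/
  algP : ℕ → Submodule R (B' × B → R)
  /-- algebraic classes are Tate classes -/
  algX_le : ∀ i, algX i ≤ X.tate cyc i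
  algY_le : ∀ k, algY k ≤ Y.tate cyc k
  algP_le : ∀ j, algP j ≤ (X.prod Y).tate cyc j
  /-- products of algebraic classes are algebraic -/
  cross_mem : ∀ i k, ∀ x ∈ algX i, ∀ y ∈ algY k, cross x y ∈ algP (i + k)
  /-- contractions with algebraic classes on `X` are algebraic -/
  contract_mem : ∀ i j k, i + j = n + k → ∀ x ∈ algX i, ∀ w ∈ algP j,
    contractG pair x w ∈ algY k

/-- **The conjecture of Tate for the product `X × Y`** (for `X` of CM type).

1. The Tate classes of codimension `j` on `X × Y` are exactly the sums of products of Tate classes on `X`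
   and on `Y`.

Let the conjecture of Tate be true for `X` in all codimensions.

2. The algebraic classes (with coefficients in `ℚ_ℓ`) of codimension `j` on `X × Y` are exactly the sums
   of products of Tate classes of codimension `i` on `X` and algebraic classes of codimension `j - i` on
   `Y`.
3. The conjecture of Tate is true in codimension `j` for `X × Y` if and only if it is true for `Y` in all
   codimensions `j - i` such that there is a nonzero Tate class of codimension `i` on `X`.
4. The conjecture of Tate is true in all codimensions for `X × Y` if and only if it is true in all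
   codimensions for `Y`. -/
def TateConjectureOnProducts (cyc : Γ →* Rˣ) (X : GaloisSpace Γ R B') (Y : GaloisSpace Γ R B) :
    Prop :=
  (∀ j, (X.prod Y).tate cyc j = Submodule.span R {z | ∃ i k, i + k = j ∧
    ∃ x ∈ X.tate cyc i, ∃ y ∈ Y.tate cyc k, z = cross x y}) ∧
  ∀ C : CyclesTimes cyc X Y, (∀ i, X.tate cyc i ≤ C.algX i) →
    (∀ j, C.algP j = Submodule.span R {z | ∃ i k, i + k = j ∧
      ∃ x ∈ X.tate cyc i, ∃ y ∈ C.algY k, z = cross x y}) ∧
    (∀ j, (X.prod Y).tate cyc j ≤ C.algP j ↔
      ∀ i k, i + k = j → X.tate cyc i ≠ ⊥ → Y.tate cyc k ≤ C.algY k) ∧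
    ((∀ j, (X.prod Y).tate cyc j ≤ C.algP j) ↔ ∀ k, Y.tate cyc k ≤ C.algY k)

end

end Pool.Agent.H855.HG
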