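import Mathlib
import Pool.Agent.H855.HG.GalDefs

/-!
# The conjecture of Mumford and Tate for products: definitions
-/

set_option autoImplicit false

namespace Pool.Agent.H855.HG

open Matrix Module NumberField

section

variable {Γ : Type} [Group Γ] {R : Type} [Field R] [Algebra ℚ R] {B B' : Type} [Fintype B]
  [Fintype B']

/-- The Hodge classes on the product `X × Y` (for `X` of CM type).

1. The Hodge classes of codimension `j` on `X × Y` are the sums of products of Hodge classes on `X`
   and on `Y`.
2. All Hodge classes of codimension `j` on `X × Y` are Tate classes if and only if this holds on `Y` in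
   all codimensions `k = j - i` such that there is a nonzero Hodge class of codimension `i` on `X`.
3. All Hodge classes on `X × Y` are Tate classes if and only if this holds on `Y`. -/
def HodgeOnProducts (cyc : Γ →* Rˣ) (X : GaloisSpace Γ R B') (Y : GaloisSpace Γ R B) : Prop :=
  (∀ j, (X.prod Y).toHodgeSpace.hodgeIn j = Submodule.span ℚ {z | ∃ i k, i + k = j ∧
    ∃ x ∈ X.toHodgeSpace.hodgeIn i, ∃ y ∈ Y.toHodgeSpace.hodgeIn k, z = cross x y}) ∧
  (∀ j, (X.prod Y).HodgeIsTate cyc j ↔
    ∀ i k, i + k = j → X.toHodgeSpace.hodgeIn i ≠ ⊥ → Y.HodgeIsTate cyc k) ∧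
  ((∀ j, (X.prod Y).HodgeIsTate cyc j) ↔ ∀ j, Y.HodgeIsTate cyc j)

/-- The Tate classes on the product `X × Y` (for `X` of CM type).

1. The Tate classes of codimension `j` on `X × Y` are the sums of products of Hodge classes on `X`
   and Tate classes on `Y`.
2. All Tate classes of codimension `j` on `X × Y` are combinations of Hodge classes if and only if this
   holds on `Y` in all codimensions `k = j - i` such that there is a nonzero Hodge class of codimension
   `i` on `X`.
3. All Tate classes on `X × Y` are combinations of Hodge classes if and only if this holds on `Y`. -/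
def TateOnProducts (cyc : Γ →* Rˣ) (X : GaloisSpace Γ R B') (Y : GaloisSpace Γ R B) : Prop :=
  (∀ j, (X.prod Y).tate cyc j = Submodule.span R {z | ∃ i k, i + k = j ∧
    ∃ x ∈ X.toHodgeSpace.hodgeIn i, ∃ y ∈ Y.tate cyc k, z = cross (rv R x) y}) ∧
  (∀ j, (X.prod Y).TateIsHodge cyc j ↔
    ∀ i k, i + k = j → X.toHodgeSpace.hodgeIn i ≠ ⊥ → Y.TateIsHodge cyc k) ∧
  ((∀ j, (X.prod Y).TateIsHodge cyc j) ↔ ∀ j, Y.TateIsHodge cyc j)

/-- **The conjecture of Mumford and Tate for the product `X × Y`** (for `X` of CM type).

1. The spaces generated by the Hodge classes and by the Tate classes of codimension `j` on `X × Y` are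
   equal if and only if this holds on `Y` in all codimensions `k = j - i` such that there is a nonzero
   Hodge class of codimension `i` on `X`.
2. They are equal in all codimensions on `X × Y` if and only if they are equal on `Y`. -/
def MumfordTateOnProducts (cyc : Γ →* Rˣ) (X : GaloisSpace Γ R B') (Y : GaloisSpace Γ R B) :
    Prop :=
  (∀ j, (X.prod Y).hodgeR j = (X.prod Y).tate cyc j ↔
    ∀ i k, i + k = j → X.toHodgeSpace.hodgeIn i ≠ ⊥ → Y.hodgeR k = Y.tate cyc k) ∧
  ((∀ j, (X.prod Y).hodgeR j = (X.prod Y).tate cyc j) ↔ ∀ j, Y.hodgeR j = Y.tate cyc j)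

end

end Pool.Agent.H855.HG
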