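import Mathlib
import Pool.Agent.H855.HG.GalVec
import Pool.Agent.H855.HG.MTDefs

/-!
# The conjecture of Mumford and Tate for products
-/

set_option autoImplicit false
set_option linter.unusedSectionVars false
set_option linter.unusedVariables false

namespace Pool.Agent.H855.HG

open Matrix Module NumberField

variable {Γ : Type} [Group Γ] {R : Type} [Field R] [Algebra ℚ R] {B B' : Type} [Fintype B]
  [Fintype B'] {cyc : Γ →* Rˣ} {X : GaloisSpace Γ R B'} {Y : GaloisSpace Γ R B}

/-- The product, linear in the second variable. -/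
theorem cross_hodgeR {i k : ℕ} {x : B' → ℚ} {y : B → R} (hx : x ∈ X.toHodgeSpace.hodgeIn i)
    (hy : y ∈ Y.hodgeR k) : cross (rv R x) y ∈ (X.prod Y).hodgeR (i + k) := by
  unfold GaloisSpace.hodgeR at hy
  induction hy using Submodule.span_induction with
  | mem y hy =>
    obtain ⟨y', hy', rfl⟩ := hy
    refine Submodule.subset_span ⟨cross x y', cross_hodge hx hy', ?_⟩
    rw [rv_cross]
  | zero =>
    rw [show cross (rv R x) (0 : B → R) = 0 from (crossL R B B' (rv R x)).map_zero]
    exact Submodule.zero_mem _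
  | add y z _ _ hy hz =>
    rw [show cross (rv R x) (y + z) = cross (rv R x) y + cross (rv R x) z from
      (crossL R B B' (rv R x)).map_add y z]
    exact Submodule.add_mem _ hy hz
  | smul c y _ hy =>
    rw [show cross (rv R x) (c • y) = c • cross (rv R x) y from
      (crossL R B B' (rv R x)).map_smul c y]
    exact Submodule.smul_mem _ _ hy

theorem cross_tate {i k : ℕ} {x : B' → R} {y : B → R} (hx : x ∈ X.tate cyc i)
    (hy : y ∈ Y.tate cyc k) : cross x y ∈ (X.prod Y).tate cyc (i + k) := by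
  refine ⟨fun p hp => ?_, (hx.2.and hy.2).mono fun g hg => ?_⟩
  · change x p.1 * y p.2 = 0
    by_cases ha : X.deg p.1 = 2 * i
    · rw [hy.1 p.2 (fun h' => hp (by
        change X.deg p.1 + Y.deg p.2 = 2 * (i + k)
        omega)), mul_zero]
    · rw [hx.1 p.1 ha, zero_mul]
  · change _ • (Matrix.kroneckerMap (· * ·) (X.rho g) (Y.rho g) *ᵥ cross x y) = _
    rw [kron_crossR]
    conv_rhs => rw [← hg.1, ← hg.2]
    funext p
    simp only [cross, Pi.smul_apply, smul_eq_mul]
    ring

theorem hodge_cancel {i k : ℕ} {x : B' → ℚ} {y : B → R} (hx : x ∈ X.toHodgeSpace.hodgeIn i)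
    (hx0 : x ≠ 0) (h : cross (rv R x) y ∈ (X.prod Y).hodgeR (i + k)) : y ∈ Y.hodgeR k := by
  refine mem_span_rv fun f => ?_
  have h1 := coeff_mem h f
  have h2 : (fun p : B' × B => f (cross (rv R x) y p)) = cross x (fun b => f (y b)) := by
    funext p
    change f (algebraMap ℚ R (x p.1) * y p.2) = x p.1 * f (y p.2)
    rw [← Algebra.smul_def, map_smul, smul_eq_mul]
  rw [h2] at h1
  exact hodge_right hx hx0 h1

theorem tate_cancel {i k : ℕ} {x : B' → R} {y : B → R} (hx : x ∈ X.tate cyc i)
    (hx0 : x ≠ 0) (h : cross x y ∈ (X.prod Y).tate cyc (i + k)) : y ∈ Y.tate cyc k := by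
  obtain ⟨a, ha⟩ := Function.ne_iff.1 hx0
  have ha' : x a ≠ 0 := ha
  have had : X.deg a = 2 * i := by
    by_contra hne
    exact ha (hx.1 a hne)
  refine ⟨fun b hb => ?_, (hx.2.and h.2).mono fun g hg => ?_⟩
  · have h3 : x a * y b = 0 := h.1 (a, b) (by
      change X.deg a + Y.deg b ≠ 2 * (i + k)
      omega)
    exact (mul_eq_zero.1 h3).resolve_left ha'
  · obtain ⟨h1, h2⟩ := hg
    have h3 : ((cyc g : R) ^ (i + k)) •
        (Matrix.kroneckerMap (· * ·) (X.rho g) (Y.rho g) *ᵥ cross x y) = cross x y := h2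
    rw [kron_crossR] at h3
    funext b
    have h4 := congrFun h3 (a, b)
    have h5 := congrFun h1 a
    simp only [cross, Pi.smul_apply, smul_eq_mul] at h4 h5 ⊢
    refine mul_left_cancel₀ ha' ?_
    rw [← h4]
    nth_rewrite 1 [← h5]
    ring

theorem rv_ne {x : B' → ℚ} (hx : x ≠ 0) : rv R x ≠ 0 := fun h =>
  hx (rv_injective (h.trans rv_zero.symm))

theorem one_ne_bot (X : GaloisSpace Γ R B') : X.toHodgeSpace.hodgeIn 0 ≠ ⊥ :=
  (Submodule.ne_bot_iff _).2 ⟨X.one, X.one_mem, X.one_ne⟩

theorem rv_mem_tate {ι : R →+* ℂ} (A : HeckeCharacters Γ ι cyc) (hX : X.HasCM A) {i : ℕ}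
    {x : B' → ℚ} (hx : x ∈ X.toHodgeSpace.hodgeIn i) : rv R x ∈ X.tate cyc i := by
  rw [← hodgeR_eq_tate A hX i]
  exact Submodule.subset_span ⟨x, hx, rfl⟩

theorem hodgeIsTate_cancel {ι : R →+* ℂ} (A : HeckeCharacters Γ ι cyc) (hX : X.HasCM A) {j : ℕ}
    (h : (X.prod Y).HodgeIsTate cyc j) {i k : ℕ} (hik : i + k = j)
    (hi : X.toHodgeSpace.hodgeIn i ≠ ⊥) : Y.HodgeIsTate cyc k := by
  obtain ⟨x, hx, hx0⟩ := (Submodule.ne_bot_iff _).1 hi
  refine Submodule.span_le.2 ?_
  rintro _ ⟨y, hy, rfl⟩
  subst hik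
  have h1 : cross (rv R x) (rv R y) ∈ (X.prod Y).tate cyc (i + k) := by
    refine h (Submodule.subset_span ⟨cross x y, cross_hodge hx hy, ?_⟩)
    rw [rv_cross]
  exact tate_cancel (rv_mem_tate A hX hx) (rv_ne hx0) h1

theorem tateIsHodge_cancel {ι : R →+* ℂ} (A : HeckeCharacters Γ ι cyc) (hX : X.HasCM A) {j : ℕ}
    (h : (X.prod Y).TateIsHodge cyc j) {i k : ℕ} (hik : i + k = j)
    (hi : X.toHodgeSpace.hodgeIn i ≠ ⊥) : Y.TateIsHodge cyc k := by
  obtain ⟨x, hx, hx0⟩ := (Submodule.ne_bot_iff _).1 hi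
  intro y hy
  subst hik
  exact hodge_cancel hx hx0 (h (cross_tate (rv_mem_tate A hX hx) hy))

theorem hodgeIn_prod_eq (h : IsHodgeOfProducts X.toHodgeSpace Y.toHodgeSpace) (j : ℕ) :
    (X.prod Y).toHodgeSpace.hodgeIn j = Submodule.span ℚ {z | ∃ i k, i + k = j ∧
      ∃ x ∈ X.toHodgeSpace.hodgeIn i, ∃ y ∈ Y.toHodgeSpace.hodgeIn k, z = cross x y} := by
  refine le_antisymm (h j) (Submodule.span_le.2 ?_)
  rintro _ ⟨i, k, rfl, x, hx, y, hy, rfl⟩
  exact cross_hodge hx hy

theorem hodgeIsTate_iff {ι : R →+* ℂ} (A : HeckeCharacters Γ ι cyc) (hX : X.HasCM A)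
    (h : IsHodgeOfProducts X.toHodgeSpace Y.toHodgeSpace) (j : ℕ) :
    (X.prod Y).HodgeIsTate cyc j ↔
      ∀ i k, i + k = j → X.toHodgeSpace.hodgeIn i ≠ ⊥ → Y.HodgeIsTate cyc k := by
  constructor
  · intro h1 i k hik hi
    exact hodgeIsTate_cancel A hX h1 hik hi
  · intro h1
    refine Submodule.span_le.2 ?_
    rintro _ ⟨z, hz, rfl⟩
    have hz' := h j hz
    change rv R z ∈ (X.prod Y).tate cyc j
    clear hz
    induction hz' using Submodule.span_induction with
    | mem z hz =>
      obtain ⟨i, k, hik, x, hx, y, hy, rfl⟩ := hz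
      subst hik
      rw [rv_cross]
      by_cases hi : X.toHodgeSpace.hodgeIn i = ⊥
      · rw [hi, Submodule.mem_bot] at hx
        rw [hx, rv_zero]
        have h2 : cross (0 : B' → R) (rv R y) = 0 := by
          funext p
          exact zero_mul _
        rw [h2]
        exact Submodule.zero_mem _
      · exact cross_tate (rv_mem_tate A hX hx) (h1 i k rfl hi (Submodule.subset_span ⟨y, hy, rfl⟩))
    | zero =>
      rw [rv_zero]
      exact Submodule.zero_mem _
    | add y z _ _ hy hz =>
      have h2 : rv R (y + z) = rv R y + rv R z := by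
        funext b
        exact map_add _ _ _
      rw [h2]
      exact Submodule.add_mem _ hy hz
    | smul c y _ hy =>
      have h2 : rv R (c • y) = (algebraMap ℚ R c) • rv R y := by
        funext b
        exact map_mul _ _ _
      rw [h2]
      exact Submodule.smul_mem _ _ hy

/-- **Hodge classes on products.** -/
theorem hodgeOnProducts {ι : R →+* ℂ} (A : HeckeCharacters Γ ι cyc) (hX : X.HasCM A)
    (h : IsHodgeOfProducts X.toHodgeSpace Y.toHodgeSpace) : HodgeOnProducts cyc X Y := by
  refine ⟨hodgeIn_prod_eq h, hodgeIsTate_iff A hX h, ?_⟩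
  constructor
  · intro h1 j
    exact (hodgeIsTate_iff A hX h j).1 (h1 j) 0 j (zero_add j) (one_ne_bot X)
  · intro h1 j
    exact (hodgeIsTate_iff A hX h j).2 fun i k _ _ => h1 k

theorem tateIsHodge_iff {ι : R →+* ℂ} (A : HeckeCharacters Γ ι cyc) (hX : X.HasCM A)
    (h : IsTateOfProducts cyc X Y) (j : ℕ) :
    (X.prod Y).TateIsHodge cyc j ↔
      ∀ i k, i + k = j → X.toHodgeSpace.hodgeIn i ≠ ⊥ → Y.TateIsHodge cyc k := by
  constructor
  · intro h1 i k hik hi
    exact tateIsHodge_cancel A hX h1 hik hi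
  · intro h1
    refine (h j).trans (Submodule.span_le.2 ?_)
    rintro _ ⟨i, k, hik, x, hx, y, hy, rfl⟩
    subst hik
    rw [← hodgeR_eq_tate A hX i] at hx
    change cross x y ∈ (X.prod Y).hodgeR (i + k)
    by_cases hi : X.toHodgeSpace.hodgeIn i = ⊥
    · have h2 : x = 0 := by
        have h3 : X.hodgeR i = ⊥ := by
          rw [eq_bot_iff]
          refine Submodule.span_le.2 ?_
          rintro _ ⟨x', hx', rfl⟩
          rw [hi, Submodule.mem_bot] at hx'
          rw [hx', rv_zero]
          exact Submodule.zero_mem _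
        rw [h3, Submodule.mem_bot] at hx
        exact hx
      have h3 : cross x y = 0 := by
        funext p
        rw [h2]
        exact zero_mul _
      rw [h3]
      exact Submodule.zero_mem _
    · have hy' := h1 i k rfl hi hy
      unfold GaloisSpace.hodgeR at hx
      induction hx using Submodule.span_induction with
      | mem x hx =>
        obtain ⟨x', hx', rfl⟩ := hx
        exact cross_hodgeR hx' hy'
      | zero =>
        have h3 : cross (0 : B' → R) y = 0 := by
          funext p
          exact zero_mul _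
        rw [h3]
        exact Submodule.zero_mem _
      | add u v _ _ hu hv =>
        have h3 : cross (u + v) y = cross u y + cross v y := by
          funext p
          exact add_mul _ _ _
        rw [h3]
        exact Submodule.add_mem _ hu hv
      | smul c u _ hu =>
        have h3 : cross (c • u) y = c • cross u y := by
          funext p
          exact mul_assoc _ _ _
        rw [h3]
        exact Submodule.smul_mem _ _ hu

/-- **Tate classes on products.** -/
theorem tateOnProducts {ι : R →+* ℂ} (A : HeckeCharacters Γ ι cyc) (hX : X.HasCM A)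
    (h : IsTateOfProducts cyc X Y) : TateOnProducts cyc X Y := by
  refine ⟨fun j => ?_, tateIsHodge_iff A hX h, ?_⟩
  · apply le_antisymm
    · refine (h j).trans (Submodule.span_le.2 ?_)
      rintro _ ⟨i, k, hik, x, hx, y, hy, rfl⟩
      rw [← hodgeR_eq_tate A hX i] at hx
      unfold GaloisSpace.hodgeR at hx
      induction hx using Submodule.span_induction with
      | mem x hx =>
        obtain ⟨x', hx', rfl⟩ := hx
        exact Submodule.subset_span ⟨i, k, hik, x', hx', y, hy, rfl⟩
      | zero =>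
        have h3 : cross (0 : B' → R) y = 0 := by
          funext p
          exact zero_mul _
        rw [h3]
        exact Submodule.zero_mem _
      | add u v _ _ hu hv =>
        have h3 : cross (u + v) y = cross u y + cross v y := by
          funext p
          exact add_mul _ _ _
        rw [h3]
        exact Submodule.add_mem _ hu hv
      | smul c u _ hu =>
        have h3 : cross (c • u) y = c • cross u y := by
          funext p
          exact mul_assoc _ _ _
        rw [h3]
        exact Submodule.smul_mem _ _ hu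
    · refine Submodule.span_le.2 ?_
      rintro _ ⟨i, k, rfl, x, hx, y, hy, rfl⟩
      exact cross_tate (rv_mem_tate A hX hx) hy
  · constructor
    · intro h1 j
      exact (tateIsHodge_iff A hX h j).1 (h1 j) 0 j (zero_add j) (one_ne_bot X)
    · intro h1 j
      exact (tateIsHodge_iff A hX h j).2 fun i k _ _ => h1 k

/-- **The conjecture of Mumford and Tate on products.** -/
theorem mumfordTateOnProducts (h : HodgeOnProducts cyc X Y) (h' : TateOnProducts cyc X Y) :
    MumfordTateOnProducts cyc X Y := by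
  have key : ∀ j, (X.prod Y).hodgeR j = (X.prod Y).tate cyc j ↔
      ∀ i k, i + k = j → X.toHodgeSpace.hodgeIn i ≠ ⊥ → Y.hodgeR k = Y.tate cyc k := by
    intro j
    constructor
    · intro h1 i k hik hi
      exact le_antisymm ((h.2.1 j).1 h1.le i k hik hi) ((h'.2.1 j).1 h1.ge i k hik hi)
    · intro h1
      exact le_antisymm ((h.2.1 j).2 fun i k hik hi => (h1 i k hik hi).le)
        ((h'.2.1 j).2 fun i k hik hi => (h1 i k hik hi).ge)
  refine ⟨key, fun h1 j => ?_, fun h1 j => ?_⟩
  · exact (key j).1 (h1 j) 0 j (zero_add j) (one_ne_bot X)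
  · exact (key j).2 fun i k _ _ => h1 k

/-- **The main theorem on products with varieties of CM type.** -/
theorem exists_vectors_mt {I : Type} (K : I → Type) [∀ i, Field (K i)] [∀ i, NumberField (K i)]
    [∀ i, IsCMField (K i)] (w : I → ℕ) (hw : ∀ i, Pool.Agent.H855.CM.IsWeight (K i) (w i))
    {ι : R →+* ℂ} (A : HeckeCharacters Γ ι cyc) (Y : GaloisSpace Γ R B) :
    ∃ E E' : Finset (Σ i, ((K i →+* ℂ) → ℝ)),
      IsSmallFor w Y.toHodgeSpace E ∧ IsSmallForGalois A Y E' ∧
      ForAllWithCM A K E (fun _ _ X => HodgeOnProducts cyc X Y) ∧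
      ForAllWithCM A K E' (fun _ _ X => TateOnProducts cyc X Y) ∧
      ∀ E'' : Finset (Σ i, ((K i →+* ℂ) → ℝ)), E ⊆ E'' → E' ⊆ E'' →
        ForAllWithCM A K E'' (fun _ _ X => MumfordTateOnProducts cyc X Y) := by
  obtain ⟨E, hE, h⟩ := exists_vectorsB K A w hw Y
  obtain ⟨E', hE', h'⟩ := exists_vectorsG K A Y
  have h1 : ForAllWithCM A K E (fun _ _ X => HodgeOnProducts cyc X Y) :=
    h _ fun C _ X hX hp => hodgeOnProducts A hX hp
  have h2 : ForAllWithCM A K E' (fun _ _ X => TateOnProducts cyc X Y) :=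
    h' _ fun C _ X hX hp => tateOnProducts A hX hp
  refine ⟨E, E', hE, hE', h1, h2, fun E'' hs hs' J _ b x hx hcomb C _ X hX hgen => ?_⟩
  exact mumfordTateOnProducts
    (h1 J b x hx (fun e he => hcomb e (hs he)) C X hX hgen)
    (h2 J b x hx (fun e he => hcomb e (hs' he)) C X hX hgen)

end Pool.Agent.H855.HG
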