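import Mathlib
import Pool.Agent.H855.HG.MT
import Pool.Agent.H855.HG.TNFDefs

/-!
# The conjecture of Tate for products over number fields
-/

set_option autoImplicit false
set_option linter.unusedSectionVars false
set_option linter.unusedVariables false

namespace Pool.Agent.H855.HG

open Matrix Module NumberField

variable {Γ : Type} [Group Γ] {R : Type} [Field R] [Algebra ℚ R] {B B' : Type} [Fintype B]
  [Fintype B'] {cyc : Γ →* Rˣ} {X : GaloisSpace Γ R B'} {Y : GaloisSpace Γ R B}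

theorem contractG_cross (G : Matrix B' B' R) (x e : B' → R) (y : B → R) :
    contractG G x (cross e y) = (x ⬝ᵥ (G *ᵥ e)) • y := by
  funext b
  change x ⬝ᵥ (G *ᵥ fun a => e a * y b) = (x ⬝ᵥ (G *ᵥ e)) * y b
  have h1 : (fun a => e a * y b) = y b • e := by
    funext a
    exact mul_comm _ _
  rw [h1, Matrix.mulVec_smul, dotProduct_smul, smul_eq_mul, mul_comm]

/-- The contraction as a linear map. -/
def contractGL (G : Matrix B' B' R) (x : B' → R) : (B' × B → R) →ₗ[R] (B → R) where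
  toFun w := contractG G x w
  map_add' w w' := by
    funext b
    change x ⬝ᵥ (G *ᵥ fun a => w (a, b) + w' (a, b)) = _ + _
    have h1 : (fun a => w (a, b) + w' (a, b)) = (fun a => w (a, b)) + fun a => w' (a, b) := rfl
    rw [h1, Matrix.mulVec_add, dotProduct_add]
    rfl
  map_smul' c w := by
    funext b
    change x ⬝ᵥ (G *ᵥ fun a => c * w (a, b)) = c * _
    have h1 : (fun a => c * w (a, b)) = c • fun a => w (a, b) := rfl
    rw [h1, Matrix.mulVec_smul, dotProduct_smul]
    rfl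

theorem contractGL_apply (G : Matrix B' B' R) (x : B' → R) (w : B' × B → R) :
    contractGL G x w = contractG G x w := rfl

/-- A vector of Tate type on a variety of CM type is a combination of Hodge classes. -/
theorem mem_span_hodge {ι : R →+* ℂ} (A : HeckeCharacters Γ ι cyc) (hX : X.HasCM A) {i : ℕ}
    {u : B' → ℂ} (hu : u ∈ tateC ι cyc X i) :
    u ∈ Submodule.span ℂ {w | ∃ x ∈ X.toHodgeSpace.hodgeIn i, w = cv x} := by
  classical
  obtain ⟨κ, hκ, e, m, d, he⟩ := exists_basisG A hX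
  have hedeg : ∀ k a, X.deg a ≠ m k → e k a = 0 := fun k a h => (he k).2.2.1 a h
  let W : Submodule ℂ (B' → ℂ) :=
    { carrier := {w | (∀ b, X.deg b ≠ 2 * i → w b = 0) ∧ w ∈ typeSpace X.toHodgeSpace 0}
      zero_mem' := ⟨fun _ _ => rfl, Submodule.zero_mem _⟩
      add_mem' := fun {x y} hx hy => ⟨fun b hb => by
        rw [Pi.add_apply, hx.1 b hb, hy.1 b hb, add_zero], Submodule.add_mem _ hx.2 hy.2⟩
      smul_mem' := fun c x hx => ⟨fun b hb => by
        rw [Pi.smul_apply, hx.1 b hb, smul_zero], Submodule.smul_mem _ _ hx.2⟩ }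
  have hW : ∀ w ∈ W, ∀ σ : ℂ ≃+* ℂ, (fun b => σ (w b)) ∈ W := by
    intro w hw σ
    refine ⟨fun b hb => ?_, ?_⟩
    · change σ (w b) = 0
      rw [hw.1 b hb, map_zero]
    · exact hasTypes_trans hw.2 σ
  have hxW : u ∈ W := by
    rw [← e.sum_repr u]
    refine Submodule.sum_mem _ fun k _ => ?_
    by_cases hk : e.repr u k = 0
    · rw [hk, zero_smul]
      exact Submodule.zero_mem _
    refine Submodule.smul_mem _ _ ?_
    have hmk : m k = 2 * i := coeff_deg e hedeg hu.1 k hk
    have hchr : Near fun g => A.chr (m k) (d k) g = A.chr (2 * i) 0 g := by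
      have h1 := near_finset Finset.univ
        (fun k g => (X.rho g).map ι *ᵥ e k = A.chr (m k) (d k) g • e k)
        (fun k _ => (he k).2.2.2)
      refine ((h1.and hu.2).and (chr_tate_pow A i)).mono fun g hg => ?_
      obtain ⟨⟨h2, h3⟩, h4⟩ := hg
      have h5 : ∑ k, ((ι (cyc g : R) ^ i * A.chr (m k) (d k) g - 1) * e.repr u k) • e k = 0 := by
        have h6 : (ι (cyc g : R) ^ i) • ((X.rho g).map ι *ᵥ u) - u = 0 := by
          rw [h3, sub_self]
        rw [← h6]
        conv_rhs => rw [← e.sum_repr u]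
        rw [Matrix.mulVec_sum, Finset.smul_sum, ← Finset.sum_sub_distrib]
        refine Finset.sum_congr rfl fun k _ => ?_
        rw [Matrix.mulVec_smul, h2 k (Finset.mem_univ _), smul_smul, smul_smul, ← sub_smul]
        congr 1
        ring
      have h6 := Fintype.linearIndependent_iff.1 e.linearIndependent _ h5 k
      have h7 := (mul_eq_zero.1 h6).resolve_right hk
      have h8 : ι (cyc g : R) ^ i * (ι ((cyc g)⁻¹ : Rˣ)) ^ i = 1 := by
        rw [← mul_pow, ← map_mul, Units.mul_inv, map_one, one_pow]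
      have h9 : ι (cyc g : R) ^ i ≠ 0 := fun h0 => by
        rw [h0, zero_mul] at h8
        exact zero_ne_one h8
      rw [h4]
      refine mul_left_cancel₀ h9 ?_
      rw [h8]
      exact sub_eq_zero.1 h7
    obtain ⟨-, hdk⟩ := A.chr_injective (he k).1 (isType_tate_pow A i) hchr
    refine ⟨fun b hb => hedeg k b (by rw [hmk]; exact hb), ?_⟩
    rw [← hdk]
    exact (he k).2.1
  refine Submodule.span_mono ?_ (descent W hW hxW)
  rintro _ ⟨x', rfl, hx'W⟩
  refine ⟨x', ⟨?_, fun b hb => ?_⟩, rfl⟩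
  · have h2 := hx'W.2 (RingEquiv.refl ℂ)
    rw [cv_conj, Pi.zero_apply, Int.cast_zero, zero_smul] at h2
    exact h2
  · have h2 : ((x' b : ℚ) : ℂ) = 0 := hx'W.1 b hb
    exact_mod_cast h2

/-- **Duality of the Tate classes** on a variety of CM type. -/
theorem exists_dual_tate {ι : R →+* ℂ} (A : HeckeCharacters Γ ι cyc) (hX : X.HasCM A)
    (C : CyclesTimes cyc X Y) {i : ℕ} {x : B' → R} (hx : x ∈ X.tate cyc i) (hx0 : x ≠ 0) :
    i ≤ C.n ∧ ∃ z ∈ X.tate cyc (C.n - i), z ⬝ᵥ (C.pair *ᵥ x) ≠ 0 := by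
  classical
  obtain ⟨κ, hκ, e, m, d, he⟩ := exists_basisG A hX
  have hne : C.pair *ᵥ x ≠ 0 := fun h => hx0 (C.pair_nondegenerate x h)
  -- a typed vector which pairs nontrivially
  have h1 : ∃ k, e k ⬝ᵥ iv ι (C.pair *ᵥ x) ≠ 0 := by
    by_contra hcon
    push Not at hcon
    obtain ⟨a, ha⟩ := Function.ne_iff.1 hne
    apply ha
    have h2 := e.sum_repr (Pi.single a 1)
    have h3 : (Pi.single a (1 : ℂ) : B' → ℂ) ⬝ᵥ iv ι (C.pair *ᵥ x) = 0 := by
      rw [← h2, sum_dotProduct]
      refine Finset.sum_eq_zero fun k _ => ?_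
      rw [smul_dotProduct, hcon k, smul_zero]
    rw [single_one_dotProduct] at h3
    exact (map_eq_zero ι).1 h3
  obtain ⟨k, hk⟩ := h1
  have hx' := (iv_mem_tateC (ι := ι) (cyc := cyc) (V := X) (i := i) (x := x)).2 hx
  -- the characters agree
  have hchr : Near fun g => A.chr (m k + 2 * i) (d k + 0) g = A.chr (2 * C.n) 0 g := by
    refine ((((he k).2.2.2.and hx.2).and (chr_tate_pow A i)).and
      ((chr_tate_pow A C.n).and (A.chr_add (he k).1 (isType_tate_pow A i)))).mono fun g hg => ?_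
    obtain ⟨⟨⟨h2, h3⟩, h4⟩, h5, h6⟩ := hg
    rw [h6, h4, h5]
    have h7 : (ι (cyc g : R) ^ C.n) • (((X.rho g).map ι *ᵥ e k) ⬝ᵥ
        (C.pair.map ι *ᵥ ((X.rho g).map ι *ᵥ iv ι x))) = e k ⬝ᵥ (C.pair.map ι *ᵥ iv ι x) := by
      have h8 := congrArg (fun M : Matrix B' B' R => M.map ι) (C.pair_equivariant g)
      have h9 : (((cyc g : R) ^ C.n) • ((X.rho g)ᵀ * C.pair * X.rho g)).map ι =
          (ι (cyc g : R) ^ C.n) • (((X.rho g).map ι)ᵀ * C.pair.map ι * (X.rho g).map ι) := by
        rw [Matrix.map_smul' (f := ι) _ _ (map_mul ι), map_pow, Matrix.map_mul, Matrix.map_mul,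
          Matrix.transpose_map]
      have h10 := h8.symm.trans h9
      conv_rhs => rw [h10, Matrix.smul_mulVec, dotProduct_smul, ← Matrix.mulVec_mulVec,
        ← Matrix.mulVec_mulVec, Matrix.dotProduct_mulVec, Matrix.vecMul_transpose]
    have h8 : (X.rho g).map ι *ᵥ iv ι x = (ι ((cyc g)⁻¹ : Rˣ)) ^ i • iv ι x := by
      rw [map_mulVec_iv]
      have h9 : ((((cyc g)⁻¹ : Rˣ) : R) ^ i) • x = X.rho g *ᵥ x := by
        nth_rewrite 1 [← h3]
        rw [smul_smul, ← mul_pow, Units.inv_mul, one_pow, one_smul]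
      rw [← h9]
      funext a
      change ι ((((cyc g)⁻¹ : Rˣ) : R) ^ i * x a) = _
      rw [map_mul, map_pow]
      rfl
    rw [h2, h8, Matrix.mulVec_smul, dotProduct_smul, smul_dotProduct] at h7
    rw [map_mulVec_iv] at h7
    simp only [smul_eq_mul] at h7
    have h9 : ι (cyc g : R) ^ C.n * (ι ((cyc g)⁻¹ : Rˣ)) ^ C.n = 1 := by
      rw [← mul_pow, ← map_mul, Units.mul_inv, map_one, one_pow]
    have h10 : ι (cyc g : R) ^ C.n * ((ι ((cyc g)⁻¹ : Rˣ)) ^ i * A.chr (m k) (d k) g) = 1 := by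
      refine mul_right_cancel₀ hk ?_
      rw [one_mul]
      refine Eq.trans ?_ h7
      ring
    have h11 : ι (cyc g : R) ^ C.n ≠ 0 := fun h0 => by
      rw [h0, zero_mul] at h9
      exact zero_ne_one h9
    refine mul_left_cancel₀ h11 ?_
    rw [h9, ← h10]
    ring
  obtain ⟨hm, hd⟩ := A.chr_injective (A.isType_add (he k).1 (isType_tate_pow A i))
    (isType_tate_pow A C.n) hchr
  rw [add_zero] at hd
  have hin : i ≤ C.n := by omega
  refine ⟨hin, ?_⟩
  have hek : e k ∈ tateC ι cyc X (C.n - i) := by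
    have h2 := (he k).2.2
    rw [hd, show m k = 2 * (C.n - i) by omega] at h2
    exact (hasGaloisType_tate A).1 h2
  by_contra hcon
  push Not at hcon
  have h2 := mem_span_hodge A hX hek
  apply hk
  have h3 : ∀ u ∈ Submodule.span ℂ {w | ∃ x ∈ X.toHodgeSpace.hodgeIn (C.n - i), w = cv x},
      u ⬝ᵥ iv ι (C.pair *ᵥ x) = 0 := by
    intro u hu
    induction hu using Submodule.span_induction with
    | mem u hu =>
      obtain ⟨z, hz, rfl⟩ := hu
      have h4 := hcon (rv R z) (rv_mem_tate A hX hz)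
      have h5 : cv z ⬝ᵥ iv ι (C.pair *ᵥ x) = ι (rv R z ⬝ᵥ (C.pair *ᵥ x)) := by
        rw [← iv_rv (R := R) ι z]
        simp only [dotProduct, iv, map_sum, map_mul]
      rw [h5, h4, map_zero]
    | zero => exact zero_dotProduct _
    | add u v _ _ hu hv => rw [add_dotProduct, hu, hv, add_zero]
    | smul c u _ hu => rw [smul_dotProduct, hu, smul_zero]
  exact h3 _ h2

end Pool.Agent.H855.HG
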