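import Mathlib
import Pool.Agent.H855.HG.TNF

/-!
# The conjecture of Tate for products over number fields, II
-/

set_option autoImplicit false
set_option linter.unusedSectionVars false
set_option linter.unusedVariables false

namespace Pool.Agent.H855.HG

open Matrix Module NumberField

section lin

variable {R : Type} [Field R] {B B' : Type} [Fintype B] [Fintype B']

/-- Dual vectors. -/
theorem exists_dualR (G : Matrix B' B' R) (P Q : Submodule R (B' → R))
    (h : ∀ x ∈ Q, (∀ z ∈ P, z ⬝ᵥ (G *ᵥ x) = 0) → x = 0) {r : ℕ} (e : Basis (Fin r) R Q) :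
    ∃ f : Fin r → B' → R, (∀ l, f l ∈ P) ∧
      ∀ l k, f l ⬝ᵥ (G *ᵥ (e k : B' → R)) = if l = k then 1 else 0 := by
  classical
  let φ : Q →ₗ[R] Module.Dual R P :=
    { toFun := fun x =>
        { toFun := fun z => (z : B' → R) ⬝ᵥ (G *ᵥ (x : B' → R))
          map_add' := fun z z' => by
            rw [Submodule.coe_add, add_dotProduct]
          map_smul' := fun c z => by
            rw [Submodule.coe_smul, smul_dotProduct]
            rfl }
      map_add' := fun x y => by
        ext z
        change (z : B' → R) ⬝ᵥ (G *ᵥ ((x : B' → R) + (y : B' → R))) = _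
        rw [Matrix.mulVec_add, dotProduct_add]
        rfl
      map_smul' := fun c x => by
        ext z
        change (z : B' → R) ⬝ᵥ (G *ᵥ (c • (x : B' → R))) = _
        rw [Matrix.mulVec_smul, dotProduct_smul]
        rfl }
  have hφ : Function.Injective φ := by
    rw [injective_iff_map_eq_zero]
    intro x hx
    refine Subtype.ext (h x.1 x.2 fun x' hx' => ?_)
    exact LinearMap.congr_fun hx ⟨x', hx'⟩
  have hsurj := LinearMap.dualMap_surjective_of_injective hφ
  choose F hF using fun l => hsurj (e.coord l)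
  let f : Fin r → P := fun l => (Module.evalEquiv R P).symm (F l)
  refine ⟨fun l => (f l : B' → R), fun l => (f l).2, fun l k => ?_⟩
  have h1 : F l = Module.evalEquiv R P (f l) := ((Module.evalEquiv R P).apply_symm_apply (F l)).symm
  have h2 := LinearMap.congr_fun (hF l) (e k)
  rw [LinearMap.dualMap_apply, h1, Module.evalEquiv_apply, Basis.coord_apply, Basis.repr_self,
    Finsupp.single_apply] at h2
  have h3 : Dual.eval R P (f l) (φ (e k)) = (f l : B' → R) ⬝ᵥ (G *ᵥ (e k : B' → R)) := rfl
  rw [h3] at h2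
  rw [h2]
  by_cases hlk : l = k
  · rw [if_pos hlk, if_pos hlk.symm]
  · rw [if_neg hlk, if_neg (Ne.symm hlk)]

/-- Expansion in a basis. -/
theorem expand_basisR {P : Submodule R (B' → R)} {Q : Submodule R (B → R)} {r : ℕ}
    (e : Basis (Fin r) R P) {w : B' × B → R}
    (hw : w ∈ Submodule.span R {z | ∃ x ∈ P, ∃ y ∈ Q, z = cross x y}) :
    ∃ c : Fin r → B → R, (∀ l, c l ∈ Q) ∧ w = ∑ l, cross (e l : B' → R) (c l) := by
  classical
  induction hw using Submodule.span_induction with
  | mem w hw =>
    obtain ⟨x, hx, y, hy, rfl⟩ := hw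
    refine ⟨fun l => e.repr ⟨x, hx⟩ l • y, fun l => Submodule.smul_mem _ _ hy, ?_⟩
    have h1 := congrArg Subtype.val (e.sum_repr ⟨x, hx⟩)
    rw [Submodule.coe_sum] at h1
    funext p
    have h2 := congrFun h1 p.1
    rw [Finset.sum_apply] at h2 ⊢
    change x p.1 * y p.2 = _
    have h3 : x p.1 = ∑ l, e.repr ⟨x, hx⟩ l * (e l : B' → R) p.1 := h2.symm
    rw [h3, Finset.sum_mul]
    refine Finset.sum_congr rfl fun l _ => ?_
    change _ = (e l : B' → R) p.1 * (e.repr ⟨x, hx⟩ l * y p.2)
    ring
  | zero =>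
    refine ⟨0, fun l => Submodule.zero_mem _, ?_⟩
    symm
    refine Finset.sum_eq_zero fun l _ => ?_
    funext p
    exact mul_zero _
  | add u v _ _ hu hv =>
    obtain ⟨c, hc, h1⟩ := hu
    obtain ⟨c', hc', h2⟩ := hv
    refine ⟨c + c', fun l => Submodule.add_mem _ (hc l) (hc' l), ?_⟩
    rw [h1, h2, ← Finset.sum_add_distrib]
    refine Finset.sum_congr rfl fun l _ => ?_
    funext p
    exact (mul_add _ _ _).symm
  | smul q u _ hu =>
    obtain ⟨c, hc, h1⟩ := hu
    refine ⟨q • c, fun l => Submodule.smul_mem _ q (hc l), ?_⟩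
    rw [h1, Finset.smul_sum]
    refine Finset.sum_congr rfl fun l _ => ?_
    funext p
    change q * ((e l : B' → R) p.1 * c l p.2) = (e l : B' → R) p.1 * (q * c l p.2)
    ring

/-- The decomposition by the codimension on the first factor. -/
theorem split_codim {P : ℕ → Submodule R (B' → R)} {Q : ℕ → Submodule R (B → R)} {j : ℕ}
    {w : B' × B → R}
    (hw : w ∈ Submodule.span R {z | ∃ i k, i + k = j ∧ ∃ x ∈ P i, ∃ y ∈ Q k, z = cross x y}) :
    ∃ v : ℕ → B' × B → R, (∀ i, v i ∈ Submodule.span R
      {z | ∃ x ∈ P i, ∃ y ∈ Q (j - i), z = cross x y}) ∧ w = ∑ i ∈ Finset.range (j + 1), v i := by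
  classical
  induction hw using Submodule.span_induction with
  | mem w hw =>
    obtain ⟨i, k, hik, x, hx, y, hy, rfl⟩ := hw
    have hk : k = j - i := by omega
    subst hk
    refine ⟨fun i' => if i' = i then cross x y else 0, fun i' => ?_, ?_⟩
    · change (if i' = i then cross x y else 0) ∈ _
      by_cases h : i' = i
      · subst h
        rw [if_pos rfl]
        exact Submodule.subset_span ⟨x, hx, y, hy, rfl⟩
      · rw [if_neg h]
        exact Submodule.zero_mem _
    · rw [Finset.sum_ite_eq' (Finset.range (j + 1)) i (fun _ => cross x y),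
        if_pos (Finset.mem_range.2 (by omega))]
  | zero =>
    exact ⟨0, fun i => Submodule.zero_mem _, by simp⟩
  | add u v _ _ hu hv =>
    obtain ⟨c, hc, h1⟩ := hu
    obtain ⟨c', hc', h2⟩ := hv
    refine ⟨c + c', fun l => Submodule.add_mem _ (hc l) (hc' l), ?_⟩
    rw [h1, h2, ← Finset.sum_add_distrib]
    rfl
  | smul q u _ hu =>
    obtain ⟨c, hc, h1⟩ := hu
    refine ⟨q • c, fun l => Submodule.smul_mem _ q (hc l), ?_⟩
    rw [h1, Finset.smul_sum]
    rfl

end lin

variable {Γ : Type} [Group Γ] {R : Type} [Field R] [Algebra ℚ R] {B B' : Type} [Fintype B]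
  [Fintype B'] {cyc : Γ →* Rˣ} {X : GaloisSpace Γ R B'} {Y : GaloisSpace Γ R B}

/-- The pairing is homogeneous. -/
theorem pair_zero (C : CyclesTimes cyc X Y) {i i' : ℕ} (hi : i ≤ C.n) (hne : i' ≠ i)
    {z x : B' → R} (hz : z ∈ X.tate cyc (C.n - i)) (hx : x ∈ X.tate cyc i') :
    z ⬝ᵥ (C.pair *ᵥ x) = 0 := by
  simp only [dotProduct, Matrix.mulVec]
  refine Finset.sum_eq_zero fun a _ => ?_
  by_cases ha : X.deg a = 2 * (C.n - i)
  · have h1 : ∑ a', C.pair a a' * x a' = 0 := by
      refine Finset.sum_eq_zero fun a' _ => ?_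
      by_cases ha' : X.deg a' = 2 * i'
      · rw [C.pair_deg a a' (by omega), zero_mul]
      · rw [hx.1 a' ha', mul_zero]
    rw [h1, mul_zero]
  · rw [hz.1 a ha, zero_mul]

theorem tate_prod_eq {ι : R →+* ℂ} (h : IsTateOfProducts cyc X Y) (j : ℕ) :
    (X.prod Y).tate cyc j = Submodule.span R {z | ∃ i k, i + k = j ∧
      ∃ x ∈ X.tate cyc i, ∃ y ∈ Y.tate cyc k, z = cross x y} := by
  refine le_antisymm (h j) (Submodule.span_le.2 ?_)
  rintro _ ⟨i, k, rfl, x, hx, y, hy, rfl⟩
  exact cross_tate hx hy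

/-- **The algebraic classes on the product.** -/
theorem algP_eq_span {ι : R →+* ℂ} (A : HeckeCharacters Γ ι cyc) (hX : X.HasCM A)
    (h : IsTateOfProducts cyc X Y) (C : CyclesTimes cyc X Y)
    (hT : ∀ i, X.tate cyc i ≤ C.algX i) (j : ℕ) :
    C.algP j = Submodule.span R {z | ∃ i k, i + k = j ∧
      ∃ x ∈ X.tate cyc i, ∃ y ∈ C.algY k, z = cross x y} := by
  classical
  apply le_antisymm
  · intro w hw
    obtain ⟨v, hv, hsum⟩ := split_codim (h j (C.algP_le j hw))
    rw [hsum]
    refine Submodule.sum_mem _ fun i hi => ?_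
    have hij : i ≤ j := by
      have := Finset.mem_range.1 hi
      omega
    let e : Basis (Fin (finrank R (X.tate cyc i))) R (X.tate cyc i) := Module.finBasis R _
    obtain ⟨c, hc, hexp⟩ := expand_basisR e (hv i)
    rw [hexp]
    refine Submodule.sum_mem _ fun l _ => ?_
    have hel0 : (e l : B' → R) ≠ 0 := fun h0 => e.ne_zero l (Subtype.ext h0)
    have hin : i ≤ C.n := (exists_dual_tate A hX C (e l).2 hel0).1
    have hp : ∀ x ∈ X.tate cyc i, (∀ z ∈ X.tate cyc (C.n - i), z ⬝ᵥ (C.pair *ᵥ x) = 0) →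
        x = 0 := by
      intro x hx hz
      by_contra hx0
      obtain ⟨-, z, hz1, hz2⟩ := exists_dual_tate A hX C hx hx0
      exact hz2 (hz z hz1)
    obtain ⟨f, hf, hdual⟩ := exists_dualR C.pair (X.tate cyc (C.n - i)) (X.tate cyc i) hp e
    have h1 := C.contract_mem (C.n - i) j (j - i) (by omega) (f l) (hT _ (hf l)) w hw
    have h2 : contractG C.pair (f l) w = c l := by
      rw [← contractGL_apply, hsum, map_sum, Finset.sum_eq_single i]
      · rw [hexp, map_sum, Finset.sum_eq_single l]
        · rw [contractGL_apply, contractG_cross, hdual, if_pos rfl, one_smul]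
        · intro k _ hk
          rw [contractGL_apply, contractG_cross, hdual, if_neg (Ne.symm hk), zero_smul]
        · intro h0
          exact absurd (Finset.mem_univ _) h0
      · intro i' _ hi'
        have h3 : ∀ u ∈ Submodule.span R {z | ∃ x ∈ X.tate cyc i', ∃ y ∈ Y.tate cyc (j - i'),
            z = cross x y}, contractGL C.pair (f l) u = 0 := by
          intro u hu
          induction hu using Submodule.span_induction with
          | mem u hu =>
            obtain ⟨x, hx, y, hy, rfl⟩ := hu
            rw [contractGL_apply, contractG_cross, pair_zero C hin hi' (hf l) hx, zero_smul]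
          | zero => exact map_zero _
          | add u u' _ _ hu hu' => rw [map_add, hu, hu', add_zero]
          | smul q u _ hu => rw [map_smul, hu, smul_zero]
        exact h3 _ (hv i')
      · intro h0
        exact absurd hi h0
    rw [← h2]
    exact Submodule.subset_span ⟨i, j - i, by omega, _, (e l).2, _, h1, rfl⟩
  · refine Submodule.span_le.2 ?_
    rintro _ ⟨i, k, rfl, x, hx, y, hy, rfl⟩
    exact C.cross_mem i k x (hT i hx) y hy

/-- **The conjecture of Tate on products.** -/
theorem tateConjectureOnProducts {ι : R →+* ℂ} (A : HeckeCharacters Γ ι cyc) (hX : X.HasCM A)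
    (h : IsTateOfProducts cyc X Y) : TateConjectureOnProducts cyc X Y := by
  refine ⟨tate_prod_eq (ι := ι) h, fun C hT => ?_⟩
  have key : ∀ j, (X.prod Y).tate cyc j ≤ C.algP j ↔
      ∀ i k, i + k = j → X.tate cyc i ≠ ⊥ → Y.tate cyc k ≤ C.algY k := by
    intro j
    constructor
    · intro h1 i k hik hi y hy
      obtain ⟨x, hx, hx0⟩ := (Submodule.ne_bot_iff _).1 hi
      subst hik
      have h2 := h1 (cross_tate hx hy)
      obtain ⟨hin, z, hz, hne⟩ := exists_dual_tate A hX C hx hx0
      have h3 := C.contract_mem (C.n - i) (i + k) k (by omega) z (hT _ hz) _ h2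
      rw [contractG_cross] at h3
      have h4 := Submodule.smul_mem _ (z ⬝ᵥ (C.pair *ᵥ x))⁻¹ h3
      rwa [smul_smul, inv_mul_cancel₀ hne, one_smul] at h4
    · intro h1
      refine (h j).trans (Submodule.span_le.2 ?_)
      rintro _ ⟨i, k, rfl, x, hx, y, hy, rfl⟩
      by_cases hi : X.tate cyc i = ⊥
      · rw [hi, Submodule.mem_bot] at hx
        have h2 : cross x y = 0 := by
          funext p
          rw [hx]
          exact zero_mul _
        rw [h2]
        exact Submodule.zero_mem _
      · exact C.cross_mem i k x (hT i hx) y (h1 i k rfl hi hy)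
  refine ⟨algP_eq_span A hX h C hT, key, fun h1 k => ?_, fun h1 j => ?_⟩
  · refine (key k).1 (h1 k) 0 k (zero_add k) ?_
    refine (Submodule.ne_bot_iff _).2 ⟨rv R X.one, rv_mem_tate A hX X.one_mem, rv_ne X.one_ne⟩
  · exact (key j).2 fun i k _ _ => h1 k

/-- **The exceptional vectors for the conjecture of Tate.** -/
theorem exists_vectors_tnf {I : Type} (K : I → Type) [∀ i, Field (K i)] [∀ i, NumberField (K i)]
    [∀ i, IsCMField (K i)] {ι : R →+* ℂ} (A : HeckeCharacters Γ ι cyc) (Y : GaloisSpace Γ R B) :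
    ∃ E : Finset (Σ i, ((K i →+* ℂ) → ℝ)), IsSmallForGalois A Y E ∧
      ForAllWithCM A K E (fun _ _ X => TateConjectureOnProducts cyc X Y) := by
  obtain ⟨E, hE, h⟩ := exists_vectorsG K A Y
  exact ⟨E, hE, h _ fun C _ X hX hp => tateConjectureOnProducts A hX hp⟩

end Pool.Agent.H855.HG
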