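import Mathlib
import Pool.Agent.H855.HG.PowDefs
import Pool.Agent.H855.HG.CatDefs

/-!
# Hodge classes of the exterior powers of categories: definitions
-/

set_option autoImplicit false
set_option linter.unusedSectionVars false

namespace Pool.Agent.H855.HG

open Matrix Module

variable {A B : Type} [Fintype A] [Fintype B]

/-- Hodge classes of all the exterior products `𝒟^(⊠ r) ⊠ 𝒞^(⊠ s)`, where `V` and `W` are the
topological K-theories of `𝒟` and `𝒞`:

* the Hodge classes of `𝒟^(⊠ r) ⊠ 𝒞^(⊠ s)` are the sums of exterior products of Hodge classes of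
  `𝒟^(⊠ r)` and `𝒞^(⊠ s)`;
* for all data of the images of the groups `K_0` (the image for `𝒟^(⊠ r)` does not depend on `s`, and
  the image for `𝒞^(⊠ s)` does not depend on `r`): the noncommutative Hodge conjecture is true for all
  the categories `𝒟^(⊠ r) ⊠ 𝒞^(⊠ s)` if and only if it is true for all the categories `𝒟^(⊠ r)` and
  for all the categories `𝒞^(⊠ s)` (if the Euler forms are not zero on the groups `K_0`);
* if the noncommutative Hodge conjecture is true for `𝒟^(⊠ r)` then the classes of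
  `K_0(𝒟^(⊠ r) ⊠ 𝒞^(⊠ s)) ⊗ ℚ` are the sums of exterior products of Hodge classes of `𝒟^(⊠ r)` and
  classes of `K_0(𝒞^(⊠ s)) ⊗ ℚ`; and, if there are nonzero Hodge classes of `𝒟^(⊠ r)`, the
  noncommutative Hodge conjecture is true for `𝒟^(⊠ r) ⊠ 𝒞^(⊠ s)` if and only if it is true for
  `𝒞^(⊠ s)`. -/
def NoncommutativeOnAllPowers (V : HodgeSpace A) (W : HodgeSpace B) : Prop :=
  (∀ r s, ((V.pow r).prod (W.pow s)).hodge =
    Submodule.span ℚ {z | ∃ x ∈ (V.pow r).hodge, ∃ y ∈ (W.pow s).hodge, z = cross x y}) ∧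
  (∀ F : ∀ r s, CategoryTimes (V.pow r) (W.pow s), (∀ r s, (F r s).IsNontrivial) →
    (∀ r s, (F r s).algD = (F r 0).algD) → (∀ r s, (F r s).algC = (F 0 s).algC) →
    ((∀ r s, (F r s).HodgeForP) ↔ (∀ r, (F r 0).HodgeForD) ∧ ∀ s, (F 0 s).HodgeForC)) ∧
  ∀ (r s : ℕ) (F : CategoryTimes (V.pow r) (W.pow s)), F.HodgeForD → F.IsPerfect →
    F.algP = Submodule.span ℚ {z | ∃ x ∈ (V.pow r).hodge, ∃ y ∈ F.algC, z = cross x y} ∧
    ((V.pow r).hodge ≠ ⊥ → (F.HodgeForP ↔ F.HodgeForC))

end Pool.Agent.H855.HG
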