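import Mathlib
import Pool.Agent.H855.HG.PowCatDefs
import Pool.Agent.H855.HG.Pow
import Pool.Agent.H855.HG.Cat

/-!
# Hodge classes of the exterior powers of categories
-/

set_option autoImplicit false
set_option linter.unusedSectionVars false

namespace Pool.Agent.H855.HG

open Matrix Module

variable {A B : Type} [Fintype A] [Fintype B]

theorem noncommutativeOnAllPowers {V : HodgeSpace A} {W : HodgeSpace B}
    (h : ∀ r s, IsHodgeOfProducts (V.pow r) (W.pow s)) : NoncommutativeOnAllPowers V W := by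
  have h1 : ∀ r s, NoncommutativeOnProducts (V.pow r) (W.pow s) := fun r s =>
    noncommutativeOnProducts (h r s)
  refine ⟨fun r s => (h1 r s).1, fun F hF hD hC => ⟨fun h2 =>
    ⟨fun r => (((h1 r 0).2.1 (F r 0) (hF r 0)).1 (h2 r 0)).1,
      fun s => (((h1 0 s).2.1 (F 0 s) (hF 0 s)).1 (h2 0 s)).2⟩, fun h2 r s => ?_⟩,
    fun r s F hF hP => (h1 r s).2.2 F hF hP⟩
  refine ((h1 r s).2.1 (F r s) (hF r s)).2 ⟨?_, ?_⟩
  · have h3 := h2.1 r
    unfold CategoryTimes.HodgeForD at h3 ⊢
    rw [hD r s]
    exact h3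
  · have h3 := h2.2 s
    unfold CategoryTimes.HodgeForC at h3 ⊢
    rw [hC r s]
    exact h3

/-- **The theorem on all exterior powers of a category.** -/
theorem forAllOutside_cat (Y : HodgeSpace B) :
    ForAllOutside Y.charSpace (fun _ _ X => NoncommutativeOnAllPowers X Y) := by
  intro J _ L _ _ _ x hx hcomb A _ X hX hgen
  have h1 : ∀ r s, IsHodgeOfProducts (X.pow r) (Y.pow s) := by
    intro r s
    have h2 := span_pow (span_of_gen hX hgen) r
    exact hodgeOfProducts_pow x hx hcomb (isOfCMType_of_span h2) (isGeneratedBy_of_span h2) s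
  exact noncommutativeOnAllPowers h1

end Pool.Agent.H855.HG
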