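import Mathlib
import Pool.Agent.H855.HG.PowDefs

/-!
# Rational Hodge substructures: definitions
-/

set_option autoImplicit false
set_option linter.unusedSectionVars false

namespace Pool.Agent.H855.HG

open Matrix Module

variable {B C : Type} [Fintype B] [Fintype C]

/-- `N` is isomorphic to a rational Hodge substructure of `W`: there is a rational matrix with a left
inverse which commutes with the Hodge operators. -/
def IsSubstructure [DecidableEq C] (N : HodgeSpace C) (W : HodgeSpace B) : Prop :=
  ∃ (M : Matrix B C ℚ) (M' : Matrix C B ℚ), M' * M = 1 ∧
    W.op * M.map (algebraMap ℚ ℂ) = M.map (algebraMap ℚ ℂ) * N.op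

end Pool.Agent.H855.HG
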