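import Mathlib
import Pool.Agent.H855.HG.SubDefs
import Pool.Agent.H855.HG.CatDefs

/-!
# Classes of objects in the fibres of the exterior powers of a family of categories: definitions
-/

set_option autoImplicit false
set_option linter.unusedSectionVars false

namespace Pool.Agent.H855.HG

open Matrix Module

section

variable {A : Type} [Fintype A] {C : ℕ → Type} [∀ s, Fintype (C s)]

/-- The global sections of the topological K-theory of `𝒟^(⊠ r) ⊠ 𝒞^(⊠ s)` over `S` which are Hodge
classes are the sums of exterior products of Hodge classes of `𝒟^(⊠ r)` and global sections for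
`𝒞^(⊠ s)` which are Hodge classes. Here `V` is the topological K-theory of `𝒟` and `N s` the Hodge
structure of the global sections for the exterior power `𝒞^(⊠ s)` over `S`. -/
def NCFlatOnAllPowers (V : HodgeSpace A) (N : ∀ s, HodgeSpace (C s)) : Prop :=
  ∀ r s, ((V.pow r).prod (N s)).hodge = Submodule.span ℚ {z |
    ∃ x ∈ (V.pow r).hodge, ∃ y ∈ (N s).hodge, z = cross x y}

/-- The noncommutative Hodge conjecture for `𝒟`, and the Euler form is nondegenerate on the Hodge classes
of `𝒟` (the second property is true for all admissible subcategories). -/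
def CategoryFamilyTimes.HodgeForD {D : Type} [Fintype D] {V : HodgeSpace A} {W : HodgeSpace D}
    {S : Type} (F : CategoryFamilyTimes V W S) : Prop :=
  V.hodge ≤ F.algD ∧ ∀ x ∈ V.hodge, (∀ x' ∈ V.hodge, form F.euler x' x = 0) → x = 0

/-- The global sections for `𝒟 ⊠ 𝒞` which are algebraic at the point `t` are the sums of exterior
products of Hodge classes of `𝒟` and global sections for `𝒞` which are algebraic at `t`, for all points
`t` of `S`. -/
def CategoryFamilyTimes.IsSumOfProducts {D : Type} [Fintype D] {V : HodgeSpace A}
    {W : HodgeSpace D} {S : Type} (F : CategoryFamilyTimes V W S) : Prop :=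
  ∀ t, F.algP t = Submodule.span ℚ {z | ∃ x ∈ V.hodge, ∃ y ∈ F.alg t, z = cross x y}

/-- Algebraic global sections for all the exterior products `𝒟^(⊠ r) ⊠ 𝒞^(⊠ s)` over `S`. If the
noncommutative Hodge conjecture is true for all the categories `𝒟^(⊠ r)` then

* the global sections for `𝒟^(⊠ r) ⊠ 𝒞^(⊠ s)` which are algebraic at a point are the sums of exterior
  products of Hodge classes of `𝒟^(⊠ r)` and global sections for `𝒞^(⊠ s)` which are algebraic at this
  point;
* **the noncommutative variational Hodge conjecture is true for all the categories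
  `𝒟^(⊠ r) ⊠ 𝒞^(⊠ s)` over `S` if and only if it is true for all the categories `𝒞^(⊠ s)` over `S`**
  (for `r = 0` the category `𝒟^(⊠ r)` is `D^perf` of a point). -/
def NCVariationalOnAllPowers (V : HodgeSpace A) (N : ∀ s, HodgeSpace (C s)) : Prop :=
  ∀ (S : Type) (F : ∀ r s, CategoryFamilyTimes (V.pow r) (N s) S), (∀ r s, (F r s).HodgeForD) →
    (∀ r s, (F r s).alg = (F 0 s).alg) →
    (∀ r s, (F r s).IsSumOfProducts) ∧
    ((∀ r s t t', (F r s).algP t ≤ (F r s).algP t') ↔ ∀ s t t', (F 0 s).alg t ≤ (F 0 s).alg t')

end

/-- All `S`-linear categories `𝒞` such that the topological K-theory of one of the fibres has the Hodge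
structure `W`, and `𝒟` with the Hodge structure `V`: for all sequences `N s` of rational Hodge
substructures of the powers of `W` (the global sections for the exterior powers of `𝒞`, in the
topological K-theory of the exterior powers of this fibre). -/
def CategoriesOnAllPowers {A B : Type} [Fintype A] [Fintype B] (V : HodgeSpace A)
    (W : HodgeSpace B) : Prop :=
  ∀ (C : ℕ → Type) [∀ s, Fintype (C s)] [∀ s, DecidableEq (C s)] (N : ∀ s, HodgeSpace (C s)),
    (∀ s, IsSubstructure (N s) (W.pow s)) → NCFlatOnAllPowers V N ∧ NCVariationalOnAllPowers V N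

end Pool.Agent.H855.HG
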