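import Mathlib
import Pool.Agent.H855.HG.SubDefs
import Pool.Agent.H855.HG.Pow

/-!
# Hodge classes on the products of the varieties of CM type and the substructures of the powers
-/

set_option autoImplicit false
set_option linter.unusedSectionVars false

namespace Pool.Agent.H855.HG

open Matrix Module NumberField Pool.Agent.Y137.MV Pool.Agent.H855.CM Pool.Agent.H855.DP

variable {A B C : Type} [Fintype A] [Fintype B] [Fintype C] [DecidableEq C]

/-- The types of the vectors of a substructure of a power are characters. -/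
theorem type_mem_of_sub {N : HodgeSpace C} {Y : HodgeSpace B} {s : ℕ}
    (h : IsSubstructure N (Y.pow s)) {w : C → ℂ} {d : (ℂ ≃+* ℂ) → ℤ} (hw : w ≠ 0)
    (hd : N.HasTypes w d) : rd d ∈ Y.charSpace := by
  obtain ⟨M, M', hM, hop⟩ := h
  have h1 : (M'.map (algebraMap ℚ ℂ)) * (M.map (algebraMap ℚ ℂ)) = 1 := by
    rw [← Matrix.map_mul, hM]
    exact Matrix.map_one _ (map_zero _) (map_one _)
  have h2 : M.map (algebraMap ℚ ℂ) *ᵥ w ≠ 0 := by
    intro h3
    refine hw ?_
    have h4 : (M'.map (algebraMap ℚ ℂ)) *ᵥ (M.map (algebraMap ℚ ℂ) *ᵥ w) = w := by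
      rw [Matrix.mulVec_mulVec, h1, Matrix.one_mulVec]
    rw [← h4, h3, Matrix.mulVec_zero]
  refine type_mem_charSpace Y s h2 ?_
  intro σ
  have h3 : (fun b => σ ((M.map (algebraMap ℚ ℂ) *ᵥ w) b)) =
      M.map (algebraMap ℚ ℂ) *ᵥ (fun c => σ (w c)) := by
    funext b
    simp only [Matrix.mulVec, dotProduct, Matrix.map_apply, map_sum, map_mul]
    refine Finset.sum_congr rfl fun c _ => ?_
    congr 1
    simp
  rw [h3, Matrix.mulVec_mulVec, hop, ← Matrix.mulVec_mulVec, hd σ, Matrix.mulVec_smul]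

/-- **The theorem on the substructures of all powers.** -/
theorem hodgeOfProducts_sub {Y : HodgeSpace B} {J : Type} [Fintype J] {L : J → Type}
    [∀ j, Field (L j)] [∀ j, NumberField (L j)] [∀ j, IsCMField (L j)] (x : ∀ j, (L j →+* ℂ) → ℤ)
    (hx : ∀ j φ, x j (ComplexEmbedding.conjugate φ) = - x j φ)
    (hcomb : ∀ j, ∀ v ∈ excSpace Y.charSpace (L j), IsComb x v → v = 0)
    {X : HodgeSpace A} (hX : X.IsOfCMType) (hgen : X.IsGeneratedBy x) {s : ℕ} {N : HodgeSpace C}
    (hN : IsSubstructure N (Y.pow s)) : IsHodgeOfProducts X N := by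
  refine isHodgeOfProducts hX fun u v d hu hv hud hvd => ?_
  by_contra hd
  obtain ⟨N, mm, hN', hsum⟩ := hgen u d hu hud
  obtain ⟨n, hn, hrel⟩ := exists_relation x hx d N mm hN' hsum
  have h0 : relMap (rx x) n ≠ 0 := by
    rw [hrel]
    exact fun h => neg_ne_zero.2 hd (rd_eq_zero h)
  have hmem : relMap (rx x) n ∈ Y.charSpace := by
    rw [hrel]
    exact type_mem_of_sub hN hv hvd
  obtain ⟨j, v', hv0, hodd, hv'⟩ := Pool.Agent.H855.CM.exists_vector (rx x) n hn h0
  refine hv0 (hcomb j v' ⟨hodd, fun φ => transSpan_le (translates_charSpace Y) hmem (hv' φ)⟩ ?_)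
  exact isComb_of x v' hodd _ hv' n hn rfl

end Pool.Agent.H855.HG
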