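import Mathlib
import Pool.Agent.H855.HG.PowNCDefs
import Pool.Agent.H855.HG.Sub
import Pool.Agent.H855.HG.Cat

/-!
# Classes of objects in the fibres of the exterior powers of a family of categories
-/

set_option autoImplicit false
set_option linter.unusedSectionVars false

namespace Pool.Agent.H855.HG

open Matrix Module

variable {A B : Type} [Fintype A] [Fintype B] {C : ℕ → Type} [∀ s, Fintype (C s)]

theorem hodge_point_ne_bot : HodgeSpace.point.hodge ≠ ⊥ := by
  refine (Submodule.ne_bot_iff _).2 ⟨1, ?_, one_ne_zero⟩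
  change (0 : Matrix Unit Unit ℂ) *ᵥ _ = 0
  rw [Matrix.zero_mulVec]

theorem ncVariationalOnAllPowers {V : HodgeSpace A} {N : ∀ s, HodgeSpace (C s)}
    (h : ∀ r s, IsHodgeOfProducts (V.pow r) (N s)) : NCVariationalOnAllPowers V N := by
  intro S F hD halg
  have h1 := fun r s => ncVariationalOnProducts (h r s) S (F r s) (hD r s).1 (hD r s).2
  refine ⟨fun r s => (h1 r s).1, fun h2 s => ((h1 0 s).2 hodge_point_ne_bot).2.1 (h2 0 s),
    fun h2 r s t t' => ?_⟩
  rw [(h1 r s).1 t, (h1 r s).1 t']
  refine Submodule.span_mono ?_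
  rintro _ ⟨x, hx, y, hy, rfl⟩
  refine ⟨x, hx, y, ?_, rfl⟩
  rw [halg r s] at hy ⊢
  exact h2 s t t' hy

/-- **The theorem on all exterior powers of a family of categories.** -/
theorem forAllOutside_nc (Y : HodgeSpace B) :
    ForAllOutside Y.charSpace (fun _ _ X => CategoriesOnAllPowers X Y) := by
  intro J _ L _ _ _ x hx hcomb A _ X hX hgen C _ _ N hN
  have h1 : ∀ r s, IsHodgeOfProducts (X.pow r) (N s) := by
    intro r s
    have h2 := span_pow (span_of_gen hX hgen) r
    exact hodgeOfProducts_sub x hx hcomb (isOfCMType_of_span h2) (isGeneratedBy_of_span h2) (hN s)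
  exact ⟨fun r s => hodge_prod (h1 r s), ncVariationalOnAllPowers h1⟩

end Pool.Agent.H855.HG
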