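import Mathlib
import Pool.Agent.H855.HG.SubDefs
import Pool.Agent.H855.HG.VarDefs

/-!
# Algebraic classes in the fibres of the powers of a family: definitions
-/

set_option autoImplicit false
set_option linter.unusedSectionVars false

namespace Pool.Agent.H855.HG

open Matrix Module

section

variable {A : Type} [Fintype A] {C : ℕ → Type} [∀ s, Fintype (C s)]

/-- The global sections of the local systems of `X^r × 𝒴^s/S` which are Hodge classes are the sums of
products of Hodge classes on `X^r` and global sections of the local systems of `𝒴^s/S` which are Hodge
classes. Here `V` is the cohomology of `X` and `N s` the Hodge structure of the global sections for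
`𝒴^s/S` (the fibre powers). -/
def FlatOnAllPowers (V : HodgeSpace A) (N : ∀ s, HodgeSpace (C s)) : Prop :=
  ∀ r s j, ((V.pow r).prod (N s)).hodgeIn j = Submodule.span ℚ {z | ∃ i k, i + k = j ∧
    ∃ x ∈ (V.pow r).hodgeIn i, ∃ y ∈ (N s).hodgeIn k, z = cross x y}

/-- The global sections for `X × 𝒴/S` which are algebraic on the fibre at the point `t` are the sums of
products of Hodge classes on `X` and global sections for `𝒴/S` which are algebraic at `t`, for all
points `t` of `S`. -/
def FamilyTimes.IsSumOfProducts {D : Type} [Fintype D] {V : HodgeSpace A} {W : HodgeSpace D}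
    {S : Type} (F : FamilyTimes V W S) : Prop :=
  ∀ t j, F.algP t j = Submodule.span ℚ {z | ∃ i k, i + k = j ∧
    ∃ x ∈ V.hodgeIn i, ∃ y ∈ F.alg t k, z = cross x y}

/-- The algebraic classes on the fibres of all the families `X^r × 𝒴^s/S`. If the Hodge conjecture is
true for all the powers `X^r` then

* the global sections for `X^r × 𝒴^s/S` which are algebraic on the fibre at a point are the sums of
  products of Hodge classes on `X^r` and global sections for `𝒴^s/S` which are algebraic at this point;
* **the variational Hodge conjecture is true for all the families `X^r × 𝒴^s/S` if and only if it is true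
  for all the families `𝒴^s/S`** (for `r = 0` the variety `X^r` is a point; the algebraic classes of the
  fibres of `𝒴^s/S` do not depend on `r`). -/
def VariationalOnAllPowers (V : HodgeSpace A) (N : ∀ s, HodgeSpace (C s)) : Prop :=
  ∀ (S : Type) (F : ∀ r s, FamilyTimes (V.pow r) (N s) S), (∀ r s, (F r s).HodgeForX) →
    (∀ r s, (F r s).IsPerfect) → (∀ r s, (F r s).alg = (F 0 s).alg) →
    (∀ r s, (F r s).IsSumOfProducts) ∧
    ((∀ r s j, (F r s).VariationalP j) ↔ ∀ s k, (F 0 s).Variational k)

end

/-- All families `𝒴/S` one of whose fibres has the Hodge structure `W`, and `X` with the Hodge structure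
`V`: for all sequences `N s` of rational Hodge substructures of the powers of `W` (the global sections
for the fibre powers `𝒴^s/S`, in the cohomology of the powers of this fibre). -/
def FamiliesOnAllPowers {A B : Type} [Fintype A] [Fintype B] (V : HodgeSpace A)
    (W : HodgeSpace B) : Prop :=
  ∀ (C : ℕ → Type) [∀ s, Fintype (C s)] [∀ s, DecidableEq (C s)] (N : ∀ s, HodgeSpace (C s)),
    (∀ s, IsSubstructure (N s) (W.pow s)) → FlatOnAllPowers V N ∧ VariationalOnAllPowers V N

end Pool.Agent.H855.HG
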