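import Mathlib
import Pool.Agent.H855.HG.PowVarDefs
import Pool.Agent.H855.HG.Sub
import Pool.Agent.H855.HG.Var

/-!
# Algebraic classes in the fibres of the powers of a family
-/

set_option autoImplicit false
set_option linter.unusedSectionVars false

namespace Pool.Agent.H855.HG

open Matrix Module

variable {A B : Type} [Fintype A] [Fintype B] {C : ℕ → Type} [∀ s, Fintype (C s)]

theorem variationalOnAllPowers {V : HodgeSpace A} {N : ∀ s, HodgeSpace (C s)}
    (h : ∀ r s, IsHodgeOfProducts (V.pow r) (N s)) : VariationalOnAllPowers V N := by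
  intro S F hX hP halg
  have h1 := fun r s => variationalOnProducts (h r s) S (F r s) (hX r s) (hP r s)
  refine ⟨fun r s => (h1 r s).1, fun h2 s => (h1 0 s).2.2.1 (h2 0 s), fun h2 r s => ?_⟩
  refine (h1 r s).2.2.2 fun k t t' => ?_
  rw [halg r s]
  exact h2 s k t t'

/-- **The theorem on all fibre powers of a family.** -/
theorem forAllOutside_var (Y : HodgeSpace B) :
    ForAllOutside Y.charSpace (fun _ _ X => FamiliesOnAllPowers X Y) := by
  intro J _ L _ _ _ x hx hcomb A _ X hX hgen C _ _ N hN
  have h1 : ∀ r s, IsHodgeOfProducts (X.pow r) (N s) := by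
    intro r s
    have h2 := span_pow (span_of_gen hX hgen) r
    exact hodgeOfProducts_sub x hx hcomb (isOfCMType_of_span h2) (isGeneratedBy_of_span h2) (hN s)
  exact ⟨fun r s j => hodgeIn_prod_eq (h1 r s) j, variationalOnAllPowers h1⟩

end Pool.Agent.H855.HG
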